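import Mathlib

/-!
The objects of MP_039ae7_nt (neighbor spacing probabilities under the Alternative Hypothesis).
-/

namespace Pool.Agent.H808R2.AH
open Finset Filter Topology
open scoped FourierTransform

/-- `S(x) = sin(πx)/(πx)`, `S(0) = 1`. -/
noncomputable def S (x : ℝ) : ℝ := Real.sinc (Real.pi * x)

/-- `W_n(x) = det [S(x_i - x_k)]`. -/
noncomputable def W {n : ℕ} (x : Fin n → ℝ) : ℝ := (Matrix.of fun i k : Fin n => S (x i - x k)).det

/-- the sum of the coordinates -/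
noncomputable def coordSum (n : ℕ) : EuclideanSpace ℝ (Fin n) →ₗ[ℝ] ℝ := ∑ i : Fin n, EuclideanSpace.projₗ i

/-- The hyperplane `H = {∑ x_i = 0}` in Euclidean `ℝ^n`. -/
noncomputable def Hyp (n : ℕ) : Submodule ℝ (EuclideanSpace ℝ (Fin n)) := LinearMap.ker (coordSum n)

/-- `H` as a Euclidean space (all the structure is that of the subspace). -/
def HypT (n : ℕ) : Type := Hyp n

noncomputable instance (n : ℕ) : NormedAddCommGroup (HypT n) := Submodule.normedAddCommGroup (Hyp n)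
noncomputable instance (n : ℕ) : InnerProductSpace ℝ (HypT n) := Submodule.innerProductSpace (Hyp n)
instance (n : ℕ) : FiniteDimensional ℝ (HypT n) := FiniteDimensional.finiteDimensional_submodule (Hyp n)
noncomputable instance (n : ℕ) : MeasurableSpace (HypT n) :=
  (Subtype.instMeasurableSpace : MeasurableSpace (Hyp n))
instance (n : ℕ) : BorelSpace (HypT n) := Subtype.borelSpace (Hyp n : Set (EuclideanSpace ℝ (Fin n)))

/-- the coordinates of a point of `H` -/
def coord {n : ℕ} (h : HypT n) (i : Fin n) : ℝ := h.1 i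

/-- Test functions: symmetric, invariant under diagonal translations, Schwartz on `H`, with Fourier transform on `H`
vanishing outside `{∑ |ξ_i| < 2}`. -/
structure IsTest {n : ℕ} (f : (Fin n → ℝ) → ℝ) : Prop where
  symm : ∀ (σ : Equiv.Perm (Fin n)) (x : Fin n → ℝ), f (x ∘ σ) = f x
  inv : ∀ (x : Fin n → ℝ) (t : ℝ), f (fun i => x i + t) = f x
  schwartz : ∃ g : SchwartzMap (HypT n) ℂ, (∀ h : HypT n, g h = f (coord h)) ∧
    ∀ ξ : HypT n, 2 ≤ ∑ i, |coord ξ i| → 𝓕 (g : HypT n → ℂ) ξ = 0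

/-- The index set of the correlation sum: distinct `j_0, ..., j_m` with `j_0 < N`. -/
abbrev CorrIdx (m N : ℕ) := {j : Fin (m + 1) → ℕ // Function.Injective j ∧ j 0 < N}

/-- The class `𝒮` of the problem (sequences indexed from `0`). -/
structure InS (x : ℕ → ℝ) : Prop where
  mono : Monotone x
  dens : Tendsto (fun X : ℝ => (Set.ncard {j : ℕ | x j ≤ X} : ℝ) / X) atTop (𝓝 1)
  ah : Tendsto (fun j : ℕ => Metric.infDist (x (j + 1) - x j) {z : ℝ | ∃ k : ℤ, k ≠ 0 ∧ z = k / 2}) atTop (𝓝 0)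
  corr : ∀ m : ℕ, 1 ≤ m → ∀ f : (Fin (m + 1) → ℝ) → ℝ, IsTest f →
    (∀ N : ℕ, Summable fun j : CorrIdx m N => f (fun i => x (j.1 i))) ∧
    Tendsto (fun N : ℕ => (1 / (N : ℝ)) * ∑' j : CorrIdx m N, f (fun i => x (j.1 i))) atTop
      (𝓝 (∫ y : Fin m → ℝ, f (Fin.cons 0 y) * W (Fin.cons 0 y)))

/-- the proportion of `j < N` with `|x_{j+1} - x_j - d| < 1/4` -/
noncomputable def freq (x : ℕ → ℝ) (d : ℝ) (N : ℕ) : ℝ :=
  (#{j ∈ range N | |x (j + 1) - x j - d| < 1 / 4} : ℝ) / N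

noncomputable def pPlus (x : ℕ → ℝ) (d : ℝ) : ℝ := limsup (freq x d) atTop

noncomputable def pMinus (x : ℕ → ℝ) (d : ℝ) : ℝ := liminf (freq x d) atTop

/-- (a)-(c) determine `p(d)` -/
def Determined (d : ℝ) : Prop := ∃ c : ℝ, ∀ x : ℕ → ℝ, InS x → pMinus x d = c ∧ pPlus x d = c

end Pool.Agent.H808R2.AH
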