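import Mathlib
import Pool.Agent.H808R2.AH.Problem

/-!
Auxiliary definitions for MP_039ae7_nt (neighbor spacing probabilities under the Alternative Hypothesis).

The objects of the problem are in Problem.lean. Part 2: the finite ring model used in the proof.
-/

namespace Pool.Agent.H808R2.AH
open Finset Filter Topology
open scoped FourierTransform

/-! ### Part 2: the ring -/

/-- sites of the ring `ℤ/2N`: `(false, x)` is the even site `2x`, `(true, x)` the odd site `2x+1` -/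
abbrev Site (N : ℕ) := Bool × ZMod N

/-- `ζ = exp(πi/N)` -/
noncomputable def zeta (N : ℕ) : ℂ := Complex.exp (Real.pi * Complex.I / N)

/-- the character `s ↦ ζ^(k s)` of `ℤ/2N` -/
noncomputable def ch (N : ℕ) [NeZero N] (k : ℤ) (s : Site N) : ℂ :=
  (bif s.1 then zeta N ^ k else 1) * ZMod.stdAddChar ((k : ZMod N) * s.2)

/-- the position of a site in `{0, ..., 2N-1}` -/
def pos {N : ℕ} (s : Site N) : ℕ := 2 * s.2.val + (bif s.1 then 1 else 0)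

/-- the site at position `t ∈ ℤ` (period `2N`) -/
def site (N : ℕ) (t : ℤ) : Site N := (decide (t % 2 = 1), ((t / 2 : ℤ) : ZMod N))

/-- weights of the discrete circular ensemble on ordered `N`-tuples of sites -/
noncomputable def wP (N : ℕ) [NeZero N] (s : Fin N → Site N) : ℝ :=
  ‖(Matrix.of fun a j : Fin N => ch N ((a : ℕ) : ℤ) (s j)).det‖ ^ 2 / ((N.factorial : ℝ) * (2 * N) ^ N)

/-- the kernel `K(p,q) = (1/2N) ∑_{a<N} ζ^(a(p-q))` -/
noncomputable def ker (N : ℕ) [NeZero N] (p q : Site N) : ℂ :=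
  (1 / (2 * N : ℂ)) * ∑ a : Fin N, ch N ((a : ℕ) : ℤ) p * (starRingEnd ℂ) (ch N ((a : ℕ) : ℤ) q)

/-- the unitary matrix `U(x,z) = (1/N) ∑_{a<N} ζ^(a(2z+1-2x))` -/
noncomputable def Umat (N : ℕ) [NeZero N] (x z : ZMod N) : ℂ :=
  (1 / (N : ℂ)) * ∑ a : Fin N, zeta N ^ (a : ℕ) * ZMod.stdAddChar (((a : ℕ) : ZMod N) * (z - x))

/-- the spin of the even site `2x` in the configuration `s` -/
noncomputable def sg {N : ℕ} (s : Fin N → Site N) (x : ZMod N) : ℝ :=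
  open Classical in if ∃ j, s j = (false, x) then 1 else -1

/-- `Ψ = (ε/720) ∑_t (∑_x g(x-t) X_x)^6` -/
noncomputable def Psi (N : ℕ) [NeZero N] (ε : ℝ) (g : ZMod N → ℝ) : MvPolynomial (ZMod N) ℝ :=
  ∑ t : ZMod N, MvPolynomial.C (ε / 720) * (∑ x : ZMod N, MvPolynomial.C (g (x - t)) * MvPolynomial.X x) ^ 6

/-- `exp Ψ`, truncated -/
noncomputable def Epol (N : ℕ) [NeZero N] (ε : ℝ) (g : ZMod N → ℝ) : MvPolynomial (ZMod N) ℝ :=
  ∑ m ∈ range (N + 1), MvPolynomial.C (1 / (m.factorial : ℝ)) * Psi N ε g ^ m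

/-- the multilinear coefficients of `exp Ψ` -/
noncomputable def cD (N : ℕ) [NeZero N] (ε : ℝ) (g : ZMod N → ℝ) (D : Finset (ZMod N)) : ℝ :=
  (Epol N ε g).coeff (∑ x ∈ D, Finsupp.single x 1)

/-- the tilt `G = ∑_D c_D σ_D` -/
noncomputable def Gt (N : ℕ) [NeZero N] (ε : ℝ) (g : ZMod N → ℝ) (s : Fin N → Site N) : ℝ :=
  ∑ D : Finset (ZMod N), cD N ε g D * ∏ x ∈ D, sg s x

/-- the tilted weights -/
noncomputable def mu (N : ℕ) [NeZero N] (ε : ℝ) (g : ZMod N → ℝ) (s : Fin N → Site N) : ℝ := wP N s * Gt N ε g s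

/-- `g` has its Fourier transform supported at distance at least `N/3` from `0` -/
def FarSupp (N : ℕ) [NeZero N] (g : ZMod N → ℝ) : Prop :=
  ∀ k : ℤ, 3 * |k| < N → ∑ x : ZMod N, (g x : ℂ) * ZMod.stdAddChar ((k : ZMod N) * x) = 0

/-- A test function together with its Fourier transform in the coordinates `ξ_1, ..., ξ_m`. -/
structure TestPair {m : ℕ} (f : (Fin (m + 1) → ℝ) → ℝ) (F : (Fin m → ℝ) → ℂ) : Prop where
  smooth : ContDiff ℝ ((⊤ : ℕ∞) : WithTop ℕ∞) F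
  supp : ∀ ξ : Fin m → ℝ, F ξ ≠ 0 → |∑ i, ξ i| + ∑ i, |ξ i| < 2
  rep : ∀ x : Fin (m + 1) → ℝ, (f x : ℂ) =
    ∫ ξ : Fin m → ℝ, F ξ * Complex.exp (2 * Real.pi * Complex.I * ∑ i, ξ i * (x i.succ - x 0))
  decay : ∃ C : ℝ, 0 ≤ C ∧ ∀ y : Fin m → ℝ, |f (Fin.cons 0 y)| ≤ C * ∏ i, (1 + (y i) ^ 2)⁻¹

/-- the periodisation of `f` on the ring -/
noncomputable def perf {m : ℕ} (f : (Fin (m + 1) → ℝ) → ℝ) (N : ℕ) (p : Fin (m + 1) → Site N) : ℝ :=
  ∑' v : Fin m → ℤ, f (Fin.cons ((pos (p 0) : ℝ) / 2) fun i => (pos (p i.succ) : ℝ) / 2 + N * v i)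

/-- the number of `t ∈ [0,2N)` at which the pattern `1 0 0 0 0 1` starts -/
noncomputable def pat {N : ℕ} (s : Fin N → Site N) : ℕ :=
  open Classical in #{t ∈ range (2 * N) | (∃ j, s j = site N t) ∧ (∃ j, s j = site N (t + 5)) ∧
    ∀ i : ℕ, 1 ≤ i → i ≤ 4 → ¬ ∃ j, s j = site N (t + i)}

/-- The quantity `T` in the formula for the change of `pat`. -/
noncomputable def TT (N : ℕ) [NeZero N] (g : ZMod N → ℝ) (a b : ZMod N) : ℝ :=
  ∑ y : Fin 3 → ZMod N, (if ∀ i, y i ≠ a ∧ y i ≠ a + 1 ∧ y i ≠ a + 2 then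
    (∑ t : ZMod N, g (a - t) * g (a + 1 - t) * g (a + 2 - t) * ∏ i, g (y i - t)) *
      ‖(Matrix.of fun i j : Fin 3 => Umat N (y i) (b + ((j : ℕ) : ZMod N))).det‖ ^ 2 else 0)

/-! ### Part 3: gluing blocks -/

/-- total length of the first `J` blocks of lengths `2 B_j` -/
def Tlen (B : ℕ → ℕ) (J : ℕ) : ℕ := ∑ j ∈ range J, 2 * B j

/-- concatenation of blocks; block `j` occupies `[Tlen B j, Tlen B (j+1))` -/
def glue (B : ℕ → ℕ) (oc : ℕ → ℕ → Prop) (t : ℕ) : Prop :=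
  ∃ j, Tlen B j ≤ t ∧ t < Tlen B (j + 1) ∧ oc j (t - Tlen B j)

/-- number of `t < T` at which all sites `t + d`, `d ∈ D`, are occupied -/
noncomputable def cnt (s : ℕ → Prop) (D : Finset ℤ) (T : ℕ) : ℕ :=
  open Classical in #{t ∈ range T | ∀ d ∈ D, 0 ≤ (t : ℤ) + d ∧ s ((t : ℤ) + d).toNat}

/-- the same count on a ring of length `2B` -/
noncomputable def rcnt (B : ℕ) (oc : ℕ → Prop) (D : Finset ℤ) : ℕ :=
  open Classical in #{t ∈ range (2 * B) | ∀ d ∈ D, oc (((t : ℤ) + d) % ((2 * B : ℕ) : ℤ)).toNat}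

/-- occupied positions of a configuration -/
def ocOf {N : ℕ} (s : Fin N → Site N) (t : ℕ) : Prop := ∃ j, pos (s j) = t

/-- the offset set `{0, y_1, ..., y_m}` -/
def offs {m : ℕ} (y : Fin m → ℤ) : Finset ℤ := insert 0 (Finset.univ.image y)

/-- distinct nonzero offsets in `[-R, R]` -/
noncomputable def box (m R : ℕ) : Finset (Fin m → ℤ) :=
  open Classical in {y ∈ Fintype.piFinset fun _ : Fin m => Finset.Icc (-(R : ℤ)) R | Function.Injective y ∧ ∀ i, y i ≠ 0}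

/-- value of `f` at the lattice offsets `y` (spacing `1/2`) -/
noncomputable def fval {m : ℕ} (f : (Fin (m + 1) → ℝ) → ℝ) (y : Fin m → ℤ) : ℝ :=
  f (Fin.cons 0 fun i => (y i : ℝ) / 2)

/-- tail of `f` on the lattice -/
noncomputable def tail {m : ℕ} (f : (Fin (m + 1) → ℝ) → ℝ) (R : ℕ) : ℝ :=
  ∑' y : Fin m → ℤ, if ∀ i, |y i| ≤ R then 0 else |fval f y|

/-- the sequence of occupied positions, divided by `2` -/
noncomputable def seqOf (s : ℕ → Prop) (j : ℕ) : ℝ := (Nat.nth s j : ℝ) / 2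

/-! ### Part 4: auxiliary definitions for the proof -/

/-- every monomial of `f` has weight at least `r`, where `t_i` has weight `|k_i|` -/
def Ordk {n : ℕ} (k : Fin n → ℤ) (r : ℝ) (f : MvPowerSeries (Fin n) ℂ) : Prop :=
  ∀ e : Fin n →₀ ℕ, MvPowerSeries.coeff e f ≠ 0 → r ≤ ∑ i, |(k i : ℝ)| * (e i : ℝ)

/-- distance from `a + 1/2` to `Nℤ` -/
noncomputable def dm (N : ℕ) (a : Fin N) : ℝ := min (((a : ℕ) : ℝ) + 1 / 2) ((N : ℝ) - ((a : ℕ) : ℝ) - 1 / 2)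

/-- the Fejér kernel `(1/K²) |∑_{j<K} e(jx/N)|²` -/
noncomputable def fejer (N K : ℕ) [NeZero N] (x : ZMod N) : ℝ :=
  (1 / (K : ℝ) ^ 2) * ‖∑ j ∈ range K, (ZMod.stdAddChar ((j : ZMod N) * x) : ℂ)‖ ^ 2

/-- the alternating Fejér kernel -/
noncomputable def gF (N K : ℕ) [NeZero N] (x : ZMod N) : ℝ := (-1) ^ x.val * fejer N K x

/-- the limit of `TT / ∑ fejer^6`, times `π⁶` up to sign -/
noncomputable def ZZ (a : ℤ) : ℝ :=
  ∑' y : Fin 3 → ℤ, if ∀ i, y i ≠ a ∧ y i ≠ a + 1 ∧ y i ≠ a + 2 then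
    (∏ i, (-1 : ℝ) ^ (y i)) * (Matrix.of fun i j : Fin 3 => (1 : ℝ) / (((j : ℕ) : ℝ) - (y i : ℝ) + 1 / 2)).det ^ 2 else 0

end Pool.Agent.H808R2.AH
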