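import Mathlib
import Pool.Agent.H808R2.AH.Defs

/-!
# Task A1: the discrete circular ensemble (Andréief identity, positivity, total mass) (helper747)
-/

namespace Pool.Agent.H808R2.AH
open Finset Filter Topology MeasureTheory
open scoped FourierTransform

namespace A1Aux

/-- half of the Andréief identity -/
lemma half {ι σ R : Type*} [Fintype ι] [DecidableEq ι] [Fintype σ] [CommRing R]
    (φ ψ : ι → σ → R) :
    ∑ s : ι → σ, (Matrix.of fun a j : ι => φ a (s j)).det * ∏ j, ψ j (s j)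
      = (Matrix.of fun a b : ι => ∑ p : σ, φ a p * ψ b p).det := by
  simp only [Matrix.det_apply', Matrix.of_apply]
  simp only [Finset.sum_mul]
  rw [Finset.sum_comm]
  refine Finset.sum_congr rfl fun τ _ => ?_
  rw [Finset.prod_univ_sum, Fintype.piFinset_univ, Finset.mul_sum]
  refine Finset.sum_congr rfl fun s _ => ?_
  rw [Finset.prod_mul_distrib]
  ring

/-- the Andréief identity -/
lemma andreief {ι σ R : Type*} [Fintype ι] [DecidableEq ι] [Fintype σ] [CommRing R]
    (φ ψ : ι → σ → R) (h : σ → R) :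
    ∑ s : ι → σ, (Matrix.of fun a j : ι => φ a (s j)).det * (Matrix.of fun a j : ι => ψ a (s j)).det
        * ∏ j, h (s j)
      = ((Fintype.card ι).factorial : R) * (Matrix.of fun a b : ι => ∑ p : σ, φ a p * (ψ b p * h p)).det := by
  have key : ∀ τ : Equiv.Perm ι,
      ∑ s : ι → σ, (Matrix.of fun a j : ι => φ a (s j)).det *
        (((Equiv.Perm.sign τ : ℤ) : R) * ∏ j, ψ (τ j) (s j)) * ∏ j, h (s j)
      = (Matrix.of fun a b : ι => ∑ p : σ, φ a p * (ψ b p * h p)).det := by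
    intro τ
    rw [← half φ (fun b p => ψ b p * h p)]
    rw [← Equiv.sum_comp (Equiv.arrowCongr τ.symm (Equiv.refl σ))]
    refine Finset.sum_congr rfl fun s _ => ?_
    have e0 : ∀ j, (Equiv.arrowCongr τ.symm (Equiv.refl σ)) s j = s (τ j) := fun j => rfl
    simp only [e0]
    have e1 : (Matrix.of fun a j : ι => φ a (s (τ j))).det
        = ((Equiv.Perm.sign τ : ℤ) : R) * (Matrix.of fun a j : ι => φ a (s j)).det := by
      have := Matrix.det_permute' τ (Matrix.of fun a j : ι => φ a (s j))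
      rw [← this]
      rfl
    have e2 : ∏ j, ψ (τ j) (s (τ j)) = ∏ j, ψ j (s j) :=
      Equiv.prod_comp τ (fun j => ψ j (s j))
    have e3 : ∏ j, h (s (τ j)) = ∏ j, h (s j) := Equiv.prod_comp τ (fun j => h (s j))
    rw [e1, e2, e3, Finset.prod_mul_distrib]
    have e4 : (((Equiv.Perm.sign τ : ℤ) : R)) * (((Equiv.Perm.sign τ : ℤ) : R)) = 1 := by
      rw [← Int.cast_mul, ← Units.val_mul, Int.units_mul_self]
      simp
    linear_combination ((Matrix.of fun a j : ι => φ a (s j)).det * (∏ j, ψ j (s j)) * ∏ j, h (s j)) * e4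
  have expand : ∀ s : ι → σ, (Matrix.of fun a j : ι => φ a (s j)).det * (Matrix.of fun a j : ι => ψ a (s j)).det
        * ∏ j, h (s j)
      = ∑ τ : Equiv.Perm ι, (Matrix.of fun a j : ι => φ a (s j)).det *
        (((Equiv.Perm.sign τ : ℤ) : R) * ∏ j, ψ (τ j) (s j)) * ∏ j, h (s j) := by
    intro s
    rw [Matrix.det_apply' (Matrix.of fun a j : ι => ψ a (s j)), Finset.mul_sum, Finset.sum_mul]
    rfl
  rw [Finset.sum_congr rfl fun s _ => expand s, Finset.sum_comm, Finset.sum_congr rfl fun τ _ => key τ,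
    Finset.sum_const, Finset.card_univ, Fintype.card_perm, nsmul_eq_mul]

lemma wP_eq (N : ℕ) [NeZero N] (s : Fin N → Site N) :
    ((wP N s : ℝ) : ℂ) = 1 / ((N.factorial : ℂ) * (2 * N) ^ N) *
      ((Matrix.of fun a j : Fin N => ch N ((a : ℕ) : ℤ) (s j)).det *
        (Matrix.of fun a j : Fin N => (starRingEnd ℂ) (ch N ((a : ℕ) : ℤ) (s j))).det) := by
  have h1 : (Matrix.of fun a j : Fin N => (starRingEnd ℂ) (ch N ((a : ℕ) : ℤ) (s j))).det
      = (starRingEnd ℂ) (Matrix.of fun a j : Fin N => ch N ((a : ℕ) : ℤ) (s j)).det := by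
    rw [RingHom.map_det]
    rfl
  rw [h1, Complex.mul_conj, Complex.normSq_eq_norm_sq]
  unfold wP
  push_cast
  ring

end A1Aux

open A1Aux

/-- A1 -/
theorem A1_andreief (N : ℕ) [NeZero N] {R : Type*} [CommRing R] [Algebra ℂ R] (h : Site N → R) :
    ∑ s : Fin N → Site N, algebraMap ℂ R (wP N s : ℂ) * ∏ j, h (s j) =
      (Matrix.of fun a b : Fin N => algebraMap ℂ R (1 / (2 * (N : ℂ))) *
        ∑ p : Site N, h p * algebraMap ℂ R
          (ch N ((a : ℕ) : ℤ) p * (starRingEnd ℂ) (ch N ((b : ℕ) : ℤ) p))).det := by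
  have hN : (N : ℂ) ≠ 0 := Nat.cast_ne_zero.2 (NeZero.ne N)
  have h1 : ∀ s : Fin N → Site N, algebraMap ℂ R (wP N s : ℂ) * ∏ j, h (s j)
      = algebraMap ℂ R (1 / ((N.factorial : ℂ) * (2 * N) ^ N)) *
        ((Matrix.of fun a j : Fin N => algebraMap ℂ R (ch N ((a : ℕ) : ℤ) (s j))).det *
        (Matrix.of fun a j : Fin N => algebraMap ℂ R ((starRingEnd ℂ) (ch N ((a : ℕ) : ℤ) (s j)))).det *
        ∏ j, h (s j)) := by
    intro s
    rw [wP_eq, map_mul, map_mul, RingHom.map_det, RingHom.map_det]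
    have e1 : (algebraMap ℂ R).mapMatrix (Matrix.of fun a j : Fin N => ch N ((a : ℕ) : ℤ) (s j))
        = Matrix.of fun a j : Fin N => algebraMap ℂ R (ch N ((a : ℕ) : ℤ) (s j)) := rfl
    have e2 : (algebraMap ℂ R).mapMatrix (Matrix.of fun a j : Fin N => (starRingEnd ℂ) (ch N ((a : ℕ) : ℤ) (s j)))
        = Matrix.of fun a j : Fin N => algebraMap ℂ R ((starRingEnd ℂ) (ch N ((a : ℕ) : ℤ) (s j))) := rfl
    rw [e1, e2]
    ring
  rw [Finset.sum_congr rfl fun s _ => h1 s, ← Finset.mul_sum,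
    andreief (fun (a : Fin N) p => algebraMap ℂ R (ch N ((a : ℕ) : ℤ) p))
      (fun (a : Fin N) p => algebraMap ℂ R ((starRingEnd ℂ) (ch N ((a : ℕ) : ℤ) p))) h, Fintype.card_fin]
  have h2 : (Matrix.of fun a b : Fin N => algebraMap ℂ R (1 / (2 * (N : ℂ))) *
        ∑ p : Site N, h p * algebraMap ℂ R
          (ch N ((a : ℕ) : ℤ) p * (starRingEnd ℂ) (ch N ((b : ℕ) : ℤ) p)))
      = algebraMap ℂ R (1 / (2 * (N : ℂ))) • (Matrix.of fun a b : Fin N => ∑ p : Site N,
        algebraMap ℂ R (ch N ((a : ℕ) : ℤ) p) *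
          (algebraMap ℂ R ((starRingEnd ℂ) (ch N ((b : ℕ) : ℤ) p)) * h p)) := by
    ext a b
    simp only [Matrix.of_apply, Matrix.smul_apply, smul_eq_mul]
    congr 1
    refine Finset.sum_congr rfl fun p _ => ?_
    rw [map_mul]
    ring
  rw [h2, Matrix.det_smul, Fintype.card_fin, ← mul_assoc]
  congr 1
  have h3 : ((N.factorial : ℕ) : R) = algebraMap ℂ R (N.factorial : ℂ) := by
    rw [map_natCast]
  rw [h3, ← map_mul, ← map_pow]
  congr 1
  have hf : (N.factorial : ℂ) ≠ 0 := Nat.cast_ne_zero.2 (Nat.factorial_ne_zero N)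
  rw [one_div_pow]
  field_simp

theorem A1_nonneg (N : ℕ) [NeZero N] (s : Fin N → Site N) : 0 ≤ wP N s := by
  unfold wP
  positivity

theorem A1_inj (N : ℕ) [NeZero N] (s : Fin N → Site N) (h : wP N s ≠ 0) : Function.Injective s := by
  intro i j hij
  by_contra hne
  apply h
  unfold wP
  have : (Matrix.of fun a j : Fin N => ch N ((a : ℕ) : ℤ) (s j)).det = 0 := by
    refine Matrix.det_zero_of_column_eq hne fun a => ?_
    simp only [Matrix.of_apply, hij]
  rw [this]
  simp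

namespace A1Aux

lemma orth (N : ℕ) [NeZero N] (a b : Fin N) :
    ∑ p : Site N, ch N ((a : ℕ) : ℤ) p * (starRingEnd ℂ) (ch N ((b : ℕ) : ℤ) p)
      = if a = b then 2 * (N : ℂ) else 0 := by
  have hz : ‖zeta N‖ = 1 := by
    unfold zeta
    have : (Real.pi * Complex.I / N : ℂ) = ((Real.pi / N : ℝ) : ℂ) * Complex.I := by
      push_cast; ring
    rw [this, Complex.norm_exp_ofReal_mul_I]
  have hchar : ∀ x : ZMod N, (starRingEnd ℂ) (ZMod.stdAddChar x) = ZMod.stdAddChar (-x) :=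
    fun x => (AddChar.map_neg_eq_conj _ _).symm
  have hterm : ∀ (β : Bool) (x : ZMod N),
      ch N ((a : ℕ) : ℤ) (β, x) * (starRingEnd ℂ) (ch N ((b : ℕ) : ℤ) (β, x))
      = (bif β then zeta N ^ ((a : ℕ) : ℤ) * (starRingEnd ℂ) (zeta N ^ ((b : ℕ) : ℤ)) else 1) *
        ZMod.stdAddChar (x * (((a : ℕ) : ZMod N) - ((b : ℕ) : ZMod N))) := by
    intro β x
    unfold ch
    rw [map_mul (starRingEnd ℂ), hchar]
    have e : (ZMod.stdAddChar (x * (((a : ℕ) : ZMod N) - ((b : ℕ) : ZMod N))) : ℂ)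
        = ZMod.stdAddChar (((((a : ℕ) : ℤ) : ZMod N)) * x) * ZMod.stdAddChar (-(((((b : ℕ) : ℤ) : ZMod N)) * x)) := by
      rw [← AddChar.map_add_eq_mul]
      congr 1
      push_cast
      ring
    rw [e]
    cases β
    · simp
    · simp only [cond_true]
      ring
  rw [Fintype.sum_prod_type]
  have hinner : ∀ β : Bool, ∑ x : ZMod N, ch N ((a : ℕ) : ℤ) (β, x) * (starRingEnd ℂ) (ch N ((b : ℕ) : ℤ) (β, x))
      = (bif β then zeta N ^ ((a : ℕ) : ℤ) * (starRingEnd ℂ) (zeta N ^ ((b : ℕ) : ℤ)) else 1) *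
        (if (((a : ℕ) : ZMod N) - ((b : ℕ) : ZMod N)) = 0 then (N : ℂ) else 0) := by
    intro β
    rw [Finset.sum_congr rfl fun x _ => hterm β x, ← Finset.mul_sum,
      AddChar.sum_mulShift _ (ZMod.isPrimitive_stdAddChar N), ZMod.card]
    push_cast
    rfl
  rw [Finset.sum_congr rfl fun β _ => hinner β, Fintype.sum_bool]
  simp only [cond_true, cond_false]
  by_cases hab : a = b
  · subst hab
    rw [if_pos (sub_self _), if_pos rfl, Complex.mul_conj, Complex.normSq_eq_norm_sq, norm_zpow, hz]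
    simp
    ring
  · rw [if_neg hab, if_neg]
    · simp
    · rw [sub_eq_zero]
      intro h
      rw [ZMod.natCast_eq_natCast_iff'] at h
      rw [Nat.mod_eq_of_lt a.2, Nat.mod_eq_of_lt b.2] at h
      exact hab (Fin.ext h)

end A1Aux

theorem A1_sum (N : ℕ) [NeZero N] : ∑ s : Fin N → Site N, wP N s = 1 := by
  have hN : (N : ℂ) ≠ 0 := Nat.cast_ne_zero.2 (NeZero.ne N)
  have h := A1_andreief N (R := ℂ) (fun _ => 1)
  simp only [Algebra.algebraMap_self, RingHom.id_apply, Finset.prod_const_one, mul_one, one_mul] at h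
  have h2 : (Matrix.of fun a b : Fin N => 1 / (2 * (N : ℂ)) *
        ∑ p : Site N, (ch N ((a : ℕ) : ℤ) p * (starRingEnd ℂ) (ch N ((b : ℕ) : ℤ) p))) = 1 := by
    ext a b
    rw [Matrix.of_apply, A1Aux.orth]
    by_cases hab : a = b
    · subst hab
      rw [if_pos rfl, Matrix.one_apply_eq]
      field_simp
    · rw [if_neg hab, Matrix.one_apply_ne hab, mul_zero]
  rw [h2, Matrix.det_one] at h
  exact_mod_cast h

end Pool.Agent.H808R2.AH
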