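import Mathlib
import Pool.Agent.H808R2.AH.Defs
import Pool.Agent.H808R2.AH.A1

/-!
A2: correlation functions of the discrete circular ensemble are determinantal (helper804).
-/

namespace Pool.Agent.H808R2.AH
open Finset Filter Topology MeasureTheory

namespace A2Aux

theorem ortho (N : ℕ) [NeZero N] (a b : Fin N) :
    (1 / (2 * (N : ℂ))) * ∑ p : Site N, (ch N ((a : ℕ) : ℤ) p *
      (starRingEnd ℂ) (ch N ((b : ℕ) : ℤ) p)) = if a = b then 1 else 0 := by
  have hN : (N : ℂ) ≠ 0 := Nat.cast_ne_zero.2 (NeZero.ne N)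
  have hzn : ‖zeta N‖ = 1 := by
    unfold zeta
    have : (Real.pi * Complex.I / N : ℂ) = ((Real.pi / N : ℝ) : ℂ) * Complex.I := by
      push_cast; ring
    rw [this, Complex.norm_exp_ofReal_mul_I]
  have hin : ∑ x : ZMod N, (ZMod.stdAddChar ((((a : ℕ) : ℤ) : ZMod N) * x) : ℂ) *
      (starRingEnd ℂ) (ZMod.stdAddChar ((((b : ℕ) : ℤ) : ZMod N) * x)) =
      if a = b then (N : ℂ) else 0 := by
    have h1 : ∀ x : ZMod N, (ZMod.stdAddChar ((((a : ℕ) : ℤ) : ZMod N) * x) : ℂ) *
        (starRingEnd ℂ) (ZMod.stdAddChar ((((b : ℕ) : ℤ) : ZMod N) * x)) =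
        ZMod.stdAddChar (x * (((a : ℕ) : ZMod N) - ((b : ℕ) : ZMod N))) := by
      intro x
      rw [← AddChar.map_neg_eq_conj, ← AddChar.map_add_eq_mul]
      congr 1
      push_cast
      ring
    rw [Finset.sum_congr rfl fun x _ => h1 x,
      AddChar.sum_mulShift _ (ZMod.isPrimitive_stdAddChar N)]
    have h2 : (((a : ℕ) : ZMod N) - ((b : ℕ) : ZMod N) = 0) ↔ a = b := by
      rw [sub_eq_zero]
      constructor
      · intro h
        rw [ZMod.natCast_eq_natCast_iff'] at h
        rw [Nat.mod_eq_of_lt a.2, Nat.mod_eq_of_lt b.2] at h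
        exact Fin.ext h
      · rintro rfl; rfl
    simp only [h2, ZMod.card]
    split_ifs <;> simp
  rw [Fintype.sum_prod_type]
  simp only [Fintype.sum_bool, ch, cond_true, cond_false, one_mul, map_mul, map_one]
  have h3 : ∑ x : ZMod N, zeta N ^ (((a : ℕ) : ℤ)) *
      (ZMod.stdAddChar ((((a : ℕ) : ℤ) : ZMod N) * x) : ℂ) *
      ((starRingEnd ℂ) (zeta N ^ (((b : ℕ) : ℤ))) *
        (starRingEnd ℂ) (ZMod.stdAddChar ((((b : ℕ) : ℤ) : ZMod N) * x))) =
      if a = b then (N : ℂ) else 0 := by
    have h4 : ∀ x : ZMod N, zeta N ^ (((a : ℕ) : ℤ)) *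
      (ZMod.stdAddChar ((((a : ℕ) : ℤ) : ZMod N) * x) : ℂ) *
      ((starRingEnd ℂ) (zeta N ^ (((b : ℕ) : ℤ))) *
        (starRingEnd ℂ) (ZMod.stdAddChar ((((b : ℕ) : ℤ) : ZMod N) * x))) =
      (zeta N ^ (((a : ℕ) : ℤ)) * (starRingEnd ℂ) (zeta N ^ (((b : ℕ) : ℤ)))) *
      ((ZMod.stdAddChar ((((a : ℕ) : ℤ) : ZMod N) * x) : ℂ) *
        (starRingEnd ℂ) (ZMod.stdAddChar ((((b : ℕ) : ℤ) : ZMod N) * x))) := by
      intro x; ring
    rw [Finset.sum_congr rfl fun x _ => h4 x, ← Finset.mul_sum, hin]
    split_ifs with hab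
    · subst hab
      rw [Complex.mul_conj, Complex.normSq_eq_norm_sq, norm_zpow, hzn]
      simp
    · simp
  rw [h3, hin]
  split_ifs
  · field_simp
    norm_num
  · simp

theorem prod_ind {ι : Type*} (S : Finset ι) (P : ι → Prop) [DecidablePred P]
    (h : ∀ i ∈ S, ∀ j ∈ S, P i → P j → i = j) :
    ∏ i ∈ S, (1 + if P i then (1 : ℂ) else 0) = 1 + ∑ i ∈ S, if P i then (1 : ℂ) else 0 := by
  classical
  by_cases hex : ∃ i ∈ S, P i
  · obtain ⟨i, hi, hPi⟩ := hex
    rw [Finset.prod_eq_single i, Finset.sum_eq_single i]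
    · intro j hj hji
      rw [if_neg]
      exact fun hPj => hji (h j hj i hi hPj hPi)
    · intro h'; exact absurd hi h'
    · intro j hj hji
      rw [if_neg, add_zero]
      exact fun hPj => hji (h j hj i hi hPj hPi)
    · intro h'; exact absurd hi h'
  · push Not at hex
    rw [Finset.prod_eq_one, Finset.sum_eq_zero, add_zero]
    · intro i hi; rw [if_neg (hex i hi)]
    · intro i hi; rw [if_neg (hex i hi), add_zero]

theorem sum_ind {ι : Type*} [Fintype ι] (P : ι → Prop) [DecidablePred P]
    (h : ∀ i j, P i → P j → i = j) :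
    (∑ i, if P i then (1 : ℂ) else 0) = open Classical in if ∃ i, P i then 1 else 0 := by
  classical
  by_cases hex : ∃ i, P i
  · rw [if_pos hex]
    obtain ⟨i, hPi⟩ := hex
    rw [Finset.sum_eq_single i]
    · rw [if_pos hPi]
    · intro j _ hji
      rw [if_neg]
      exact fun hPj => hji (h j i hPj hPi)
    · intro h'; exact absurd (Finset.mem_univ i) h'
  · rw [if_neg hex]
    push Not at hex
    exact Finset.sum_eq_zero fun i _ => by rw [if_neg (hex i)]

/-- signed sum over subsets -/
theorem signed {n : ℕ} (A B : Fin n → ℂ) :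
    ∑ Q : Finset (Fin n), (-1 : ℂ) ^ (#(univ \ Q)) * ((∏ i ∈ Q, A i) * ∏ i ∈ univ \ Q, B i) =
      ∏ i, (A i - B i) := by
  have h := Finset.prod_add A (fun i => - B i) univ
  simp only [← sub_eq_add_neg] at h
  rw [h, Finset.powerset_univ]
  refine Finset.sum_congr rfl fun Q _ => ?_
  have h2 : ∏ i ∈ univ \ Q, (- B i) = (-1) ^ (#(univ \ Q)) * ∏ i ∈ univ \ Q, B i := by
    rw [← Finset.prod_const, ← Finset.prod_mul_distrib]
    refine Finset.prod_congr rfl fun i _ => by ring
  rw [h2]
  ring

end A2Aux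

open A2Aux

theorem A2_occ (N : ℕ) [NeZero N] {n : ℕ} (p : Fin n → Site N) (hp : Function.Injective p) :
    open Classical in ∑ s : Fin N → Site N, (wP N s : ℂ) * (if ∀ i, ∃ j, s j = p i then 1 else 0) =
      (Matrix.of fun i k : Fin n => ker N (p i) (p k)).det := by
  classical
  -- the signed sum of the Andreief identities
  have key : ∀ Q : Finset (Fin n),
      ∑ s : Fin N → Site N, (wP N s : ℂ) * ∏ j, ∏ i ∈ Q, (1 + if s j = p i then (1 : ℂ) else 0) =
      ∑ σ : Equiv.Perm (Fin n), ((Equiv.Perm.sign σ : ℤ) : ℂ) *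
        ((∏ i ∈ Q, ((if σ i = i then (1 : ℂ) else 0) + ker N (p i) (p (σ i)))) *
          ∏ i ∈ univ \ Q, (if σ i = i then (1 : ℂ) else 0)) := by
    intro Q
    have h1 := A1_andreief N (R := ℂ) (fun q => ∏ i ∈ Q, (1 + if q = p i then (1 : ℂ) else 0))
    simp only [Algebra.algebraMap_self, RingHom.id_apply] at h1
    rw [h1]
    have h2 : (Matrix.of fun a b : Fin N => (1 / (2 * (N : ℂ))) *
        ∑ q : Site N, (∏ i ∈ Q, (1 + if q = p i then (1 : ℂ) else 0)) *
          (ch N ((a : ℕ) : ℤ) q * (starRingEnd ℂ) (ch N ((b : ℕ) : ℤ) q))) =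
        1 + (Matrix.of fun (a : Fin N) (i : Fin n) =>
            (if i ∈ Q then (1 : ℂ) else 0) * ch N ((a : ℕ) : ℤ) (p i)) *
          (Matrix.of fun (i : Fin n) (b : Fin N) =>
            (1 / (2 * (N : ℂ))) * (starRingEnd ℂ) (ch N ((b : ℕ) : ℤ) (p i))) := by
      ext a b
      have e1 : ∀ q : Site N, (∏ i ∈ Q, (1 + if q = p i then (1 : ℂ) else 0)) =
          1 + ∑ i ∈ Q, if q = p i then (1 : ℂ) else 0 := fun q =>
        prod_ind Q (fun i => q = p i) fun i _ j _ h h' => hp (h.symm.trans h')
      simp only [Matrix.of_apply, Matrix.add_apply, Matrix.one_apply, Matrix.mul_apply, e1,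
        add_mul, one_mul, Finset.sum_add_distrib, mul_add]
      congr 1
      · exact ortho N a b
      · have e2 : ∀ q : Site N, (∑ i ∈ Q, if q = p i then (1 : ℂ) else 0) *
            (ch N ((a : ℕ) : ℤ) q * (starRingEnd ℂ) (ch N ((b : ℕ) : ℤ) q)) =
            ∑ i ∈ Q, if q = p i then
              (ch N ((a : ℕ) : ℤ) q * (starRingEnd ℂ) (ch N ((b : ℕ) : ℤ) q)) else 0 := by
          intro q
          rw [Finset.sum_mul]
          refine Finset.sum_congr rfl fun i _ => ?_
          split_ifs <;> simp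
        rw [Finset.sum_congr rfl fun q _ => e2 q, Finset.sum_comm]
        have e3 : ∀ i ∈ Q, (∑ q : Site N, if q = p i then
              (ch N ((a : ℕ) : ℤ) q * (starRingEnd ℂ) (ch N ((b : ℕ) : ℤ) q)) else 0) =
              ch N ((a : ℕ) : ℤ) (p i) * (starRingEnd ℂ) (ch N ((b : ℕ) : ℤ) (p i)) := by
          intro i _
          rw [Finset.sum_ite_eq']
          simp
        rw [Finset.sum_congr rfl e3, Finset.mul_sum]
        have e4 : ∀ i : Fin n, (if i ∈ Q then (1 : ℂ) else 0) * ch N ((a : ℕ) : ℤ) (p i) *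
            (1 / (2 * (N : ℂ)) * (starRingEnd ℂ) (ch N ((b : ℕ) : ℤ) (p i))) =
            if i ∈ Q then 1 / (2 * (N : ℂ)) * (ch N ((a : ℕ) : ℤ) (p i) *
              (starRingEnd ℂ) (ch N ((b : ℕ) : ℤ) (p i))) else 0 := by
          intro i
          split_ifs
          · ring
          · ring
        rw [Finset.sum_congr rfl fun i _ => e4 i, Finset.sum_ite_mem, Finset.univ_inter]
    rw [h2, Matrix.det_one_add_mul_comm, Matrix.det_apply']
    refine Finset.sum_congr rfl fun σ _ => ?_
    congr 1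
    have e5 : ∀ i : Fin n, ((1 : Matrix (Fin n) (Fin n) ℂ) + (Matrix.of fun (i : Fin n) (b : Fin N) =>
            (1 / (2 * (N : ℂ))) * (starRingEnd ℂ) (ch N ((b : ℕ) : ℤ) (p i))) *
            (Matrix.of fun (a : Fin N) (i : Fin n) =>
            (if i ∈ Q then (1 : ℂ) else 0) * ch N ((a : ℕ) : ℤ) (p i))) (σ i) i =
        if i ∈ Q then (if σ i = i then (1 : ℂ) else 0) + ker N (p i) (p (σ i)) else
          (if σ i = i then (1 : ℂ) else 0) := by
      intro i
      rw [Matrix.add_apply, Matrix.one_apply, Matrix.mul_apply]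
      simp only [Matrix.of_apply]
      split_ifs with h1 h2 h2
      all_goals simp only [ker, Finset.mul_sum, one_mul, zero_mul, mul_zero,
        Finset.sum_const_zero, add_zero]
      all_goals congr 1
      all_goals refine Finset.sum_congr rfl fun a _ => by ring
    rw [Finset.prod_congr rfl fun i _ => e5 i, Finset.prod_ite]
    congr 1
    · refine Finset.prod_congr ?_ fun _ _ => rfl
      ext i; simp
    · refine Finset.prod_congr ?_ fun _ _ => rfl
      ext i; simp
  have hL : ∑ Q : Finset (Fin n), (-1 : ℂ) ^ (#(univ \ Q)) *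
      ∑ s : Fin N → Site N, (wP N s : ℂ) * ∏ j, ∏ i ∈ Q, (1 + if s j = p i then (1 : ℂ) else 0) =
      ∑ s : Fin N → Site N, (wP N s : ℂ) * (if ∀ i, ∃ j, s j = p i then 1 else 0) := by
    simp only [Finset.mul_sum]
    rw [Finset.sum_comm]
    refine Finset.sum_congr rfl fun s _ => ?_
    by_cases hw : wP N s = 0
    · simp [hw]
    · have hs := A1_inj N s hw
      have e1 : ∀ Q : Finset (Fin n), ∏ j, ∏ i ∈ Q, (1 + if s j = p i then (1 : ℂ) else 0) =
          ∏ i ∈ Q, (1 + if ∃ j, s j = p i then (1 : ℂ) else 0) := by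
        intro Q
        rw [Finset.prod_comm]
        refine Finset.prod_congr rfl fun i _ => ?_
        rw [prod_ind univ (fun j => s j = p i) fun j _ k _ h h' => hs (h.trans h'.symm),
          sum_ind (fun j => s j = p i) fun j k h h' => hs (h.trans h'.symm)]
        congr
      have e2 := signed (fun i => 1 + if ∃ j, s j = p i then (1 : ℂ) else 0) (fun _ => 1)
      simp only [Finset.prod_const_one, mul_one, add_sub_cancel_left] at e2
      have e3 : ∏ i : Fin n, (if ∃ j, s j = p i then (1 : ℂ) else 0) =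
          if ∀ i, ∃ j, s j = p i then 1 else 0 := by
        rw [Finset.prod_ite_zero]
        simp
      rw [← e3, ← e2, Finset.mul_sum]
      refine Finset.sum_congr rfl fun Q _ => ?_
      rw [e1 Q]
      ring
  rw [← hL, Finset.sum_congr rfl fun Q _ => by rw [key Q]]
  simp only [Finset.mul_sum]
  rw [Finset.sum_comm, ← Matrix.det_transpose, Matrix.det_apply']
  refine Finset.sum_congr rfl fun σ _ => ?_
  have e2 := signed (fun i => (if σ i = i then (1 : ℂ) else 0) + ker N (p i) (p (σ i)))
    (fun i => (if σ i = i then (1 : ℂ) else 0))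
  simp only [add_sub_cancel_left] at e2
  simp only [Matrix.transpose_apply, Matrix.of_apply]
  rw [← e2, Finset.mul_sum]
  refine Finset.sum_congr rfl fun Q _ => ?_
  ring

theorem A2_corr (N : ℕ) [NeZero N] {n : ℕ} (F : (Fin n → Site N) → ℂ) :
    ∑ s : Fin N → Site N, (wP N s : ℂ) * ∑ j : Fin n ↪ Fin N, F (fun i => s (j i)) =
      ∑ p : Fin n → Site N, F p * (Matrix.of fun i k : Fin n => ker N (p i) (p k)).det := by
  classical
  have h1 : ∀ p : Fin n → Site N, F p * (Matrix.of fun i k : Fin n => ker N (p i) (p k)).det =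
      ∑ s : Fin N → Site N, (wP N s : ℂ) *
        (F p * if Function.Injective p ∧ ∀ i, ∃ j, s j = p i then 1 else 0) := by
    intro p
    by_cases hp : Function.Injective p
    · rw [← A2_occ N p hp, Finset.mul_sum]
      refine Finset.sum_congr rfl fun s _ => ?_
      simp only [hp, true_and]
      ring
    · have h2 : (Matrix.of fun i k : Fin n => ker N (p i) (p k)).det = 0 := by
        unfold Function.Injective at hp
        push Not at hp
        obtain ⟨i, k, hik, hne⟩ := hp
        refine Matrix.det_zero_of_row_eq hne ?_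
        funext l
        simp only [Matrix.of_apply, hik]
      rw [h2, mul_zero]
      symm
      refine Finset.sum_eq_zero fun s _ => ?_
      rw [if_neg fun h => hp h.1]
      ring
  rw [Finset.sum_congr rfl fun p _ => h1 p, Finset.sum_comm]
  refine Finset.sum_congr rfl fun s _ => ?_
  rw [← Finset.mul_sum]
  by_cases hw : wP N s = 0
  · simp [hw]
  · have hs := A1_inj N s hw
    congr 1
    have h3 : ∀ j : Fin n ↪ Fin N, F (fun i => s (j i)) =
        ∑ p : Fin n → Site N, if p = (fun i => s (j i)) then F p else 0 := by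
      intro j
      rw [Finset.sum_ite_eq']
      simp
    rw [Finset.sum_congr rfl fun j _ => h3 j, Finset.sum_comm]
    refine Finset.sum_congr rfl fun p _ => ?_
    by_cases hc : Function.Injective p ∧ ∀ i, ∃ j, s j = p i
    · rw [if_pos hc, mul_one]
      obtain ⟨hp, hex⟩ := hc
      choose j0 hj0 using hex
      have hj0i : Function.Injective j0 := by
        intro i k h
        apply hp
        rw [← hj0 i, ← hj0 k, h]
      rw [Finset.sum_eq_single (⟨j0, hj0i⟩ : Fin n ↪ Fin N)]
      · rw [if_pos]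
        funext i
        exact (hj0 i).symm
      · intro j _ hj
        rw [if_neg]
        intro h
        apply hj
        ext i
        have h4 := congrFun h i
        rw [← hj0 i] at h4
        have h5 := hs h4
        simp only [Function.Embedding.coeFn_mk]
        rw [h5]
      · intro h; exact absurd (Finset.mem_univ _) h
    · rw [if_neg hc, mul_zero]
      refine Finset.sum_eq_zero fun j _ => ?_
      rw [if_neg]
      intro h
      apply hc
      constructor
      · intro i k hik
        rw [h] at hik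
        exact j.injective (hs hik)
      · intro i
        exact ⟨j i, by rw [h]⟩

end Pool.Agent.H808R2.AH
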