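import Mathlib
import Pool.Agent.H808R2.AH.Defs
import Pool.Agent.H808R2.AH.A1

/-!
Group B: determinant formula with signs on the even sublattice; `U` is unitary.
-/

set_option autoImplicit false

namespace Pool.Agent.H808R2.AH
open Finset Filter Topology

namespace B

section
variable (N : ℕ) [NeZero N]

theorem cast_bij : Function.Bijective (fun a : Fin N => (((a : ℕ)) : ZMod N)) := by
  rw [Fintype.bijective_iff_injective_and_card]
  refine ⟨?_, by rw [Fintype.card_fin, ZMod.card]⟩
  intro a b h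
  have h1 := (ZMod.natCast_eq_natCast_iff' _ _ _).mp h
  rw [Nat.mod_eq_of_lt a.2, Nat.mod_eq_of_lt b.2] at h1
  exact Fin.ext h1

theorem sum_char (t : ZMod N) :
    ∑ x : ZMod N, (ZMod.stdAddChar (t * x) : ℂ) = if t = 0 then (N : ℂ) else 0 := by
  have h := AddChar.sum_mulShift (R := ZMod N) (ψ := (ZMod.stdAddChar : AddChar (ZMod N) ℂ)) t
    (ZMod.isPrimitive_stdAddChar N)
  rw [ZMod.card] at h
  have e : ((if t = 0 then N else 0 : ℕ) : ℂ) = if t = 0 then (N : ℂ) else 0 := by
    split_ifs <;> simp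
  rw [← e, ← h]
  refine Finset.sum_congr rfl fun x _ => ?_
  rw [mul_comm]

theorem sum_char_fin (t : ZMod N) :
    ∑ a : Fin N, (ZMod.stdAddChar ((((a : ℕ)) : ZMod N) * t) : ℂ) =
      if t = 0 then (N : ℂ) else 0 := by
  rw [← sum_char N t]
  rw [(cast_bij N).sum_comp (fun x : ZMod N => (ZMod.stdAddChar (x * t) : ℂ))]
  refine Finset.sum_congr rfl fun x _ => ?_
  rw [mul_comm]

theorem conj_char (x : ZMod N) :
    (starRingEnd ℂ) (ZMod.stdAddChar x : ℂ) = ZMod.stdAddChar (-x) := by
  rw [AddChar.map_neg_eq_conj]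

theorem char_add (x y : ZMod N) :
    (ZMod.stdAddChar x : ℂ) * ZMod.stdAddChar y = ZMod.stdAddChar (x + y) :=
  (AddChar.map_add_eq_mul _ _ _).symm

omit [NeZero N] in
theorem zeta_pow_conj (a : ℕ) : zeta N ^ a * (starRingEnd ℂ) (zeta N ^ a) = 1 := by
  rw [map_pow, ← mul_pow]
  have : zeta N * (starRingEnd ℂ) (zeta N) = 1 := by
    rw [Complex.mul_conj, Complex.normSq_eq_norm_sq]
    have : ‖zeta N‖ = 1 := by
      unfold zeta
      have e : (Real.pi * Complex.I / N : ℂ) = ((Real.pi / N : ℝ) : ℂ) * Complex.I := by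
        push_cast
        ring
      rw [e, Complex.norm_exp_ofReal_mul_I]
    rw [this]
    norm_num
  rw [this, one_pow]

/-- `P(a,x) = e(ax)` -/
noncomputable def P : Matrix (Fin N) (ZMod N) ℂ :=
  Matrix.of fun a x => ZMod.stdAddChar ((((a : ℕ)) : ZMod N) * x)

/-- inverse of `P` -/
noncomputable def Pi' : Matrix (ZMod N) (Fin N) ℂ :=
  Matrix.of fun x a => (1 / (N : ℂ)) * ZMod.stdAddChar (-((((a : ℕ)) : ZMod N) * x))

/-- the same with twist -/
noncomputable def Pz : Matrix (Fin N) (ZMod N) ℂ :=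
  Matrix.of fun a x => zeta N ^ (a : ℕ) * ZMod.stdAddChar ((((a : ℕ)) : ZMod N) * x)

/-- inverse of `Pz` -/
noncomputable def Piz : Matrix (ZMod N) (Fin N) ℂ :=
  Matrix.of fun x a => (1 / (N : ℂ)) * ((starRingEnd ℂ) (zeta N ^ (a : ℕ)) *
    ZMod.stdAddChar (-((((a : ℕ)) : ZMod N) * x)))

theorem N_ne : (N : ℂ) ≠ 0 := by exact_mod_cast NeZero.ne N

theorem fin_sum (a b : Fin N) :
    ∑ x : ZMod N, (ZMod.stdAddChar ((((a : ℕ)) : ZMod N) * x) : ℂ) *
      ZMod.stdAddChar (-((((b : ℕ)) : ZMod N) * x)) = if a = b then (N : ℂ) else 0 := by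
  have h := sum_char N ((((a : ℕ)) : ZMod N) - (((b : ℕ)) : ZMod N))
  have h2 : ((((a : ℕ)) : ZMod N) - (((b : ℕ)) : ZMod N) = 0) ↔ a = b := by
    rw [sub_eq_zero]
    exact (cast_bij N).1.eq_iff
  simp only [h2] at h
  rw [← h]
  refine Finset.sum_congr rfl fun x _ => ?_
  rw [char_add]
  congr 1
  ring

theorem P_Pi : P N * Pi' N = 1 := by
  ext a b
  rw [Matrix.mul_apply]
  have : ∀ x, P N a x * Pi' N x b = (1 / (N : ℂ)) *
      ((ZMod.stdAddChar ((((a : ℕ)) : ZMod N) * x) : ℂ) *
      ZMod.stdAddChar (-((((b : ℕ)) : ZMod N) * x))) := by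
    intro x
    simp only [P, Pi', Matrix.of_apply]
    ring
  simp only [this]
  rw [← Finset.mul_sum, fin_sum, Matrix.one_apply]
  by_cases h : a = b
  · rw [if_pos h, if_pos h, one_div, inv_mul_cancel₀ (N_ne N)]
  · rw [if_neg h, if_neg h, mul_zero]

theorem Pi_P : Pi' N * P N = 1 := by
  ext x y
  rw [Matrix.mul_apply]
  have : ∀ a, Pi' N x a * P N a y = (1 / (N : ℂ)) *
      (ZMod.stdAddChar ((((a : ℕ)) : ZMod N) * (y - x)) : ℂ) := by
    intro a
    simp only [P, Pi', Matrix.of_apply]
    rw [mul_assoc, char_add]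
    congr 2
    ring
  simp only [this]
  rw [← Finset.mul_sum, sum_char_fin, Matrix.one_apply]
  by_cases h : x = y
  · rw [if_pos (by rw [h, sub_self]), if_pos h, one_div, inv_mul_cancel₀ (N_ne N)]
  · rw [if_neg (fun h' => h (sub_eq_zero.mp h').symm), if_neg h, mul_zero]

theorem Pz_Piz : Pz N * Piz N = 1 := by
  ext a b
  rw [Matrix.mul_apply]
  have : ∀ x, Pz N a x * Piz N x b = ((1 / (N : ℂ)) *
      (zeta N ^ (a : ℕ) * (starRingEnd ℂ) (zeta N ^ (b : ℕ)))) *
      ((ZMod.stdAddChar ((((a : ℕ)) : ZMod N) * x) : ℂ) *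
      ZMod.stdAddChar (-((((b : ℕ)) : ZMod N) * x))) := by
    intro x
    simp only [Pz, Piz, Matrix.of_apply]
    ring
  simp only [this]
  rw [← Finset.mul_sum, fin_sum, Matrix.one_apply]
  by_cases h : a = b
  · rw [if_pos h, if_pos h, h, zeta_pow_conj, mul_one, one_div, inv_mul_cancel₀ (N_ne N)]
  · rw [if_neg h, if_neg h, mul_zero]

theorem U_eq (x z : ZMod N) : Umat N x z = (Pi' N * Pz N) x z := by
  rw [Matrix.mul_apply, Umat, Finset.mul_sum]
  refine Finset.sum_congr rfl fun a _ => ?_
  simp only [Pz, Pi', Matrix.of_apply]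
  have : (ZMod.stdAddChar ((((a : ℕ)) : ZMod N) * (z - x)) : ℂ) =
      ZMod.stdAddChar (-((((a : ℕ)) : ZMod N) * x)) *
        ZMod.stdAddChar ((((a : ℕ)) : ZMod N) * z) := by
    rw [char_add]
    congr 1
    ring
  rw [this]
  ring

theorem Ustar_eq (y z : ZMod N) : (starRingEnd ℂ) (Umat N y z) = (Piz N * P N) z y := by
  rw [Matrix.mul_apply, Umat, map_mul, map_sum, Finset.mul_sum]
  refine Finset.sum_congr rfl fun a _ => ?_
  simp only [P, Piz, Matrix.of_apply]
  rw [map_mul, conj_char]
  have : (ZMod.stdAddChar (-((((a : ℕ)) : ZMod N) * (z - y))) : ℂ) =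
      ZMod.stdAddChar (-((((a : ℕ)) : ZMod N) * z)) *
        ZMod.stdAddChar ((((a : ℕ)) : ZMod N) * y) := by
    rw [char_add]
    congr 1
    ring
  rw [this, map_div₀, map_one, Complex.conj_natCast]
  ring

end

/-- sign of one coordinate -/
theorem sign_one {N : ℕ} (D : Finset (ZMod N)) (p : Site N) :
    (open Classical in ∏ x ∈ D, (if p = (false, x) then (-1 : ℝ) else 1)) =
      open Classical in (if p.1 = false ∧ p.2 ∈ D then -1 else 1) := by
  classical
  obtain ⟨b, q⟩ := p
  cases b with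
  | true => simp
  | false =>
    by_cases hq : q ∈ D
    · have : ∀ x ∈ D, (if ((false, q) : Site N) = (false, x) then (-1 : ℝ) else 1) =
          if q = x then -1 else 1 := by
        intro x _
        simp
      rw [Finset.prod_congr rfl this, Finset.prod_ite_eq]
      simp [hq]
    · have : ∀ x ∈ D, (if ((false, q) : Site N) = (false, x) then (-1 : ℝ) else 1) = 1 := by
        intro x hx
        rw [if_neg]
        intro h
        apply hq
        have := (Prod.mk.inj h).2
        rw [this]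
        exact hx
      rw [Finset.prod_congr rfl this]
      simp [hq]

theorem sign_all {N : ℕ} (s : Fin N → Site N) (hs : Function.Injective s) (D : Finset (ZMod N)) :
    ∏ x ∈ D, sg s x = (-1) ^ #D *
      open Classical in ∏ j, (if (s j).1 = false ∧ (s j).2 ∈ D then (-1 : ℝ) else 1) := by
  classical
  have h1 : ∀ x ∈ D, sg s x = (-1) * ∏ j, (if s j = (false, x) then (-1 : ℝ) else 1) := by
    intro x _
    unfold sg
    by_cases h : ∃ j, s j = (false, x)
    · obtain ⟨j, hj⟩ := h
      rw [if_pos ⟨j, hj⟩, Finset.prod_eq_single j]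
      · rw [if_pos hj]; norm_num
      · intro i _ hij
        rw [if_neg]
        intro hi
        exact hij (hs (hi.trans hj.symm))
      · intro hj'
        exact absurd (Finset.mem_univ j) hj'
    · rw [if_neg h]
      push Not at h
      have : ∀ j ∈ (Finset.univ : Finset (Fin N)),
          (if s j = (false, x) then (-1 : ℝ) else 1) = 1 := fun j _ => if_neg (h j)
      rw [Finset.prod_congr rfl this]
      simp
  rw [Finset.prod_congr rfl h1, Finset.prod_mul_distrib, Finset.prod_const, Finset.prod_comm]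
  congr 1
  refine Finset.prod_congr rfl fun j _ => ?_
  have := sign_one D (s j)
  convert this using 2

end B

/-- rows of `U` are orthonormal -/
theorem B_unitary (N : ℕ) [NeZero N] (x y : ZMod N) :
    ∑ z : ZMod N, Umat N x z * (starRingEnd ℂ) (Umat N y z) = if x = y then 1 else 0 := by
  have h : ∑ z : ZMod N, Umat N x z * (starRingEnd ℂ) (Umat N y z) =
      ((B.Pi' N * B.Pz N) * (B.Piz N * B.P N)) x y := by
    rw [Matrix.mul_apply]
    refine Finset.sum_congr rfl fun z _ => ?_
    rw [B.U_eq, B.Ustar_eq]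
  rw [h, Matrix.mul_assoc, ← Matrix.mul_assoc (B.Pz N), B.Pz_Piz, Matrix.one_mul, B.Pi_P,
    Matrix.one_apply]

/-- B, from A1 -/
theorem B_det_of (N : ℕ) [NeZero N] {R : Type*} [CommRing R] [Algebra ℂ R]
    (hA : ∀ h : Site N → R, ∑ s : Fin N → Site N, algebraMap ℂ R (wP N s : ℂ) * ∏ j, h (s j) =
      (Matrix.of fun a b : Fin N => algebraMap ℂ R (1 / (2 * (N : ℂ))) *
        ∑ p : Site N, h p * algebraMap ℂ R
          (ch N ((a : ℕ) : ℤ) p * (starRingEnd ℂ) (ch N ((b : ℕ) : ℤ) p))).det)
    (hinj : ∀ s : Fin N → Site N, wP N s ≠ 0 → Function.Injective s)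
    (h : Site N → R)
    (D : Finset (ZMod N)) :
    open Classical in
    ∑ s : Fin N → Site N, algebraMap ℂ R ((wP N s * ∏ x ∈ D, sg s x : ℝ) : ℂ) * ∏ j, h (s j) =
      algebraMap ℂ R (1 / 2 ^ N) * (Matrix.of fun x y : ZMod N =>
        (if x = y then h (false, x) else 0) + (if x ∈ D then -1 else 1) *
          ∑ z : ZMod N, h (true, z) * algebraMap ℂ R (Umat N x z * (starRingEnd ℂ) (Umat N y z))).det := by
  classical
  set φ : ℂ →+* R := algebraMap ℂ R with hφ
  set h' : Site N → R := fun p => (if p.1 = false ∧ p.2 ∈ D then -1 else 1) * h p with hh'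
  have step1 : ∀ s : Fin N → Site N, φ ((wP N s * ∏ x ∈ D, sg s x : ℝ) : ℂ) * ∏ j, h (s j) =
      (-1) ^ #D * (φ (wP N s : ℂ) * ∏ j, h' (s j)) := by
    intro s
    by_cases hw : wP N s = 0
    · rw [hw]; simp
    · have hs := hinj s hw
      rw [B.sign_all s hs D]
      have e : (∏ j, h' (s j)) =
          φ ((∏ j, (if (s j).1 = false ∧ (s j).2 ∈ D then (-1 : ℝ) else 1) : ℝ) : ℂ) *
            ∏ j, h (s j) := by
        rw [hh']
        simp only
        rw [Finset.prod_mul_distrib]
        congr 1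
        rw [Complex.ofReal_prod, map_prod]
        refine Finset.prod_congr rfl fun j _ => ?_
        by_cases hj : (s j).1 = false ∧ (s j).2 ∈ D
        · rw [if_pos hj, if_pos hj]; simp
        · rw [if_neg hj, if_neg hj]; simp
      rw [e]
      push_cast
      simp only [map_mul, map_pow, map_neg, map_one]
      ring
  simp only [step1]
  rw [← Finset.mul_sum, hA h']
  -- the matrix identity
  have hM : (Matrix.of fun a b : Fin N => φ (1 / (2 * (N : ℂ))) *
        ∑ p : Site N, h' p * φ (ch N ((a : ℕ) : ℤ) p * (starRingEnd ℂ) (ch N ((b : ℕ) : ℤ) p))) =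
      φ (1 / 2) • ((B.P N).map φ * (Matrix.diagonal (fun x => h' (false, x)) +
        (B.Pi' N * B.Pz N).map φ * Matrix.diagonal (fun z => h (true, z)) *
          (B.Piz N * B.P N).map φ) * (B.Pi' N).map φ) := by
    have e1 : (B.P N).map φ * (Matrix.diagonal (fun x => h' (false, x)) +
        (B.Pi' N * B.Pz N).map φ * Matrix.diagonal (fun z => h (true, z)) *
          (B.Piz N * B.P N).map φ) * (B.Pi' N).map φ =
        (B.P N).map φ * Matrix.diagonal (fun x => h' (false, x)) * (B.Pi' N).map φ +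
        (B.Pz N).map φ * Matrix.diagonal (fun z => h (true, z)) * (B.Piz N).map φ := by
      rw [Matrix.mul_add, Matrix.add_mul]
      congr 1
      have a1 : (B.P N).map φ * (B.Pi' N * B.Pz N).map φ = (B.Pz N).map φ := by
        rw [← Matrix.map_mul, ← Matrix.mul_assoc, B.P_Pi, Matrix.one_mul]
      have a2 : (B.Piz N * B.P N).map φ * (B.Pi' N).map φ = (B.Piz N).map φ := by
        rw [← Matrix.map_mul, Matrix.mul_assoc, B.P_Pi, Matrix.mul_one]
      calc (B.P N).map φ * ((B.Pi' N * B.Pz N).map φ * Matrix.diagonal (fun z => h (true, z)) *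
          (B.Piz N * B.P N).map φ) * (B.Pi' N).map φ
          = ((B.P N).map φ * (B.Pi' N * B.Pz N).map φ) * Matrix.diagonal (fun z => h (true, z)) *
          ((B.Piz N * B.P N).map φ * (B.Pi' N).map φ) := by simp only [Matrix.mul_assoc]
        _ = _ := by rw [a1, a2]
    rw [e1]
    ext a b
    rw [Matrix.of_apply, Matrix.smul_apply, Matrix.add_apply, Matrix.mul_apply, Matrix.mul_apply,
      Fintype.sum_prod_type, Fintype.sum_bool, smul_eq_mul, mul_add, mul_add, add_comm,
      Finset.mul_sum, Finset.mul_sum, Finset.mul_sum, Finset.mul_sum]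
    have c1 : φ (1 / (2 * (N : ℂ))) = φ (1 / 2) * φ (1 / N) := by
      rw [← map_mul]
      congr 1
      field_simp
    congr 1
    · refine Finset.sum_congr rfl fun x _ => ?_
      rw [Matrix.mul_diagonal, Matrix.map_apply, Matrix.map_apply, c1]
      simp only [B.P, B.Pi', Matrix.of_apply, ch, map_mul]
      rw [B.conj_char]
      simp only [Bool.cond_false, one_mul, Int.cast_natCast, map_one]
      ring
    · refine Finset.sum_congr rfl fun x _ => ?_
      rw [Matrix.mul_diagonal, Matrix.map_apply, Matrix.map_apply, c1]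
      simp only [B.Pz, B.Piz, Matrix.of_apply, ch, map_mul]
      rw [B.conj_char]
      simp only [Bool.cond_true, Int.cast_natCast, hh', zpow_natCast]
      simp
      ring
  rw [hM, Matrix.det_smul, Fintype.card_fin]
  have hdet : ((B.P N).map φ * (Matrix.diagonal (fun x => h' (false, x)) +
        (B.Pi' N * B.Pz N).map φ * Matrix.diagonal (fun z => h (true, z)) *
          (B.Piz N * B.P N).map φ) * (B.Pi' N).map φ).det =
      (Matrix.diagonal (fun x => h' (false, x)) +
        (B.Pi' N * B.Pz N).map φ * Matrix.diagonal (fun z => h (true, z)) *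
          (B.Piz N * B.P N).map φ).det := by
    apply Matrix.det_conj_of_mul_eq_one
    · rw [← Matrix.map_mul, B.P_Pi]
      exact Matrix.map_one φ (map_zero φ) (map_one φ)
    · rw [← Matrix.map_mul, B.Pi_P]
      exact Matrix.map_one φ (map_zero φ) (map_one φ)
  rw [hdet]
  have hd : ((-1 : R)) ^ #D = (Matrix.diagonal (fun x : ZMod N => if x ∈ D then (-1 : R) else 1)).det := by
    rw [Matrix.det_diagonal, Finset.prod_ite, Finset.prod_const, Finset.prod_const_one, mul_one]
    congr 2
    ext x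
    simp
  rw [mul_left_comm, hd, ← Matrix.det_mul]
  congr 1
  · rw [← map_pow]
    congr 1
    rw [div_pow, one_pow]
  · congr 1
    ext x y
    rw [Matrix.diagonal_mul, Matrix.add_apply, Matrix.of_apply, mul_add]
    congr 1
    · rw [Matrix.diagonal_apply]
      by_cases hxy : x = y
      · rw [if_pos hxy, if_pos hxy]
        simp only [hh']
        by_cases hx : x ∈ D
        · simp [hx]
        · simp [hx]
      · rw [if_neg hxy, if_neg hxy, mul_zero]
    · congr 1
      rw [Matrix.mul_apply]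
      refine Finset.sum_congr rfl fun z _ => ?_
      rw [Matrix.mul_diagonal, Matrix.map_apply, Matrix.map_apply, ← B.U_eq, ← B.Ustar_eq, map_mul]
      ring

/-- B -/
theorem B_det (N : ℕ) [NeZero N] {R : Type*} [CommRing R] [Algebra ℂ R] (h : Site N → R)
    (D : Finset (ZMod N)) :
    open Classical in
    ∑ s : Fin N → Site N, algebraMap ℂ R ((wP N s * ∏ x ∈ D, sg s x : ℝ) : ℂ) * ∏ j, h (s j) =
      algebraMap ℂ R (1 / 2 ^ N) * (Matrix.of fun x y : ZMod N =>
        (if x = y then h (false, x) else 0) + (if x ∈ D then -1 else 1) *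
          ∑ z : ZMod N, h (true, z) * algebraMap ℂ R (Umat N x z * (starRingEnd ℂ) (Umat N y z))).det :=
  B_det_of N (A1_andreief N) (A1_inj N) h D

end Pool.Agent.H808R2.AH
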