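import Mathlib
import Pool.Agent.H808R2.AH.Defs

/-! Elementary facts on the order predicate `Ordk`. -/

namespace Pool.Agent.H808R2.AH
open Finset

variable {n : ℕ} {k : Fin n → ℤ}

theorem Ordk.mono {r r' : ℝ} {f : MvPowerSeries (Fin n) ℂ} (h : Ordk k r f) (hr : r' ≤ r) : Ordk k r' f :=
  fun e he => hr.trans (h e he)

theorem Ordk.zero (r : ℝ) : Ordk k r (0 : MvPowerSeries (Fin n) ℂ) := by
  intro e he
  simp at he

theorem Ordk.add {r : ℝ} {f g : MvPowerSeries (Fin n) ℂ} (hf : Ordk k r f) (hg : Ordk k r g) : Ordk k r (f + g) := by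
  intro e he
  by_cases h1 : MvPowerSeries.coeff e f = 0
  · by_cases h2 : MvPowerSeries.coeff e g = 0
    · simp [h1, h2] at he
    · exact hg e h2
  · exact hf e h1

theorem Ordk.neg {r : ℝ} {f : MvPowerSeries (Fin n) ℂ} (hf : Ordk k r f) : Ordk k r (-f) := by
  intro e he
  apply hf e
  simpa using he

theorem Ordk.sub {r : ℝ} {f g : MvPowerSeries (Fin n) ℂ} (hf : Ordk k r f) (hg : Ordk k r g) : Ordk k r (f - g) := by
  rw [sub_eq_add_neg]
  exact hf.add hg.neg

theorem Ordk.sum {α : Type*} {r : ℝ} (s : Finset α) {f : α → MvPowerSeries (Fin n) ℂ}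
    (h : ∀ a ∈ s, Ordk k r (f a)) : Ordk k r (∑ a ∈ s, f a) := by
  classical
  induction s using Finset.induction_on with
  | empty => simpa using Ordk.zero r
  | insert a s ha ih =>
    rw [Finset.sum_insert ha]
    exact (h a (mem_insert_self a s)).add (ih fun b hb => h b (mem_insert_of_mem hb))

theorem Ordk.nonneg (f : MvPowerSeries (Fin n) ℂ) : Ordk k 0 f := by
  intro e _
  positivity

theorem Ordk.mul {r r' : ℝ} {f g : MvPowerSeries (Fin n) ℂ} (hf : Ordk k r f) (hg : Ordk k r' g) :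
    Ordk k (r + r') (f * g) := by
  classical
  intro e he
  rw [MvPowerSeries.coeff_mul] at he
  obtain ⟨⟨a, b⟩, hab, hne⟩ := Finset.exists_ne_zero_of_sum_ne_zero he
  rw [Finset.HasAntidiagonal.mem_antidiagonal] at hab
  simp only at hab hne
  have h1 := hf a (left_ne_zero_of_mul hne)
  have h2 := hg b (right_ne_zero_of_mul hne)
  rw [← hab]
  have : ∑ i, |(k i : ℝ)| * ((a + b) i : ℝ) = ∑ i, |(k i : ℝ)| * (a i : ℝ) + ∑ i, |(k i : ℝ)| * (b i : ℝ) := by
    rw [← Finset.sum_add_distrib]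
    refine Finset.sum_congr rfl fun i _ => ?_
    rw [Finsupp.add_apply]
    push_cast
    ring
  rw [this]
  linarith

theorem Ordk.mul_left {r : ℝ} {g : MvPowerSeries (Fin n) ℂ} (f : MvPowerSeries (Fin n) ℂ) (hg : Ordk k r g) :
    Ordk k r (f * g) := by
  have := (Ordk.nonneg (k := k) f).mul hg
  simpa using this

theorem Ordk.mul_right {r : ℝ} {f : MvPowerSeries (Fin n) ℂ} (hf : Ordk k r f) (g : MvPowerSeries (Fin n) ℂ) :
    Ordk k r (f * g) := by
  have := hf.mul (Ordk.nonneg (k := k) g)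
  simpa using this

theorem Ordk.prod {α : Type*} (s : Finset α) {r : α → ℝ} {f : α → MvPowerSeries (Fin n) ℂ}
    (h : ∀ a ∈ s, Ordk k (r a) (f a)) : Ordk k (∑ a ∈ s, r a) (∏ a ∈ s, f a) := by
  classical
  induction s using Finset.induction_on with
  | empty => simpa using Ordk.nonneg _
  | insert a s ha ih =>
    rw [Finset.sum_insert ha, Finset.prod_insert ha]
    exact (h a (mem_insert_self a s)).mul (ih fun b hb => h b (mem_insert_of_mem hb))

theorem Ordk.smul {r : ℝ} {f : MvPowerSeries (Fin n) ℂ} (c : ℂ) (hf : Ordk k r f) : Ordk k r (c • f) := by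
  intro e he
  apply hf e
  intro h0
  apply he
  simp [h0]

theorem Ordk.zsmul {r : ℝ} {f : MvPowerSeries (Fin n) ℂ} (c : ℤ) (hf : Ordk k r f) : Ordk k r (c • f) := by
  rw [zsmul_eq_mul]
  exact hf.mul_left _

/-- `t_i` has order `|k_i|` -/
theorem Ordk.X (i : Fin n) : Ordk k |(k i : ℝ)| (MvPowerSeries.X i : MvPowerSeries (Fin n) ℂ) := by
  classical
  intro e he
  rw [MvPowerSeries.coeff_X] at he
  have h1 : e = Finsupp.single i 1 := by
    by_contra hne
    simp [hne] at he
  rw [h1]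
  rw [Finset.sum_eq_single i]
  · simp
  · intro j _ hj
    simp [hj.symm]
  · simp

end Pool.Agent.H808R2.AH
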