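import Mathlib
import Pool.Agent.H808R2.AH.Defs
import Pool.Agent.H808R2.AH.Ord

/-! Group C, part 1: linear algebra and orders. -/

namespace Pool.Agent.H808R2.AH
open Finset

/-- rows in `D` from `P`, the others from `S`; `Q S = P` -/
theorem C4_det {m : Type*} [Fintype m] [DecidableEq m] {R : Type*} [CommRing R] (P S Q : Matrix m m R)
    (hQ : Q * S = P) (D : Finset m) :
    (Matrix.of fun x y : m => if x ∈ D then P x y else S x y).det =
      (Q.submatrix (fun x : {x // x ∈ D} => x.1) (fun x : {x // x ∈ D} => x.1)).det * S.det := by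
  have h1 : (Matrix.of fun x y : m => if x ∈ D then P x y else S x y) =
      (Matrix.of fun x y : m => if x ∈ D then Q x y else (1 : Matrix m m R) x y) * S := by
    ext x y
    simp only [Matrix.of_apply, Matrix.mul_apply]
    by_cases hx : x ∈ D
    · simp only [hx, if_true]
      rw [← hQ, Matrix.mul_apply]
    · simp only [hx, if_false]
      rw [← Matrix.mul_apply, one_mul]
  rw [h1, Matrix.det_mul]
  have h2 : (Matrix.toSquareBlockProp (Matrix.of fun x y : m => if x ∈ D then Q x y else (1 : Matrix m m R) x y)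
        fun i => ¬ (i ∈ D)) = 1 := by
      ext x y
      simp only [Matrix.toSquareBlockProp_def, Matrix.of_apply]
      rw [if_neg x.2]
      simp only [Matrix.one_apply, Subtype.ext_iff]
  have h3 : (Matrix.toSquareBlockProp (Matrix.of fun x y : m => if x ∈ D then Q x y else (1 : Matrix m m R) x y)
        fun i => i ∈ D) = Q.submatrix (fun x : {x // x ∈ D} => x.1) (fun x : {x // x ∈ D} => x.1) := by
    ext x y
    simp only [Matrix.toSquareBlockProp_def, Matrix.of_apply, Matrix.submatrix_apply]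
    rw [if_pos x.2]
  have h4 := Matrix.twoBlockTriangular_det (Matrix.of fun x y : m => if x ∈ D then Q x y else (1 : Matrix m m R) x y)
    (fun x => x ∈ D) (by
      intro i hi j hj
      simp only [Matrix.of_apply]
      rw [if_neg hi, Matrix.one_apply_ne]
      rintro rfl
      exact hi hj)
  rw [h4, h2, h3, Matrix.det_one, mul_one]
  have h5 : ∀ (i1 i2 : Fintype {x // x ∈ D}) (j1 j2 : DecidableEq {x // x ∈ D})
      (M : Matrix {x // x ∈ D} {x // x ∈ D} R),
      @Matrix.det _ j1 i1 R _ M = @Matrix.det _ j2 i2 R _ M := by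
    intro i1 i2 j1 j2 M
    have e1 : i1 = i2 := Subsingleton.elim _ _
    have e2 : j1 = j2 := Subsingleton.elim _ _
    rw [e1, e2]
  rw [h5]

variable {n : ℕ} {k : Fin n → ℤ}

/-- adjugate of a matrix with `ord M(a,b) ≥ |d(a) - d(b)|` -/
theorem adj_ord {m : Type*} [Fintype m] [DecidableEq m] (d : m → ℝ) (M : Matrix m m (MvPowerSeries (Fin n) ℂ))
    (hM : ∀ a b, Ordk k |d a - d b| (M a b)) (a b : m) : Ordk k |d a - d b| (M.adjugate a b) := by
  rw [Matrix.adjugate_apply, Matrix.det_apply]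
  refine Ordk.sum _ fun σ _ => ?_
  by_cases hσ : σ a = b
  · have h1 : Ordk k (∑ i ∈ univ.erase a, |d (σ i) - d i|)
        (∏ i ∈ univ.erase a, (M.updateRow b (Pi.single a 1)) (σ i) i) := by
      refine Ordk.prod _ fun i hi => ?_
      rw [Matrix.updateRow_ne]
      · exact hM _ _
      · intro h
        rw [← hσ] at h
        exact (ne_of_mem_erase hi) (σ.injective h)
    have h2 : |d a - d b| ≤ ∑ i ∈ univ.erase a, |d (σ i) - d i| := by
      refine le_trans ?_ (Finset.abs_sum_le_sum_abs _ _)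
      have h3 : ∑ i ∈ univ.erase a, (d (σ i) - d i) = d a - d b := by
        have h4 : ∑ i, (d (σ i) - d i) = 0 := by
          rw [Finset.sum_sub_distrib, Equiv.sum_comp σ d, sub_self]
        rw [← Finset.add_sum_erase univ _ (mem_univ a), hσ] at h4
        linarith
      rw [h3]
    have h5 : ∏ i, (M.updateRow b (Pi.single a 1)) (σ i) i =
        ∏ i ∈ univ.erase a, (M.updateRow b (Pi.single a 1)) (σ i) i := by
      rw [← Finset.mul_prod_erase univ _ (mem_univ a), hσ, Matrix.updateRow_self, Pi.single_eq_same, one_mul]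
    rw [h5]
    have h6 := h1.mono h2
    rcases Int.units_eq_one_or (Equiv.Perm.sign σ) with h | h
    · rw [h, one_smul]; exact h6
    · rw [h, Units.neg_smul, one_smul]; exact h6.neg
  · have h0 : ∏ i, (M.updateRow b (Pi.single a 1)) (σ i) i = 0 := by
      refine Finset.prod_eq_zero (mem_univ (σ.symm b)) ?_
      rw [Equiv.apply_symm_apply, Matrix.updateRow_self, Pi.single_eq_of_ne]
      intro h
      apply hσ
      rw [← h, Equiv.apply_symm_apply]
    rw [h0, smul_zero]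
    exact Ordk.zero _

theorem inv_ord {m : Type*} [Fintype m] [DecidableEq m] (d : m → ℝ) (M : Matrix m m (MvPowerSeries (Fin n) ℂ))
    (hM : ∀ a b, Ordk k |d a - d b| (M a b)) (a b : m) : Ordk k |d a - d b| (M⁻¹ a b) := by
  rw [Matrix.inv_def, Matrix.smul_apply, smul_eq_mul]
  exact (adj_ord d M hM a b).mul_left _

theorem Q_ord {m : Type*} [Fintype m] [DecidableEq m] (d : m → ℝ)
    (P M : Matrix m m (MvPowerSeries (Fin n) ℂ)) (hP : ∀ a b, Ordk k (d a + d b) (P a b))
    (hM : ∀ a b, Ordk k |d a - d b| (M a b)) (a b : m) : Ordk k (d a + d b) ((P * M⁻¹) a b) := by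
  rw [Matrix.mul_apply]
  refine Ordk.sum _ fun c _ => ?_
  refine ((hP a c).mul (inv_ord d M hM c b)).mono ?_
  have := neg_abs_le (d c - d b)
  have := le_abs_self (d c - d b)
  linarith

/-! ### distances -/

theorem dm_nonneg (N : ℕ) (a : Fin N) : 0 ≤ dm N a := by
  unfold dm
  have h : ((a : ℕ) : ℝ) + 1 ≤ N := by exact_mod_cast a.2
  apply le_min
  · positivity
  · linarith

/-- `a - b + k = j N` with `j` odd forces `|k| ≥ d(a) + d(b)` -/
theorem dm_odd (N : ℕ) (a b : Fin N) (k j : ℤ) (hj : Odd j) (h : ((a : ℕ) : ℤ) - ((b : ℕ) : ℤ) + k = j * N) :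
    dm N a + dm N b ≤ |(k : ℝ)| := by
  have ha : ((a : ℕ) : ℝ) + 1 ≤ N := by exact_mod_cast a.2
  have hb : ((b : ℕ) : ℝ) + 1 ≤ N := by exact_mod_cast b.2
  have ha0 : (0 : ℝ) ≤ ((a : ℕ) : ℝ) := by positivity
  have hb0 : (0 : ℝ) ≤ ((b : ℕ) : ℝ) := by positivity
  have hk : (k : ℝ) = j * N - ((a : ℕ) : ℝ) + ((b : ℕ) : ℝ) := by
    have : ((((a : ℕ) : ℤ) - ((b : ℕ) : ℤ) + k : ℤ) : ℝ) = ((j * N : ℤ) : ℝ) := by rw [h]
    push_cast at this
    linarith
  have hN : (0 : ℝ) < N := by linarith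
  have h1 : dm N a ≤ ((a : ℕ) : ℝ) + 1 / 2 := min_le_left _ _
  have h2 : dm N a ≤ (N : ℝ) - ((a : ℕ) : ℝ) - 1 / 2 := min_le_right _ _
  have h3 : dm N b ≤ ((b : ℕ) : ℝ) + 1 / 2 := min_le_left _ _
  have h4 : dm N b ≤ (N : ℝ) - ((b : ℕ) : ℝ) - 1 / 2 := min_le_right _ _
  have h5 : 1 ≤ j ∨ j ≤ -1 := by
    rcases hj with ⟨r, hr⟩
    omega
  rcases h5 with h5 | h5
  · have h6 : (1 : ℝ) ≤ j := by exact_mod_cast h5
    have h7 : (N : ℝ) ≤ j * N := by nlinarith
    have := le_abs_self (k : ℝ)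
    linarith
  · have h6 : (j : ℝ) ≤ -1 := by exact_mod_cast h5
    have h7 : (j : ℝ) * N ≤ -N := by nlinarith
    have := neg_abs_le (k : ℝ)
    linarith

theorem dm_lip (N : ℕ) (a b : Fin N) (k j : ℤ) (h : ((a : ℕ) : ℤ) - ((b : ℕ) : ℤ) + k = j * N) :
    |dm N a - dm N b| ≤ |(k : ℝ)| := by
  have ha : ((a : ℕ) : ℝ) + 1 ≤ N := by exact_mod_cast a.2
  have hb : ((b : ℕ) : ℝ) + 1 ≤ N := by exact_mod_cast b.2
  have ha0 : (0 : ℝ) ≤ ((a : ℕ) : ℝ) := by positivity
  have hb0 : (0 : ℝ) ≤ ((b : ℕ) : ℝ) := by positivity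
  have hk : (k : ℝ) = j * N - ((a : ℕ) : ℝ) + ((b : ℕ) : ℝ) := by
    have : ((((a : ℕ) : ℤ) - ((b : ℕ) : ℤ) + k : ℤ) : ℝ) = ((j * N : ℤ) : ℝ) := by rw [h]
    push_cast at this
    linarith
  have hN : (0 : ℝ) < N := by linarith
  have h1 : dm N a ≤ ((a : ℕ) : ℝ) + 1 / 2 := min_le_left _ _
  have h2 : dm N a ≤ (N : ℝ) - ((a : ℕ) : ℝ) - 1 / 2 := min_le_right _ _
  have h3 : dm N b ≤ ((b : ℕ) : ℝ) + 1 / 2 := min_le_left _ _
  have h4 : dm N b ≤ (N : ℝ) - ((b : ℕ) : ℝ) - 1 / 2 := min_le_right _ _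
  have h8 := dm_nonneg N a
  have h9 := dm_nonneg N b
  rcases lt_trichotomy j 0 with hj | hj | hj
  · have h6 : (j : ℝ) ≤ -1 := by exact_mod_cast (show j ≤ -1 by omega)
    have h7 : (j : ℝ) * N ≤ -N := by nlinarith
    have h10 := neg_abs_le (k : ℝ)
    rw [abs_le]
    constructor
    · linarith
    · linarith
  · subst hj
    have h11 : (k : ℝ) = ((b : ℕ) : ℝ) - ((a : ℕ) : ℝ) := by rw [hk]; push_cast; ring
    have h12 := le_abs_self (k : ℝ)
    have h13 := neg_abs_le (k : ℝ)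
    have h14 : dm N a = ((a : ℕ) : ℝ) + 1 / 2 ∨ dm N a = (N : ℝ) - ((a : ℕ) : ℝ) - 1 / 2 := min_choice _ _
    have h15 : dm N b = ((b : ℕ) : ℝ) + 1 / 2 ∨ dm N b = (N : ℝ) - ((b : ℕ) : ℝ) - 1 / 2 := min_choice _ _
    rw [abs_le]
    constructor
    · rcases h14 with h | h <;> rcases h15 with h' | h' <;> linarith
    · rcases h14 with h | h <;> rcases h15 with h' | h' <;> linarith
  · have h6 : (1 : ℝ) ≤ j := by exact_mod_cast (show 1 ≤ j by omega)
    have h7 : (N : ℝ) ≤ j * N := by nlinarith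
    have h10 := le_abs_self (k : ℝ)
    rw [abs_le]
    constructor
    · linarith
    · linarith

end Pool.Agent.H808R2.AH
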