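import Mathlib
import Pool.Agent.H808R2.AH.Defs
import Pool.Agent.H808R2.AH.C1

/-! Group C, part 2: the momentum basis. -/

namespace Pool.Agent.H808R2.AH
open Finset

variable (N : ℕ) [NeZero N]

/-- `V(a,x) = e(ax/N)` -/
noncomputable def Vc : Matrix (Fin N) (ZMod N) ℂ := Matrix.of fun a x => ZMod.stdAddChar (((a : ℕ) : ZMod N) * x)

/-- `V'(x,a) = (1/N) e(-ax/N)` -/
noncomputable def Vi : Matrix (ZMod N) (Fin N) ℂ :=
  Matrix.of fun x a => (1 / (N : ℂ)) * ZMod.stdAddChar (-(((a : ℕ) : ZMod N) * x))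

theorem sum_char (b : ZMod N) : ∑ x : ZMod N, (ZMod.stdAddChar (x * b) : ℂ) = if b = 0 then (N : ℂ) else 0 := by
  have h := AddChar.sum_mulShift b (ZMod.isPrimitive_stdAddChar N)
  rw [h]
  split_ifs
  · rw [ZMod.card]
  · simp

omit [NeZero N] in
theorem fin_cast_inj {a b : Fin N} (h : ((a : ℕ) : ZMod N) = ((b : ℕ) : ZMod N)) : a = b := by
  have := congrArg ZMod.val h
  rw [ZMod.val_natCast_of_lt a.2, ZMod.val_natCast_of_lt b.2] at this
  exact Fin.ext this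

theorem Vc_Vi : Vc N * Vi N = 1 := by
  have hN : (N : ℂ) ≠ 0 := by exact_mod_cast NeZero.ne N
  ext a b
  rw [Matrix.mul_apply]
  have h1 : ∀ x : ZMod N, Vc N a x * Vi N x b =
      (1 / (N : ℂ)) * (ZMod.stdAddChar (x * (((a : ℕ) : ZMod N) - ((b : ℕ) : ZMod N))) : ℂ) := by
    intro x
    simp only [Vc, Vi, Matrix.of_apply]
    rw [show x * (((a : ℕ) : ZMod N) - ((b : ℕ) : ZMod N)) =
      ((a : ℕ) : ZMod N) * x + -(((b : ℕ) : ZMod N) * x) by ring, AddChar.map_add_eq_mul]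
    ring
  rw [Finset.sum_congr rfl fun x _ => h1 x, ← Finset.mul_sum, sum_char]
  by_cases hab : a = b
  · subst hab
    simp [hN]
  · rw [Matrix.one_apply_ne hab, if_neg, mul_zero]
    intro h
    exact hab (fin_cast_inj N (sub_eq_zero.mp h))

theorem Vi_Vc : Vi N * Vc N = 1 := by
  have h := Vc_Vi N
  have hc : Fintype.card (Fin N) = Fintype.card (ZMod N) := by rw [Fintype.card_fin, ZMod.card]
  exact (Matrix.mul_eq_one_comm_of_equiv (Fintype.equivOfCardEq hc)).mp h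

/-- diagonal matrix of the even part of `ch k` -/
noncomputable def Ak (k : ℤ) : Matrix (ZMod N) (ZMod N) ℂ := Matrix.diagonal fun x => ch N k (false, x)

noncomputable def Bk (k : ℤ) : Matrix (ZMod N) (ZMod N) ℂ :=
  Matrix.of fun x y => ∑ z : ZMod N, ch N k (true, z) * (Umat N x z * (starRingEnd ℂ) (Umat N y z))

theorem Vc_U (a : Fin N) (z : ZMod N) : ∑ x : ZMod N, ZMod.stdAddChar (((a : ℕ) : ZMod N) * x) * Umat N x z =
    zeta N ^ (a : ℕ) * (ZMod.stdAddChar (((a : ℕ) : ZMod N) * z) : ℂ) := by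
  have hN : (N : ℂ) ≠ 0 := by exact_mod_cast NeZero.ne N
  unfold Umat
  have h1 : ∀ x : ZMod N, ZMod.stdAddChar (((a : ℕ) : ZMod N) * x) * ((1 / (N : ℂ)) *
      ∑ c : Fin N, zeta N ^ (c : ℕ) * ZMod.stdAddChar (((c : ℕ) : ZMod N) * (z - x))) =
      ∑ c : Fin N, (1 / (N : ℂ)) * (zeta N ^ (c : ℕ) * ZMod.stdAddChar (((c : ℕ) : ZMod N) * z)) *
        (ZMod.stdAddChar (x * (((a : ℕ) : ZMod N) - ((c : ℕ) : ZMod N))) : ℂ) := by
    intro x
    rw [Finset.mul_sum, Finset.mul_sum]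
    refine Finset.sum_congr rfl fun c _ => ?_
    rw [show ((c : ℕ) : ZMod N) * (z - x) = ((c : ℕ) : ZMod N) * z + -(((c : ℕ) : ZMod N) * x) by ring,
      show x * (((a : ℕ) : ZMod N) - ((c : ℕ) : ZMod N)) =
      ((a : ℕ) : ZMod N) * x + -(((c : ℕ) : ZMod N) * x) by ring, AddChar.map_add_eq_mul, AddChar.map_add_eq_mul]
    ring
  rw [Finset.sum_congr rfl fun x _ => h1 x, Finset.sum_comm]
  rw [Finset.sum_eq_single a]
  · rw [← Finset.mul_sum, sum_char]
    simp only [sub_self, if_true]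
    field_simp
  · intro c _ hca
    rw [← Finset.mul_sum, sum_char, if_neg, mul_zero]
    intro h
    exact hca (fin_cast_inj N (sub_eq_zero.mp h)).symm
  · simp

omit [NeZero N] in
theorem norm_zeta : ‖zeta N‖ = 1 := by
  unfold zeta
  rw [Complex.norm_exp]
  have : (Real.pi * Complex.I / N : ℂ).re = 0 := by
    rw [show (Real.pi * Complex.I / N : ℂ) = ((Real.pi / N : ℝ) : ℂ) * Complex.I by push_cast; ring]
    simp
  rw [this, Real.exp_zero]

omit [NeZero N] in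
theorem zeta_ne : zeta N ≠ 0 := Complex.exp_ne_zero _

omit [NeZero N] in
theorem conj_zeta : (starRingEnd ℂ) (zeta N) = (zeta N)⁻¹ := by
  have h := Complex.inv_def (zeta N)
  rw [Complex.normSq_eq_norm_sq, norm_zeta] at h
  rw [h]; simp

theorem conj_char (x : ZMod N) : (starRingEnd ℂ) (ZMod.stdAddChar x : ℂ) = ZMod.stdAddChar (-x) := by
  rw [AddChar.map_neg_eq_inv]
  have h1 : ‖(ZMod.stdAddChar x : ℂ)‖ = 1 := by
    exact AddChar.norm_apply _ _
  have h := Complex.inv_def (ZMod.stdAddChar x : ℂ)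
  rw [Complex.normSq_eq_norm_sq, h1] at h
  rw [h]; simp

theorem zeta_pow_N : zeta N ^ N = -1 := by
  have hN : (N : ℂ) ≠ 0 := by exact_mod_cast NeZero.ne N
  unfold zeta
  rw [← Complex.exp_nat_mul, show (N : ℂ) * (Real.pi * Complex.I / N) = Real.pi * Complex.I by field_simp,
    Complex.exp_pi_mul_I]

theorem VAV (k : ℤ) (a b : Fin N) : (Vc N * Ak N k * Vi N) a b =
    if ((((a : ℕ) : ℤ) - ((b : ℕ) : ℤ) + k : ℤ) : ZMod N) = 0 then 1 else 0 := by
  have hN : (N : ℂ) ≠ 0 := by exact_mod_cast NeZero.ne N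
  rw [Matrix.mul_apply]
  have h1 : ∀ x : ZMod N, (Vc N * Ak N k) a x * Vi N x b =
      (1 / (N : ℂ)) * (ZMod.stdAddChar (x * ((((a : ℕ) : ℤ) - ((b : ℕ) : ℤ) + k : ℤ) : ZMod N)) : ℂ) := by
    intro x
    simp only [Ak, Matrix.mul_diagonal, Vc, Vi, Matrix.of_apply, ch, cond_false, one_mul]
    rw [show x * ((((a : ℕ) : ℤ) - ((b : ℕ) : ℤ) + k : ℤ) : ZMod N) =
      ((a : ℕ) : ZMod N) * x + -(((b : ℕ) : ZMod N) * x) + (k : ZMod N) * x by push_cast; ring,
      AddChar.map_add_eq_mul, AddChar.map_add_eq_mul]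
    ring
  rw [Finset.sum_congr rfl fun x _ => h1 x, ← Finset.mul_sum, sum_char]
  split_ifs <;> simp [hN]

theorem VBV (k : ℤ) (a b : Fin N) : (Vc N * Bk N k * Vi N) a b =
    if ((((a : ℕ) : ℤ) - ((b : ℕ) : ℤ) + k : ℤ) : ZMod N) = 0 then
      zeta N ^ (((a : ℕ) : ℤ) - ((b : ℕ) : ℤ) + k) else 0 := by
  have hN : (N : ℂ) ≠ 0 := by exact_mod_cast NeZero.ne N
  have h1 : (Vc N * Bk N k * Vi N) a b = ∑ z : ZMod N, ch N k (true, z) *
      ((∑ x, ZMod.stdAddChar (((a : ℕ) : ZMod N) * x) * Umat N x z) *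
      ((1 / (N : ℂ)) * (starRingEnd ℂ) (∑ y, ZMod.stdAddChar (((b : ℕ) : ZMod N) * y) * Umat N y z))) := by
    have hB : Bk N k = (Matrix.of fun x z => Umat N x z) * Matrix.diagonal (fun z => ch N k (true, z)) *
        (Matrix.of fun z y => (starRingEnd ℂ) (Umat N y z)) := by
      ext x y
      rw [Matrix.mul_apply]
      simp only [Bk, Matrix.mul_diagonal, Matrix.of_apply]
      refine Finset.sum_congr rfl fun z _ => ?_
      ring
    have hB2 : Vc N * Bk N k * Vi N = (Vc N * (Matrix.of fun x z => Umat N x z)) *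
        Matrix.diagonal (fun z => ch N k (true, z)) * ((Matrix.of fun z y => (starRingEnd ℂ) (Umat N y z)) * Vi N) := by
      rw [hB]
      simp only [Matrix.mul_assoc]
    rw [hB2, Matrix.mul_apply]
    refine Finset.sum_congr rfl fun z _ => ?_
    rw [Matrix.mul_diagonal, Matrix.mul_apply, Matrix.mul_apply]
    have h3 : ∑ y, (Matrix.of fun z y => (starRingEnd ℂ) (Umat N y z)) z y * Vi N y b =
        (1 / (N : ℂ)) * (starRingEnd ℂ) (∑ y, ZMod.stdAddChar (((b : ℕ) : ZMod N) * y) * Umat N y z) := by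
      rw [map_sum, Finset.mul_sum]
      refine Finset.sum_congr rfl fun y _ => ?_
      rw [RingHom.map_mul, conj_char]
      simp only [Matrix.of_apply, Vi]
      ring
    rw [h3]
    simp only [Vc, Matrix.of_apply]
    ring
  rw [h1]
  have h2 : ∀ z : ZMod N, ch N k (true, z) *
      ((∑ x, ZMod.stdAddChar (((a : ℕ) : ZMod N) * x) * Umat N x z) *
      ((1 / (N : ℂ)) * (starRingEnd ℂ) (∑ y, ZMod.stdAddChar (((b : ℕ) : ZMod N) * y) * Umat N y z))) =
      (1 / (N : ℂ)) * zeta N ^ (((a : ℕ) : ℤ) - ((b : ℕ) : ℤ) + k) *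
        (ZMod.stdAddChar (z * ((((a : ℕ) : ℤ) - ((b : ℕ) : ℤ) + k : ℤ) : ZMod N)) : ℂ) := by
    intro z
    rw [Vc_U, Vc_U, RingHom.map_mul, RingHom.map_pow, conj_zeta, conj_char]
    rw [show z * ((((a : ℕ) : ℤ) - ((b : ℕ) : ℤ) + k : ℤ) : ZMod N) =
      ((a : ℕ) : ZMod N) * z + -(((b : ℕ) : ZMod N) * z) + (k : ZMod N) * z by push_cast; ring,
      AddChar.map_add_eq_mul, AddChar.map_add_eq_mul, zpow_add₀ (zeta_ne N), zpow_sub₀ (zeta_ne N), zpow_natCast,
      zpow_natCast]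
    simp only [ch, cond_true, inv_pow]
    field_simp
  rw [Finset.sum_congr rfl fun z _ => h2 z, ← Finset.mul_sum, sum_char]
  split_ifs
  · field_simp
  · simp

end Pool.Agent.H808R2.AH
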