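import Pool.Agent.H808R2.AH.Defs

/-!
# C5: the functional `X^D ↦ det Q[D,D]` applied to `exp Ψ`
-/

namespace Pool.Agent.H808R2.AH
open Finset Filter Topology

namespace C5aux

variable {N : ℕ} [NeZero N] {R : Type*} [CommRing R] [Algebra ℝ R]

/-- The functional `X^D ↦ det Q[D,D]`. -/
noncomputable def lam (Q : Matrix (ZMod N) (ZMod N) R) (p : MvPolynomial (ZMod N) ℝ) : R :=
  ∑ D : Finset (ZMod N), algebraMap ℝ R (p.coeff (∑ x ∈ D, Finsupp.single x 1)) *
    (Q.submatrix (fun x : {x // x ∈ D} => x.1) (fun x : {x // x ∈ D} => x.1)).det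

theorem lam_sum (Q : Matrix (ZMod N) (ZMod N) R) {ι : Type*} (s : Finset ι)
    (f : ι → MvPolynomial (ZMod N) ℝ) : lam Q (∑ i ∈ s, f i) = ∑ i ∈ s, lam Q (f i) := by
  unfold lam
  rw [Finset.sum_comm]
  refine Finset.sum_congr rfl fun D _ => ?_
  rw [MvPolynomial.coeff_sum, map_sum, Finset.sum_mul]

theorem lam_C_mul (Q : Matrix (ZMod N) (ZMod N) R) (a : ℝ) (p : MvPolynomial (ZMod N) ℝ) :
    lam Q (MvPolynomial.C a * p) = algebraMap ℝ R a * lam Q p := by
  unfold lam
  rw [Finset.mul_sum]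
  refine Finset.sum_congr rfl fun D _ => ?_
  rw [MvPolynomial.coeff_C_mul, map_mul, mul_assoc]

theorem sum_single_apply (D : Finset (ZMod N)) (y : ZMod N) :
    (∑ x ∈ D, Finsupp.single x 1 : ZMod N →₀ ℕ) y = if y ∈ D then 1 else 0 := by
  classical
  rw [Finsupp.finset_sum_apply]
  simp only [Finsupp.single_apply]
  rw [Finset.sum_ite_eq' D y (fun _ => 1)]

theorem lam_prod_X (Q : Matrix (ZMod N) (ZMod N) R) {ι : Type*} [Fintype ι] [DecidableEq ι]
    (x : ι → ZMod N) :
    lam Q (∏ a, MvPolynomial.X (x a)) = (Matrix.of fun a b => Q (x a) (x b)).det := by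
  classical
  have hX : (∏ a, MvPolynomial.X (x a) : MvPolynomial (ZMod N) ℝ) =
      MvPolynomial.monomial (∑ a, Finsupp.single (x a) 1) 1 := by
    rw [MvPolynomial.monomial_sum_one]
    rfl
  unfold lam
  simp only [hX, MvPolynomial.coeff_monomial]
  by_cases hx : Function.Injective x
  · have h1 : (∑ a, Finsupp.single (x a) 1 : ZMod N →₀ ℕ) =
        ∑ y ∈ univ.image x, Finsupp.single y 1 := by
      rw [Finset.sum_image fun a _ b _ h => hx h]
    rw [Finset.sum_eq_single (univ.image x)]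
    · rw [if_pos h1, map_one, one_mul]
      let e : ι ≃ {y // y ∈ univ.image x} :=
        Equiv.ofBijective (fun a => ⟨x a, Finset.mem_image_of_mem _ (mem_univ _)⟩)
          ⟨fun a b h => hx (Subtype.ext_iff.1 h), fun ⟨y, hy⟩ => by
            obtain ⟨a, -, rfl⟩ := Finset.mem_image.1 hy
            exact ⟨a, rfl⟩⟩
      rw [← Matrix.det_submatrix_equiv_self e]
      rfl
    · intro D _ hD
      rw [if_neg, map_zero, zero_mul]
      intro h
      apply hD
      rw [h1] at h
      ext y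
      have h2 := DFunLike.congr_fun h y
      rw [sum_single_apply, sum_single_apply] at h2
      by_cases h3 : y ∈ D <;> by_cases h4 : y ∈ univ.image x <;> simp_all
    · intro h
      exact absurd (mem_univ _) h
  · rw [Finset.sum_eq_zero]
    · rw [Function.Injective] at hx
      push Not at hx
      obtain ⟨a, b, hab, hne⟩ := hx
      refine (Matrix.det_zero_of_row_eq hne ?_).symm
      funext c
      simp [Matrix.of_apply, hab]
    · intro D _
      rw [if_neg, map_zero, zero_mul]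
      intro h
      rw [Function.Injective] at hx
      push Not at hx
      obtain ⟨a, b, hab, hne⟩ := hx
      have h2 := DFunLike.congr_fun h (x a)
      rw [sum_single_apply, Finsupp.finset_sum_apply] at h2
      have h3 : ∑ i ∈ ({a, b} : Finset ι), (Finsupp.single (x i) 1 : ZMod N →₀ ℕ) (x a) ≤
          ∑ i, (Finsupp.single (x i) 1 : ZMod N →₀ ℕ) (x a) :=
        Finset.sum_le_sum_of_subset (Finset.subset_univ _)
      rw [Finset.sum_pair hne, ← hab, Finsupp.single_eq_same] at h3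
      have h4 : (if x a ∈ D then 1 else 0 : ℕ) ≤ 1 := by split_ifs <;> simp
      omega

theorem Psi_pow (ε : ℝ) (g : ZMod N → ℝ) (m : ℕ) :
    Psi N ε g ^ m = MvPolynomial.C ((ε / 720) ^ m) * ∑ t : Fin m → ZMod N,
      ∑ x : Fin m × Fin 6 → ZMod N, MvPolynomial.C (∏ a, g (x a - t a.1)) *
        ∏ a, MvPolynomial.X (x a) := by
  unfold Psi
  rw [← Finset.mul_sum, mul_pow, ← map_pow, Fintype.sum_pow]
  congr 1
  refine Finset.sum_congr rfl fun t _ => ?_
  have h1 : (∏ i : Fin m, (∑ x : ZMod N, MvPolynomial.C (g (x - t i)) * MvPolynomial.X x) ^ 6 :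
      MvPolynomial (ZMod N) ℝ) =
      ∏ a : Fin m × Fin 6, ∑ x : ZMod N, MvPolynomial.C (g (x - t a.1)) * MvPolynomial.X x := by
    rw [Fintype.prod_prod_type]
    refine Finset.prod_congr rfl fun i _ => ?_
    exact (by rw [Finset.prod_const, Finset.card_univ, Fintype.card_fin] :
      (∏ _y : Fin 6, ∑ x : ZMod N, (MvPolynomial.C (g (x - t i)) * MvPolynomial.X x :
        MvPolynomial (ZMod N) ℝ)) = _).symm
  rw [h1, Finset.prod_univ_sum, Fintype.piFinset_univ]
  refine Finset.sum_congr rfl fun x _ => ?_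
  rw [Finset.prod_mul_distrib, map_prod]

end C5aux

open C5aux in
/-- C5: the functional `X^D ↦ det Q[D,D]` applied to `exp Ψ` -/
theorem C5_lin (N : ℕ) [NeZero N] (ε : ℝ) (g : ZMod N → ℝ) {R : Type*} [CommRing R] [Algebra ℝ R]
    (Q : Matrix (ZMod N) (ZMod N) R) :
    ∑ D : Finset (ZMod N), algebraMap ℝ R (cD N ε g D) *
        (Q.submatrix (fun x : {x // x ∈ D} => x.1) (fun x : {x // x ∈ D} => x.1)).det =
      ∑ m ∈ range (N + 1), algebraMap ℝ R (1 / (m.factorial : ℝ) * (ε / 720) ^ m) *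
        ∑ t : Fin m → ZMod N, ∑ x : Fin m × Fin 6 → ZMod N,
          algebraMap ℝ R (∏ a, g (x a - t a.1)) * (Matrix.of fun a b => Q (x a) (x b)).det := by
  change lam Q (Epol N ε g) = _
  unfold Epol
  rw [lam_sum]
  refine Finset.sum_congr rfl fun m _ => ?_
  rw [lam_C_mul, Psi_pow, lam_C_mul, ← mul_assoc, ← map_mul, lam_sum]
  congr 1
  refine Finset.sum_congr rfl fun t _ => ?_
  rw [lam_sum]
  refine Finset.sum_congr rfl fun x _ => ?_
  rw [lam_C_mul, lam_prod_X]

end Pool.Agent.H808R2.AH
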