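import Mathlib
import Pool.Agent.H808R2.AH.Defs
import Pool.Agent.H808R2.AH.Ord

/-!
C6: smeared principal minors have large order.
-/

namespace Pool.Agent.H808R2.AH
open Finset

theorem C6aux_dm (N : ℕ) (a b : Fin N) (h1 : (N : ℤ) ≤ 3 * |((b : ℕ) : ℤ) - ((a : ℕ) : ℤ)|)
    (h2 : (N : ℤ) ≤ 3 * |((b : ℕ) : ℤ) - ((a : ℕ) : ℤ) + N|)
    (h3 : (N : ℤ) ≤ 3 * |((b : ℕ) : ℤ) - ((a : ℕ) : ℤ) - N|) :
    (N : ℝ) / 3 ≤ dm N a + dm N b := by
  have ha : (a : ℕ) < N := a.2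
  have hb : (b : ℕ) < N := b.2
  have haR : ((a : ℕ) : ℝ) + 1 ≤ N := by exact_mod_cast ha
  have hbR : ((b : ℕ) : ℝ) + 1 ≤ N := by exact_mod_cast hb
  have ha0 : (0 : ℝ) ≤ ((a : ℕ) : ℝ) := Nat.cast_nonneg _
  have hb0 : (0 : ℝ) ≤ ((b : ℕ) : ℝ) := Nat.cast_nonneg _
  have e1 : (N : ℝ) ≤ 3 * |((b : ℕ) : ℝ) - ((a : ℕ) : ℝ)| := by exact_mod_cast h1
  have e2 : (N : ℝ) ≤ 3 * |((b : ℕ) : ℝ) - ((a : ℕ) : ℝ) + N| := by exact_mod_cast h2
  have e3 : (N : ℝ) ≤ 3 * |((b : ℕ) : ℝ) - ((a : ℕ) : ℝ) - N| := by exact_mod_cast h3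
  rw [abs_of_nonneg (by linarith)] at e2
  rw [abs_of_nonpos (by linarith)] at e3
  unfold dm
  rcases abs_cases (((b : ℕ) : ℝ) - ((a : ℕ) : ℝ)) with ⟨h, _⟩ | ⟨h, _⟩ <;> rw [h] at e1 <;>
  rcases min_cases (((a : ℕ) : ℝ) + 1 / 2) ((N : ℝ) - ((a : ℕ) : ℝ) - 1 / 2) with ⟨h', _⟩ | ⟨h', _⟩ <;>
  rcases min_cases (((b : ℕ) : ℝ) + 1 / 2) ((N : ℝ) - ((b : ℕ) : ℝ) - 1 / 2) with ⟨h'', _⟩ | ⟨h'', _⟩ <;>
  rw [h', h''] <;> linarith

theorem C6aux_sum (N : ℕ) [NeZero N] (g : ZMod N → ℝ) (hg : FarSupp N g) (a b : Fin N)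
    (h : ∑ z : ZMod N, (g z : ℂ) * ((1 / (N : ℂ)) * ZMod.stdAddChar (-(((a : ℕ) : ZMod N) * z)) *
      ZMod.stdAddChar (((b : ℕ) : ZMod N) * z)) ≠ 0) : (N : ℝ) / 3 ≤ dm N a + dm N b := by
  have key : ∀ k : ℤ, (k : ZMod N) = ((b : ℕ) : ZMod N) - ((a : ℕ) : ZMod N) →
      (N : ℤ) ≤ 3 * |k| := by
    intro k hk
    by_contra hlt
    rw [not_le] at hlt
    apply h
    have := hg k hlt
    have h2 : ∑ z : ZMod N, (g z : ℂ) * ((1 / (N : ℂ)) *
        ZMod.stdAddChar (-(((a : ℕ) : ZMod N) * z)) *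
        ZMod.stdAddChar (((b : ℕ) : ZMod N) * z)) =
        (1 / (N : ℂ)) * ∑ z : ZMod N, (g z : ℂ) * ZMod.stdAddChar ((k : ZMod N) * z) := by
      rw [Finset.mul_sum]
      refine Finset.sum_congr rfl fun z _ => ?_
      have h3 : (k : ZMod N) * z = -(((a : ℕ) : ZMod N) * z) + ((b : ℕ) : ZMod N) * z := by
        rw [hk]; ring
      rw [h3, AddChar.map_add_eq_mul]
      ring
    rw [h2, this, mul_zero]
  refine C6aux_dm N a b (key _ ?_) (key _ ?_) (key _ ?_)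
  · push_cast; ring
  · push_cast; simp
  · push_cast; simp

/-- C6: smeared principal minors have large order -/
theorem C6_far (N : ℕ) [NeZero N] {n : ℕ} (k : Fin n → ℤ)
    (Qm : Matrix (Fin N) (Fin N) (MvPowerSeries (Fin n) ℂ)) (hQm : ∀ a b, Ordk k (dm N a + dm N b) (Qm a b))
    (Q : Matrix (ZMod N) (ZMod N) (MvPowerSeries (Fin n) ℂ))
    (hQ : ∀ x y, Q x y = ∑ a : Fin N, ∑ b : Fin N, MvPowerSeries.C
      ((1 / (N : ℂ)) * ZMod.stdAddChar (-(((a : ℕ) : ZMod N) * x)) * ZMod.stdAddChar (((b : ℕ) : ZMod N) * y)) * Qm a b)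
    {ι : Type*} [Fintype ι] [DecidableEq ι] (G : ι → ZMod N → ℝ) (hG : ∀ i, FarSupp N (G i)) :
    Ordk k (Fintype.card ι * (N : ℝ) / 3) (∑ x : ι → ZMod N, MvPowerSeries.C (∏ i, (G i (x i) : ℂ)) *
      (Matrix.of fun i j => Q (x i) (x j)).det) := by
  classical
  have key : ∀ π : Equiv.Perm ι, Ordk k (Fintype.card ι * (N : ℝ) / 3)
      (∑ x : ι → ZMod N, MvPowerSeries.C (∏ i, (G i (x i) : ℂ)) *
        ∏ i, Q (x (π i)) (x i)) := by
    intro π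
    have hx : ∀ x : ι → ZMod N, MvPowerSeries.C (∏ i, (G i (x i) : ℂ)) *
        ∏ i, Q (x (π i)) (x i) =
        ∑ ab : ι → Fin N × Fin N, MvPowerSeries.C ((∏ i, (G i (x i) : ℂ)) *
          ∏ i, ((1 / (N : ℂ)) * ZMod.stdAddChar (-((((ab i).1 : ℕ) : ZMod N) * x (π i))) *
            ZMod.stdAddChar ((((ab i).2 : ℕ) : ZMod N) * x i))) *
          ∏ i, Qm (ab i).1 (ab i).2 := by
      intro x
      have h1 : ∏ i, Q (x (π i)) (x i) = ∏ i, ∑ ab : Fin N × Fin N, MvPowerSeries.C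
          ((1 / (N : ℂ)) * ZMod.stdAddChar (-(((ab.1 : ℕ) : ZMod N) * x (π i))) *
            ZMod.stdAddChar (((ab.2 : ℕ) : ZMod N) * x i)) * Qm ab.1 ab.2 := by
        refine Finset.prod_congr rfl fun i _ => ?_
        rw [hQ, Fintype.sum_prod_type]
      rw [h1, Fintype.prod_sum, Finset.mul_sum]
      refine Finset.sum_congr rfl fun ab _ => ?_
      rw [Finset.prod_mul_distrib, map_mul, map_prod (MvPowerSeries.C) (fun i =>
        (1 / (N : ℂ)) * ZMod.stdAddChar (-((((ab i).1 : ℕ) : ZMod N) * x (π i))) *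
            ZMod.stdAddChar ((((ab i).2 : ℕ) : ZMod N) * x i))]
      ring
    simp_rw [hx]
    rw [Finset.sum_comm]
    refine Ordk.sum _ fun ab _ => ?_
    rw [← Finset.sum_mul, ← map_sum]
    have hS : ∑ x : ι → ZMod N, (∏ i, (G i (x i) : ℂ)) *
          ∏ i, ((1 / (N : ℂ)) * ZMod.stdAddChar (-((((ab i).1 : ℕ) : ZMod N) * x (π i))) *
            ZMod.stdAddChar ((((ab i).2 : ℕ) : ZMod N) * x i)) =
        ∏ i, ∑ z : ZMod N, (G i z : ℂ) * ((1 / (N : ℂ)) *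
          ZMod.stdAddChar (-((((ab (π.symm i)).1 : ℕ) : ZMod N) * z)) *
          ZMod.stdAddChar ((((ab i).2 : ℕ) : ZMod N) * z)) := by
      rw [Fintype.prod_sum]
      refine Finset.sum_congr rfl fun x _ => ?_
      have h2 : ∏ i, (ZMod.stdAddChar (-((((ab i).1 : ℕ) : ZMod N) * x (π i))) : ℂ) =
          ∏ i, (ZMod.stdAddChar (-((((ab (π.symm i)).1 : ℕ) : ZMod N) * x i)) : ℂ) := by
        rw [← Equiv.prod_comp π (fun i =>
          (ZMod.stdAddChar (-((((ab (π.symm i)).1 : ℕ) : ZMod N) * x i)) : ℂ))]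
        simp
      simp only [Finset.prod_mul_distrib]
      rw [h2]
    rw [hS]
    by_cases h0 : (∏ i, ∑ z : ZMod N, (G i z : ℂ) * ((1 / (N : ℂ)) *
          ZMod.stdAddChar (-((((ab (π.symm i)).1 : ℕ) : ZMod N) * z)) *
          ZMod.stdAddChar ((((ab i).2 : ℕ) : ZMod N) * z))) = 0
    · rw [h0, map_zero, zero_mul]
      exact Ordk.zero _
    · refine Ordk.mul_left _ ?_
      refine (Ordk.prod Finset.univ (f := fun i => Qm (ab i).1 (ab i).2)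
        (r := fun i => dm N (ab i).1 + dm N (ab i).2) fun i _ => hQm _ _).mono ?_
      have h3 : ∑ i, (dm N (ab i).1 + dm N (ab i).2) =
          ∑ i, (dm N (ab (π.symm i)).1 + dm N (ab i).2) := by
        rw [Finset.sum_add_distrib, Finset.sum_add_distrib]
        congr 1
        rw [← Equiv.sum_comp π.symm]
      rw [h3]
      have h4 : ∀ i, (N : ℝ) / 3 ≤ dm N (ab (π.symm i)).1 + dm N (ab i).2 := by
        intro i
        refine C6aux_sum N (G i) (hG i) _ _ ?_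
        exact (Finset.prod_ne_zero_iff.1 h0) i (Finset.mem_univ i)
      calc (Fintype.card ι : ℝ) * (N : ℝ) / 3 = ∑ _i : ι, (N : ℝ) / 3 := by
            rw [Finset.sum_const, Finset.card_univ, nsmul_eq_mul]; ring
        _ ≤ _ := Finset.sum_le_sum fun i _ => h4 i
  have hdet : ∑ x : ι → ZMod N, MvPowerSeries.C (∏ i, (G i (x i) : ℂ)) *
      (Matrix.of fun i j => Q (x i) (x j)).det =
      ∑ π : Equiv.Perm ι, (((Equiv.Perm.sign π : ℤˣ) : ℤ) : MvPowerSeries (Fin n) ℂ) *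
        ∑ x : ι → ZMod N, MvPowerSeries.C (∏ i, (G i (x i) : ℂ)) *
          ∏ i, Q (x (π i)) (x i) := by
    simp_rw [Matrix.det_apply', Finset.mul_sum]
    rw [Finset.sum_comm]
    refine Finset.sum_congr rfl fun π _ => Finset.sum_congr rfl fun x _ => ?_
    simp only [Matrix.of_apply]
    ring
  rw [hdet]
  exact Ordk.sum _ fun π _ => Ordk.mul_left _ (key π)

end Pool.Agent.H808R2.AH
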