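import Mathlib
import Pool.Agent.H808R2.AH.Defs

/-!
C7: the coefficient of `t_1 ⋯ t_n` in `∏_j (1 + ∑_i t_i c_ij)` is the sum over embeddings.
-/

namespace Pool.Agent.H808R2.AH
open Finset Filter Topology MeasureTheory
open scoped FourierTransform

namespace C7Aux

variable {n N : ℕ}

/-- the exponent of a choice -/
noncomputable def ex : Option (Fin n) → (Fin n →₀ ℕ)
  | none => 0
  | some i => Finsupp.single i 1

/-- the weight of a choice -/
noncomputable def wt (c : Fin n → Fin N → ℂ) (j : Fin N) : Option (Fin n) → ℂ
  | none => 1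
  | some i => c i j

theorem factor (c : Fin n → Fin N → ℂ) (j : Fin N) :
    (1 + ∑ i : Fin n, MvPowerSeries.X i * MvPowerSeries.C (c i j) : MvPowerSeries (Fin n) ℂ) =
      ∑ o : Option (Fin n), MvPowerSeries.monomial (ex o) (wt c j o) := by
  rw [Fintype.sum_option]
  have h0 : (1 : MvPowerSeries (Fin n) ℂ) = MvPowerSeries.monomial (ex none) (wt c j none) := by
    simp only [ex, wt]
    rw [MvPowerSeries.monomial_zero_one]
  rw [← h0]
  refine congrArg (1 + ·) (sum_congr rfl fun i _ => ?_)
  simp only [ex, wt]
  rw [MvPowerSeries.X_def, ← MvPowerSeries.monomial_zero_eq_C_apply,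
    MvPowerSeries.monomial_mul_monomial, add_zero, one_mul]

theorem ex_apply (o : Option (Fin n)) (i : Fin n) :
    ex o i = if o = some i then 1 else 0 := by
  classical
  cases o with
  | none => simp [ex]
  | some k =>
    simp only [ex, Option.some.injEq]
    rw [Finsupp.single_apply]

/-- choices in which every index is chosen exactly once -/
theorem good_iff (φ : Fin N → Option (Fin n)) :
    (∑ i : Fin n, Finsupp.single i 1 = ∑ j, ex (φ j)) ↔ ∀ i, ∃! j, φ j = some i := by
  classical
  rw [Finsupp.ext_iff]
  refine forall_congr' fun i => ?_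
  rw [Finsupp.finsetSum_apply, Finsupp.finsetSum_apply]
  simp only [ex_apply]
  have h1 : ∑ i' : Fin n, (Finsupp.single i' 1 : Fin n →₀ ℕ) i = 1 := by
    simp [Finsupp.single_apply]
  rw [h1, sum_boole, Nat.cast_id, eq_comm, card_eq_one]
  constructor
  · rintro ⟨j, hj⟩
    refine ⟨j, ?_, fun j' hj' => ?_⟩
    · have : j ∈ filter (fun x => φ x = some i) univ := by rw [hj]; exact mem_singleton_self j
      exact (mem_filter.1 this).2
    · have : j' ∈ filter (fun x => φ x = some i) univ := mem_filter.2 ⟨mem_univ _, hj'⟩
      rw [hj] at this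
      exact mem_singleton.1 this
  · rintro ⟨j, hj, hj'⟩
    refine ⟨j, ?_⟩
    ext x
    rw [mem_filter, mem_singleton]
    exact ⟨fun h => hj' x h.2, fun h => ⟨mem_univ _, by rw [h]; exact hj⟩⟩

end C7Aux

open C7Aux

/-- C7: coefficient extraction -/
theorem C7_coeff {n N : ℕ} (c : Fin n → Fin N → ℂ) :
    MvPowerSeries.coeff (∑ i : Fin n, Finsupp.single i 1)
      (∏ j : Fin N, (1 + ∑ i : Fin n, MvPowerSeries.X i * MvPowerSeries.C (c i j))) =
      ∑ e : Fin n ↪ Fin N, ∏ i, c i (e i) := by
  classical
  rw [prod_congr rfl (fun j _ => factor c j), prod_univ_sum, map_sum]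
  simp only [MvPowerSeries.prod_monomial, MvPowerSeries.coeff_monomial]
  rw [← sum_filter, Fintype.piFinset_univ]
  symm
  refine sum_bij' (fun (e : Fin n ↪ Fin N) _ => Function.partialInv e)
    (fun (φ : Fin N → Option (Fin n)) hφ => (⟨fun i => ((good_iff φ).1 (mem_filter.1 hφ).2 i).choose,
      fun i i' hii => ?_⟩ : Fin n ↪ Fin N)) ?_ ?_ ?_ ?_ ?_
  · have h1 := ((good_iff φ).1 (mem_filter.1 hφ).2 i).choose_spec.1
    have h2 := ((good_iff φ).1 (mem_filter.1 hφ).2 i').choose_spec.1
    simp only at h1 h2 hii
    rw [hii, h2] at h1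
    exact (Option.some.inj h1).symm
  · intro e _
    rw [mem_filter]
    refine ⟨mem_univ _, (good_iff _).2 fun i => ⟨e i, Function.partialInv_left e.injective i,
      fun j hj => ?_⟩⟩
    exact ((e.injective.isPartialInv i j).1 hj).symm
  · intro φ hφ
    exact mem_univ _
  · intro e _
    ext i
    have h := fun (H : ∃! j, Function.partialInv e j = some i) => (e.injective.isPartialInv i _).1
      H.choose_spec.1
    exact congrArg Fin.val (h _).symm
  · intro φ hφ
    funext j
    have H := (good_iff φ).1 (mem_filter.1 hφ).2
    have hinj : Function.Injective (fun i => (H i).choose) := by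
      intro i i' hii
      have h1 := (H i).choose_spec.1
      have h2 := (H i').choose_spec.1
      simp only at h1 h2 hii
      rw [hii, h2] at h1
      exact (Option.some.inj h1).symm
    change Function.partialInv (fun i => (H i).choose) j = φ j
    refine Option.ext fun i => ?_
    change Function.partialInv (fun i => (H i).choose) j = some i ↔ φ j = some i
    rw [hinj.isPartialInv i j]
    constructor
    · intro h
      rw [← h]
      exact (H i).choose_spec.1
    · intro h
      exact ((H i).choose_spec.2 j h).symm
  · intro e _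
    refine Fintype.prod_of_injective e e.injective _ _ ?_ ?_
    · intro j hj
      have : Function.partialInv e j = none := by
        rw [Option.eq_none_iff_forall_ne_some]
        intro i hi
        exact hj ⟨i, (e.injective.isPartialInv i j).1 hi⟩
      rw [this]
      rfl
    · intro i
      rw [Function.partialInv_left e.injective]
      rfl

end Pool.Agent.H808R2.AH
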