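import Mathlib
import Pool.Agent.H808R2.AH.Defs
import Pool.Agent.H808R2.AH.Ord
import Pool.Agent.H808R2.AH.C1
import Pool.Agent.H808R2.AH.C2
import Pool.Agent.H808R2.AH.B
import Pool.Agent.H808R2.AH.C5
import Pool.Agent.H808R2.AH.C6
import Pool.Agent.H808R2.AH.C7

/-! Group C: orthogonality. -/

namespace Pool.Agent.H808R2.AH
open Finset

section
variable (N : ℕ) [NeZero N] {n : ℕ} (k : Fin n → ℤ)

/-- the generating test function -/
noncomputable def hgen (p : Site N) : MvPowerSeries (Fin n) ℂ :=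
  1 + ∑ i : Fin n, MvPowerSeries.X i * MvPowerSeries.C (ch N (k i) p)

noncomputable def Amat : Matrix (ZMod N) (ZMod N) (MvPowerSeries (Fin n) ℂ) :=
  Matrix.of fun x y => if x = y then hgen N k (false, x) else 0

noncomputable def Bmat : Matrix (ZMod N) (ZMod N) (MvPowerSeries (Fin n) ℂ) :=
  Matrix.of fun x y => ∑ z : ZMod N, hgen N k (true, z) *
    algebraMap ℂ (MvPowerSeries (Fin n) ℂ) (Umat N x z * (starRingEnd ℂ) (Umat N y z))

variable (n) in
noncomputable def VcR : Matrix (Fin N) (ZMod N) (MvPowerSeries (Fin n) ℂ) := (Vc N).map MvPowerSeries.C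

variable (n) in
noncomputable def ViR : Matrix (ZMod N) (Fin N) (MvPowerSeries (Fin n) ℂ) := (Vi N).map MvPowerSeries.C

theorem Amat_eq : Amat N k = 1 + ∑ i : Fin n, (MvPowerSeries.X i : MvPowerSeries (Fin n) ℂ) •
    ((Ak N (k i)).map (MvPowerSeries.C (σ := Fin n) (R := ℂ))) := by
  ext1 x y
  simp only [Amat, Matrix.of_apply, Matrix.add_apply, Matrix.sum_apply, Matrix.smul_apply, Matrix.map_apply, Ak,
    smul_eq_mul, hgen]
  by_cases hxy : x = y
  · subst hxy
    simp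
  · simp [hxy, Matrix.one_apply_ne]

theorem Bmat_eq : Bmat N k = 1 + ∑ i : Fin n, (MvPowerSeries.X i : MvPowerSeries (Fin n) ℂ) •
    ((Bk N (k i)).map (MvPowerSeries.C (σ := Fin n) (R := ℂ))) := by
  ext1 x y
  simp only [Bmat, Matrix.of_apply, Matrix.add_apply, Matrix.sum_apply, Matrix.smul_apply, Matrix.map_apply, Bk,
    smul_eq_mul, hgen, add_mul, one_mul, Finset.sum_add_distrib]
  congr 1
  · rw [← map_sum, B_unitary]
    by_cases hxy : x = y
    · subst hxy
      simp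
    · simp [hxy, Matrix.one_apply_ne]
  · simp only [Finset.sum_mul]
    rw [Finset.sum_comm]
    refine Finset.sum_congr rfl fun i _ => ?_
    rw [map_sum, Finset.mul_sum]
    refine Finset.sum_congr rfl fun z _ => ?_
    rw [MvPowerSeries.C.map_mul, mul_assoc]
    rfl

variable (n) in
theorem VcR_ViR : VcR N n * ViR N n = 1 := by
  rw [VcR, ViR, ← Matrix.map_mul, Vc_Vi]
  simp

variable (n) in
theorem ViR_VcR : ViR N n * VcR N n = 1 := by
  rw [VcR, ViR, ← Matrix.map_mul, Vi_Vc]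
  simp

theorem mom_eq (M : ℤ → Matrix (ZMod N) (ZMod N) ℂ) (a b : Fin N) :
    (VcR N n * (∑ i : Fin n, (MvPowerSeries.X i : MvPowerSeries (Fin n) ℂ) •
      ((M (k i)).map (MvPowerSeries.C (σ := Fin n) (R := ℂ)))) * ViR N n) a b =
    ∑ i : Fin n, MvPowerSeries.X i * MvPowerSeries.C ((Vc N * M (k i) * Vi N) a b) := by
  rw [Matrix.mul_sum, Matrix.sum_mul, Matrix.sum_apply]
  refine Finset.sum_congr rfl fun i _ => ?_
  rw [Matrix.mul_smul, Matrix.smul_mul, Matrix.smul_apply, smul_eq_mul, VcR, ViR, ← Matrix.map_mul, ← Matrix.map_mul,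
    Matrix.map_apply]

noncomputable def Pm : Matrix (Fin N) (Fin N) (MvPowerSeries (Fin n) ℂ) := VcR N n * (Amat N k - Bmat N k) * ViR N n
noncomputable def Sm : Matrix (Fin N) (Fin N) (MvPowerSeries (Fin n) ℂ) := VcR N n * (Amat N k + Bmat N k) * ViR N n

theorem Pm_apply (a b : Fin N) : Pm N k a b = ∑ i : Fin n, MvPowerSeries.X i * MvPowerSeries.C
    ((Vc N * Ak N (k i) * Vi N) a b - (Vc N * Bk N (k i) * Vi N) a b) := by
  have h1 : Pm N k = VcR N n * (∑ i : Fin n, (MvPowerSeries.X i : MvPowerSeries (Fin n) ℂ) •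
      ((Ak N (k i)).map (MvPowerSeries.C (σ := Fin n) (R := ℂ)))) * ViR N n - VcR N n * (∑ i : Fin n,
      (MvPowerSeries.X i : MvPowerSeries (Fin n) ℂ) •
      ((Bk N (k i)).map (MvPowerSeries.C (σ := Fin n) (R := ℂ)))) * ViR N n := by
    rw [Pm, Amat_eq, Bmat_eq, add_sub_add_left_eq_sub, Matrix.mul_sub, Matrix.sub_mul]
  rw [h1, Matrix.sub_apply, mom_eq, mom_eq, ← Finset.sum_sub_distrib]
  refine Finset.sum_congr rfl fun i _ => ?_
  rw [map_sub, mul_sub]

theorem Sm_apply (a b : Fin N) : Sm N k a b = (2 : MvPowerSeries (Fin n) ℂ) * (1 : Matrix (Fin N) (Fin N) _) a b +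
    ∑ i : Fin n, MvPowerSeries.X i * MvPowerSeries.C
    ((Vc N * Ak N (k i) * Vi N) a b + (Vc N * Bk N (k i) * Vi N) a b) := by
  have h1 : Sm N k = VcR N n * ViR N n + VcR N n * ViR N n + (VcR N n * (∑ i : Fin n, (MvPowerSeries.X i : MvPowerSeries (Fin n) ℂ) •
      ((Ak N (k i)).map (MvPowerSeries.C (σ := Fin n) (R := ℂ)))) * ViR N n + VcR N n * (∑ i : Fin n,
      (MvPowerSeries.X i : MvPowerSeries (Fin n) ℂ) •
      ((Bk N (k i)).map (MvPowerSeries.C (σ := Fin n) (R := ℂ)))) * ViR N n) := by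
    rw [Sm, Amat_eq, Bmat_eq, add_add_add_comm, Matrix.mul_add, Matrix.add_mul, Matrix.mul_add, Matrix.add_mul,
      Matrix.mul_add, Matrix.add_mul, Matrix.mul_one]
  rw [h1, VcR_ViR]
  simp only [Matrix.add_apply]
  rw [mom_eq, mom_eq, ← Finset.sum_add_distrib]
  congr 1
  · ring
  · refine Finset.sum_congr rfl fun i _ => ?_
    rw [map_add, mul_add]

omit [NeZero N] in
theorem exists_j {a b : Fin N} {k : ℤ} (h : ((((a : ℕ) : ℤ) - ((b : ℕ) : ℤ) + k : ℤ) : ZMod N) = 0) :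
    ∃ j : ℤ, ((a : ℕ) : ℤ) - ((b : ℕ) : ℤ) + k = j * N := by
  rw [ZMod.intCast_zmod_eq_zero_iff_dvd] at h
  obtain ⟨j, hj⟩ := h
  exact ⟨j, by rw [hj]; ring⟩

theorem Pm_ord (a b : Fin N) : Ordk k (dm N a + dm N b) (Pm N k a b) := by
  rw [Pm_apply]
  refine Ordk.sum _ fun i _ => ?_
  rw [VAV, VBV]
  split_ifs with h
  · obtain ⟨j, hj⟩ := exists_j N h
    rcases Int.even_or_odd j with he | ho
    · have h1 : zeta N ^ (((a : ℕ) : ℤ) - ((b : ℕ) : ℤ) + k i) = 1 := by
        rw [hj, mul_comm, zpow_mul, zpow_natCast, zeta_pow_N, he.neg_one_zpow]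
      rw [h1, sub_self, map_zero, mul_zero]
      exact Ordk.zero _
    · exact ((Ordk.X i).mono (dm_odd N a b (k i) j ho hj)).mul_right _
  · rw [sub_self, map_zero, mul_zero]
    exact Ordk.zero _

theorem Sm_ord (a b : Fin N) : Ordk k |dm N a - dm N b| (Sm N k a b) := by
  rw [Sm_apply]
  refine Ordk.add ?_ (Ordk.sum _ fun i _ => ?_)
  · by_cases hab : a = b
    · subst hab
      rw [sub_self, abs_zero]
      exact Ordk.nonneg _
    · rw [Matrix.one_apply_ne hab, mul_zero]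
      exact Ordk.zero _
  · rw [VAV, VBV]
    split_ifs with h
    · obtain ⟨j, hj⟩ := exists_j N h
      exact ((Ordk.X i).mono (dm_lip N a b (k i) j hj)).mul_right _
    · rw [add_zero, map_zero, mul_zero]
      exact Ordk.zero _

theorem Sm_unit : IsUnit (Sm N k).det := by
  rw [MvPowerSeries.isUnit_iff_constantCoeff, RingHom.map_det]
  have h1 : (MvPowerSeries.constantCoeff (σ := Fin n) (R := ℂ)).mapMatrix (Sm N k) =
      (2 : ℂ) • (1 : Matrix (Fin N) (Fin N) ℂ) := by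
    ext a b
    rw [RingHom.mapMatrix_apply, Matrix.map_apply, Sm_apply]
    simp only [map_add, map_sum, map_mul, MvPowerSeries.constantCoeff_X, zero_mul, Finset.sum_const_zero, add_zero,
      Matrix.smul_apply, smul_eq_mul]
    by_cases hab : a = b
    · subst hab
      rw [Matrix.one_apply_eq, Matrix.one_apply_eq, map_one, mul_one, mul_one]
      exact map_ofNat _ 2
    · simp [Matrix.one_apply_ne hab]
  rw [h1, Matrix.det_smul, Matrix.det_one, mul_one]
  exact (isUnit_iff_ne_zero.mpr (by norm_num)).pow _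

noncomputable def Qx : Matrix (ZMod N) (ZMod N) (MvPowerSeries (Fin n) ℂ) :=
  ViR N n * (Pm N k * (Sm N k)⁻¹) * VcR N n

theorem Qx_mul : Qx N k * (Amat N k + Bmat N k) = Amat N k - Bmat N k := by
  have h1 : Amat N k + Bmat N k = ViR N n * Sm N k * VcR N n := by
    rw [Sm]
    have : ViR N n * (VcR N n * (Amat N k + Bmat N k) * ViR N n) * VcR N n =
        (ViR N n * VcR N n) * (Amat N k + Bmat N k) * (ViR N n * VcR N n) := by
      simp only [Matrix.mul_assoc]
    rw [this, ViR_VcR, Matrix.one_mul, Matrix.mul_one]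
  have h2 : Amat N k - Bmat N k = ViR N n * Pm N k * VcR N n := by
    rw [Pm]
    have : ViR N n * (VcR N n * (Amat N k - Bmat N k) * ViR N n) * VcR N n =
        (ViR N n * VcR N n) * (Amat N k - Bmat N k) * (ViR N n * VcR N n) := by
      simp only [Matrix.mul_assoc]
    rw [this, ViR_VcR, Matrix.one_mul, Matrix.mul_one]
  rw [h1, h2, Qx]
  have h3 : ViR N n * (Pm N k * (Sm N k)⁻¹) * VcR N n * (ViR N n * Sm N k * VcR N n) =
      ViR N n * (Pm N k * ((Sm N k)⁻¹ * ((VcR N n * ViR N n) * Sm N k))) * VcR N n := by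
    simp only [Matrix.mul_assoc]
  rw [h3, VcR_ViR, Matrix.one_mul, Matrix.nonsing_inv_mul _ (Sm_unit N k), Matrix.mul_one]

theorem Qx_apply (x y : ZMod N) : Qx N k x y = ∑ a : Fin N, ∑ b : Fin N, MvPowerSeries.C
      ((1 / (N : ℂ)) * ZMod.stdAddChar (-(((a : ℕ) : ZMod N) * x)) * ZMod.stdAddChar (((b : ℕ) : ZMod N) * y)) *
      (Pm N k * (Sm N k)⁻¹) a b := by
  rw [Qx, Matrix.mul_assoc, Matrix.mul_apply]
  refine Finset.sum_congr rfl fun a _ => ?_
  rw [Matrix.mul_apply, Finset.mul_sum]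
  refine Finset.sum_congr rfl fun b _ => ?_
  simp only [ViR, VcR, Matrix.map_apply, Vi, Vc, Matrix.of_apply, map_mul]
  ring

theorem FarSupp.shift {N : ℕ} [NeZero N] {g : ZMod N → ℝ} (hg : FarSupp N g) (t : ZMod N) :
    FarSupp N (fun x => g (x - t)) := by
  intro k hk
  have h := hg k hk
  have h1 : ∑ x : ZMod N, ((g (x - t) : ℝ) : ℂ) * ZMod.stdAddChar ((k : ZMod N) * x) =
      ∑ x : ZMod N, ((g x : ℝ) : ℂ) * ZMod.stdAddChar ((k : ZMod N) * (x + t)) := by
    refine Fintype.sum_equiv (Equiv.subRight t) _ _ fun x => ?_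
    simp
  rw [h1]
  have h2 : ∀ x : ZMod N, ((g x : ℝ) : ℂ) * ZMod.stdAddChar ((k : ZMod N) * (x + t)) =
      ((g x : ℝ) : ℂ) * ZMod.stdAddChar ((k : ZMod N) * x) * ZMod.stdAddChar ((k : ZMod N) * t) := by
    intro x
    rw [show (k : ZMod N) * (x + t) = (k : ZMod N) * x + (k : ZMod N) * t by ring, AddChar.map_add_eq_mul]
    ring
  rw [Finset.sum_congr rfl fun x _ => h2 x, ← Finset.sum_mul, h, zero_mul]

/-- the main estimate: the tilt changes generating functions only in order `≥ 2N` -/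
theorem tilt_ord (ε : ℝ) (g : ZMod N → ℝ) (hg : FarSupp N g) :
    Ordk k (2 * N) ((∑ D : Finset (ZMod N), algebraMap ℝ (MvPowerSeries (Fin n) ℂ) (cD N ε g D) *
        ((Qx N k).submatrix (fun x : {x // x ∈ D} => x.1) (fun x : {x // x ∈ D} => x.1)).det) - 1) := by
  rw [C5_lin, Finset.sum_range_succ']
  have h0 : algebraMap ℝ (MvPowerSeries (Fin n) ℂ) (1 / (Nat.factorial 0 : ℝ) * (ε / 720) ^ 0) *
        ∑ t : Fin 0 → ZMod N, ∑ x : Fin 0 × Fin 6 → ZMod N,
          algebraMap ℝ (MvPowerSeries (Fin n) ℂ) (∏ a, g (x a - t a.1)) *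
            (Matrix.of fun a b => Qx N k (x a) (x b)).det = 1 := by
    simp
  rw [h0, add_sub_cancel_right]
  refine Ordk.sum _ fun m _ => ?_
  refine Ordk.mul_left _ (Ordk.sum _ fun t _ => ?_)
  have h1 := C6_far N k (Pm N k * (Sm N k)⁻¹) (Q_ord (dm N) (Pm N k) (Sm N k) (Pm_ord N k) (Sm_ord N k))
    (Qx N k) (Qx_apply N k) (ι := Fin (m + 1) × Fin 6) (fun a x => g (x - t a.1)) (fun a => hg.shift _)
  refine Ordk.mono ?_ (show (2 * (N : ℝ)) ≤ (Fintype.card (Fin (m + 1) × Fin 6) : ℝ) * (N : ℝ) / 3 by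
    rw [Fintype.card_prod, Fintype.card_fin, Fintype.card_fin]
    push_cast
    have : (0 : ℝ) ≤ N := by positivity
    have : (0 : ℝ) ≤ m := by positivity
    nlinarith)
  convert h1 using 1
  refine Finset.sum_congr rfl fun x _ => ?_
  congr 1
  rw [← Complex.ofReal_prod]
  exact IsScalarTower.algebraMap_apply ℝ ℂ (MvPowerSeries (Fin n) ℂ) _

theorem det_D (D : Finset (ZMod N)) : (Matrix.of fun x y : ZMod N =>
        (if x = y then hgen N k (false, x) else 0) + (if x ∈ D then -1 else 1) *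
          ∑ z : ZMod N, hgen N k (true, z) *
            algebraMap ℂ (MvPowerSeries (Fin n) ℂ) (Umat N x z * (starRingEnd ℂ) (Umat N y z))).det =
      ((Qx N k).submatrix (fun x : {x // x ∈ D} => x.1) (fun x : {x // x ∈ D} => x.1)).det *
        (Amat N k + Bmat N k).det := by
  rw [← C4_det (Amat N k - Bmat N k) (Amat N k + Bmat N k) (Qx N k) (Qx_mul N k) D]
  congr 1
  ext1 x y
  simp only [Matrix.of_apply, Matrix.sub_apply, Matrix.add_apply, Amat, Bmat]
  by_cases hx : x ∈ D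
  · simp only [hx, if_true]
    ring
  · simp only [hx, if_false]
    ring

theorem gen_mu (ε : ℝ) (g : ZMod N → ℝ) :
    ∑ s : Fin N → Site N, algebraMap ℂ (MvPowerSeries (Fin n) ℂ) (mu N ε g s : ℂ) * ∏ j, hgen N k (s j) =
      algebraMap ℂ (MvPowerSeries (Fin n) ℂ) (1 / 2 ^ N) * (∑ D : Finset (ZMod N),
        algebraMap ℝ (MvPowerSeries (Fin n) ℂ) (cD N ε g D) *
        ((Qx N k).submatrix (fun x : {x // x ∈ D} => x.1) (fun x : {x // x ∈ D} => x.1)).det) *
        (Amat N k + Bmat N k).det := by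
  have h1 : ∀ s : Fin N → Site N, algebraMap ℂ (MvPowerSeries (Fin n) ℂ) (mu N ε g s : ℂ) * ∏ j, hgen N k (s j) =
      ∑ D : Finset (ZMod N), algebraMap ℝ (MvPowerSeries (Fin n) ℂ) (cD N ε g D) *
        (algebraMap ℂ (MvPowerSeries (Fin n) ℂ) ((wP N s * ∏ x ∈ D, sg s x : ℝ) : ℂ) * ∏ j, hgen N k (s j)) := by
    intro s
    have h2 : algebraMap ℂ (MvPowerSeries (Fin n) ℂ) (mu N ε g s : ℂ) =
        ∑ D : Finset (ZMod N), algebraMap ℝ (MvPowerSeries (Fin n) ℂ) (cD N ε g D) *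
          algebraMap ℂ (MvPowerSeries (Fin n) ℂ) ((wP N s * ∏ x ∈ D, sg s x : ℝ) : ℂ) := by
      unfold mu Gt
      rw [Finset.mul_sum, Complex.ofReal_sum, map_sum]
      refine Finset.sum_congr rfl fun D _ => ?_
      rw [IsScalarTower.algebraMap_apply ℝ ℂ (MvPowerSeries (Fin n) ℂ), ← map_mul]
      congr 1
      change _ = ((cD N ε g D : ℝ) : ℂ) * _
      rw [← Complex.ofReal_mul]
      congr 1
      ring
    rw [h2, Finset.sum_mul]
    refine Finset.sum_congr rfl fun D _ => ?_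
    ring
  rw [Finset.sum_congr rfl fun s _ => h1 s, Finset.sum_comm, Finset.mul_sum, Finset.sum_mul]
  refine Finset.sum_congr rfl fun D _ => ?_
  rw [← Finset.mul_sum]
  have h3 := B_det N (hgen N k) D
  have h4 := det_D N k D
  have h5 : ∑ s : Fin N → Site N, algebraMap ℂ (MvPowerSeries (Fin n) ℂ) ((wP N s * ∏ x ∈ D, sg s x : ℝ) : ℂ) *
      ∏ j, hgen N k (s j) = algebraMap ℂ (MvPowerSeries (Fin n) ℂ) (1 / 2 ^ N) *
      (((Qx N k).submatrix (fun x : {x // x ∈ D} => x.1) (fun x : {x // x ∈ D} => x.1)).det *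
        (Amat N k + Bmat N k).det) := by
    rw [← h4]
    convert h3 using 4
  rw [h5]
  ring

theorem gen_wP :
    ∑ s : Fin N → Site N, algebraMap ℂ (MvPowerSeries (Fin n) ℂ) (wP N s : ℂ) * ∏ j, hgen N k (s j) =
      algebraMap ℂ (MvPowerSeries (Fin n) ℂ) (1 / 2 ^ N) * (Amat N k + Bmat N k).det := by
  have h3 := B_det N (hgen N k) ∅
  have h4 := det_D N k ∅
  have h5 : ((Qx N k).submatrix (fun x : {x // x ∈ (∅ : Finset (ZMod N))} => x.1)
      (fun x : {x // x ∈ (∅ : Finset (ZMod N))} => x.1)).det = 1 := Matrix.det_isEmpty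
  rw [h5, one_mul] at h4
  rw [← h4]
  convert h3 using 4
  rw [Finset.prod_empty, mul_one]

end

/-- C -/
theorem C_orth (N : ℕ) [NeZero N] (ε : ℝ) (g : ZMod N → ℝ) (hg : FarSupp N g) {n : ℕ} (k : Fin n → ℤ)
    (hk0 : ∑ i, k i = 0) (hk : ∑ i, |k i| < 2 * N) :
    ∑ s : Fin N → Site N, (mu N ε g s : ℂ) * ∑ j : Fin n ↪ Fin N, ∏ i, ch N (k i) (s (j i)) =
      ∑ s : Fin N → Site N, (wP N s : ℂ) * ∑ j : Fin n ↪ Fin N, ∏ i, ch N (k i) (s (j i)) := by
  have _ := hk0
  set e1 : Fin n →₀ ℕ := ∑ i : Fin n, Finsupp.single i 1 with he1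
  have hco : ∀ w : (Fin N → Site N) → ℝ, MvPowerSeries.coeff e1
      (∑ s : Fin N → Site N, algebraMap ℂ (MvPowerSeries (Fin n) ℂ) (w s : ℂ) * ∏ j, hgen N k (s j)) =
      ∑ s : Fin N → Site N, (w s : ℂ) * ∑ j : Fin n ↪ Fin N, ∏ i, ch N (k i) (s (j i)) := by
    intro w
    rw [map_sum]
    refine Finset.sum_congr rfl fun s _ => ?_
    have h1 : algebraMap ℂ (MvPowerSeries (Fin n) ℂ) (w s : ℂ) * ∏ j, hgen N k (s j) =
        (w s : ℂ) • ∏ j, hgen N k (s j) := by
      rw [Algebra.smul_def]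
    rw [h1, map_smul, smul_eq_mul]
    congr 1
    exact C7_coeff (fun i j => ch N (k i) (s j))
  rw [← hco, ← hco, gen_mu, gen_wP, ← sub_eq_zero, ← map_sub]
  have h2 : algebraMap ℂ (MvPowerSeries (Fin n) ℂ) (1 / 2 ^ N) * (∑ D : Finset (ZMod N),
        algebraMap ℝ (MvPowerSeries (Fin n) ℂ) (cD N ε g D) *
        ((Qx N k).submatrix (fun x : {x // x ∈ D} => x.1) (fun x : {x // x ∈ D} => x.1)).det) *
        (Amat N k + Bmat N k).det - algebraMap ℂ (MvPowerSeries (Fin n) ℂ) (1 / 2 ^ N) * (Amat N k + Bmat N k).det =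
      (algebraMap ℂ (MvPowerSeries (Fin n) ℂ) (1 / 2 ^ N) * ((∑ D : Finset (ZMod N),
        algebraMap ℝ (MvPowerSeries (Fin n) ℂ) (cD N ε g D) *
        ((Qx N k).submatrix (fun x : {x // x ∈ D} => x.1) (fun x : {x // x ∈ D} => x.1)).det) - 1)) *
        (Amat N k + Bmat N k).det := by
    ring
  rw [h2]
  by_contra hne
  have h3 := ((tilt_ord N k ε g hg).mul_left (algebraMap ℂ (MvPowerSeries (Fin n) ℂ) (1 / 2 ^ N))).mul_right
    (Amat N k + Bmat N k).det e1 hne
  have h4 : ∑ i, |(k i : ℝ)| * (e1 i : ℝ) = ∑ i, |(k i : ℝ)| := by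
    refine Finset.sum_congr rfl fun i _ => ?_
    have : e1 i = 1 := by
      rw [he1, Finsupp.finsetSum_apply, Finset.sum_eq_single i]
      · simp
      · intro j _ hj
        simp [hj]
      · simp
    rw [this]
    simp
  rw [h4] at h3
  have h5 : ((∑ i, |k i| : ℤ) : ℝ) < 2 * N := by
    have := (Int.cast_lt (R := ℝ)).mpr hk
    push_cast at this ⊢
    exact this
  push_cast at h5
  linarith

end Pool.Agent.H808R2.AH
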