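import Pool.Agent.H808R2.AH.Defs

/-!
# Task D1: the multilinear coefficients of `exp Ψ`
-/

set_option autoImplicit false
set_option linter.unusedSectionVars false

namespace Pool.Agent.H808R2.AH
open Finset MvPolynomial

section gen

variable {α : Type*} [Fintype α] [DecidableEq α]

/-- the squarefree exponent of a finite set -/
noncomputable def d1_ind (D : Finset α) : α →₀ ℕ := ∑ x ∈ D, Finsupp.single x 1

theorem d1_ind_apply (D : Finset α) (y : α) : d1_ind D y = if y ∈ D then 1 else 0 := by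
  unfold d1_ind
  rw [Finsupp.finsetSum_apply]
  simp only [Finsupp.single_apply]
  rw [Finset.sum_ite_eq']

theorem d1_ind_empty : d1_ind (∅ : Finset α) = 0 := by simp [d1_ind]

theorem d1_ind_insert {D : Finset α} {x : α} (hx : x ∉ D) :
    d1_ind (insert x D) = d1_ind D + Finsupp.single x 1 := by
  unfold d1_ind
  rw [Finset.sum_insert hx, add_comm]

theorem d1_ind_inj {D E : Finset α} (h : d1_ind D = d1_ind E) : D = E := by
  ext y
  have h1 := DFunLike.congr_fun h y
  rw [d1_ind_apply, d1_ind_apply] at h1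
  by_cases hD : y ∈ D <;> by_cases hE : y ∈ E <;> simp_all

theorem d1_ind_degree (D : Finset α) : (d1_ind D).degree = #D := by
  unfold d1_ind
  rw [map_sum]
  simp

theorem d1_coeff_pderiv (f : MvPolynomial α ℝ) {D : Finset α} {x : α} (hx : x ∈ D) :
    coeff (d1_ind D) f = coeff (d1_ind (D.erase x)) (pderiv x f) := by
  rw [coeff_pderiv, ← d1_ind_insert (notMem_erase x D), insert_erase hx, d1_ind_apply,
    if_neg (notMem_erase x D)]
  simp

/-- a linear form -/
noncomputable def d1_L (a : α → ℝ) : MvPolynomial α ℝ := ∑ x, C (a x) * X x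

theorem d1_pderiv_L (a : α → ℝ) (x : α) : pderiv x (d1_L a) = C (a x) := by
  unfold d1_L
  rw [map_sum, Finset.sum_eq_single x]
  · rw [Derivation.leibniz, pderiv_C, pderiv_X_self]
    simp
  · intro y _ hy
    rw [Derivation.leibniz, pderiv_C, pderiv_X_of_ne hy]
    simp
  · intro h
    exact absurd (mem_univ x) h

theorem d1_coeff_L (a : α → ℝ) (n : ℕ) : ∀ D : Finset α,
    coeff (d1_ind D) (d1_L a ^ n) = if #D = n then (n.factorial : ℝ) * ∏ x ∈ D, a x else 0 := by
  induction n with
  | zero =>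
    intro D
    rw [pow_zero, coeff_one]
    by_cases hD : D = ∅
    · subst hD
      simp [d1_ind_empty]
    · rw [if_neg, if_neg]
      · rwa [card_eq_zero]
      · intro h
        apply hD
        apply d1_ind_inj
        rw [← h, d1_ind_empty]
  | succ n ih =>
    intro D
    by_cases hD : D = ∅
    · subst hD
      rw [if_neg (by simp), d1_ind_empty, ← constantCoeff_eq, map_pow]
      have : constantCoeff (d1_L a) = 0 := by simp [d1_L]
      rw [this]
      simp
    · obtain ⟨x, hx⟩ := nonempty_iff_ne_empty.2 hD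
      rw [d1_coeff_pderiv _ hx, pderiv_pow, d1_pderiv_L]
      have e : (((n + 1 : ℕ) : MvPolynomial α ℝ) * d1_L a ^ (n + 1 - 1) * C (a x)) =
          C (((n + 1 : ℕ) : ℝ) * a x) * d1_L a ^ n := by
        rw [C_mul, Nat.add_sub_cancel, map_natCast]
        ring
      rw [e, coeff_C_mul, ih, card_erase_of_mem hx]
      have hc : 1 ≤ #D := card_pos.2 ⟨x, hx⟩
      by_cases h : #D = n + 1
      · rw [if_pos (by omega), if_pos h, ← mul_prod_erase D a hx, Nat.factorial_succ]
        push_cast
        ring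
      · rw [if_neg (by omega), if_neg h, mul_zero]

/-- coefficients of a product at a squarefree exponent -/
theorem d1_coeff_mul (f h : MvPolynomial α ℝ) (D : Finset α) :
    coeff (d1_ind D) (f * h) =
      ∑ A ∈ D.powerset, coeff (d1_ind A) f * coeff (d1_ind (D \ A)) h := by
  rw [coeff_mul]
  symm
  refine Finset.sum_bij (fun A _ => (d1_ind A, d1_ind (D \ A))) ?_ ?_ ?_ ?_
  · intro A hA
    rw [mem_powerset] at hA
    rw [HasAntidiagonal.mem_antidiagonal]
    ext y
    rw [Finsupp.add_apply, d1_ind_apply, d1_ind_apply, d1_ind_apply]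
    by_cases h1 : y ∈ A
    · simp [h1, hA h1]
    · simp [h1]
  · intro A _ A' _ h1
    exact d1_ind_inj (congrArg Prod.fst h1)
  · rintro ⟨e1, e2⟩ he
    rw [HasAntidiagonal.mem_antidiagonal] at he
    have h1 : ∀ y, e1 y + e2 y = if y ∈ D then 1 else 0 := by
      intro y
      rw [← d1_ind_apply, ← he, Finsupp.add_apply]
    refine ⟨e1.support, ?_, ?_⟩
    · rw [mem_powerset]
      intro y hy
      rw [Finsupp.mem_support_iff] at hy
      have := h1 y
      by_contra hyD
      rw [if_neg hyD] at this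
      omega
    · refine Prod.ext ?_ ?_
      · ext y
        simp only [d1_ind_apply, Finsupp.mem_support_iff]
        have := h1 y
        by_cases h2 : e1 y = 0
        · simp [h2]
        · rw [if_pos h2]
          split_ifs at this <;> omega
      · ext y
        simp only [d1_ind_apply, Finsupp.mem_support_iff, mem_sdiff, ne_eq, not_not]
        have := h1 y
        by_cases h3 : y ∈ D
        · rw [if_pos h3] at this
          by_cases h2 : e1 y = 0
          · rw [if_pos ⟨h3, h2⟩]
            omega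
          · rw [if_neg (fun h => h2 h.2)]
            omega
        · rw [if_neg h3] at this
          rw [if_neg (fun h => h3 h.1)]
          omega
  · intro A _
    rfl

end gen

section main

variable (N : ℕ) [NeZero N] (ε : ℝ) (g : ZMod N → ℝ)

theorem d1_cD (D : Finset (ZMod N)) : cD N ε g D = coeff (d1_ind D) (Epol N ε g) := rfl

theorem d1_Psi : Psi N ε g = ∑ t : ZMod N, C (ε / 720) * d1_L (fun x => g (x - t)) ^ 6 := rfl

theorem d1_Psi_const : constantCoeff (Psi N ε g) = 0 := by
  rw [d1_Psi, map_sum]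
  refine Finset.sum_eq_zero fun t _ => ?_
  rw [map_mul, map_pow]
  have : constantCoeff (d1_L fun x => g (x - t)) = 0 := by simp [d1_L]
  rw [this]
  simp

theorem d1_Psi_coeff (D : Finset (ZMod N)) : coeff (d1_ind D) (Psi N ε g) =
    if #D = 6 then ε * ∑ t : ZMod N, ∏ x ∈ D, g (x - t) else 0 := by
  rw [d1_Psi, coeff_sum]
  by_cases h : #D = 6
  · rw [if_pos h, Finset.mul_sum]
    refine Finset.sum_congr rfl fun t _ => ?_
    rw [coeff_C_mul, d1_coeff_L, if_pos h]
    norm_num [Nat.factorial]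
    ring
  · rw [if_neg h]
    refine Finset.sum_eq_zero fun t _ => ?_
    rw [coeff_C_mul, d1_coeff_L, if_neg h, mul_zero]

theorem d1_Psi_hom : (Psi N ε g).IsHomogeneous 6 := by
  rw [d1_Psi]
  refine IsHomogeneous.sum _ _ _ fun t _ => ?_
  have h1 : (d1_L fun x => g (x - t)).IsHomogeneous 1 := by
    unfold d1_L
    refine IsHomogeneous.sum _ _ _ fun x _ => ?_
    exact isHomogeneous_C_mul_X _ _
  have h2 := (isHomogeneous_C (ZMod N) (ε / 720)).mul (h1.pow 6)
  simpa using h2

theorem D1_empty : cD N ε g ∅ = 1 := by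
  rw [d1_cD, d1_ind_empty, ← constantCoeff_eq]
  unfold Epol
  rw [map_sum, Finset.sum_range_succ', Finset.sum_eq_zero]
  · simp
  · intro m _
    rw [map_mul, map_pow, d1_Psi_const]
    simp

theorem d1_pderiv_E (x : ZMod N) : pderiv x (Epol N ε g) =
    (Epol N ε g - C (1 / (N.factorial : ℝ)) * Psi N ε g ^ N) * pderiv x (Psi N ε g) := by
  have h1 : Epol N ε g - C (1 / (N.factorial : ℝ)) * Psi N ε g ^ N =
      ∑ m ∈ range N, C (1 / (m.factorial : ℝ)) * Psi N ε g ^ m := by
    unfold Epol
    rw [Finset.sum_range_succ]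
    ring
  rw [h1]
  unfold Epol
  rw [map_sum, Finset.sum_range_succ', Finset.sum_mul]
  have h2 : pderiv x (C (1 / ((0 : ℕ).factorial : ℝ)) * Psi N ε g ^ 0) = 0 := by
    rw [pow_zero, mul_one, pderiv_C]
  rw [h2, add_zero]
  refine Finset.sum_congr rfl fun m _ => ?_
  rw [Derivation.leibniz, pderiv_C, smul_zero, add_zero, pderiv_pow, smul_eq_mul]
  have h3 : (C (1 / ((m + 1).factorial : ℝ)) : MvPolynomial (ZMod N) ℝ) * ((m + 1 : ℕ) :
      MvPolynomial (ZMod N) ℝ) = C (1 / (m.factorial : ℝ)) := by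
    rw [← map_natCast C, ← C_mul]
    congr 1
    rw [Nat.factorial_succ]
    push_cast
    have : (m.factorial : ℝ) ≠ 0 := by positivity
    field_simp
  rw [Nat.add_sub_cancel, ← h3]
  ring

theorem D1_rec (D : Finset (ZMod N)) (x : ZMod N) (hx : x ∈ D) :
    cD N ε g D = ∑ B ∈ (D.powersetCard 6).filter (fun B => x ∈ B),
      (ε * ∑ t : ZMod N, ∏ y ∈ B, g (y - t)) * cD N ε g (D \ B) := by
  have hN : 0 < N := Nat.pos_of_ne_zero (NeZero.ne N)
  rw [d1_cD, d1_coeff_pderiv _ hx, d1_pderiv_E, d1_coeff_mul]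
  have h1 : ∀ A ∈ (D.erase x).powerset,
      coeff (d1_ind A) (Epol N ε g - C (1 / (N.factorial : ℝ)) * Psi N ε g ^ N) *
        coeff (d1_ind (D.erase x \ A)) (pderiv x (Psi N ε g)) =
      if #(D \ A) = 6 then (ε * ∑ t : ZMod N, ∏ y ∈ D \ A, g (y - t)) * cD N ε g A else 0 := by
    intro A hA
    rw [mem_powerset] at hA
    have hxA : x ∉ A := fun h => (notMem_erase x D) (hA h)
    have hxD : x ∈ D \ A := mem_sdiff.2 ⟨hx, hxA⟩
    have e1 : D.erase x \ A = (D \ A).erase x := by
      ext y
      simp only [mem_sdiff, mem_erase]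
      tauto
    rw [e1, ← d1_coeff_pderiv _ hxD, d1_Psi_coeff]
    have e2 : coeff (d1_ind A) (Psi N ε g ^ N) = 0 := by
      refine ((d1_Psi_hom N ε g).pow N).coeff_eq_zero ?_
      rw [d1_ind_degree]
      have := card_le_univ A
      rw [ZMod.card] at this
      omega
    rw [coeff_sub, coeff_C_mul, e2, mul_zero, sub_zero, ← d1_cD]
    split_ifs
    · ring
    · rw [mul_zero]
  rw [Finset.sum_congr rfl h1, ← Finset.sum_filter]
  refine Finset.sum_bij' (fun A _ => D \ A) (fun B _ => D \ B) ?_ ?_ ?_ ?_ ?_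
  · intro A hA
    rw [mem_filter, mem_powerset] at hA
    rw [mem_filter, mem_powersetCard]
    exact ⟨⟨sdiff_subset, hA.2⟩, mem_sdiff.2 ⟨hx, fun h => (notMem_erase x D) (hA.1 h)⟩⟩
  · intro B hB
    rw [mem_filter, mem_powersetCard] at hB
    rw [mem_filter, mem_powerset, Finset.sdiff_sdiff_eq_self hB.1.1]
    refine ⟨fun y hy => ?_, hB.1.2⟩
    rw [mem_sdiff] at hy
    rw [mem_erase]
    refine ⟨?_, hy.1⟩
    rintro rfl
    exact hy.2 hB.2
  · intro A hA
    rw [mem_filter, mem_powerset] at hA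
    exact Finset.sdiff_sdiff_eq_self (hA.1.trans (erase_subset x D))
  · intro B hB
    rw [mem_filter, mem_powersetCard] at hB
    exact Finset.sdiff_sdiff_eq_self hB.1.1
  · intro A hA
    rw [mem_filter, mem_powerset] at hA
    rw [Finset.sdiff_sdiff_eq_self (hA.1.trans (erase_subset x D))]

theorem D1_small (D : Finset (ZMod N)) (h1 : 1 ≤ #D) (h5 : #D ≤ 5) : cD N ε g D = 0 := by
  obtain ⟨x, hx⟩ := card_pos.1 h1
  rw [D1_rec N ε g D x hx, powersetCard_eq_empty.2 (by omega)]
  simp

theorem D1_six (D : Finset (ZMod N)) (h6 : #D = 6) :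
    cD N ε g D = ε * ∑ t : ZMod N, ∏ x ∈ D, g (x - t) := by
  obtain ⟨x, hx⟩ := card_pos.1 (show 0 < #D by omega)
  rw [D1_rec N ε g D x hx]
  have h : (D.powersetCard 6).filter (fun B => x ∈ B) = {D} := by
    rw [← h6, powersetCard_self]
    ext B
    simp only [mem_filter, mem_singleton]
    constructor
    · exact fun h => h.1
    · rintro rfl
      exact ⟨rfl, hx⟩
  rw [h, sum_singleton, sdiff_self]
  have : cD N ε g ∅ = 1 := D1_empty N ε g
  rw [show (⊥ : Finset (ZMod N)) = ∅ from rfl, this, mul_one]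

end main

end Pool.Agent.H808R2.AH
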