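import Pool.Agent.H808R2.AH.D1

/-!
# Task D2: positivity of the tilt
-/

set_option autoImplicit false

namespace Pool.Agent.H808R2.AH
open Finset

section gen

variable {α : Type*} [DecidableEq α]

/-- elementary symmetric sums are at most the power of the sum divided by the factorial -/
theorem d2_esymm (a : α → ℝ) (ha : ∀ x, 0 ≤ a x) (s : Finset α) (n : ℕ) :
    (n.factorial : ℝ) * ∑ C ∈ s.powersetCard n, ∏ y ∈ C, a y ≤ (∑ y ∈ s, a y) ^ n := by
  induction n with
  | zero => simp
  | succ n ih =>
    have h1 : ((n + 1 : ℕ) : ℝ) * ∑ C ∈ s.powersetCard (n + 1), ∏ y ∈ C, a y =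
        ∑ y ∈ s, a y * ∑ C ∈ (s.powersetCard (n + 1)).filter (fun C => y ∈ C),
          ∏ z ∈ C.erase y, a z := by
      have h2 : ∀ C ∈ s.powersetCard (n + 1), ((n + 1 : ℕ) : ℝ) * ∏ y ∈ C, a y =
          ∑ y ∈ C, a y * ∏ z ∈ C.erase y, a z := by
        intro C hC
        rw [mem_powersetCard] at hC
        rw [Finset.sum_congr rfl (fun y hy => mul_prod_erase C a hy), sum_const, hC.2,
          nsmul_eq_mul]
      rw [Finset.mul_sum, Finset.sum_congr rfl h2]
      simp only [Finset.mul_sum]
      refine Finset.sum_comm' fun C y => ?_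
      rw [mem_filter, mem_powersetCard]
      constructor
      · rintro ⟨h3, h4⟩
        exact ⟨⟨h3, h4⟩, h3.1 h4⟩
      · rintro ⟨⟨h3, h4⟩, -⟩
        exact ⟨h3, h4⟩
    have h3 : ∀ y ∈ s, ∑ C ∈ (s.powersetCard (n + 1)).filter (fun C => y ∈ C),
        ∏ z ∈ C.erase y, a z ≤ ∑ C ∈ s.powersetCard n, ∏ z ∈ C, a z := by
      intro y _
      have h4 : ∑ C ∈ (s.powersetCard (n + 1)).filter (fun C => y ∈ C), ∏ z ∈ C.erase y, a z =
          ∑ C ∈ ((s.powersetCard (n + 1)).filter (fun C => y ∈ C)).image (fun C => C.erase y),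
            ∏ z ∈ C, a z := by
        rw [Finset.sum_image]
        intro C hC C' hC' h
        have hC1 : y ∈ C := (mem_filter.1 hC).2
        have hC2 : y ∈ C' := (mem_filter.1 hC').2
        simp only at h
        rw [← insert_erase hC1, ← insert_erase hC2, h]
      rw [h4]
      refine Finset.sum_le_sum_of_subset_of_nonneg ?_ fun C _ _ => prod_nonneg fun z _ => ha z
      intro C hC
      obtain ⟨C', hC', rfl⟩ := mem_image.1 hC
      rw [mem_filter, mem_powersetCard] at hC'
      rw [mem_powersetCard, card_erase_of_mem hC'.2]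
      exact ⟨(erase_subset _ _).trans hC'.1.1, by omega⟩
    have h5 : ((n + 1 : ℕ) : ℝ) * ∑ C ∈ s.powersetCard (n + 1), ∏ y ∈ C, a y ≤
        (∑ y ∈ s, a y) * ∑ C ∈ s.powersetCard n, ∏ z ∈ C, a z := by
      rw [h1, Finset.sum_mul]
      exact Finset.sum_le_sum fun y hy => mul_le_mul_of_nonneg_left (h3 y hy) (ha y)
    have hS : 0 ≤ ∑ y ∈ s, a y := sum_nonneg fun y _ => ha y
    have hf : (0 : ℝ) ≤ (n.factorial : ℝ) := by positivity
    calc ((n + 1).factorial : ℝ) * ∑ C ∈ s.powersetCard (n + 1), ∏ y ∈ C, a y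
        = (n.factorial : ℝ) * (((n + 1 : ℕ) : ℝ) * ∑ C ∈ s.powersetCard (n + 1), ∏ y ∈ C, a y) := by
          rw [Nat.factorial_succ]; push_cast; ring
      _ ≤ (n.factorial : ℝ) * ((∑ y ∈ s, a y) * ∑ C ∈ s.powersetCard n, ∏ z ∈ C, a z) :=
          mul_le_mul_of_nonneg_left h5 hf
      _ = (∑ y ∈ s, a y) * ((n.factorial : ℝ) * ∑ C ∈ s.powersetCard n, ∏ z ∈ C, a z) := by ring
      _ ≤ (∑ y ∈ s, a y) * (∑ y ∈ s, a y) ^ n := mul_le_mul_of_nonneg_left ih hS
      _ = _ := by ring

/-- the induction -/
theorem d2_ind (w c σ : Finset α → ℝ) (h0 : c ∅ = 1) (hσ0 : σ ∅ = 1)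
    (hσ : ∀ D B, B ⊆ D → σ D = σ B * σ (D \ B)) (hσ1 : ∀ D, |σ D| = 1)
    (hrec : ∀ D, ∀ x ∈ D, c D = ∑ B ∈ (D.powersetCard 6).filter (fun B => x ∈ B),
      w B * c (D \ B))
    (hw : ∀ (Λ : Finset α), ∀ x ∈ Λ,
      ∑ B ∈ (Λ.powersetCard 6).filter (fun B => x ∈ B), |w B| ≤ 1 / 120)
    (Λ : Finset α) :
    0 < ∑ D ∈ Λ.powerset, c D * σ D ∧ ∀ x ∈ Λ,
      ∑ D ∈ (Λ.erase x).powerset, c D * σ D ≤ 2 * ∑ D ∈ Λ.powerset, c D * σ D := by
  set Z : Finset α → ℝ := fun Λ => ∑ D ∈ Λ.powerset, c D * σ D with hZ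
  change 0 < Z Λ ∧ ∀ x ∈ Λ, Z (Λ.erase x) ≤ 2 * Z Λ
  induction Λ using Finset.strongInduction with
  | H Λ ih =>
    have hdec : ∀ x ∈ Λ, Z Λ = Z (Λ.erase x) +
        ∑ B ∈ (Λ.powersetCard 6).filter (fun B => x ∈ B), w B * σ B * Z (Λ \ B) := by
      intro x hx
      have h1 : Z Λ = ∑ D ∈ Λ.powerset.filter (fun D => ¬ x ∈ D), c D * σ D +
          ∑ D ∈ Λ.powerset.filter (fun D => x ∈ D), c D * σ D := by
        rw [add_comm]
        exact (Finset.sum_filter_add_sum_filter_not _ _ _).symm
      rw [h1]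
      congr 1
      · refine Finset.sum_congr ?_ fun _ _ => rfl
        ext D
        rw [mem_filter, mem_powerset, mem_powerset, subset_erase]
      · have h2 : ∀ D ∈ Λ.powerset.filter (fun D => x ∈ D), c D * σ D =
            ∑ B ∈ (D.powersetCard 6).filter (fun B => x ∈ B),
              w B * σ B * (c (D \ B) * σ (D \ B)) := by
          intro D hD
          rw [mem_filter] at hD
          rw [hrec D x hD.2, Finset.sum_mul]
          refine Finset.sum_congr rfl fun B hB => ?_
          rw [mem_filter, mem_powersetCard] at hB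
          rw [hσ D B hB.1.1]
          ring
        rw [Finset.sum_congr rfl h2]
        rw [Finset.sum_comm' (s' := fun B => Λ.powerset.filter (fun D => B ⊆ D))
          (t' := (Λ.powersetCard 6).filter (fun B => x ∈ B))]
        · refine Finset.sum_congr rfl fun B hB => ?_
          rw [mem_filter, mem_powersetCard] at hB
          rw [← Finset.mul_sum]
          congr 1
          refine Finset.sum_bij' (fun D _ => D \ B) (fun E _ => E ∪ B) ?_ ?_ ?_ ?_ ?_
          · intro D hD
            rw [mem_filter, mem_powerset] at hD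
            rw [mem_powerset]
            exact sdiff_subset_sdiff hD.1 (subset_refl B)
          · intro E hE
            rw [mem_powerset] at hE
            rw [mem_filter, mem_powerset]
            exact ⟨union_subset (hE.trans sdiff_subset) hB.1.1, subset_union_right⟩
          · intro D hD
            rw [mem_filter, mem_powerset] at hD
            exact sdiff_union_of_subset hD.2
          · intro E hE
            rw [mem_powerset] at hE
            ext y
            simp only [mem_sdiff, mem_union]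
            constructor
            · rintro ⟨h3 | h3, h4⟩
              · exact h3
              · exact absurd h3 h4
            · intro h3
              exact ⟨Or.inl h3, (mem_sdiff.1 (hE h3)).2⟩
          · intro D _
            rfl
        · intro D B
          simp only [mem_filter, mem_powerset, mem_powersetCard]
          constructor
          · rintro ⟨⟨h3, h4⟩, ⟨h5, h6⟩, h7⟩
            exact ⟨⟨h3, h5⟩, ⟨h5.trans h3, h6⟩, h7⟩
          · rintro ⟨⟨h3, h4⟩, ⟨h5, h6⟩, h7⟩
            exact ⟨⟨h3, h4 h7⟩, ⟨h4, h6⟩, h7⟩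
    have hrem : ∀ Λ' ⊂ Λ, ∀ C ⊆ Λ', 0 < Z Λ' ∧ 0 < Z (Λ' \ C) ∧ Z (Λ' \ C) ≤ 2 ^ #C * Z Λ' := by
      intro Λ' hΛ' C
      induction C using Finset.induction_on with
      | empty =>
        intro _
        have := (ih Λ' hΛ').1
        simp [this]
      | insert y C hy ihC =>
        intro hC
        have hC1 : C ⊆ Λ' := (subset_insert y C).trans hC
        obtain ⟨h1, h2, h3⟩ := ihC hC1
        have hy' : y ∈ Λ' \ C := mem_sdiff.2 ⟨hC (mem_insert_self y C), hy⟩
        have hss : Λ' \ C ⊂ Λ := lt_of_le_of_lt (show Λ' \ C ≤ Λ' from sdiff_subset) hΛ'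
        have e1 : Λ' \ insert y C = (Λ' \ C).erase y := by
          ext z
          simp only [mem_sdiff, mem_insert, mem_erase]
          tauto
        have hss2 : (Λ' \ C).erase y ⊂ Λ := lt_of_le_of_lt
          (show (Λ' \ C).erase y ≤ Λ' \ C from erase_subset _ _) hss
        rw [e1]
        refine ⟨h1, (ih _ hss2).1, ?_⟩
        rw [card_insert_of_notMem hy, pow_succ]
        have h4 := (ih _ hss).2 y hy'
        linarith
    rcases Λ.eq_empty_or_nonempty with rfl | ⟨x₀, hx₀⟩
    · refine ⟨?_, fun x hx => absurd hx (notMem_empty x)⟩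
      simp [hZ, h0, hσ0]
    · have hmain : ∀ x ∈ Λ, 0 < Z (Λ.erase x) ∧ Z (Λ.erase x) ≤ 2 * Z Λ := by
        intro x hx
        have hss : Λ.erase x ⊂ Λ := erase_ssubset hx
        have hpos : 0 < Z (Λ.erase x) := (ih _ hss).1
        refine ⟨hpos, ?_⟩
        have hb : |∑ B ∈ (Λ.powersetCard 6).filter (fun B => x ∈ B), w B * σ B * Z (Λ \ B)| ≤
            (1 / 120) * (32 * Z (Λ.erase x)) := by
          refine (Finset.abs_sum_le_sum_abs _ _).trans ?_
          calc ∑ B ∈ (Λ.powersetCard 6).filter (fun B => x ∈ B), |w B * σ B * Z (Λ \ B)|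
              ≤ ∑ B ∈ (Λ.powersetCard 6).filter (fun B => x ∈ B),
                  |w B| * (32 * Z (Λ.erase x)) := by
                refine Finset.sum_le_sum fun B hB => ?_
                rw [mem_filter, mem_powersetCard] at hB
                have e1 : Λ \ B = Λ.erase x \ B.erase x := by
                  ext z
                  simp only [mem_sdiff, mem_erase]
                  constructor
                  · rintro ⟨h3, h4⟩
                    exact ⟨⟨fun h => h4 (h ▸ hB.2), h3⟩, fun h => h4 h.2⟩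
                  · rintro ⟨⟨h3, h4⟩, h5⟩
                    exact ⟨h4, fun h => h5 ⟨h3, h⟩⟩
                obtain ⟨-, h3, h4⟩ := hrem _ hss (B.erase x) (erase_subset_erase x hB.1.1)
                rw [card_erase_of_mem hB.2, hB.1.2, ← e1] at h4
                rw [← e1] at h3
                rw [abs_mul, abs_mul, hσ1, mul_one, abs_of_pos h3]
                refine mul_le_mul_of_nonneg_left ?_ (abs_nonneg _)
                norm_num at h4
                exact h4
            _ = (∑ B ∈ (Λ.powersetCard 6).filter (fun B => x ∈ B), |w B|) *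
                  (32 * Z (Λ.erase x)) := by rw [Finset.sum_mul]
            _ ≤ _ := mul_le_mul_of_nonneg_right (hw Λ x hx) (by positivity)
        rw [hdec x hx]
        have := (abs_le.1 hb).1
        linarith
      refine ⟨?_, fun x hx => (hmain x hx).2⟩
      have h1 := hmain x₀ hx₀
      linarith [h1.1, h1.2]

end gen

theorem D2_nonneg (N : ℕ) [NeZero N] (ε : ℝ) (g : ZMod N → ℝ) (h : |ε| * (∑ x, |g x|) ^ 6 ≤ 1)
    (σ : ZMod N → ℝ) (hσ : ∀ x, σ x = 1 ∨ σ x = -1) :
    0 ≤ ∑ D : Finset (ZMod N), cD N ε g D * ∏ x ∈ D, σ x := by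
  have key := d2_ind (fun B => ε * ∑ t : ZMod N, ∏ y ∈ B, g (y - t)) (fun D => cD N ε g D)
    (fun D => ∏ x ∈ D, σ x) (D1_empty N ε g) (by simp)
    (fun D B hB => by rw [mul_comm, prod_sdiff hB])
    (fun D => by
      rw [abs_prod]
      refine prod_eq_one fun x _ => ?_
      rcases hσ x with h | h <;> rw [h] <;> simp)
    (fun D x hx => D1_rec N ε g D x hx)
    (fun Λ x hx => by
      set a : ZMod N → ℝ := fun y => |g y| with ha
      have hS : ∀ t : ZMod N, ∑ y, |g (y - t)| = ∑ y, |g y| := fun t =>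
        Equiv.sum_comp (Equiv.subRight t) (fun y => |g y|)
      have hS' : ∀ y : ZMod N, ∑ t, |g (y - t)| = ∑ y, |g y| := fun y =>
        Equiv.sum_comp (Equiv.subLeft y) (fun y => |g y|)
      have h1 : ∀ B ∈ (Λ.powersetCard 6).filter (fun B => x ∈ B),
          |ε * ∑ t : ZMod N, ∏ y ∈ B, g (y - t)| ≤
          |ε| * ∑ t : ZMod N, |g (x - t)| * ∏ y ∈ B.erase x, |g (y - t)| := by
        intro B hB
        rw [mem_filter] at hB
        rw [abs_mul]
        refine mul_le_mul_of_nonneg_left ?_ (abs_nonneg _)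
        refine (Finset.abs_sum_le_sum_abs _ _).trans (Finset.sum_le_sum fun t _ => ?_)
        rw [abs_prod, mul_prod_erase B (fun y => |g (y - t)|) hB.2]
      refine (Finset.sum_le_sum h1).trans ?_
      rw [← Finset.mul_sum, Finset.sum_comm]
      have h2 : ∀ t : ZMod N, ∑ B ∈ (Λ.powersetCard 6).filter (fun B => x ∈ B),
          |g (x - t)| * ∏ y ∈ B.erase x, |g (y - t)| ≤
          |g (x - t)| * ((∑ y, |g y|) ^ 5 / 120) := by
        intro t
        rw [← Finset.mul_sum]
        refine mul_le_mul_of_nonneg_left ?_ (abs_nonneg _)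
        have h3 := d2_esymm (fun y => |g (y - t)|) (fun y => abs_nonneg _) univ 5
        rw [hS t] at h3
        have h4 : ∑ B ∈ (Λ.powersetCard 6).filter (fun B => x ∈ B),
            ∏ y ∈ B.erase x, |g (y - t)| ≤
            ∑ C ∈ (univ : Finset (ZMod N)).powersetCard 5, ∏ y ∈ C, |g (y - t)| := by
          have h5 : ∑ B ∈ (Λ.powersetCard 6).filter (fun B => x ∈ B),
              ∏ y ∈ B.erase x, |g (y - t)| =
              ∑ C ∈ ((Λ.powersetCard 6).filter (fun B => x ∈ B)).image (fun B => B.erase x),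
              ∏ y ∈ C, |g (y - t)| := by
            rw [Finset.sum_image]
            intro C hC C' hC' h
            have hC1 : x ∈ C := (mem_filter.1 hC).2
            have hC2 : x ∈ C' := (mem_filter.1 hC').2
            simp only at h
            rw [← insert_erase hC1, ← insert_erase hC2, h]
          rw [h5]
          refine Finset.sum_le_sum_of_subset_of_nonneg ?_ fun C _ _ =>
            prod_nonneg fun z _ => abs_nonneg _
          intro C hC
          obtain ⟨C', hC', rfl⟩ := mem_image.1 hC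
          rw [mem_filter, mem_powersetCard] at hC'
          rw [mem_powersetCard, card_erase_of_mem hC'.2]
          exact ⟨subset_univ _, by omega⟩
        refine h4.trans ?_
        rw [le_div_iff₀ (by norm_num)]
        norm_num [Nat.factorial] at h3
        linarith
      calc |ε| * ∑ t : ZMod N, ∑ B ∈ (Λ.powersetCard 6).filter (fun B => x ∈ B),
            |g (x - t)| * ∏ y ∈ B.erase x, |g (y - t)|
          ≤ |ε| * ∑ t : ZMod N, |g (x - t)| * ((∑ y, |g y|) ^ 5 / 120) :=
            mul_le_mul_of_nonneg_left (Finset.sum_le_sum fun t _ => h2 t) (abs_nonneg _)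
        _ = (|ε| * (∑ y, |g y|) ^ 6) / 120 := by
            rw [← Finset.sum_mul, hS']
            ring
        _ ≤ 1 / 120 := by
            exact div_le_div_of_nonneg_right h (by norm_num))
    univ
  rw [powerset_univ] at key
  exact key.1.le

end Pool.Agent.H808R2.AH
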