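import Mathlib
import Pool.Agent.H808R2.AH.Defs
import Pool.Agent.H808R2.AH.A1
import Pool.Agent.H808R2.AH.B
import Pool.Agent.H808R2.AH.D1

namespace Pool.Agent.H808R2.AH
open Finset Filter Topology

/-- the sign products have mean zero -/
theorem D3_mean_zero (N : ℕ) [NeZero N] (D : Finset (ZMod N)) (hD : D.Nonempty) :
    ∑ s : Fin N → Site N, wP N s * ∏ x ∈ D, sg s x = 0 := by
  classical
  obtain ⟨x0, hx0⟩ := hD
  have h := B_det N (R := ℂ) (fun _ => 1) D
  simp only [Algebra.algebraMap_self, RingHom.id_apply, Finset.prod_const_one, mul_one, one_mul] at h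
  rw [Matrix.det_eq_zero_of_row_eq_zero x0, mul_zero] at h
  · exact_mod_cast h
  · intro y
    rw [Matrix.of_apply, B_unitary, if_pos hx0]
    split_ifs <;> norm_num

/-- D3 -/
theorem D3_sum (N : ℕ) [NeZero N] (ε : ℝ) (g : ZMod N → ℝ) : ∑ s : Fin N → Site N, mu N ε g s = 1 := by
  classical
  have h1 : ∀ s : Fin N → Site N, mu N ε g s =
      ∑ D : Finset (ZMod N), cD N ε g D * (wP N s * ∏ x ∈ D, sg s x) := by
    intro s
    unfold mu Gt
    rw [Finset.mul_sum]
    refine Finset.sum_congr rfl fun D _ => ?_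
    ring
  rw [Finset.sum_congr rfl fun s _ => h1 s, Finset.sum_comm]
  have h2 : ∀ D : Finset (ZMod N), ∑ s : Fin N → Site N, cD N ε g D * (wP N s * ∏ x ∈ D, sg s x) =
      cD N ε g D * ∑ s : Fin N → Site N, (wP N s * ∏ x ∈ D, sg s x) := by
    intro D
    rw [Finset.mul_sum]
  rw [Finset.sum_congr rfl fun D _ => h2 D, Finset.sum_eq_single ∅]
  · rw [D1_empty, one_mul]
    simp only [Finset.prod_empty, mul_one]
    exact A1_sum N
  · intro D _ hD
    rw [D3_mean_zero N D (Finset.nonempty_iff_ne_empty.2 hD), mul_zero]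
  · intro h
    exact absurd (Finset.mem_univ _) h

end Pool.Agent.H808R2.AH
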