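import Mathlib
import Pool.Agent.H808R2.AH.Defs
import Pool.Agent.H808R2.AH.A1
import Pool.Agent.H808R2.AH.B

namespace Pool.Agent.H808R2.AH
open Finset Filter Topology

namespace E1Aux

/-- the weight function attached to a set of odd sites -/
noncomputable def hQ {N : ℕ} (Q : Finset (ZMod N)) (p : Site N) : ℂ :=
  open Classical in ∏ w ∈ Q, (if p = (true, w) then 2 else 1)

theorem hQ_false {N : ℕ} (Q : Finset (ZMod N)) (x : ZMod N) : hQ Q (false, x) = 1 := by
  classical
  unfold hQ
  refine Finset.prod_eq_one fun w _ => ?_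
  simp

theorem hQ_true {N : ℕ} (Q : Finset (ZMod N)) (x : ZMod N) :
    open Classical in hQ Q (true, x) = 1 + if x ∈ Q then 1 else 0 := by
  classical
  unfold hQ
  have : ∀ w : ZMod N, ((true, x) = ((true, w) : Site N)) ↔ w = x := by
    intro w
    simp [eq_comm]
  simp only [this]
  rw [Finset.prod_ite_eq']
  split_ifs <;> norm_num

theorem prod_hQ {N : ℕ} (Q : Finset (ZMod N)) (s : Fin N → Site N) (hs : Function.Injective s) :
    open Classical in ∏ j, hQ Q (s j) =
      ∏ w ∈ Q, ((if ∃ l, s l = (true, w) then (1 : ℂ) else 0) + 1) := by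
  classical
  unfold hQ
  rw [Finset.prod_comm]
  refine Finset.prod_congr rfl fun w _ => ?_
  by_cases h : ∃ l, s l = (true, w)
  · obtain ⟨l, hl⟩ := h
    rw [if_pos ⟨l, hl⟩]
    have : ∀ j, (s j = (true, w)) ↔ j = l := fun j =>
      ⟨fun h => hs (h.trans hl.symm), fun h => h ▸ hl⟩
    simp only [this]
    rw [Finset.prod_ite_eq']
    norm_num
  · rw [if_neg h]
    push Not at h
    simp [h]

/-- the matrix -/
noncomputable def MQ (N : ℕ) [NeZero N] (Y : Finset (ZMod N)) {κ : Type} [Fintype κ]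
    (q : κ → ZMod N) : Matrix (ZMod N) (ZMod N) ℂ :=
  open Classical in Matrix.of fun x y : ZMod N => (if x = y then (if x ∈ Y then 0 else 2) else 0) +
    (if x ∈ Y then -1 else 1) * ∑ k, Umat N x (q k) * (starRingEnd ℂ) (Umat N y (q k))

/-- the equivalence listing first the elements of `Y` -/
noncomputable def eY {N n : ℕ} (y : Fin n → ZMod N) (hy : Function.Injective y) :
    Fin n ⊕ {x : ZMod N // x ∉ Set.range y} ≃ ZMod N :=
  open Classical in
  (Equiv.sumCongr (Equiv.ofInjective y hy) (Equiv.refl _)).trans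
    (Equiv.sumCompl (fun x : ZMod N => x ∈ Set.range y))

theorem eY_inl {N n : ℕ} (y : Fin n → ZMod N) (hy : Function.Injective y) (i : Fin n) :
    eY y hy (Sum.inl i) = y i := by
  simp [eY]

theorem eY_inr {N n : ℕ} (y : Fin n → ZMod N) (hy : Function.Injective y)
    (x : {x : ZMod N // x ∉ Set.range y}) : eY y hy (Sum.inr x) = x := by
  simp [eY]

noncomputable def Lm (N : ℕ) [NeZero N] {n : ℕ} (y : Fin n → ZMod N) {κ : Type} [Fintype κ]
    (q : κ → ZMod N) : Matrix (Fin n ⊕ {x : ZMod N // x ∉ Set.range y})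
      (κ ⊕ {x : ZMod N // x ∉ Set.range y}) ℂ :=
  open Classical in
  Matrix.fromBlocks (-(Matrix.of fun i k => Umat N (y i) (q k))) 0
    (Matrix.of fun x k => Umat N x.1 (q k)) ((2:ℂ) • (1 : Matrix _ _ ℂ))

noncomputable def Rm (N : ℕ) [NeZero N] {n : ℕ} (y : Fin n → ZMod N) {κ : Type} [Fintype κ]
    (q : κ → ZMod N) : Matrix (κ ⊕ {x : ZMod N // x ∉ Set.range y})
      (Fin n ⊕ {x : ZMod N // x ∉ Set.range y}) ℂ :=
  open Classical in
  Matrix.fromBlocks (Matrix.of fun k i => (starRingEnd ℂ) (Umat N (y i) (q k)))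
    (Matrix.of fun k x => (starRingEnd ℂ) (Umat N x.1 (q k))) 0 (1 : Matrix _ _ ℂ)

theorem fact (N : ℕ) [NeZero N] {n : ℕ} (y : Fin n → ZMod N) (hy : Function.Injective y)
    {κ : Type} [Fintype κ] (q : κ → ZMod N) :
    open Classical in (MQ N (Finset.univ.image y) q).submatrix (eY y hy) (eY y hy) =
      Lm N y q * Rm N y q := by
  classical
  unfold Lm Rm
  rw [Matrix.fromBlocks_multiply]
  ext a b
  rcases a with i | x <;> rcases b with j | x'
  · simp only [Matrix.submatrix_apply, eY_inl, MQ, Matrix.of_apply, Matrix.fromBlocks_apply₁₁]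
    have h1 : y i ∈ Finset.univ.image y := Finset.mem_image_of_mem _ (Finset.mem_univ i)
    simp [Matrix.mul_apply, Finset.sum_neg_distrib]
  · simp only [Matrix.submatrix_apply, eY_inl, eY_inr, MQ, Matrix.of_apply,
      Matrix.fromBlocks_apply₁₂]
    simp [Matrix.mul_apply, Finset.sum_neg_distrib]
  · simp only [Matrix.submatrix_apply, eY_inl, eY_inr, MQ, Matrix.of_apply,
      Matrix.fromBlocks_apply₂₁]
    have h2 : x.1 ∉ Finset.univ.image y := by
      intro h
      obtain ⟨k, -, hk⟩ := Finset.mem_image.1 h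
      exact x.2 ⟨k, hk⟩
    have h3 : x.1 ≠ y j := fun h => x.2 ⟨j, h.symm⟩
    rw [if_neg h3, if_neg h2]
    simp [Matrix.mul_apply]
  · simp only [Matrix.submatrix_apply, eY_inr, MQ, Matrix.of_apply,
      Matrix.fromBlocks_apply₂₂]
    have h2 : x.1 ∉ Finset.univ.image y := by
      intro h
      obtain ⟨k, -, hk⟩ := Finset.mem_image.1 h
      exact x.2 ⟨k, hk⟩
    rw [if_neg h2, if_neg h2]
    by_cases hxx : x = x'
    · subst hxx
      simp [Matrix.mul_apply]
      ring
    · have : x.1 ≠ x'.1 := fun h => hxx (Subtype.ext h)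
      rw [if_neg this]
      simp [Matrix.mul_apply, Matrix.one_apply, hxx]

theorem det_MQ_zero (N : ℕ) [NeZero N] {n : ℕ} (y : Fin n → ZMod N) (hy : Function.Injective y)
    {κ : Type} [Fintype κ] (q : κ → ZMod N) (h : Fintype.card κ < n) :
    open Classical in (MQ N (Finset.univ.image y) q).det = 0 := by
  classical
  rw [← Matrix.det_submatrix_equiv_self (eY y hy), fact]
  by_contra hne
  have hu : IsUnit (Lm N y q * Rm N y q) := (Matrix.isUnit_iff_isUnit_det _).2 (isUnit_iff_ne_zero.2 hne)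
  have h1 := Matrix.rank_of_isUnit _ hu
  have h2 := Matrix.rank_mul_le_left (Lm N y q) (Rm N y q)
  have h3 := Matrix.rank_le_card_width (Lm N y q)
  rw [Fintype.card_sum, Fintype.card_fin] at h1
  rw [Fintype.card_sum] at h3
  omega

theorem det_MQ_eq (N : ℕ) [NeZero N] {n : ℕ} (y : Fin n → ZMod N) (hy : Function.Injective y)
    (z : Fin n → ZMod N) :
    open Classical in (MQ N (Finset.univ.image y) z).det =
      2 ^ (N - n) * ((-1) ^ n * ((‖(Matrix.of fun i j : Fin n => Umat N (y i) (z j)).det‖ ^ 2 : ℝ) : ℂ)) := by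
  classical
  rw [← Matrix.det_submatrix_equiv_self (eY y hy), fact, Matrix.det_mul]
  have hL : (Lm N y z).det = (-1) ^ n * (Matrix.of fun i j : Fin n => Umat N (y i) (z j)).det *
      2 ^ (N - n) := by
    unfold Lm
    rw [Matrix.det_fromBlocks_zero₁₂, Matrix.det_neg, Matrix.det_smul, Matrix.det_one,
      Fintype.card_fin]
    congr 1
    have hc : Fintype.card {x : ZMod N // x ∉ Set.range y} = N - n := by
      have h1 := Fintype.card_congr (eY y hy)
      rw [Fintype.card_sum, Fintype.card_fin, ZMod.card] at h1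
      omega
    rw [hc]
    simp
  have hR : (Rm N y z).det =
      (starRingEnd ℂ) (Matrix.of fun i j : Fin n => Umat N (y i) (z j)).det := by
    unfold Rm
    rw [Matrix.det_fromBlocks_zero₂₁, Matrix.det_one, mul_one, ← Matrix.det_transpose,
      RingHom.map_det]
    rfl
  rw [hL, hR]
  have hn := Complex.mul_conj (Matrix.of fun i j : Fin n => Umat N (y i) (z j)).det
  rw [Complex.normSq_eq_norm_sq] at hn
  rw [← hn]
  ring

/-- the expectation for one subset -/
theorem exp_Q (N : ℕ) [NeZero N] (Y Q : Finset (ZMod N)) {κ : Type} [Fintype κ]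
    (q : κ → ZMod N) (hq : Function.Injective q)
    (hQ : open Classical in Finset.univ.image q = Q) :
    open Classical in
    ∑ s : Fin N → Site N, ((wP N s * ∏ x ∈ Y, sg s x : ℝ) : ℂ) *
      ∏ w ∈ Q, ((if ∃ l, s l = (true, w) then (1 : ℂ) else 0) + 1) =
      (1 / 2 ^ N) * (MQ N Y q).det := by
  classical
  have h := B_det N (R := ℂ) (E1Aux.hQ Q) Y
  simp only [Algebra.algebraMap_self, RingHom.id_apply] at h
  have h1 : ∀ s : Fin N → Site N, ((wP N s * ∏ x ∈ Y, sg s x : ℝ) : ℂ) *
      ∏ w ∈ Q, ((if ∃ l, s l = (true, w) then (1 : ℂ) else 0) + 1) =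
      ((wP N s * ∏ x ∈ Y, sg s x : ℝ) : ℂ) * ∏ j, E1Aux.hQ Q (s j) := by
    intro s
    by_cases hw : wP N s = 0
    · rw [hw]; simp
    · rw [prod_hQ Q s (A1_inj N s hw)]
  rw [Finset.sum_congr rfl fun s _ => h1 s, h]
  congr 2
  ext x y
  simp only [MQ, Matrix.of_apply, hQ_false, hQ_true]
  have h2 : ∑ w : ZMod N, (1 + if w ∈ Q then (1 : ℂ) else 0) *
      (Umat N x w * (starRingEnd ℂ) (Umat N y w)) = (if x = y then 1 else 0) +
      ∑ k, Umat N x (q k) * (starRingEnd ℂ) (Umat N y (q k)) := by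
    have h3 : ∀ w : ZMod N, (1 + if w ∈ Q then (1 : ℂ) else 0) *
        (Umat N x w * (starRingEnd ℂ) (Umat N y w)) =
        Umat N x w * (starRingEnd ℂ) (Umat N y w) +
        (if w ∈ Q then Umat N x w * (starRingEnd ℂ) (Umat N y w) else 0) := by
      intro w
      split_ifs <;> ring
    rw [Finset.sum_congr rfl fun w _ => h3 w, Finset.sum_add_distrib, B_unitary,
      Finset.sum_ite_mem, Finset.univ_inter, ← hQ, Finset.sum_image (fun a _ b _ hab => hq hab)]
  rw [h2]
  by_cases hxy : x = y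
  · subst hxy
    by_cases hx : x ∈ Y
    · simp [hx]
    · simp [hx]
      ring
  · simp [hxy]

theorem sum_expand (N : ℕ) [NeZero N] {n m : ℕ} (y : Fin n → ZMod N) (hy : Function.Injective y)
    (z : Fin m → ZMod N) (hz : Function.Injective z) :
    open Classical in
    ((∑ s : Fin N → Site N, wP N s * (∏ i, sg s (y i)) *
      (∏ j, if ∃ l, s l = (true, z j) then (1 : ℝ) else 0) : ℝ) : ℂ) =
    ∑ Q ∈ (Finset.univ.image z).powerset, (∏ _w ∈ (Finset.univ.image z) \ Q, (-1 : ℂ)) *
      ∑ s : Fin N → Site N, ((wP N s * ∏ x ∈ Finset.univ.image y, sg s x : ℝ) : ℂ) *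
      ∏ w ∈ Q, ((if ∃ l, s l = (true, w) then (1 : ℂ) else 0) + 1) := by
  classical
  have h1 : ∀ s : Fin N → Site N, ((wP N s * (∏ i, sg s (y i)) *
      (∏ j, if ∃ l, s l = (true, z j) then (1 : ℝ) else 0) : ℝ) : ℂ) =
      ∑ Q ∈ (Finset.univ.image z).powerset, (∏ _w ∈ (Finset.univ.image z) \ Q, (-1 : ℂ)) *
      (((wP N s * ∏ x ∈ Finset.univ.image y, sg s x : ℝ) : ℂ) *
      ∏ w ∈ Q, ((if ∃ l, s l = (true, w) then (1 : ℂ) else 0) + 1)) := by
    intro s
    rw [Finset.prod_image (fun a _ b _ hab => hy hab)]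
    have h2 : ((∏ j, if ∃ l, s l = (true, z j) then (1 : ℝ) else 0 : ℝ) : ℂ) =
        ∏ w ∈ Finset.univ.image z, (((if ∃ l, s l = (true, w) then (1 : ℂ) else 0) + 1) + (-1)) := by
      rw [Finset.prod_image (fun a _ b _ hab => hz hab), Complex.ofReal_prod]
      refine Finset.prod_congr rfl fun j _ => ?_
      split_ifs <;> simp
    rw [Complex.ofReal_mul, h2, Finset.prod_add, Finset.mul_sum]
    refine Finset.sum_congr rfl fun Q _ => ?_
    ring
  rw [Complex.ofReal_sum, Finset.sum_congr rfl fun s _ => h1 s, Finset.sum_comm]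
  refine Finset.sum_congr rfl fun Q _ => ?_
  rw [Finset.mul_sum]

end E1Aux

open E1Aux in
theorem E1_zero (N : ℕ) [NeZero N] {n m : ℕ} (hmn : m < n) (y : Fin n → ZMod N) (hy : Function.Injective y)
    (z : Fin m → ZMod N) (hz : Function.Injective z) :
    open Classical in ∑ s : Fin N → Site N, wP N s * (∏ i, sg s (y i)) *
      (∏ j, if ∃ l, s l = (true, z j) then (1 : ℝ) else 0) = 0 := by
  classical
  have h := sum_expand N y hy z hz
  have h0 : ∑ Q ∈ (Finset.univ.image z).powerset, (∏ _w ∈ (Finset.univ.image z) \ Q, (-1 : ℂ)) *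
      ∑ s : Fin N → Site N, ((wP N s * ∏ x ∈ Finset.univ.image y, sg s x : ℝ) : ℂ) *
      ∏ w ∈ Q, ((if ∃ l, s l = (true, w) then (1 : ℂ) else 0) + 1) = 0 := by
    refine Finset.sum_eq_zero fun Q hQ => ?_
    have hQc : Q.card ≤ m := by
      have h1 := Finset.card_le_card (Finset.mem_powerset.1 hQ)
      have h2 := Finset.card_image_le (s := (Finset.univ : Finset (Fin m))) (f := z)
      rw [Finset.card_univ, Fintype.card_fin] at h2
      omega
    rw [exp_Q N (Finset.univ.image y) Q (fun k : Q => (k : ZMod N)) Subtype.val_injective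
      (by ext w; simp), det_MQ_zero N y hy _ (by rw [Fintype.card_coe]; omega)]
    simp
  rw [h0] at h
  exact_mod_cast h

open E1Aux in
theorem E1_eq (N : ℕ) [NeZero N] {n : ℕ} (y : Fin n → ZMod N) (hy : Function.Injective y)
    (z : Fin n → ZMod N) (hz : Function.Injective z) :
    open Classical in ∑ s : Fin N → Site N, wP N s * (∏ i, sg s (y i)) *
      (∏ j, if ∃ l, s l = (true, z j) then (1 : ℝ) else 0) =
      (-1 / 2) ^ n * ‖(Matrix.of fun i j : Fin n => Umat N (y i) (z j)).det‖ ^ 2 := by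
  classical
  have h := sum_expand N y hy z hz
  have hcard : (Finset.univ.image z).card = n := by
    rw [Finset.card_image_of_injective _ hz, Finset.card_univ, Fintype.card_fin]
  rw [Finset.sum_eq_single (Finset.univ.image z)] at h
  · rw [exp_Q N (Finset.univ.image y) (Finset.univ.image z) z hz rfl, det_MQ_eq N y hy z] at h
    rw [Finset.sdiff_self, Finset.prod_empty, one_mul] at h
    have hnN : n ≤ N := by
      have := Fintype.card_le_of_injective y hy
      rwa [Fintype.card_fin, ZMod.card] at this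
    have e : (1 / 2 ^ N : ℂ) * (2 ^ (N - n) * ((-1) ^ n *
        ((‖(Matrix.of fun i j : Fin n => Umat N (y i) (z j)).det‖ ^ 2 : ℝ) : ℂ))) =
        (((-1 / 2) ^ n * ‖(Matrix.of fun i j : Fin n => Umat N (y i) (z j)).det‖ ^ 2 : ℝ) : ℂ) := by
      push_cast
      have h2 : (2 : ℂ) ^ N = 2 ^ (N - n) * 2 ^ n := by
        rw [← pow_add]; congr 1; omega
      rw [h2, div_pow]
      field_simp
    rw [e] at h
    exact_mod_cast h
  · intro Q hQ hne
    have hlt : Q.card < n := by
      rw [← hcard]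
      exact Finset.card_lt_card (Finset.ssubset_iff_subset_ne.2 ⟨Finset.mem_powerset.1 hQ, hne⟩)
    rw [exp_Q N (Finset.univ.image y) Q (fun k : Q => (k : ZMod N)) Subtype.val_injective
      (by ext w; simp), det_MQ_zero N y hy _ (by rw [Fintype.card_coe]; omega)]
    simp
  · intro hQ
    exact absurd (Finset.mem_powerset_self _) hQ

end Pool.Agent.H808R2.AH
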