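import Pool.Agent.H808R2.AH.Defs

set_option autoImplicit false

/-!
Task E: change of the frequency of the pattern `100001` (helper423).
The facts of the other groups enter as hypotheses.
-/

namespace Pool.Agent.H808R2.AH
open Finset Filter Topology

namespace EPat

variable {N : ℕ} [NeZero N]

open Classical in
/-- occupation of the odd site `2z+1` -/
noncomputable def occ (s : Fin N → Site N) (z : ZMod N) : ℝ :=
  if ∃ l, s l = (true, z) then (1 : ℝ) else 0

/-- mixed moments -/
noncomputable def EE (Y O : Finset (ZMod N)) : ℝ :=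
  ∑ s : Fin N → Site N, wP N s * (∏ x ∈ Y, sg s x) * (∏ z ∈ O, occ s z)

/-- the hypothesis `E1_zero` -/
def HZero (N : ℕ) [NeZero N] : Prop :=
  ∀ (n m : ℕ), m < n → ∀ y : Fin n → ZMod N, Function.Injective y →
    ∀ z : Fin m → ZMod N, Function.Injective z →
    ∑ s : Fin N → Site N, wP N s * (∏ i, sg s (y i)) * (∏ j, occ s (z j)) = 0

/-- the hypothesis `E1_eq` -/
def HEq (N : ℕ) [NeZero N] : Prop :=
  ∀ (n : ℕ), ∀ y : Fin n → ZMod N, Function.Injective y →
    ∀ z : Fin n → ZMod N, Function.Injective z →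
    ∑ s : Fin N → Site N, wP N s * (∏ i, sg s (y i)) * (∏ j, occ s (z j)) =
      (-1 / 2) ^ n * ‖(Matrix.of fun i j : Fin n => Umat N (y i) (z j)).det‖ ^ 2

omit [NeZero N] in
theorem prod_equivFin (Y : Finset (ZMod N)) (f : ZMod N → ℝ) :
    ∏ i : Fin #Y, f (Y.equivFin.symm i) = ∏ x ∈ Y, f x := by
  rw [Equiv.prod_comp Y.equivFin.symm (fun x : Y => f x), Finset.prod_coe_sort]

theorem EE_zero (h0 : HZero N) {Y O : Finset (ZMod N)} (h : #O < #Y) : EE Y O = 0 := by
  have := h0 #Y #O h (fun i => (Y.equivFin.symm i : ZMod N))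
    (fun i j hij => Y.equivFin.symm.injective (Subtype.ext hij))
    (fun i => (O.equivFin.symm i : ZMod N))
    (fun i j hij => O.equivFin.symm.injective (Subtype.ext hij))
  unfold EE
  rw [← this]
  refine Finset.sum_congr rfl fun s _ => ?_
  rw [prod_equivFin Y (fun x => sg s x), prod_equivFin O (fun z => occ s z)]

theorem EE_image (h1 : HEq N) {n : ℕ} (y z : Fin n → ZMod N) (hy : Function.Injective y)
    (hz : Function.Injective z) :
    EE (univ.image y) (univ.image z) =
      (-1 / 2) ^ n * ‖(Matrix.of fun i j : Fin n => Umat N (y i) (z j)).det‖ ^ 2 := by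
  rw [← h1 n y hy z hz]
  unfold EE
  refine Finset.sum_congr rfl fun s _ => ?_
  rw [Finset.prod_image (fun a _ b _ h => hy h), Finset.prod_image (fun a _ b _ h => hz h)]

theorem sg_mul_self (s : Fin N → Site N) (x : ZMod N) : sg s x * sg s x = 1 := by
  unfold sg
  split_ifs <;> norm_num

theorem prod_symmDiff (s : Fin N → Site N) (D A : Finset (ZMod N)) :
    (∏ x ∈ D, sg s x) * (∏ x ∈ A, sg s x) = ∏ x ∈ symmDiff D A, sg s x := by
  have h1 : ∏ x ∈ D, sg s x = (∏ x ∈ D \ A, sg s x) * ∏ x ∈ D ∩ A, sg s x := by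
    rw [← Finset.prod_union (Finset.disjoint_sdiff_inter D A), Finset.sdiff_union_inter]
  have h2 : ∏ x ∈ A, sg s x = (∏ x ∈ A \ D, sg s x) * ∏ x ∈ D ∩ A, sg s x := by
    rw [Finset.inter_comm D A,
      ← Finset.prod_union (Finset.disjoint_sdiff_inter A D), Finset.sdiff_union_inter]
  have h3 : ∏ x ∈ symmDiff D A, sg s x = (∏ x ∈ D \ A, sg s x) * ∏ x ∈ A \ D, sg s x := by
    rw [symmDiff_def, Finset.sup_eq_union, Finset.prod_union]
    exact disjoint_sdiff_sdiff
  have h4 : (∏ x ∈ D ∩ A, sg s x) * (∏ x ∈ D ∩ A, sg s x) = 1 := by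
    rw [← Finset.prod_mul_distrib]
    exact Finset.prod_eq_one fun x _ => sg_mul_self s x
  rw [h1, h2, h3]
  linear_combination (∏ x ∈ D \ A, sg s x) * (∏ x ∈ A \ D, sg s x) * h4

/-- three consecutive elements -/
def tri (e : ZMod N) (i : Fin 3) : ZMod N := e + ((i : ℕ) : ZMod N)

theorem tri_injective (hN : 3 ≤ N) (e : ZMod N) : Function.Injective (tri e) := by
  intro i j h
  unfold tri at h
  have h1 : ((i : ℕ) : ZMod N) = ((j : ℕ) : ZMod N) := add_left_cancel h
  rw [ZMod.natCast_eq_natCast_iff'] at h1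
  rw [Nat.mod_eq_of_lt (by omega), Nat.mod_eq_of_lt (by omega)] at h1
  exact Fin.ext h1

theorem card_symm {D A : Finset (ZMod N)} : #(symmDiff D A) = #(D \ A) + #(A \ D) := by
  rw [symmDiff_def, Finset.sup_eq_union, Finset.card_union_of_disjoint disjoint_sdiff_sdiff]

/-- the contribution of one set `D` -/
theorem inner_sum (h0 : HZero N) (hN : 3 ≤ N) (e b : ZMod N) (α u v : Fin 3 → ℝ)
    (D : Finset (ZMod N)) (hD : 6 ≤ #D) :
    ∑ s : Fin N → Site N, wP N s * (∏ x ∈ D, sg s x) *
        ((∏ i, (1 + α i * sg s (tri e i))) * ∏ j, (v j * occ s (tri b j) + u j)) =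
      if #D = 6 ∧ univ.image (tri e) ⊆ D then
        (∏ i, α i) * (∏ j, v j) * EE (D \ univ.image (tri e)) (univ.image (tri b)) else 0 := by
  have hexp : ∀ s : Fin N → Site N, wP N s * (∏ x ∈ D, sg s x) *
        ((∏ i, (1 + α i * sg s (tri e i))) * ∏ j, (v j * occ s (tri b j) + u j))
      = ∑ A : Finset (Fin 3), ∑ B : Finset (Fin 3),
        ((∏ i ∈ A, α i) * (∏ j ∈ B, v j) * ∏ j ∈ univ \ B, u j) *
        (wP N s * (∏ x ∈ symmDiff D (A.image (tri e)), sg s x) *
          ∏ z ∈ B.image (tri b), occ s z) := by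
    intro s
    have e1 : ∏ i, (1 + α i * sg s (tri e i))
        = ∑ A : Finset (Fin 3), (∏ i ∈ A, α i) * ∏ x ∈ A.image (tri e), sg s x := by
      have h : ∏ i : Fin 3, (1 + α i * sg s (tri e i))
          = ∏ i : Fin 3, (α i * sg s (tri e i) + 1) :=
        Finset.prod_congr rfl fun i _ => add_comm _ _
      rw [h, Finset.prod_add]
      rw [Finset.powerset_univ]
      refine Finset.sum_congr rfl fun A _ => ?_
      rw [Finset.prod_const_one, mul_one, Finset.prod_mul_distrib,
        Finset.prod_image (fun a _ b _ h => tri_injective hN e h)]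
    have e2 : ∏ j, (v j * occ s (tri b j) + u j)
        = ∑ B : Finset (Fin 3), (∏ j ∈ B, v j) * (∏ j ∈ univ \ B, u j) *
          ∏ z ∈ B.image (tri b), occ s z := by
      rw [Finset.prod_add, Finset.powerset_univ]
      refine Finset.sum_congr rfl fun B _ => ?_
      rw [Finset.prod_mul_distrib, Finset.prod_image (fun a _ b' _ h => tri_injective hN b h)]
      ring
    rw [e1, e2, Finset.sum_mul_sum, Finset.mul_sum]
    refine Finset.sum_congr rfl fun A _ => ?_
    rw [Finset.mul_sum]
    refine Finset.sum_congr rfl fun B _ => ?_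
    rw [← prod_symmDiff]
    ring
  simp only [hexp]
  rw [Finset.sum_comm]
  have hA : ∀ A : Finset (Fin 3), ∑ s : Fin N → Site N, ∑ B : Finset (Fin 3),
        ((∏ i ∈ A, α i) * (∏ j ∈ B, v j) * ∏ j ∈ univ \ B, u j) *
        (wP N s * (∏ x ∈ symmDiff D (A.image (tri e)), sg s x) *
          ∏ z ∈ B.image (tri b), occ s z)
      = ∑ B : Finset (Fin 3), ((∏ i ∈ A, α i) * (∏ j ∈ B, v j) * ∏ j ∈ univ \ B, u j) *
        EE (symmDiff D (A.image (tri e))) (B.image (tri b)) := by
    intro A
    rw [Finset.sum_comm]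
    refine Finset.sum_congr rfl fun B _ => ?_
    rw [EE, Finset.mul_sum]
  simp only [hA]
  -- the cardinalities
  have hcA : ∀ A : Finset (Fin 3), #(A.image (tri e)) = #A := fun A =>
    Finset.card_image_of_injective A (tri_injective hN e)
  have hcB : ∀ A : Finset (Fin 3), #(A.image (tri b)) = #A := fun A =>
    Finset.card_image_of_injective A (tri_injective hN b)
  have hle : ∀ A : Finset (Fin 3), #A ≤ 3 := fun A => by
    simpa using Finset.card_le_univ A
  have hge : ∀ A : Finset (Fin 3), #D - #A ≤ #(D \ A.image (tri e)) := fun A => by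
    have := Finset.le_card_sdiff (A.image (tri e)) D
    rwa [hcA] at this
  have hzero : ∀ A B : Finset (Fin 3),
      ¬ (#D = 6 ∧ univ.image (tri e) ⊆ D ∧ A = univ ∧ B = univ) →
      EE (symmDiff D (A.image (tri e))) (B.image (tri b)) = 0 := by
    intro A B hn
    apply EE_zero h0
    rw [hcB, card_symm]
    have h1 := hge A
    have h2 := hle A
    have h3 := hle B
    by_contra hlt
    apply hn
    have h4 : #A = 3 := by omega
    have h5 : #B = 3 := by omega
    have h6 : #D = 6 := by omega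
    have hAu : A = univ := (Finset.card_eq_iff_eq_univ A).mp (by simpa using h4)
    have hBu : B = univ := (Finset.card_eq_iff_eq_univ B).mp (by simpa using h5)
    refine ⟨h6, ?_, hAu, hBu⟩
    have h7 : #(A.image (tri e) \ D) = 0 := by omega
    rw [Finset.card_eq_zero, Finset.sdiff_eq_empty_iff_subset, hAu] at h7
    exact h7
  split_ifs with hc
  · rw [Finset.sum_eq_single (univ : Finset (Fin 3)), Finset.sum_eq_single (univ : Finset (Fin 3))]
    · rw [Finset.sdiff_self, Finset.prod_empty, mul_one]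
      congr 2
      rw [symmDiff_def, Finset.sup_eq_union]
      have : univ.image (tri e) \ D = ∅ := Finset.sdiff_eq_empty_iff_subset.mpr hc.2
      rw [this, Finset.union_empty]
    · intro B _ hB
      rw [hzero univ B (fun h => hB h.2.2.2), mul_zero]
    · intro h; exact absurd (Finset.mem_univ _) h
    · intro A _ hA
      refine Finset.sum_eq_zero fun B _ => ?_
      rw [hzero A B (fun h => hA h.2.2.1), mul_zero]
    · intro h; exact absurd (Finset.mem_univ _) h
  · refine Finset.sum_eq_zero fun A _ => Finset.sum_eq_zero fun B _ => ?_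
    rw [hzero A B (fun h => hc ⟨h.1, h.2.1⟩), mul_zero]

/-- injective triples against three-element sets -/
theorem sum_inj {α : Type*} [Fintype α] [DecidableEq α] (F : Finset α → ℝ) :
    open Classical in
    ∑ y : Fin 3 → α, (if Function.Injective y then F (univ.image y) else 0) =
      6 * ∑ Y ∈ powersetCard 3 (univ : Finset α), F Y := by
  classical
  rw [← Finset.sum_filter]
  have hmaps : ∀ y ∈ univ.filter (fun y : Fin 3 → α => Function.Injective y),
      univ.image y ∈ powersetCard 3 (univ : Finset α) := by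
    intro y hy
    rw [Finset.mem_filter] at hy
    rw [Finset.mem_powersetCard]
    exact ⟨Finset.subset_univ _, by rw [Finset.card_image_of_injective _ hy.2]; simp⟩
  rw [← Finset.sum_fiberwise_of_maps_to hmaps, Finset.mul_sum]
  refine Finset.sum_congr rfl fun Y hY => ?_
  have hY3 : #Y = 3 := (Finset.mem_powersetCard.mp hY).2
  have h1 : ∑ y ∈ (univ.filter fun y : Fin 3 → α => Function.Injective y).filter
      (fun y => univ.image y = Y), F (univ.image y) =
      ∑ y ∈ (univ.filter fun y : Fin 3 → α => Function.Injective y).filter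
      (fun y => univ.image y = Y), F Y := by
    refine Finset.sum_congr rfl fun y hy => ?_
    rw [(Finset.mem_filter.mp hy).2]
  rw [h1, Finset.sum_const]
  have h2 : #((univ.filter fun y : Fin 3 → α => Function.Injective y).filter
      (fun y => univ.image y = Y)) = 6 := by
    have e0 : Fin 3 ≃ Y := (Fintype.equivFinOfCardEq (by rw [Fintype.card_coe, hY3])).symm
    have h3 : Fintype.card (Fin 3 ≃ Y) = 6 := by
      rw [Fintype.card_equiv e0]; simp [Nat.factorial]
    rw [← h3, ← Finset.card_univ]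
    symm
    refine Finset.card_bij (fun (f : Fin 3 ≃ Y) _ => fun i => (f i : α)) ?_ ?_ ?_
    · intro f _
      simp only [Finset.mem_filter, Finset.mem_univ, true_and]
      refine ⟨fun i j hij => f.injective (Subtype.ext hij), ?_⟩
      ext a
      simp only [Finset.mem_image, Finset.mem_univ, true_and]
      constructor
      · rintro ⟨i, rfl⟩; exact (f i).2
      · intro ha; exact ⟨f.symm ⟨a, ha⟩, by simp⟩
    · intro f _ f' _ h
      ext i
      exact congrFun h i
    · intro y hy
      simp only [Finset.mem_filter, Finset.mem_univ, true_and] at hy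
      obtain ⟨hy1, hy2⟩ := hy
      have hmem : ∀ i, y i ∈ Y := fun i => by
        rw [← hy2]; exact Finset.mem_image_of_mem _ (Finset.mem_univ _)
      have hbij : Function.Bijective (fun i => (⟨y i, hmem i⟩ : Y)) := by
        constructor
        · intro i j hij
          exact hy1 (congrArg Subtype.val hij)
        · rintro ⟨a, ha⟩
          rw [← hy2, Finset.mem_image] at ha
          obtain ⟨i, _, hi⟩ := ha
          exact ⟨i, Subtype.ext hi⟩
      exact ⟨Equiv.ofBijective _ hbij, Finset.mem_univ _, by funext i; rfl⟩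
  rw [h2]
  simp

/-- `TT` as a sum over sets -/
theorem TT_eq (h1 : HEq N) (hN : 3 ≤ N) (g : ZMod N → ℝ) (a b : ZMod N) :
    TT N g a b = 6 * ∑ Y ∈ powersetCard 3 (univ : Finset (ZMod N)),
      (if Disjoint Y (univ.image (tri a)) then
        (∑ t : ZMod N, ∏ x ∈ Y ∪ univ.image (tri a), g (x - t)) *
          (-8 * EE Y (univ.image (tri b))) else 0) := by
  classical
  rw [← sum_inj (fun Y => if Disjoint Y (univ.image (tri a)) then
        (∑ t : ZMod N, ∏ x ∈ Y ∪ univ.image (tri a), g (x - t)) *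
          (-8 * EE Y (univ.image (tri b))) else 0)]
  unfold TT
  refine Finset.sum_congr rfl fun y _ => ?_
  have hdis : (∀ i, y i ≠ a ∧ y i ≠ a + 1 ∧ y i ≠ a + 2) ↔
      Disjoint (univ.image y) (univ.image (tri a)) := by
    rw [Finset.disjoint_left]
    constructor
    · intro h x hx hx2
      rw [Finset.mem_image] at hx hx2
      obtain ⟨i, _, rfl⟩ := hx
      obtain ⟨j, _, hj⟩ := hx2
      have := h i
      fin_cases j
      · exact this.1 (by rw [← hj]; simp [tri])
      · exact this.2.1 (by rw [← hj]; simp [tri])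
      · exact this.2.2 (by rw [← hj]; simp [tri])
    · intro h i
      have hi := h (Finset.mem_image_of_mem y (Finset.mem_univ i))
      refine ⟨fun h1 => hi ?_, fun h1 => hi ?_, fun h1 => hi ?_⟩
      · rw [h1, Finset.mem_image]; exact ⟨0, Finset.mem_univ _, by simp [tri]⟩
      · rw [h1, Finset.mem_image]; exact ⟨1, Finset.mem_univ _, by simp [tri]⟩
      · rw [h1, Finset.mem_image]; exact ⟨2, Finset.mem_univ _, by simp [tri]⟩
  by_cases hy : Function.Injective y
  · rw [if_pos hy]
    by_cases hd : ∀ i, y i ≠ a ∧ y i ≠ a + 1 ∧ y i ≠ a + 2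
    · have hd' := hdis.mp hd
      rw [if_pos hd, if_pos hd']
      congr 1
      · refine Finset.sum_congr rfl fun t _ => ?_
        rw [Finset.prod_union hd', Finset.prod_image (fun a _ b _ h => hy h),
          Finset.prod_image (fun x _ z _ h => tri_injective hN a h), Fin.prod_univ_three (fun i : Fin 3 => g (tri a i - t))]
        simp [tri]
        ring
      · rw [EE_image h1 y (tri b) hy (tri_injective hN b)]
        unfold tri
        norm_num
        ring
    · rw [if_neg hd, if_neg (fun h => hd (hdis.mpr h))]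
  · rw [if_neg hy]
    have hdet : (Matrix.of fun i j : Fin 3 => Umat N (y i) (b + ((j : ℕ) : ZMod N))).det = 0 := by
      unfold Function.Injective at hy
      push Not at hy
      obtain ⟨i, j, hij, hne⟩ := hy
      exact Matrix.det_zero_of_row_eq hne (by funext k; simp [hij])
    rw [hdet]
    simp

/-- one window -/
theorem window (h0 : HZero N) (h1 : HEq N) (hN : 3 ≤ N) (ε : ℝ) (g : ZMod N → ℝ)
    (hD0 : cD N ε g ∅ = 1) (hD5 : ∀ D, 1 ≤ #D → #D ≤ 5 → cD N ε g D = 0)
    (hD6 : ∀ D, #D = 6 → cD N ε g D = ε * ∑ t : ZMod N, ∏ x ∈ D, g (x - t))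
    (e b : ZMod N) (α u v : Fin 3 → ℝ) (hα : ∏ i, α i = 1) (hv : ∏ j, v j = 1) :
    ∑ s : Fin N → Site N, (mu N ε g s - wP N s) *
        ((∏ i, (1 + α i * sg s (tri e i))) * ∏ j, (v j * occ s (tri b j) + u j)) =
      -(ε / 48) * TT N g e b := by
  classical
  have hG : ∀ s : Fin N → Site N, mu N ε g s - wP N s =
      ∑ D ∈ univ.filter (fun D : Finset (ZMod N) => 6 ≤ #D),
        cD N ε g D * (wP N s * ∏ x ∈ D, sg s x) := by
    intro s
    unfold mu Gt
    rw [← Finset.sum_erase_add _ _ (Finset.mem_univ (∅ : Finset (ZMod N))), hD0,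
      Finset.prod_empty]
    have : wP N s * (∑ x ∈ univ.erase ∅, cD N ε g x * ∏ x ∈ x, sg s x + 1 * 1) - wP N s
        = ∑ D ∈ univ.erase (∅ : Finset (ZMod N)), cD N ε g D * (wP N s * ∏ x ∈ D, sg s x) := by
      rw [mul_add, Finset.mul_sum, mul_one, mul_one, add_sub_cancel_right]
      exact Finset.sum_congr rfl fun D _ => by ring
    rw [this]
    symm
    refine Finset.sum_subset ?_ ?_
    · intro D hD
      rw [Finset.mem_filter] at hD
      rw [Finset.mem_erase]
      refine ⟨fun h => ?_, Finset.mem_univ _⟩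
      rw [h, Finset.card_empty] at hD
      omega
    · intro D hD hD2
      rw [Finset.mem_erase] at hD
      rw [Finset.mem_filter] at hD2
      have hpos : 1 ≤ #D := Finset.card_pos.mpr (Finset.nonempty_iff_ne_empty.mpr hD.1)
      have hlt : #D ≤ 5 := by
        by_contra hh
        exact hD2 ⟨Finset.mem_univ _, by omega⟩
      rw [hD5 D hpos hlt, zero_mul]
  have step1 : ∑ s : Fin N → Site N, (mu N ε g s - wP N s) *
        ((∏ i, (1 + α i * sg s (tri e i))) * ∏ j, (v j * occ s (tri b j) + u j))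
      = ∑ D ∈ univ.filter (fun D : Finset (ZMod N) => 6 ≤ #D), cD N ε g D *
        (if #D = 6 ∧ univ.image (tri e) ⊆ D then
          EE (D \ univ.image (tri e)) (univ.image (tri b)) else 0) := by
    simp only [hG, Finset.sum_mul]
    rw [Finset.sum_comm]
    refine Finset.sum_congr rfl fun D hD => ?_
    have hD6' : 6 ≤ #D := (Finset.mem_filter.mp hD).2
    have := inner_sum h0 hN e b α u v D hD6'
    rw [hα, hv, one_mul, one_mul] at this
    rw [← this, Finset.mul_sum]
    exact Finset.sum_congr rfl fun s _ => by ring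
  rw [step1]
  have step2 : ∑ D ∈ univ.filter (fun D : Finset (ZMod N) => 6 ≤ #D), cD N ε g D *
        (if #D = 6 ∧ univ.image (tri e) ⊆ D then
          EE (D \ univ.image (tri e)) (univ.image (tri b)) else 0)
      = ∑ D ∈ univ.filter (fun D : Finset (ZMod N) => #D = 6 ∧ univ.image (tri e) ⊆ D),
        cD N ε g D * EE (D \ univ.image (tri e)) (univ.image (tri b)) := by
    simp only [mul_ite, mul_zero]
    rw [← Finset.sum_filter, Finset.filter_filter]
    refine Finset.sum_congr ?_ fun _ _ => rfl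
    ext D
    simp only [Finset.mem_filter, Finset.mem_univ, true_and]
    constructor
    · exact fun h => h.2
    · exact fun h => ⟨by rw [h.1], h⟩
  rw [step2]
  have hc3 : #(univ.image (tri e)) = 3 := by
    rw [Finset.card_image_of_injective _ (tri_injective hN e)]; simp
  have step3 : ∑ D ∈ univ.filter (fun D : Finset (ZMod N) => #D = 6 ∧ univ.image (tri e) ⊆ D),
        cD N ε g D * EE (D \ univ.image (tri e)) (univ.image (tri b))
      = ∑ Y ∈ (powersetCard 3 (univ : Finset (ZMod N))).filter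
          (fun Y => Disjoint Y (univ.image (tri e))),
        cD N ε g (Y ∪ univ.image (tri e)) * EE Y (univ.image (tri b)) := by
    refine Finset.sum_nbij' (fun D => D \ univ.image (tri e)) (fun Y => Y ∪ univ.image (tri e))
      ?_ ?_ ?_ ?_ ?_
    · intro D hD
      simp only [Finset.mem_filter, Finset.mem_univ, true_and] at hD
      rw [Finset.mem_filter, Finset.mem_powersetCard]
      refine ⟨⟨Finset.subset_univ _, ?_⟩, Finset.sdiff_disjoint⟩
      rw [Finset.card_sdiff_of_subset hD.2, hD.1, hc3]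
    · intro Y hY
      rw [Finset.mem_filter, Finset.mem_powersetCard] at hY
      simp only [Finset.mem_filter, Finset.mem_univ, true_and]
      refine ⟨?_, Finset.subset_union_right⟩
      rw [Finset.card_union_of_disjoint hY.2, hY.1.2, hc3]
    · intro D hD
      simp only [Finset.mem_filter, Finset.mem_univ, true_and] at hD
      exact Finset.sdiff_union_of_subset hD.2
    · intro Y hY
      rw [Finset.mem_filter] at hY
      exact Finset.union_sdiff_cancel_right hY.2
    · intro D hD
      simp only [Finset.mem_filter, Finset.mem_univ, true_and] at hD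
      rw [Finset.sdiff_union_of_subset hD.2]
  rw [step3, TT_eq h1 hN, Finset.sum_filter]
  rw [Finset.mul_sum, Finset.mul_sum]
  refine Finset.sum_congr rfl fun Y hY => ?_
  by_cases hdis : Disjoint Y (univ.image (tri e))
  · rw [if_pos hdis, if_pos hdis, hD6 _ (by
      rw [Finset.card_union_of_disjoint hdis, (Finset.mem_powersetCard.mp hY).2, hc3])]
    ring
  · rw [if_neg hdis, if_neg hdis]
    ring

theorem TT_shift (g : ZMod N → ℝ) (a b c : ZMod N) : TT N g (a + c) (b + c) = TT N g a b := by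
  unfold TT
  symm
  refine Fintype.sum_equiv (Equiv.addRight (fun _ : Fin 3 => c)) _ _ fun y => ?_
  have hcond : (∀ i, y i ≠ a ∧ y i ≠ a + 1 ∧ y i ≠ a + 2) ↔
      (∀ i, (Equiv.addRight (fun _ : Fin 3 => c)) y i ≠ a + c ∧
        (Equiv.addRight (fun _ : Fin 3 => c)) y i ≠ a + c + 1 ∧
        (Equiv.addRight (fun _ : Fin 3 => c)) y i ≠ a + c + 2) := by
    refine forall_congr' fun i => ?_
    simp only [Equiv.coe_addRight, Pi.add_apply, ne_eq]
    rw [add_right_comm a c 1, add_right_comm a c 2, add_left_inj, add_left_inj, add_left_inj]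
  have hdet : (Matrix.of fun i j : Fin 3 => Umat N (y i) (b + ((j : ℕ) : ZMod N)))
      = (Matrix.of fun i j : Fin 3 => Umat N ((Equiv.addRight (fun _ : Fin 3 => c)) y i)
        (b + c + ((j : ℕ) : ZMod N))) := by
    ext i j
    simp only [Matrix.of_apply, Equiv.coe_addRight, Pi.add_apply]
    unfold Umat
    congr 1
    refine Finset.sum_congr rfl fun k _ => ?_
    congr 3
    ring
  have hsum : (∑ t : ZMod N, g (a - t) * g (a + 1 - t) * g (a + 2 - t) * ∏ i, g (y i - t))
      = ∑ t : ZMod N, g (a + c - t) * g (a + c + 1 - t) * g (a + c + 2 - t) *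
        ∏ i, g ((Equiv.addRight (fun _ : Fin 3 => c)) y i - t) := by
    refine Fintype.sum_equiv (Equiv.addRight c) _ _ fun t => ?_
    simp only [Equiv.coe_addRight, Pi.add_apply]
    congr 1
    · congr 1
      · congr 1
        · congr 1; ring
        · congr 1; ring
      · congr 1; ring
    · refine Finset.prod_congr rfl fun i _ => ?_
      congr 1; ring
  by_cases h : ∀ i, y i ≠ a ∧ y i ≠ a + 1 ∧ y i ≠ a + 2
  · rw [if_pos h, if_pos (hcond.mp h), hdet, hsum]
  · rw [if_neg h, if_neg (fun h' => h (hcond.mpr h'))]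

omit [NeZero N] in
theorem sum_range_two (n : ℕ) (f : ℕ → ℝ) :
    ∑ t ∈ range (2 * n), f t = ∑ x ∈ range n, (f (2 * x) + f (2 * x + 1)) := by
  induction n with
  | zero => simp
  | succ n ih =>
    rw [Finset.sum_range_succ, ← ih, show 2 * (n + 1) = 2 * n + 1 + 1 by ring,
      Finset.sum_range_succ, Finset.sum_range_succ]
    ring

omit [NeZero N] in
theorem site_even (x : ℕ) : site N ((2 * x : ℕ) : ℤ) = (false, (x : ZMod N)) := by
  unfold site
  have h1 : ((2 * x : ℕ) : ℤ) % 2 = 0 := by omega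
  have h2 : ((2 * x : ℕ) : ℤ) / 2 = x := by omega
  rw [h1, h2]
  simp

omit [NeZero N] in
theorem site_odd (x : ℕ) : site N ((2 * x + 1 : ℕ) : ℤ) = (true, (x : ZMod N)) := by
  unfold site
  have h1 : ((2 * x + 1 : ℕ) : ℤ) % 2 = 1 := by omega
  have h2 : ((2 * x + 1 : ℕ) : ℤ) / 2 = x := by omega
  rw [h1, h2]
  simp

theorem occ_odd (s : Fin N → Site N) (z : ZMod N) [Decidable (∃ j, s j = (true, z))] :
    (if ∃ j, s j = (true, z) then (1 : ℝ) else 0) = occ s z := by
  unfold occ
  congr

theorem occ_even (s : Fin N → Site N) (x : ZMod N) [Decidable (∃ j, s j = (false, x))] :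
    (if ∃ j, s j = (false, x) then (1 : ℝ) else 0) = (1 + sg s x) / 2 := by
  unfold sg
  split_ifs <;> norm_num

open Classical in
/-- indicator of the pattern starting at `t` -/
noncomputable def ind (s : Fin N → Site N) (t : ℤ) : ℝ :=
  if (∃ j, s j = site N t) ∧ (∃ j, s j = site N (t + 5)) ∧
    ∀ i : ℕ, 1 ≤ i → i ≤ 4 → ¬ ∃ j, s j = site N (t + i) then 1 else 0

open Classical in
theorem pat_eq (s : Fin N → Site N) : (pat s : ℝ) = ∑ t ∈ range (2 * N), ind s (t : ℤ) := by
  have h : (do
      let a ← range (2 * N)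
      pure ((a : ℕ) : ℤ) : Finset ℤ) = (range (2 * N)).image (fun a : ℕ => (a : ℤ)) := by
    ext x
    simp only [Finset.bind_def, Finset.pure_def, Finset.mem_sup, Finset.mem_singleton,
      Finset.mem_image]
    exact ⟨fun ⟨a, ha, h⟩ => ⟨a, ha, h.symm⟩, fun ⟨a, ha, h⟩ => ⟨a, ha, h.symm⟩⟩
  unfold pat ind
  rw [Finset.card_filter]
  push_cast
  rw [← Finset.sum_image (s := range (2 * N)) (g := fun a : ℕ => (a : ℤ))
    (f := fun t : ℤ => if (∃ j, s j = site N t) ∧ (∃ j, s j = site N (t + 5)) ∧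
    ∀ i : ℕ, 1 ≤ i → i ≤ 4 → ¬ ∃ j, s j = site N (t + i) then (1 : ℝ) else 0)
    (fun a _ b _ h => Int.ofNat_injective h), ← h]

open Classical in
/-- occupation of the site at position `t` -/
noncomputable def oc (s : Fin N → Site N) (t : ℤ) : ℝ := if ∃ j, s j = site N t then 1 else 0

theorem ind_eq (s : Fin N → Site N) (t : ℤ) :
    ind s t = oc s t * (1 - oc s (t + 1)) * (1 - oc s (t + 2)) * (1 - oc s (t + 3)) *
      (1 - oc s (t + 4)) * oc s (t + 5) := by
  classical
  unfold ind
  have hforall : (∀ i : ℕ, 1 ≤ i → i ≤ 4 → ¬ ∃ j, s j = site N (t + i)) ↔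
      ((¬ ∃ j, s j = site N (t + 1)) ∧ (¬ ∃ j, s j = site N (t + 2)) ∧
        (¬ ∃ j, s j = site N (t + 3)) ∧ ¬ ∃ j, s j = site N (t + 4)) := by
    constructor
    · intro h
      exact ⟨by simpa using h 1 (by norm_num) (by norm_num),
        by simpa using h 2 (by norm_num) (by norm_num),
        by simpa using h 3 (by norm_num) (by norm_num),
        by simpa using h 4 (by norm_num) (by norm_num)⟩
    · rintro ⟨h1, h2, h3, h4⟩ i hi1 hi4
      interval_cases i
      · simpa using h1
      · simpa using h2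
      · simpa using h3
      · simpa using h4
  simp only [hforall]
  unfold oc
  by_cases a0 : ∃ j, s j = site N t <;> by_cases a5 : ∃ j, s j = site N (t + 5) <;>
    by_cases a1 : ∃ j, s j = site N (t + 1) <;> by_cases a2 : ∃ j, s j = site N (t + 2) <;>
    by_cases a3 : ∃ j, s j = site N (t + 3) <;> by_cases a4 : ∃ j, s j = site N (t + 4) <;>
    simp only [a0, a1, a2, a3, a4, a5, if_true, if_false, not_true, not_false_eq_true, and_true,
      and_false, true_and, false_and] <;> norm_num

theorem oc_even (s : Fin N → Site N) (x : ℕ) (t : ℤ) (ht : t = 2 * x) :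
    oc s t = (1 + sg s (x : ZMod N)) / 2 := by
  classical
  have : site N t = (false, (x : ZMod N)) := by
    rw [ht]; exact_mod_cast site_even (N := N) x
  unfold oc
  rw [this]
  exact occ_even s x

theorem oc_odd (s : Fin N → Site N) (x : ℕ) (t : ℤ) (ht : t = 2 * x + 1) :
    oc s t = occ s (x : ZMod N) := by
  classical
  have : site N t = (true, (x : ZMod N)) := by
    rw [ht]; exact_mod_cast site_odd (N := N) x
  unfold oc
  rw [this]
  exact occ_odd s x

theorem ind_even (s : Fin N → Site N) (x : ℕ) :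
    ind s ((2 * x : ℕ) : ℤ) = (1 / 8) * ((∏ i : Fin 3, (1 + (![1, -1, -1] : Fin 3 → ℝ) i *
      sg s (tri (x : ZMod N) i))) * ∏ j : Fin 3, ((![-1, -1, 1] : Fin 3 → ℝ) j *
        occ s (tri (x : ZMod N) j) + (![1, 1, 0] : Fin 3 → ℝ) j)) := by
  rw [ind_eq]
  rw [oc_even s x _ (by push_cast; ring), oc_odd s x _ (by push_cast; ring),
    oc_even s (x + 1) _ (by push_cast; ring), oc_odd s (x + 1) _ (by push_cast; ring),
    oc_even s (x + 2) _ (by push_cast; ring), oc_odd s (x + 2) _ (by push_cast; ring)]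
  rw [Fin.prod_univ_three, Fin.prod_univ_three]
  simp only [tri, Matrix.cons_val_zero, Matrix.cons_val_one, Matrix.cons_val_two,
    Matrix.cons_val]
  push_cast
  simp
  ring

theorem ind_odd (s : Fin N → Site N) (x : ℕ) :
    ind s ((2 * x + 1 : ℕ) : ℤ) = (1 / 8) * ((∏ i : Fin 3, (1 + (![-1, -1, 1] : Fin 3 → ℝ) i *
      sg s (tri ((x : ZMod N) + 1) i))) * ∏ j : Fin 3, ((![1, -1, -1] : Fin 3 → ℝ) j *
        occ s (tri (x : ZMod N) j) + (![0, 1, 1] : Fin 3 → ℝ) j)) := by
  rw [ind_eq]
  rw [oc_odd s x _ (by push_cast; ring), oc_even s (x + 1) _ (by push_cast; ring),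
    oc_odd s (x + 1) _ (by push_cast; ring), oc_even s (x + 2) _ (by push_cast; ring),
    oc_odd s (x + 2) _ (by push_cast; ring), oc_even s (x + 3) _ (by push_cast; ring)]
  rw [Fin.prod_univ_three, Fin.prod_univ_three]
  have e1 : (x : ZMod N) + 1 + 1 = x + 2 := by ring
  have e2 : (x : ZMod N) + 1 + 2 = x + 3 := by ring
  simp only [tri, Matrix.cons_val_zero, Matrix.cons_val_one, Matrix.cons_val_two,
    Matrix.cons_val]
  push_cast
  simp [e1, e2]
  ring

/-- E, with the facts of the other groups as hypotheses -/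
theorem core (h0 : HZero N) (h1 : HEq N) (hN : 3 ≤ N) (ε : ℝ) (g : ZMod N → ℝ)
    (hD0 : cD N ε g ∅ = 1) (hD5 : ∀ D, 1 ≤ #D → #D ≤ 5 → cD N ε g D = 0)
    (hD6 : ∀ D, #D = 6 → cD N ε g D = ε * ∑ t : ZMod N, ∏ x ∈ D, g (x - t)) :
    ∑ s : Fin N → Site N, (mu N ε g s - wP N s) * (pat s : ℝ) =
      -(ε / 384) * N * (TT N g 0 0 + TT N g 1 0) := by
  have hpat : ∀ s : Fin N → Site N, (pat s : ℝ) =
      ∑ x ∈ range N, (ind s ((2 * x : ℕ) : ℤ) + ind s ((2 * x + 1 : ℕ) : ℤ)) := fun s => by
    rw [pat_eq, sum_range_two N (fun t => ind s (t : ℤ))]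
  simp only [hpat, Finset.mul_sum]
  rw [Finset.sum_comm]
  have hx : ∀ x ∈ range N, ∑ s : Fin N → Site N, (mu N ε g s - wP N s) *
      (ind s ((2 * x : ℕ) : ℤ) + ind s ((2 * x + 1 : ℕ) : ℤ)) = -(ε / 384) * (TT N g 0 0 + TT N g 1 0) := by
    intro x _
    have w1 := window h0 h1 hN ε g hD0 hD5 hD6 (x : ZMod N) (x : ZMod N)
      (![1, -1, -1] : Fin 3 → ℝ) (![1, 1, 0] : Fin 3 → ℝ) (![-1, -1, 1] : Fin 3 → ℝ)
      (by rw [Fin.prod_univ_three]; simp) (by rw [Fin.prod_univ_three]; simp)
    have w2 := window h0 h1 hN ε g hD0 hD5 hD6 ((x : ZMod N) + 1) (x : ZMod N)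
      (![-1, -1, 1] : Fin 3 → ℝ) (![0, 1, 1] : Fin 3 → ℝ) (![1, -1, -1] : Fin 3 → ℝ)
      (by rw [Fin.prod_univ_three]; simp) (by rw [Fin.prod_univ_three]; simp)
    have t1 : TT N g (x : ZMod N) (x : ZMod N) = TT N g 0 0 := by
      have := TT_shift g (0 : ZMod N) 0 (x : ZMod N)
      rwa [zero_add] at this
    have t2 : TT N g ((x : ZMod N) + 1) (x : ZMod N) = TT N g 1 0 := by
      have := TT_shift g (1 : ZMod N) 0 (x : ZMod N)
      rwa [zero_add, add_comm (1 : ZMod N)] at this
    rw [t1] at w1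
    rw [t2] at w2
    simp only [ind_even, ind_odd]
    have : ∀ s : Fin N → Site N, (mu N ε g s - wP N s) *
        (1 / 8 * ((∏ i : Fin 3, (1 + (![1, -1, -1] : Fin 3 → ℝ) i *
      sg s (tri (x : ZMod N) i))) * ∏ j : Fin 3, ((![-1, -1, 1] : Fin 3 → ℝ) j *
        occ s (tri (x : ZMod N) j) + (![1, 1, 0] : Fin 3 → ℝ) j)) +
        1 / 8 * ((∏ i : Fin 3, (1 + (![-1, -1, 1] : Fin 3 → ℝ) i *
      sg s (tri ((x : ZMod N) + 1) i))) * ∏ j : Fin 3, ((![1, -1, -1] : Fin 3 → ℝ) j *
        occ s (tri (x : ZMod N) j) + (![0, 1, 1] : Fin 3 → ℝ) j)))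
        = (1 / 8) * ((mu N ε g s - wP N s) *
          ((∏ i : Fin 3, (1 + (![1, -1, -1] : Fin 3 → ℝ) i *
      sg s (tri (x : ZMod N) i))) * ∏ j : Fin 3, ((![-1, -1, 1] : Fin 3 → ℝ) j *
        occ s (tri (x : ZMod N) j) + (![1, 1, 0] : Fin 3 → ℝ) j))) +
        (1 / 8) * ((mu N ε g s - wP N s) *
          ((∏ i : Fin 3, (1 + (![-1, -1, 1] : Fin 3 → ℝ) i *
      sg s (tri ((x : ZMod N) + 1) i))) * ∏ j : Fin 3, ((![1, -1, -1] : Fin 3 → ℝ) j *
        occ s (tri (x : ZMod N) j) + (![0, 1, 1] : Fin 3 → ℝ) j))) := fun s => by ring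
    simp only [this]
    rw [Finset.sum_add_distrib, ← Finset.mul_sum, ← Finset.mul_sum, w1, w2]
    ring
  rw [Finset.sum_congr rfl hx, Finset.sum_const, Finset.card_range, nsmul_eq_mul]
  ring

end EPat

end Pool.Agent.H808R2.AH
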