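import Pool.Agent.H808R2.AH.Defs
import Pool.Agent.H808R2.AH.ECore
import Pool.Agent.H808R2.AH.D1
import Pool.Agent.H808R2.AH.E1

/-!
Task E: change of the frequency of the pattern `100001` (helper423).
-/

namespace Pool.Agent.H808R2.AH
open Finset Filter Topology

/-- E -/
theorem E_pat (N : ℕ) [NeZero N] (hN : 3 ≤ N) (ε : ℝ) (g : ZMod N → ℝ) :
    ∑ s : Fin N → Site N, (mu N ε g s - wP N s) * (pat s : ℝ) = -(ε / 384) * N * (TT N g 0 0 + TT N g 1 0) := by
  refine EPat.core ?_ ?_ hN ε g (D1_empty N ε g) (D1_small N ε g) (D1_six N ε g)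
  · intro n m hmn y hy z hz
    exact E1_zero N hmn y hy z hz
  · intro n y hy z hz
    exact E1_eq N y hy z hz

end Pool.Agent.H808R2.AH
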