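import Pool.Agent.H808R2.AH.Defs

/-!
# Task F2: the Fejér kernel on the ring (helper619)
-/

namespace Pool.Agent.H808R2.AH

open Finset Filter Topology

namespace F2

section General

variable {N : ℕ} [NeZero N]

/-- the character -/
noncomputable def e (x : ZMod N) : ℂ := ZMod.stdAddChar x

theorem e_add (x y : ZMod N) : e (x + y) = e x * e y := AddChar.map_add_eq_mul _ _ _

theorem e_zero : e (0 : ZMod N) = 1 := AddChar.map_zero_eq_one _

theorem norm_e (x : ZMod N) : ‖e x‖ = 1 := by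
  unfold e
  rw [ZMod.stdAddChar_apply]
  exact Circle.norm_coe _

theorem e_mul_conj (x : ZMod N) : e x * (starRingEnd ℂ) (e x) = 1 := by
  rw [Complex.mul_conj, Complex.normSq_eq_norm_sq, norm_e]
  norm_num

theorem conj_e (x : ZMod N) : (starRingEnd ℂ) (e x) = e (-x) := by
  have h1 : e x * e (-x) = 1 := by
    rw [← e_add, add_neg_cancel, e_zero]
  have h2 := e_mul_conj x
  have h3 : e x ≠ 0 := by
    intro h
    have := norm_e x
    rw [h, norm_zero] at this
    norm_num at this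
  exact mul_left_cancel₀ h3 (h2.trans h1.symm)

theorem sum_e (b : ZMod N) : ∑ x : ZMod N, e (b * x) = if b = 0 then (N : ℂ) else 0 := by
  have h := AddChar.sum_mulShift b (ZMod.isPrimitive_stdAddChar N)
  rw [ZMod.card] at h
  simp only [mul_comm b]
  unfold e
  rw [h]
  split_ifs <;> simp

/-- Plancherel -/
theorem planch (K : ℕ) (hK : K ≤ N) (c : ℕ → ℂ) :
    ∑ x : ZMod N, ‖∑ j ∈ range K, c j * e ((j : ZMod N) * x)‖ ^ 2 =
      N * ∑ j ∈ range K, ‖c j‖ ^ 2 := by
  have h1 : ∀ x : ZMod N, ((‖∑ j ∈ range K, c j * e ((j : ZMod N) * x)‖ ^ 2 : ℝ) : ℂ) =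
      ∑ j ∈ range K, ∑ i ∈ range K,
        c j * (starRingEnd ℂ) (c i) * e (((j : ZMod N) - (i : ZMod N)) * x) := by
    intro x
    rw [← Complex.normSq_eq_norm_sq, ← Complex.mul_conj, map_sum, Finset.sum_mul_sum]
    refine Finset.sum_congr rfl fun j _ => Finset.sum_congr rfl fun i _ => ?_
    rw [map_mul, conj_e]
    have : ((j : ZMod N) - (i : ZMod N)) * x = (j : ZMod N) * x + -((i : ZMod N) * x) := by ring
    rw [this, e_add]
    ring
  have h2 : ((∑ x : ZMod N, ‖∑ j ∈ range K, c j * e ((j : ZMod N) * x)‖ ^ 2 : ℝ) : ℂ) =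
      ((N * ∑ j ∈ range K, ‖c j‖ ^ 2 : ℝ) : ℂ) := by
    rw [Complex.ofReal_sum]
    rw [Finset.sum_congr rfl fun x _ => h1 x, Finset.sum_comm]
    push_cast
    rw [Finset.mul_sum]
    refine Finset.sum_congr rfl fun j hj => ?_
    rw [Finset.sum_comm]
    have h3 : ∀ i ∈ range K, ∑ x : ZMod N,
        c j * (starRingEnd ℂ) (c i) * e (((j : ZMod N) - (i : ZMod N)) * x) =
        if i = j then (N : ℂ) * (‖c j‖ : ℂ) ^ 2 else 0 := by
      intro i hi
      rw [← Finset.mul_sum, sum_e]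
      rw [mem_range] at hi hj
      have h4 : ((j : ZMod N) - (i : ZMod N) = 0) ↔ i = j := by
        rw [sub_eq_zero, ZMod.natCast_eq_natCast_iff', Nat.mod_eq_of_lt (by omega),
          Nat.mod_eq_of_lt (by omega)]
        exact eq_comm
      by_cases hij : i = j
      · rw [if_pos hij, if_pos (h4.2 hij), hij, Complex.mul_conj, Complex.normSq_eq_norm_sq]
        push_cast
        ring
      · rw [if_neg hij, if_neg (fun h => hij (h4.1 h)), mul_zero]
    rw [Finset.sum_congr rfl h3, Finset.sum_ite_eq' (range K) j, if_pos hj]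
  exact_mod_cast h2

/-- Dirichlet kernel -/
noncomputable def D (K : ℕ) (x : ZMod N) : ℂ := ∑ j ∈ range K, e ((j : ZMod N) * x)

theorem fejer_eq (K : ℕ) (x : ZMod N) : fejer N K x = (1 / (K : ℝ) ^ 2) * ‖D K x‖ ^ 2 := rfl

theorem norm_D_le (K : ℕ) (x : ZMod N) : ‖D K x‖ ≤ K := by
  unfold D
  calc ‖∑ j ∈ range K, e ((j : ZMod N) * x)‖ ≤ ∑ j ∈ range K, ‖e ((j : ZMod N) * x)‖ :=
        norm_sum_le _ _
    _ = K := by simp [norm_e]

theorem sum_D (K : ℕ) (hK : K ≤ N) : ∑ x : ZMod N, ‖D K x‖ ^ 2 = N * K := by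
  have h := planch (N := N) K hK (fun _ => 1)
  simp only [one_mul, norm_one, one_pow, sum_const, card_range, nsmul_eq_mul, mul_one] at h
  exact h

theorem norm_e_sub_one (j : ℕ) : ‖e ((j : ZMod N)) - 1‖ ≤ 2 * Real.pi * j / N := by
  have h1 : e ((j : ZMod N)) = Complex.exp (Complex.I * ((2 * Real.pi * j / N : ℝ) : ℂ)) := by
    have h := ZMod.stdAddChar_coe (N := N) (j : ℤ)
    rw [Int.cast_natCast] at h
    unfold e
    rw [h]
    congr 1
    push_cast
    ring
  rw [h1]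
  refine Real.norm_exp_I_mul_ofReal_sub_one_le.trans ?_
  rw [Real.norm_eq_abs, abs_of_nonneg (by positivity)]

theorem sum_D_diff (K : ℕ) (hK : K ≤ N) :
    ∑ x : ZMod N, ‖D K (x + 1) - D K x‖ ^ 2 ≤ N * (K * (2 * Real.pi * K / N) ^ 2) := by
  have h1 : ∀ x : ZMod N, D K (x + 1) - D K x =
      ∑ j ∈ range K, (e ((j : ZMod N)) - 1) * e ((j : ZMod N) * x) := by
    intro x
    unfold D
    rw [← Finset.sum_sub_distrib]
    refine Finset.sum_congr rfl fun j _ => ?_
    rw [mul_add, mul_one, e_add]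
    ring
  simp only [h1]
  rw [planch K hK]
  refine mul_le_mul_of_nonneg_left ?_ (Nat.cast_nonneg _)
  calc ∑ j ∈ range K, ‖e ((j : ZMod N)) - 1‖ ^ 2 ≤
        ∑ _j ∈ range K, (2 * Real.pi * K / N) ^ 2 := by
        refine Finset.sum_le_sum fun j hj => ?_
        rw [mem_range] at hj
        refine pow_le_pow_left₀ (norm_nonneg _) ((norm_e_sub_one j).trans ?_) 2
        have : (j : ℝ) ≤ K := by exact_mod_cast hj.le
        gcongr
    _ = K * (2 * Real.pi * K / N) ^ 2 := by simp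

theorem range' (K : ℕ) (hK : 1 ≤ K) (x : ZMod N) : 0 ≤ fejer N K x ∧ fejer N K x ≤ 1 := by
  have hKR : (0 : ℝ) < K := by exact_mod_cast hK
  rw [fejer_eq]
  constructor
  · positivity
  · have h := norm_D_le K x
    have h2 : ‖D K x‖ ^ 2 ≤ (K : ℝ) ^ 2 := pow_le_pow_left₀ (norm_nonneg _) h 2
    rw [one_div, inv_mul_le_iff₀ (by positivity), mul_one]
    exact h2

/-- total variation -/
theorem tv (K : ℕ) (hK : 1 ≤ K) (hKN : K ≤ N) :
    ∑ x : ZMod N, |fejer N K (x + 1) - fejer N K x| ≤ 4 * Real.pi := by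
  have hKR : (0 : ℝ) < K := by exact_mod_cast hK
  have hNR : (0 : ℝ) < N := by exact_mod_cast (NeZero.pos N)
  have h1 : ∀ x : ZMod N, |fejer N K (x + 1) - fejer N K x| ≤
      (1 / (K : ℝ) ^ 2) * (‖D K (x + 1) - D K x‖ * (‖D K (x + 1)‖ + ‖D K x‖)) := by
    intro x
    rw [fejer_eq, fejer_eq, ← mul_sub, abs_mul, abs_of_nonneg (by positivity)]
    refine mul_le_mul_of_nonneg_left ?_ (by positivity)
    have h2 : ‖D K (x + 1)‖ ^ 2 - ‖D K x‖ ^ 2 =
        (‖D K (x + 1)‖ - ‖D K x‖) * (‖D K (x + 1)‖ + ‖D K x‖) := by ring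
    rw [h2, abs_mul, abs_of_nonneg (a := ‖D K (x + 1)‖ + ‖D K x‖) (by positivity)]
    exact mul_le_mul_of_nonneg_right (abs_norm_sub_norm_le _ _) (by positivity)
  have hcs := Finset.sum_mul_sq_le_sq_mul_sq (univ : Finset (ZMod N))
    (fun x => ‖D K (x + 1) - D K x‖) (fun x => ‖D K (x + 1)‖ + ‖D K x‖)
  have hA := sum_D_diff (N := N) K hKN
  have hS := sum_D (N := N) K hKN
  have hS1 : ∑ x : ZMod N, ‖D K (x + 1)‖ ^ 2 = N * K := by
    rw [← hS]
    exact Fintype.sum_equiv (Equiv.addRight (1 : ZMod N)) _ _ (fun x => rfl)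
  have hB : ∑ x : ZMod N, (‖D K (x + 1)‖ + ‖D K x‖) ^ 2 ≤ 4 * (N * K) := by
    calc ∑ x : ZMod N, (‖D K (x + 1)‖ + ‖D K x‖) ^ 2 ≤
          ∑ x : ZMod N, (2 * ‖D K (x + 1)‖ ^ 2 + 2 * ‖D K x‖ ^ 2) := by
          refine Finset.sum_le_sum fun x _ => ?_
          nlinarith [sq_nonneg (‖D K (x + 1)‖ - ‖D K x‖)]
      _ = 4 * (N * K) := by
          rw [Finset.sum_add_distrib, ← Finset.mul_sum, ← Finset.mul_sum, hS, hS1]
          ring
  have hA0 : 0 ≤ ∑ x : ZMod N, ‖D K (x + 1) - D K x‖ ^ 2 :=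
    Finset.sum_nonneg fun x _ => by positivity
  have h3 : (∑ x : ZMod N, ‖D K (x + 1) - D K x‖ * (‖D K (x + 1)‖ + ‖D K x‖)) ^ 2 ≤
      (4 * Real.pi * (K : ℝ) ^ 2) ^ 2 := by
    refine hcs.trans ?_
    calc _ ≤ (N * (K * (2 * Real.pi * K / N) ^ 2)) * (4 * (N * K)) :=
          mul_le_mul hA hB (Finset.sum_nonneg fun x _ => by positivity) (hA0.trans hA)
      _ = (4 * Real.pi * (K : ℝ) ^ 2) ^ 2 := by
          field_simp
          ring
  have h4 : ∑ x : ZMod N, ‖D K (x + 1) - D K x‖ * (‖D K (x + 1)‖ + ‖D K x‖) ≤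
      4 * Real.pi * (K : ℝ) ^ 2 := by
    refine abs_le_of_sq_le_sq' h3 (by positivity) |>.2
  calc ∑ x : ZMod N, |fejer N K (x + 1) - fejer N K x| ≤
        ∑ x : ZMod N, (1 / (K : ℝ) ^ 2) * (‖D K (x + 1) - D K x‖ * (‖D K (x + 1)‖ + ‖D K x‖)) :=
        Finset.sum_le_sum fun x _ => h1 x
    _ = (1 / (K : ℝ) ^ 2) * ∑ x : ZMod N, ‖D K (x + 1) - D K x‖ * (‖D K (x + 1)‖ + ‖D K x‖) := by
        rw [Finset.mul_sum]
    _ ≤ (1 / (K : ℝ) ^ 2) * (4 * Real.pi * (K : ℝ) ^ 2) :=
        mul_le_mul_of_nonneg_left h4 (by positivity)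
    _ = 4 * Real.pi := by field_simp

/-- translation by a natural number -/
theorem transl_nat (f : ZMod N → ℝ) (V : ℝ) (hV : ∑ x : ZMod N, |f (x + 1) - f x| ≤ V) (n : ℕ) :
    ∑ x : ZMod N, |f (x + n) - f x| ≤ n * V := by
  induction n with
  | zero => simp
  | succ n ih =>
    have h1 : ∑ x : ZMod N, |f (x + n + 1) - f (x + n)| ≤ V := by
      refine le_trans (le_of_eq ?_) hV
      exact Fintype.sum_equiv (Equiv.addRight (n : ZMod N)) _ _ (fun x => rfl)
    calc ∑ x : ZMod N, |f (x + ((n + 1 : ℕ) : ZMod N)) - f x| ≤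
          ∑ x : ZMod N, (|f (x + n + 1) - f (x + n)| + |f (x + n) - f x|) := by
          refine Finset.sum_le_sum fun x _ => ?_
          have e1 : x + ((n + 1 : ℕ) : ZMod N) = x + n + 1 := by push_cast; ring
          rw [e1]
          exact abs_sub_le _ _ _
      _ ≤ V + n * V := by
          rw [Finset.sum_add_distrib]
          exact add_le_add h1 ih
      _ = ((n + 1 : ℕ) : ℝ) * V := by push_cast; ring

theorem transl_int (f : ZMod N → ℝ) (V : ℝ) (hV : ∑ x : ZMod N, |f (x + 1) - f x| ≤ V) (c : ℤ) :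
    ∑ x : ZMod N, |f (x + (c : ZMod N)) - f x| ≤ |(c : ℝ)| * V := by
  rcases Int.eq_nat_or_neg c with ⟨n, hn | hn⟩
  · have := transl_nat f V hV n
    rw [hn]
    simpa using this
  · have := transl_nat f V hV n
    rw [hn]
    have h1 : ∑ x : ZMod N, |f (x + ((-(n : ℤ) : ℤ) : ZMod N)) - f x| =
        ∑ x : ZMod N, |f (x + n) - f x| := by
      refine Fintype.sum_equiv (Equiv.addRight (-(n : ZMod N))) _ _ (fun x => ?_)
      simp only [Equiv.coe_addRight]
      rw [neg_add_cancel_right, abs_sub_comm]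
      push_cast
      rfl
    rw [h1]
    simpa using this

theorem prod_sub_prod {ι : Type*} (s : Finset ι) (a b : ι → ℝ)
    (ha : ∀ i ∈ s, 0 ≤ a i ∧ a i ≤ 1) (hb : ∀ i ∈ s, 0 ≤ b i ∧ b i ≤ 1) :
    |∏ i ∈ s, a i - ∏ i ∈ s, b i| ≤ ∑ i ∈ s, |a i - b i| := by
  classical
  induction s using Finset.induction_on with
  | empty => simp
  | insert i s hi ih =>
    rw [Finset.prod_insert hi, Finset.prod_insert hi, Finset.sum_insert hi]
    have ih' := ih (fun j hj => ha j (Finset.mem_insert_of_mem hj))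
      (fun j hj => hb j (Finset.mem_insert_of_mem hj))
    have h1 : a i * ∏ j ∈ s, a j - b i * ∏ j ∈ s, b j =
        (a i - b i) * ∏ j ∈ s, a j + b i * (∏ j ∈ s, a j - ∏ j ∈ s, b j) := by ring
    rw [h1]
    refine (abs_add_le _ _).trans (add_le_add ?_ ?_)
    · rw [abs_mul]
      have hp0 : 0 ≤ ∏ j ∈ s, a j :=
        Finset.prod_nonneg fun j hj => (ha j (Finset.mem_insert_of_mem hj)).1
      have hp1 : ∏ j ∈ s, a j ≤ 1 :=
        Finset.prod_le_one (fun j hj => (ha j (Finset.mem_insert_of_mem hj)).1)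
          fun j hj => (ha j (Finset.mem_insert_of_mem hj)).2
      rw [abs_of_nonneg hp0]
      exact mul_le_of_le_one_right (abs_nonneg _) hp1
    · rw [abs_mul]
      have hbi := hb i (Finset.mem_insert_self i s)
      rw [abs_of_nonneg hbi.1]
      exact (mul_le_of_le_one_left (abs_nonneg _) hbi.2).trans ih'

/-- lower bound of the kernel near zero -/
theorem D_lower (K t : ℕ) (ht : 4 * (K * t) ≤ N) : (7 / 10 : ℝ) * K ≤ ‖D K ((t : ZMod N))‖ := by
  have hNR : (0 : ℝ) < N := by exact_mod_cast (NeZero.pos N)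
  set φ : ℝ := 2 * Real.pi * t / N with hφ
  have h1 : ∀ j : ℕ, e ((j : ZMod N) * (t : ZMod N)) = Complex.exp (((j * φ : ℝ) : ℂ) * Complex.I) := by
    intro j
    have h := ZMod.stdAddChar_coe (N := N) ((j * t : ℕ) : ℤ)
    rw [Int.cast_natCast, Nat.cast_mul] at h
    unfold e
    rw [h]
    congr 1
    rw [hφ]
    push_cast
    ring
  set u : ℂ := Complex.exp (((-(((K : ℝ) - 1) / 2 * φ) : ℝ) : ℂ) * Complex.I) with hu
  have hun : ‖u‖ = 1 := Complex.norm_exp_ofReal_mul_I _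
  have h2 : (u * D K ((t : ZMod N))).re =
      ∑ j ∈ range K, Real.cos (((j : ℝ) - ((K : ℝ) - 1) / 2) * φ) := by
    unfold D
    rw [Finset.mul_sum, Complex.re_sum]
    refine Finset.sum_congr rfl fun j _ => ?_
    rw [h1, hu, ← Complex.exp_add, ← add_mul, ← Complex.ofReal_add, Complex.exp_ofReal_mul_I_re]
    congr 1
    ring
  have h3 : (7 / 10 : ℝ) * K ≤ (u * D K ((t : ZMod N))).re := by
    rw [h2]
    calc (7 / 10 : ℝ) * K = ∑ _j ∈ range K, (7 / 10 : ℝ) := by
          rw [Finset.sum_const, card_range, nsmul_eq_mul, mul_comm]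
      _ ≤ _ := by
          refine Finset.sum_le_sum fun j hj => ?_
          rw [mem_range] at hj
          have hjK : (j : ℝ) + 1 ≤ K := by exact_mod_cast hj
          have hj0 : (0 : ℝ) ≤ j := Nat.cast_nonneg j
          have hKt : 4 * ((K : ℝ) * t) ≤ N := by exact_mod_cast ht
          have hφ0 : 0 ≤ φ := by rw [hφ]; positivity
          have hKφ : (K : ℝ) / 2 * φ ≤ Real.pi / 4 := by
            rw [hφ]
            have : (K : ℝ) / 2 * (2 * Real.pi * t / N) = Real.pi * ((K : ℝ) * t) / N := by ring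
            rw [this, div_le_div_iff₀ hNR (by norm_num)]
            nlinarith [Real.pi_pos]
          have h4 : |((j : ℝ) - ((K : ℝ) - 1) / 2) * φ| ≤ Real.pi / 4 := by
            rw [abs_mul, abs_of_nonneg hφ0]
            refine (mul_le_mul_of_nonneg_right ?_ hφ0).trans hKφ
            rw [abs_le]
            constructor <;> linarith
          have h5 : Real.cos (Real.pi / 4) ≤ Real.cos |((j : ℝ) - ((K : ℝ) - 1) / 2) * φ| :=
            Real.cos_le_cos_of_nonneg_of_le_pi (abs_nonneg _) (by linarith [Real.pi_pos]) h4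
          rw [Real.cos_abs, Real.cos_pi_div_four] at h5
          have h6 : (7 / 5 : ℝ) ≤ Real.sqrt 2 := by
            rw [Real.le_sqrt (by norm_num) (by norm_num)]
            norm_num
          linarith
  calc (7 / 10 : ℝ) * K ≤ (u * D K ((t : ZMod N))).re := h3
    _ ≤ ‖u * D K ((t : ZMod N))‖ := Complex.re_le_norm _
    _ = ‖D K ((t : ZMod N))‖ := by rw [norm_mul, hun, one_mul]

end General

end F2

open F2

theorem F2_range (N K : ℕ) [NeZero N] (hK : 1 ≤ K) (x : ZMod N) :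
    0 ≤ fejer N K x ∧ fejer N K x ≤ 1 := F2.range' K hK x

theorem F2_sum (L K : ℕ) (hK : 1 ≤ K) (hL : 1 ≤ L) [NeZero (L * K)] :
    ∑ x : ZMod (L * K), fejer (L * K) K x = L := by
  have hKR : (0 : ℝ) < K := by exact_mod_cast hK
  have h := sum_D (N := L * K) K (Nat.le_mul_of_pos_left K hL)
  simp only [fejer_eq]
  rw [← Finset.mul_sum, h]
  push_cast
  field_simp

theorem F2_six (L K : ℕ) (hK : 1 ≤ K) (hL : 2 ≤ L) [NeZero (L * K)] :
    (L : ℝ) / 1000 ≤ ∑ x : ZMod (L * K), fejer (L * K) K x ^ 6 := by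
  classical
  have hKR : (0 : ℝ) < K := by exact_mod_cast hK
  have hlt : ∀ t ∈ range (L / 4 + 1), t < L * K := by
    intro t ht
    rw [mem_range] at ht
    calc t < L := by omega
      _ ≤ L * K := Nat.le_mul_of_pos_right L hK
  have hinj : Set.InjOn (fun t : ℕ => (t : ZMod (L * K))) (range (L / 4 + 1) : Finset ℕ) := by
    intro a ha b hb hab
    have ha' := hlt a (by simpa using ha)
    have hb' := hlt b (by simpa using hb)
    simp only at hab
    rw [ZMod.natCast_eq_natCast_iff', Nat.mod_eq_of_lt ha', Nat.mod_eq_of_lt hb'] at hab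
    exact hab
  have h1 : ∑ t ∈ range (L / 4 + 1), fejer (L * K) K (t : ZMod (L * K)) ^ 6 ≤
      ∑ x : ZMod (L * K), fejer (L * K) K x ^ 6 := by
    rw [← Finset.sum_image (f := fun x => fejer (L * K) K x ^ 6) hinj]
    exact Finset.sum_le_sum_of_subset_of_nonneg (Finset.subset_univ _)
      fun x _ _ => pow_nonneg (F2_range _ _ hK x).1 6
  refine le_trans ?_ h1
  have h2 : ∀ t ∈ range (L / 4 + 1), (1 / 100 : ℝ) ≤ fejer (L * K) K (t : ZMod (L * K)) ^ 6 := by
    intro t ht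
    rw [mem_range] at ht
    have h3 : 4 * (K * t) ≤ L * K := by
      have : 4 * t ≤ L := by omega
      nlinarith
    have h4 := D_lower (N := L * K) K t h3
    have h5 : (49 / 100 : ℝ) ≤ fejer (L * K) K (t : ZMod (L * K)) := by
      rw [fejer_eq, one_div, le_inv_mul_iff₀ (by positivity)]
      have h6 : ((7 / 10 : ℝ) * K) ^ 2 ≤ ‖D K ((t : ZMod (L * K)))‖ ^ 2 :=
        pow_le_pow_left₀ (by positivity) h4 2
      nlinarith
    calc (1 / 100 : ℝ) ≤ (49 / 100) ^ 6 := by norm_num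
      _ ≤ _ := pow_le_pow_left₀ (by norm_num) h5 6
  calc (L : ℝ) / 1000 ≤ ((L / 4 + 1 : ℕ) : ℝ) * (1 / 100) := by
        have h7 : L < 4 * (L / 4 + 1) := by omega
        have h8 : (L : ℝ) < 4 * ((L / 4 + 1 : ℕ) : ℝ) := by exact_mod_cast h7
        have h9 : (0 : ℝ) ≤ L := Nat.cast_nonneg L
        linarith
    _ = ∑ _t ∈ range (L / 4 + 1), (1 / 100 : ℝ) := by
        rw [Finset.sum_const, card_range, nsmul_eq_mul]
    _ ≤ _ := Finset.sum_le_sum h2

theorem F2_shift (L K : ℕ) (hK : 1 ≤ K) (hL : 1 ≤ L) [NeZero (L * K)] (c : Fin 6 → ℤ) :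
    |∑ t : ZMod (L * K), ∏ i, fejer (L * K) K ((c i : ZMod (L * K)) - t) -
      ∑ t : ZMod (L * K), fejer (L * K) K t ^ 6| ≤ 4 * Real.pi * ∑ i, |(c i : ℝ)| := by
  set N := L * K with hN
  have hKN : K ≤ N := Nat.le_mul_of_pos_left K hL
  have htv := tv (N := N) K hK hKN
  have h1 : ∑ t : ZMod N, fejer N K t ^ 6 = ∑ t : ZMod N, ∏ _i : Fin 6, fejer N K (-t) := by
    simp only [Finset.prod_const, Finset.card_univ, Fintype.card_fin]
    refine Fintype.sum_equiv (Equiv.neg (ZMod N)) _ _ (fun x => ?_)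
    simp
  rw [h1, ← Finset.sum_sub_distrib]
  calc |∑ t : ZMod N, (∏ i, fejer N K ((c i : ZMod N) - t) - ∏ _i : Fin 6, fejer N K (-t))|
      ≤ ∑ t : ZMod N, |∏ i, fejer N K ((c i : ZMod N) - t) - ∏ _i : Fin 6, fejer N K (-t)| :=
        Finset.abs_sum_le_sum_abs _ _
    _ ≤ ∑ t : ZMod N, ∑ i, |fejer N K ((c i : ZMod N) - t) - fejer N K (-t)| := by
        refine Finset.sum_le_sum fun t _ => ?_
        exact prod_sub_prod univ _ _ (fun i _ => F2_range N K hK _) (fun i _ => F2_range N K hK _)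
    _ = ∑ i, ∑ t : ZMod N, |fejer N K ((c i : ZMod N) - t) - fejer N K (-t)| :=
        Finset.sum_comm
    _ ≤ ∑ i, |(c i : ℝ)| * (4 * Real.pi) := by
        refine Finset.sum_le_sum fun i _ => ?_
        refine le_trans (le_of_eq ?_) (transl_int (fejer N K) (4 * Real.pi) htv (c i))
        refine Fintype.sum_equiv (Equiv.neg (ZMod N)) _ _ (fun x => ?_)
        simp only [Equiv.neg_apply]
        rw [show (c i : ZMod N) - x = -x + (c i : ZMod N) by ring]
    _ = 4 * Real.pi * ∑ i, |(c i : ℝ)| := by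
        rw [← Finset.sum_mul, mul_comm]

theorem F2_far (L K : ℕ) (hK : 1 ≤ K) (hL : 6 ≤ L) (hL2 : Even L) [NeZero (L * K)] :
    FarSupp (L * K) (gF (L * K) K) := by
  intro k hk
  obtain ⟨L', hL'⟩ := hL2
  set N := L * K with hN
  have hNpos : 0 < N := NeZero.pos N
  have hN2 : N = 2 * (L' * K) := by rw [hN, hL']; ring
  have hNR : (0 : ℝ) < N := by exact_mod_cast hNpos
  set M : ℕ := L' * K with hM
  -- the alternating sign is a character
  have hsgn : ∀ x : ZMod N, ((-1 : ℝ) ^ x.val : ℂ) = e ((M : ZMod N) * x) := by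
    intro x
    have h := ZMod.stdAddChar_coe (N := N) ((M * x.val : ℕ) : ℤ)
    rw [Int.cast_natCast, Nat.cast_mul, ZMod.natCast_zmod_val] at h
    unfold e
    rw [h]
    have h2 : (2 * (Real.pi : ℂ) * Complex.I * ((M * x.val : ℕ) : ℤ) / N) =
        x.val * (Real.pi * Complex.I) := by
      have h3 : (N : ℂ) = 2 * M := by rw [hN2]; push_cast; ring
      have h4 : (M : ℂ) ≠ 0 := by
        have : M ≠ 0 := by
          intro h0
          rw [h0] at hN2
          omega
        exact_mod_cast this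
      rw [h3]
      push_cast
      field_simp
    rw [h2, Complex.exp_nat_mul, Complex.exp_pi_mul_I]
    push_cast
    rfl
  have h1 : ∀ x : ZMod N, (gF N K x : ℂ) * ZMod.stdAddChar ((k : ZMod N) * x) =
      (1 / (K : ℂ) ^ 2) * ∑ j ∈ range K, ∑ i ∈ range K,
        e (((M : ZMod N) + (j : ZMod N) - (i : ZMod N) + (k : ZMod N)) * x) := by
    intro x
    have h2 : ((‖D K x‖ ^ 2 : ℝ) : ℂ) = ∑ j ∈ range K, ∑ i ∈ range K,
        e (((j : ZMod N) - (i : ZMod N)) * x) := by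
      unfold D
      rw [← Complex.normSq_eq_norm_sq, ← Complex.mul_conj, map_sum, Finset.sum_mul_sum]
      refine Finset.sum_congr rfl fun j _ => Finset.sum_congr rfl fun i _ => ?_
      rw [conj_e, ← e_add]
      congr 1
      ring
    have h3 : (gF N K x : ℂ) = ((-1 : ℝ) ^ x.val : ℂ) * ((1 / (K : ℂ) ^ 2) *
        ((‖D K x‖ ^ 2 : ℝ) : ℂ)) := by
      unfold gF
      rw [fejer_eq]
      push_cast
      ring
    rw [h3, hsgn, h2]
    have h4 : (ZMod.stdAddChar ((k : ZMod N) * x) : ℂ) = e ((k : ZMod N) * x) := rfl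
    rw [h4, Finset.mul_sum, Finset.mul_sum, Finset.mul_sum, Finset.sum_mul]
    refine Finset.sum_congr rfl fun j _ => ?_
    rw [Finset.mul_sum, Finset.mul_sum, Finset.mul_sum, Finset.sum_mul]
    refine Finset.sum_congr rfl fun i _ => ?_
    have h5 : ((M : ZMod N) + (j : ZMod N) - (i : ZMod N) + (k : ZMod N)) * x =
        (M : ZMod N) * x + (((j : ZMod N) - (i : ZMod N)) * x + (k : ZMod N) * x) := by ring
    rw [h5, e_add, e_add]
    ring
  rw [Finset.sum_congr rfl fun x _ => h1 x, ← Finset.mul_sum, Finset.sum_comm]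
  rw [Finset.sum_eq_zero, mul_zero]
  intro j hj
  rw [Finset.sum_comm]
  refine Finset.sum_eq_zero fun i hi => ?_
  rw [sum_e, if_neg]
  intro h0
  rw [mem_range] at hj hi
  have h6 : (((M : ℤ) + j - i + k : ℤ) : ZMod N) = 0 := by
    push_cast
    exact h0
  rw [ZMod.intCast_zmod_eq_zero_iff_dvd] at h6
  have h7 : (N : ℤ) = 2 * M := by exact_mod_cast hN2
  have h8 : (6 * K : ℤ) ≤ N := by
    have : 6 * K ≤ N := Nat.mul_le_mul_right K hL
    exact_mod_cast this
  have hk1 := abs_lt.1 (show |k| < ((N : ℤ) + 2) / 3 by omega)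
  have h9 : 0 < (M : ℤ) + j - i + k := by omega
  have h10 : (M : ℤ) + j - i + k < N := by omega
  have h11 := Int.le_of_dvd h9 h6
  omega

end Pool.Agent.H808R2.AH
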