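import Pool.Agent.H808R2.AH.F1
import Pool.Agent.H808R2.AH.F2

/-! Task F (helper153): the limit of `TT`. -/

namespace Pool.Agent.H808R2.AH
open Finset Filter Topology MeasureTheory

namespace TF

/-! ### signs -/

private noncomputable def s (n : ℤ) : ℝ := (-1 : ℝ) ^ n

private lemma s_add (m n : ℤ) : s (m + n) = s m * s n := zpow_add₀ (by norm_num) m n

private lemma s_sq (n : ℤ) : s n * s n = 1 := by
  unfold s
  rw [← mul_zpow]; norm_num

private lemma s_neg (n : ℤ) : s (-n) = s n := by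
  have h1 : s n * s (-n) = 1 := by rw [← s_add, add_neg_cancel]; simp [s]
  have h2 := s_sq n
  have h3 : s n ≠ 0 := by intro h; rw [h] at h2; norm_num at h2
  exact mul_left_cancel₀ h3 (h1.trans h2.symm)

private lemma s_sub (m n : ℤ) : s (m - n) = s m * s n := by
  rw [sub_eq_add_neg, s_add, s_neg]

private lemma s_one : s 1 = -1 := by simp [s]

private lemma s_two : s 2 = 1 := by
  have : (2 : ℤ) = 1 + 1 := rfl
  rw [this, s_add, s_one]; norm_num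

private lemma abs_s (n : ℤ) : |s n| = 1 := by
  have h := s_sq n
  have h2 : |s n| * |s n| = 1 := by rw [← abs_mul, h, abs_one]
  nlinarith [abs_nonneg (s n)]

private lemma s_val (N : ℕ) [NeZero N] (hN : Even N) (z : ℤ) :
    (-1 : ℝ) ^ ((z : ZMod N)).val = s z := by
  have h1 : (((z : ZMod N).val : ℕ) : ℤ) = z % N := ZMod.val_intCast z
  have h2 : z = z % N + N * (z / N) := (Int.emod_add_mul_ediv z N).symm
  have h3 : s (N * (z / N)) = 1 := by
    unfold s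
    rw [zpow_mul]
    have : (-1 : ℝ) ^ (N : ℤ) = 1 := by
      rw [zpow_natCast]; exact hN.neg_one_pow
    rw [this, one_zpow]
  have h4 : s z = s (z % N) := by
    conv_lhs => rw [h2]
    rw [s_add, h3, mul_one]
  rw [h4, ← h1]
  unfold s
  rw [zpow_natCast]

private lemma gF_int (N K : ℕ) [NeZero N] (hN : Even N) (z : ℤ) :
    gF N K (z : ZMod N) = s z * fejer N K (z : ZMod N) := by
  unfold gF
  rw [s_val N hN]

/-! ### the sum over `t` -/

noncomputable def Rr (N K : ℕ) [NeZero N] (c : Fin 6 → ℤ) : ℝ :=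
  ∑ t : ZMod N, ∏ i, fejer N K ((c i : ZMod N) - t)

/-- the six shifts -/
def six (a : ℤ) (z : Fin 3 → ℤ) : Fin 6 → ℤ := ![a, a + 1, a + 2, z 0, z 1, z 2]

private lemma sum_g (N K : ℕ) [NeZero N] (hN : Even N) (a : ℤ) (z : Fin 3 → ℤ) :
    ∑ t : ZMod N, gF N K ((a : ZMod N) - t) * gF N K ((a : ZMod N) + 1 - t) *
      gF N K ((a : ZMod N) + 2 - t) * ∏ i, gF N K (((z i : ℤ) : ZMod N) - t) =
    -(s a) * (∏ i, s (z i)) * Rr N K (six a z) := by
  unfold Rr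
  rw [Finset.mul_sum]
  apply Finset.sum_congr rfl
  intro t _
  have key : ∀ c : ℤ, gF N K ((c : ZMod N) - t) = s c * s (t.val : ℤ) * fejer N K ((c : ZMod N) - t) := by
    intro c
    have e : (c : ZMod N) - t = ((c - (t.val : ℤ) : ℤ) : ZMod N) := by
      push_cast
      rw [ZMod.natCast_zmod_val]
    rw [e, gF_int N K hN, s_sub]
  have k1 : (a : ZMod N) + 1 = ((a + 1 : ℤ) : ZMod N) := by push_cast; ring
  have k2 : (a : ZMod N) + 2 = ((a + 2 : ℤ) : ZMod N) := by push_cast; ring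
  rw [k1, k2, key, key, key, Fin.prod_univ_three, Fin.prod_univ_three, key, key, key,
    Fin.prod_univ_six]
  simp only [six, Matrix.cons_val]
  rw [s_add a 1, s_add a 2, s_one, s_two]
  have h1 := s_sq a
  have h2 := s_sq (t.val : ℤ)
  generalize s a = A at *
  generalize s (t.val : ℤ) = T at *
  have h6 : T * T * (T * T) * (T * T) = 1 := by rw [h2]; ring
  have h7 : A * A * A = A := by rw [h1]; ring
  linear_combination (-(A * A * A) * s (z 0) * s (z 1) * s (z 2) *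
    fejer N K ((a : ZMod N) - t) * fejer N K (((a + 1 : ℤ) : ZMod N) - t) *
    fejer N K (((a + 2 : ℤ) : ZMod N) - t) * fejer N K (((z 0 : ℤ) : ZMod N) - t) *
    fejer N K (((z 1 : ℤ) : ZMod N) - t) * fejer N K (((z 2 : ℤ) : ZMod N) - t)) * h6 -
    (s (z 0) * s (z 1) * s (z 2) *
    fejer N K ((a : ZMod N) - t) * fejer N K (((a + 1 : ℤ) : ZMod N) - t) *
    fejer N K (((a + 2 : ℤ) : ZMod N) - t) * fejer N K (((z 0 : ℤ) : ZMod N) - t) *
    fejer N K (((z 1 : ℤ) : ZMod N) - t) * fejer N K (((z 2 : ℤ) : ZMod N) - t)) * h7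

/-! ### residues as integers -/

/-- the range of representatives -/
def InR (N : ℕ) (z : Fin 3 → ℤ) : Prop := ∀ i, z i * 2 ∈ Set.Ioc (-(N : ℤ)) N

open Classical in
private lemma sum_zmod (N : ℕ) [NeZero N] (H : (Fin 3 → ZMod N) → ℝ) :
    ∑ y : Fin 3 → ZMod N, H y =
      ∑' z : Fin 3 → ℤ, if InR N z then H (fun i => ((z i : ℤ) : ZMod N)) else 0 := by
  have hinj : Function.Injective (fun (y : Fin 3 → ZMod N) (i : Fin 3) => (y i).valMinAbs) := by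
    intro y y' h
    funext i
    have := congrFun h i
    simp only at this
    rw [← ZMod.coe_valMinAbs (y i), ← ZMod.coe_valMinAbs (y' i), this]
  rw [← hinj.tsum_eq, tsum_fintype]
  · apply Finset.sum_congr rfl
    intro y _
    have hR : InR N (fun i => (y i).valMinAbs) := fun i => ZMod.valMinAbs_mem_Ioc (y i)
    rw [if_pos hR]
    simp only [ZMod.coe_valMinAbs]
  · intro z hz
    rw [Function.mem_support] at hz
    have hR : InR N z := by
      by_contra hcon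
      rw [if_neg hcon] at hz
      exact hz rfl
    refine ⟨fun i => ((z i : ℤ) : ZMod N), ?_⟩
    funext i
    exact (ZMod.valMinAbs_spec _ _).2 ⟨rfl, hR i⟩

/-- the allowed integer triples -/
def Al (a : ℤ) (z : Fin 3 → ℤ) : Prop := ∀ i, z i ≠ a ∧ z i ≠ a + 1 ∧ z i ≠ a + 2

private lemma cast_ne (N : ℕ) [NeZero N] {u v : ℤ} (hu : u * 2 ∈ Set.Ioc (-(N : ℤ)) N)
    (hv : v * 2 ∈ Set.Ioc (-(N : ℤ)) N) : ((u : ZMod N) ≠ (v : ZMod N)) ↔ u ≠ v := by
  constructor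
  · rintro h rfl
    exact h rfl
  · intro h h'
    apply h
    have h1 := (ZMod.valMinAbs_spec (u : ZMod N) u).2 ⟨rfl, hu⟩
    have h2 := (ZMod.valMinAbs_spec (u : ZMod N) v).2 ⟨h', hv⟩
    exact h1.symm.trans h2

private lemma al_iff (N : ℕ) [NeZero N] (hN : 12 ≤ N) {a : ℤ} (ha0 : 0 ≤ a) (ha1 : a ≤ 1)
    {z : Fin 3 → ℤ} (hz : InR N z) :
    (∀ i, ((z i : ℤ) : ZMod N) ≠ (a : ZMod N) ∧ ((z i : ℤ) : ZMod N) ≠ (a : ZMod N) + 1 ∧
      ((z i : ℤ) : ZMod N) ≠ (a : ZMod N) + 2) ↔ Al a z := by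
  have k1 : (a : ZMod N) + 1 = ((a + 1 : ℤ) : ZMod N) := by push_cast; ring
  have k2 : (a : ZMod N) + 2 = ((a + 2 : ℤ) : ZMod N) := by push_cast; ring
  rw [k1, k2]
  unfold Al
  apply forall_congr'
  intro i
  rw [cast_ne N (hz i) ⟨by omega, by omega⟩, cast_ne N (hz i) ⟨by omega, by omega⟩,
    cast_ne N (hz i) ⟨by omega, by omega⟩]

/-! ### the determinant -/

/-- squared modulus of the determinant, as a total function of `N` -/
noncomputable def Md (N : ℕ) (z : Fin 3 → ℤ) : ℝ :=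
  if h : N ≠ 0 then
    haveI : NeZero N := ⟨h⟩
    ‖(Matrix.of fun i j : Fin 3 => Umat N ((z i : ℤ) : ZMod N) (((j : ℕ) : ZMod N))).det‖ ^ 2
  else 0

private lemma Md_eq (N : ℕ) [inst : NeZero N] (z : Fin 3 → ℤ) : Md N z =
    ‖(Matrix.of fun i j : Fin 3 => Umat N ((z i : ℤ) : ZMod N) (((j : ℕ) : ZMod N))).det‖ ^ 2 := by
  unfold Md
  rw [dif_pos inst.out]

private lemma Md_nonneg (N : ℕ) (z : Fin 3 → ℤ) : 0 ≤ Md N z := by
  unfold Md
  split_ifs <;> positivity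

/-- the limiting determinant -/
noncomputable def Dl (z : Fin 3 → ℤ) : ℝ :=
  (Matrix.of fun i j : Fin 3 => (1 : ℝ) / (((j : ℕ) : ℝ) - (z i : ℝ) + 1 / 2)).det ^ 2

/-- `TT` as a sum over integers -/
private lemma TT_eq (N K : ℕ) [NeZero N] (hN : Even N) (hN12 : 12 ≤ N) {a : ℤ} (ha0 : 0 ≤ a)
    (ha1 : a ≤ 1) :
    open Classical in TT N (gF N K) (a : ZMod N) 0 = ∑' z : Fin 3 → ℤ,
      if InR N z ∧ Al a z then -(s a) * (∏ i, s (z i)) * Rr N K (six a z) * Md N z else 0 := by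
  classical
  unfold TT
  rw [sum_zmod]
  apply tsum_congr
  intro z
  by_cases hz : InR N z
  · rw [if_pos hz]
    by_cases hal : Al a z
    · rw [if_pos ((al_iff N hN12 ha0 ha1 hz).2 hal), if_pos ⟨hz, hal⟩, sum_g N K hN, Md_eq]
      simp only [zero_add]
    · rw [if_neg (fun h => hal ((al_iff N hN12 ha0 ha1 hz).1 h)), if_neg (fun h => hal h.2)]
  · rw [if_neg hz, if_neg (fun h => hz h.1)]

/-! ### bounds -/

private lemma det_bound (A : Matrix (Fin 3) (Fin 3) ℂ) (c : Fin 3 → ℝ) (h : ∀ i j, ‖A i j‖ ≤ c i) :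
    ‖A.det‖ ≤ 6 * ∏ i, c i := by
  rw [Matrix.det_apply]
  refine (norm_sum_le _ _).trans ?_
  have h1 : ∀ σ ∈ (Finset.univ : Finset (Equiv.Perm (Fin 3))),
      ‖Equiv.Perm.sign σ • ∏ i, A (σ i) i‖ ≤ ∏ i, c i := by
    intro σ _
    have h2 : ‖Equiv.Perm.sign σ • ∏ i, A (σ i) i‖ = ∏ i, ‖A (σ i) i‖ := by
      rw [← norm_prod]
      rcases Int.units_eq_one_or (Equiv.Perm.sign σ) with h | h <;> rw [h] <;> simp
    rw [h2, ← Equiv.prod_comp σ c]
    exact Finset.prod_le_prod (fun i _ => norm_nonneg _) (fun i _ => h _ _)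
  refine (Finset.sum_le_card_nsmul _ _ _ h1).trans ?_
  rw [Finset.card_univ, Fintype.card_perm, Fintype.card_fin, nsmul_eq_mul]
  norm_num [Nat.factorial]

private lemma Md_le {C : ℝ} (hC : 0 < C) (h : ∀ (N : ℕ) [NeZero N], 12 ≤ N → ∀ (y : ℤ) (j : ℕ), j ≤ 2 →
    2 * |y| ≤ N → ‖Umat N (y : ZMod N) ((j : ℕ) : ZMod N)‖ ≤ C / (1 + |(y : ℝ)|))
    (N : ℕ) [NeZero N] (hN : 12 ≤ N) {z : Fin 3 → ℤ} (hz : InR N z) :
    Md N z ≤ 36 * C ^ 6 * ∏ i, (1 / (1 + |(z i : ℝ)|) ^ 2) := by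
  rw [Md_eq]
  have h1 := det_bound (Matrix.of fun i j : Fin 3 => Umat N ((z i : ℤ) : ZMod N) (((j : ℕ) : ZMod N)))
    (fun i => C / (1 + |(z i : ℝ)|)) (fun i j => by
      apply h N hN (z i) j (by omega)
      have := hz i
      rcases abs_cases (z i) with ⟨h2, _⟩ | ⟨h2, _⟩ <;> rw [h2]
      · have := this.2; omega
      · have := this.1; omega)
  have h2 := pow_le_pow_left₀ (norm_nonneg _) h1 2
  refine h2.trans (le_of_eq ?_)
  rw [Fin.prod_univ_three, Fin.prod_univ_three]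
  have a0 : (0 : ℝ) < 1 + |(z 0 : ℝ)| := by positivity
  have a1 : (0 : ℝ) < 1 + |(z 1 : ℝ)| := by positivity
  have a2 : (0 : ℝ) < 1 + |(z 2 : ℝ)| := by positivity
  field_simp
  ring

private lemma Rr_nonneg (N K : ℕ) [NeZero N] (hr : ∀ x : ZMod N, 0 ≤ fejer N K x ∧ fejer N K x ≤ 1)
    (c : Fin 6 → ℤ) : 0 ≤ Rr N K c :=
  Finset.sum_nonneg fun _ _ => Finset.prod_nonneg fun _ _ => (hr _).1

private lemma Rr_le (N K : ℕ) [NeZero N] (hr : ∀ x : ZMod N, 0 ≤ fejer N K x ∧ fejer N K x ≤ 1)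
    (c : Fin 6 → ℤ) : Rr N K c ≤ ∑ x : ZMod N, fejer N K x := by
  have h1 : ∑ x : ZMod N, fejer N K x = ∑ t : ZMod N, fejer N K ((c 0 : ZMod N) - t) :=
    (Equiv.sum_comp (Equiv.subLeft ((c 0 : ℤ) : ZMod N)) (fejer N K)).symm
  rw [h1]
  apply Finset.sum_le_sum
  intro t _
  rw [Fin.prod_univ_succ]
  apply mul_le_of_le_one_right (hr _).1
  exact Finset.prod_le_one (fun i _ => (hr _).1) (fun i _ => (hr _).2)

/-! ### summability -/

private lemma summable_one : Summable (fun n : ℤ => 1 / (1 + |(n : ℝ)|) ^ 2) := by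
  have h : Summable (fun n : ℕ => 1 / (1 + (n : ℝ)) ^ 2) := by
    have h1 : Summable (fun n : ℕ => 1 / ((n : ℝ)) ^ 2) := Real.summable_one_div_nat_pow.2 (by norm_num)
    have h2 := (summable_nat_add_iff 1).2 h1
    refine h2.congr fun n => ?_
    push_cast
    rw [add_comm]
  rw [summable_int_iff_summable_nat_and_neg]
  constructor
  · refine h.congr fun n => ?_
    simp
  · refine h.congr fun n => ?_
    simp

private lemma summable_pi (n : ℕ) {h : ℤ → ℝ} (h0 : ∀ n, 0 ≤ h n) (hs : Summable h) :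
    Summable (fun z : Fin n → ℤ => ∏ i, h (z i)) := by
  induction n with
  | zero => exact Summable.of_finite
  | succ n ih =>
    rw [← (Fin.consEquiv (fun _ : Fin (n + 1) => ℤ)).summable_iff]
    have h1 := hs.mul_of_nonneg ih h0 (fun z => Finset.prod_nonneg fun i _ => h0 _)
    refine h1.congr fun p => ?_
    simp [Fin.consEquiv, Fin.prod_univ_succ]

/-! ### the limit -/

/-- parameters -/
def Lp (p : ℕ × ℕ) : ℕ := 2 * (p.1 + 3)

def Kp (p : ℕ × ℕ) : ℕ := p.2 + 1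

instance (p : ℕ × ℕ) : NeZero (Lp p * Kp p) := ⟨by unfold Lp Kp; positivity⟩

private lemma Lp_even (p : ℕ × ℕ) : Even (Lp p) := ⟨p.1 + 3, by unfold Lp; ring⟩

private lemma Lp_ge (p : ℕ × ℕ) : 6 ≤ Lp p := by unfold Lp; omega

private lemma Kp_ge (p : ℕ × ℕ) : 1 ≤ Kp p := by unfold Kp; omega

private lemma Np_ge (p : ℕ × ℕ) : Lp p ≤ Lp p * Kp p := Nat.le_mul_of_pos_right _ (Kp_ge p)

/-- sum of the sixth powers -/
noncomputable def Sp (p : ℕ × ℕ) : ℝ := ∑ t : ZMod (Lp p * Kp p), fejer (Lp p * Kp p) (Kp p) t ^ 6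

private lemma Sp_ge (p : ℕ × ℕ) : (Lp p : ℝ) / 1000 ≤ Sp p :=
  F2_six (Lp p) (Kp p) (Kp_ge p) (by have := Lp_ge p; omega)

private lemma Lp_pos (p : ℕ × ℕ) : (0 : ℝ) < Lp p := by
  have := Lp_ge p
  have h : 0 < Lp p := by omega
  exact_mod_cast h

private lemma Sp_pos (p : ℕ × ℕ) : 0 < Sp p := by
  have h1 := Sp_ge p
  have h2 := Lp_pos p
  linarith [div_pos h2 (by norm_num : (0 : ℝ) < 1000)]

private lemma tendsto_Lp : Tendsto (fun p : ℕ × ℕ => (Lp p : ℝ)) (atTop ×ˢ atTop) atTop := by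
  apply tendsto_natCast_atTop_atTop.comp
  apply tendsto_atTop_mono (f := fun p : ℕ × ℕ => p.1) _ tendsto_fst
  intro p
  unfold Lp
  omega

private lemma tendsto_Np : Tendsto (fun p : ℕ × ℕ => Lp p * Kp p) (atTop ×ˢ atTop) atTop := by
  apply tendsto_atTop_mono (f := fun p : ℕ × ℕ => p.1) _ tendsto_fst
  intro p
  have h1 := Np_ge p
  have h2 : p.1 ≤ Lp p := by unfold Lp; omega
  show p.1 ≤ Lp p * Kp p
  omega

private lemma ratio_tendsto (c : Fin 6 → ℤ) :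
    Tendsto (fun p : ℕ × ℕ => Rr (Lp p * Kp p) (Kp p) c / Sp p) (atTop ×ˢ atTop) (𝓝 1) := by
  rw [tendsto_iff_dist_tendsto_zero]
  have hlim : Tendsto (fun p : ℕ × ℕ => (4 * Real.pi * ∑ i, |(c i : ℝ)|) * 1000 / (Lp p : ℝ))
      (atTop ×ˢ atTop) (𝓝 0) := tendsto_Lp.const_div_atTop _
  refine squeeze_zero (fun _ => dist_nonneg) (fun p => ?_) hlim
  have h1 := F2_shift (Lp p) (Kp p) (Kp_ge p) (by have := Lp_ge p; omega) c
  have h2 := Sp_ge p
  have h3 := Sp_pos p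
  have h4 := Lp_pos p
  rw [Real.dist_eq]
  have e : Rr (Lp p * Kp p) (Kp p) c / Sp p - 1 = (Rr (Lp p * Kp p) (Kp p) c - Sp p) / Sp p := by
    field_simp
  rw [e, abs_div, abs_of_pos h3, div_le_div_iff₀ h3 h4]
  have h5 : |Rr (Lp p * Kp p) (Kp p) c - Sp p| ≤ 4 * Real.pi * ∑ i, |(c i : ℝ)| := h1
  have h6 : (Lp p : ℝ) ≤ 1000 * Sp p := by linarith
  have h7 : 0 ≤ 4 * Real.pi * ∑ i, |(c i : ℝ)| :=
    mul_nonneg (by positivity) (Finset.sum_nonneg fun _ _ => abs_nonneg _)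
  calc |Rr (Lp p * Kp p) (Kp p) c - Sp p| * (Lp p : ℝ)
      ≤ (4 * Real.pi * ∑ i, |(c i : ℝ)|) * (1000 * Sp p) := by gcongr
    _ = _ := by ring

private lemma Md_tendsto (z : Fin 3 → ℤ) :
    Tendsto (fun p : ℕ × ℕ => Md (Lp p * Kp p) z) (atTop ×ˢ atTop) (𝓝 (Dl z / Real.pi ^ 6)) := by
  have h1 : Tendsto (fun N : ℕ => Md N z) atTop (𝓝 (Dl z / Real.pi ^ 6)) := by
    rw [← tendsto_add_atTop_iff_nat 1]
    refine (F1_det z).congr fun N => ?_
    rw [Md_eq]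
  exact h1.comp tendsto_Np

open Classical in
/-- the summand -/
noncomputable def Gs (a : ℤ) (p : ℕ × ℕ) (z : Fin 3 → ℤ) : ℝ :=
  if InR (Lp p * Kp p) z ∧ Al a z then
    -((-1 : ℝ) ^ a) * (∏ i, (-1 : ℝ) ^ (z i)) * (Rr (Lp p * Kp p) (Kp p) (six a z) / Sp p) *
      Md (Lp p * Kp p) z else 0

open Classical in
/-- the limit of the summand -/
noncomputable def Gl (a : ℤ) (z : Fin 3 → ℤ) : ℝ :=
  if Al a z then -((-1 : ℝ) ^ a) * (∏ i, (-1 : ℝ) ^ (z i)) * (1 : ℝ) * (Dl z / Real.pi ^ 6) else 0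

private lemma Gs_tendsto (a : ℤ) (z : Fin 3 → ℤ) :
    Tendsto (fun p => Gs a p z) (atTop ×ˢ atTop) (𝓝 (Gl a z)) := by
  classical
  by_cases hal : Al a z
  · have hev : ∀ᶠ p : ℕ × ℕ in atTop ×ˢ atTop, InR (Lp p * Kp p) z := by
      have h := tendsto_Np.eventually_ge_atTop (2 * ∑ i, (z i).natAbs + 1)
      filter_upwards [h] with p hp
      intro i
      have h1 : (z i).natAbs ≤ ∑ i, (z i).natAbs :=
        Finset.single_le_sum (f := fun i => (z i).natAbs) (fun _ _ => Nat.zero_le _) (Finset.mem_univ i)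
      generalize Lp p * Kp p = N at *
      constructor <;> omega
    have hlim : Tendsto (fun p : ℕ × ℕ => -((-1 : ℝ) ^ a) * (∏ i, (-1 : ℝ) ^ (z i)) *
        (Rr (Lp p * Kp p) (Kp p) (six a z) / Sp p) * Md (Lp p * Kp p) z) (atTop ×ˢ atTop)
        (𝓝 (-((-1 : ℝ) ^ a) * (∏ i, (-1 : ℝ) ^ (z i)) * (1 : ℝ) * (Dl z / Real.pi ^ 6))) :=
      ((ratio_tendsto (six a z)).const_mul _).mul (Md_tendsto z)
    unfold Gl
    rw [if_pos hal]
    refine hlim.congr' ?_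
    filter_upwards [hev] with p hp
    unfold Gs
    rw [if_pos ⟨hp, hal⟩]
  · have h1 : (fun p => Gs a p z) = fun _ => (0 : ℝ) := by
      funext p
      unfold Gs
      rw [if_neg (fun h => hal h.2)]
    rw [h1]
    unfold Gl
    rw [if_neg hal]
    exact tendsto_const_nhds

private lemma Gs_bound : ∃ b : (Fin 3 → ℤ) → ℝ, Summable b ∧ ∀ a : ℤ,
    ∀ᶠ p : ℕ × ℕ in atTop ×ˢ atTop, ∀ z, ‖Gs a p z‖ ≤ b z := by
  obtain ⟨C, hC, hM⟩ := F1_bound
  refine ⟨fun z => 1000 * (36 * C ^ 6 * ∏ i, (1 / (1 + |(z i : ℝ)|) ^ 2)),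
    ((summable_pi 3 (h := fun n : ℤ => 1 / (1 + |(n : ℝ)|) ^ 2) (fun n => by positivity)
      summable_one).mul_left _).mul_left _, fun a => ?_⟩
  filter_upwards [tendsto_Np.eventually_ge_atTop 12] with p hp z
  have hb0 : 0 ≤ 1000 * (36 * C ^ 6 * ∏ i, (1 / (1 + |(z i : ℝ)|) ^ 2)) := by positivity
  unfold Gs
  split_ifs with h
  · have h1 : |∏ i, (-1 : ℝ) ^ (z i)| = 1 := by
      rw [Finset.abs_prod]
      exact Finset.prod_eq_one fun i _ => abs_s (z i)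
    have h2 : |(-1 : ℝ) ^ a| = 1 := abs_s a
    have hr : ∀ x : ZMod (Lp p * Kp p), 0 ≤ fejer (Lp p * Kp p) (Kp p) x ∧
        fejer (Lp p * Kp p) (Kp p) x ≤ 1 := fun x => F2_range _ _ (Kp_ge p) x
    have h3 := Rr_nonneg _ _ hr (six a z)
    have h4 := Rr_le _ _ hr (six a z)
    rw [F2_sum (Lp p) (Kp p) (Kp_ge p) (by have := Lp_ge p; omega)] at h4
    have h5 : Rr (Lp p * Kp p) (Kp p) (six a z) / Sp p ≤ 1000 := by
      rw [div_le_iff₀ (Sp_pos p)]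
      have := Sp_ge p
      linarith
    have h6 : 0 ≤ Rr (Lp p * Kp p) (Kp p) (six a z) / Sp p := div_nonneg h3 (Sp_pos p).le
    have h7 := Md_le hC hM _ hp h.1
    rw [Real.norm_eq_abs, abs_mul, abs_mul, abs_mul, abs_neg, h1, h2, abs_of_nonneg h6,
      abs_of_nonneg (Md_nonneg _ _), one_mul, one_mul]
    exact mul_le_mul h5 h7 (Md_nonneg _ _) (by norm_num)
  · rw [norm_zero]; exact hb0

private lemma tsum_Gs (a : ℤ) (ha0 : 0 ≤ a) (ha1 : a ≤ 1) (p : ℕ × ℕ) (hp : 12 ≤ Lp p * Kp p) :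
    TT (Lp p * Kp p) (gF (Lp p * Kp p) (Kp p)) (a : ZMod (Lp p * Kp p)) 0 / Sp p =
      ∑' z, Gs a p z := by
  classical
  rw [TT_eq _ _ ((Lp_even p).mul_right _) hp ha0 ha1, ← tsum_div_const]
  apply tsum_congr
  intro z
  unfold Gs s
  split_ifs with h
  · ring
  · simp

private lemma tsum_Gl (a : ℤ) : ∑' z, Gl a z = -((-1 : ℝ) ^ a) / Real.pi ^ 6 * ZZ a := by
  classical
  unfold ZZ
  rw [← tsum_mul_left]
  apply tsum_congr
  intro z
  unfold Gl Dl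
  by_cases h : Al a z
  · rw [if_pos h]
    unfold Al at h
    rw [if_pos h]
    ring
  · rw [if_neg h]
    unfold Al at h
    rw [if_neg h, mul_zero]

private lemma main (a : ℤ) (ha0 : 0 ≤ a) (ha1 : a ≤ 1) :
    Tendsto (fun p : ℕ × ℕ =>
      TT (Lp p * Kp p) (gF (Lp p * Kp p) (Kp p)) (a : ZMod (Lp p * Kp p)) 0 / Sp p)
      (atTop ×ˢ atTop) (𝓝 (-((-1 : ℝ) ^ a) / Real.pi ^ 6 * ZZ a)) := by
  obtain ⟨b, hb, hbd⟩ := Gs_bound
  have h1 := tendsto_tsum_of_dominated_convergence hb (Gs_tendsto a) (hbd a)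
  rw [tsum_Gl] at h1
  refine h1.congr' ?_
  filter_upwards [tendsto_Np.eventually_ge_atTop 12] with p hp
  exact (tsum_Gs a ha0 ha1 p hp).symm

theorem F_limit_of (hZ : 1 / 25 ≤ ZZ 0 ∧ ZZ 1 = -ZZ 0) :
    ∃ L : ℕ, 0 < L ∧ ∃ C δ : ℝ, 0 < C ∧ 0 < δ ∧ ∀ᶠ ν : ℕ in atTop, ∀ (N : ℕ) [NeZero N],
    N = L * (ν + 1) → ∃ g : ZMod N → ℝ, FarSupp N g ∧ ∑ x, |g x| ≤ C ∧
      TT N g 0 0 + TT N g 1 0 ≤ -δ := by
  have h0 := main 0 le_rfl (by norm_num)
  have h1 := main 1 (by norm_num) le_rfl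
  have h2 := h0.add h1
  have hπ : 0 < Real.pi ^ 6 := by positivity
  have hlt : -((-1 : ℝ) ^ (0 : ℤ)) / Real.pi ^ 6 * ZZ 0 + -((-1 : ℝ) ^ (1 : ℤ)) / Real.pi ^ 6 * ZZ 1
      < -(1 / 25) / Real.pi ^ 6 := by
    rw [hZ.2]
    have e : -((-1 : ℝ) ^ (0 : ℤ)) / Real.pi ^ 6 * ZZ 0 + -((-1 : ℝ) ^ (1 : ℤ)) / Real.pi ^ 6 * -ZZ 0
        = -(2 * ZZ 0) / Real.pi ^ 6 := by
      simp
      ring
    rw [e]
    apply div_lt_div_of_pos_right _ hπ
    linarith [hZ.1]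
  have hev := (h2.eventually_lt_const hlt).curry
  obtain ⟨l, hl⟩ := hev.exists
  have hLpos : (0 : ℝ) < ((2 * (l + 3) : ℕ) : ℝ) := by positivity
  refine ⟨2 * (l + 3), by omega, ((2 * (l + 3) : ℕ) : ℝ),
    ((2 * (l + 3) : ℕ) : ℝ) / 1000 * ((1 / 25) / Real.pi ^ 6), hLpos, by positivity, ?_⟩
  filter_upwards [hl] with k hk N inst hN
  subst hN
  have hL6 : 6 ≤ 2 * (l + 3) := by omega
  refine ⟨gF (2 * (l + 3) * (k + 1)) (k + 1),
    F2_far (2 * (l + 3)) (k + 1) (by omega) hL6 ⟨l + 3, by ring⟩, ?_, ?_⟩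
  · have h3 : ∀ x : ZMod (2 * (l + 3) * (k + 1)), |gF (2 * (l + 3) * (k + 1)) (k + 1) x|
        = fejer (2 * (l + 3) * (k + 1)) (k + 1) x := by
      intro x
      unfold gF
      rw [abs_mul, abs_pow, abs_neg, abs_one, one_pow, one_mul,
        abs_of_nonneg (F2_range _ _ (by omega) x).1]
    simp only [h3]
    exact (F2_sum (2 * (l + 3)) (k + 1) (by omega) (by omega)).le
  · have hS := Sp_ge (l, k)
    have hSp := Sp_pos (l, k)
    have hk' : (TT (2 * (l + 3) * (k + 1)) (gF (2 * (l + 3) * (k + 1)) (k + 1)) 0 0 +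
        TT (2 * (l + 3) * (k + 1)) (gF (2 * (l + 3) * (k + 1)) (k + 1)) 1 0) / Sp (l, k) <
        -(1 / 25) / Real.pi ^ 6 := by
      have := hk
      simp only [Int.cast_zero, Int.cast_one] at this
      rw [add_div]
      exact this
    rw [div_lt_iff₀ hSp] at hk'
    have hS' : ((2 * (l + 3) : ℕ) : ℝ) / 1000 ≤ Sp (l, k) := hS
    have hc : 0 < (1 / 25) / Real.pi ^ 6 := by positivity
    have : ((2 * (l + 3) : ℕ) : ℝ) / 1000 * ((1 / 25) / Real.pi ^ 6) ≤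
        Sp (l, k) * ((1 / 25) / Real.pi ^ 6) := mul_le_mul_of_nonneg_right hS' hc.le
    have e : -(1 / 25) / Real.pi ^ 6 * Sp (l, k) = -(Sp (l, k) * ((1 / 25) / Real.pi ^ 6)) := by ring
    rw [e] at hk'
    linarith

end TF

end Pool.Agent.H808R2.AH
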