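import Mathlib
import Pool.Agent.H808R2.AH.Defs

/-!
F1: closed form, bound and limit of `Umat`.
-/

namespace Pool.Agent.H808R2.AH
open Finset Filter Topology MeasureTheory
open scoped FourierTransform

namespace F1

/-- the ratio of the geometric sum -/
noncomputable def q (N : ℕ) (u v : ℤ) : ℂ :=
  Complex.exp (2 * (Complex.I * Real.pi * ((v : ℂ) - u + 1 / 2) / N))

theorem term_eq (N : ℕ) [NeZero N] (u v : ℤ) (a : ℕ) :
    zeta N ^ a * ZMod.stdAddChar ((a : ZMod N) * ((v : ZMod N) - (u : ZMod N))) = q N u v ^ a := by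
  have h1 : ((a : ZMod N) * ((v : ZMod N) - (u : ZMod N))) = (((a : ℤ) * (v - u) : ℤ) : ZMod N) := by
    push_cast; ring
  have hN : (N : ℂ) ≠ 0 := Nat.cast_ne_zero.mpr (NeZero.ne N)
  rw [h1, ZMod.stdAddChar_coe, zeta, q, ← Complex.exp_nat_mul, ← Complex.exp_nat_mul,
    ← Complex.exp_add]
  congr 1
  push_cast
  field_simp
  ring

theorem q_pow (N : ℕ) [NeZero N] (u v : ℤ) : q N u v ^ N = -1 := by
  have hN : (N : ℂ) ≠ 0 := Nat.cast_ne_zero.mpr (NeZero.ne N)
  rw [q, ← Complex.exp_nat_mul]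
  have e : (N : ℂ) * (2 * (Complex.I * Real.pi * ((v : ℂ) - u + 1 / 2) / N)) =
      ((v - u : ℤ) : ℂ) * (2 * Real.pi * Complex.I) + Real.pi * Complex.I := by
    push_cast
    field_simp
  rw [e, Complex.exp_add, Complex.exp_int_mul_two_pi_mul_I, Complex.exp_pi_mul_I, one_mul]

theorem q_ne_one (N : ℕ) [NeZero N] (u v : ℤ) : q N u v ≠ 1 := by
  intro h
  have := q_pow N u v
  rw [h, one_pow] at this
  norm_num at this

theorem q_sub_one (N : ℕ) (u v : ℤ) : q N u v - 1 =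
    Complex.exp (Complex.I * Real.pi * ((v : ℂ) - u + 1 / 2) / N) *
      (2 * Complex.I * Complex.sin (Real.pi * ((v : ℂ) - u + 1 / 2) / N)) := by
  set φ : ℂ := Real.pi * ((v : ℂ) - u + 1 / 2) / N with hφ
  have e1 : Complex.I * Real.pi * ((v : ℂ) - u + 1 / 2) / N = φ * Complex.I := by
    rw [hφ]; ring
  have e2 : q N u v = Complex.exp (φ * Complex.I) * Complex.exp (φ * Complex.I) := by
    rw [q, e1, ← Complex.exp_add]
    congr 1
    ring
  have e3 : Complex.exp (-φ * Complex.I) * Complex.exp (φ * Complex.I) = 1 := by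
    rw [← Complex.exp_add]
    simp
  rw [e1, e2, Complex.sin]
  linear_combination (Complex.exp (φ * Complex.I) * Complex.exp (φ * Complex.I) -
      Complex.exp (-φ * Complex.I) * Complex.exp (φ * Complex.I)) * Complex.I_sq + e3

theorem sin_ne (N : ℕ) [NeZero N] (u v : ℤ) :
    Complex.sin (Real.pi * ((v : ℂ) - u + 1 / 2) / N) ≠ 0 := by
  intro h
  have := q_sub_one N u v
  rw [h, mul_zero, mul_zero, sub_eq_zero] at this
  exact q_ne_one N u v this

end F1

/-- F1 -/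
theorem F1_closed (N : ℕ) [NeZero N] (u v : ℤ) :
    Umat N (u : ZMod N) (v : ZMod N) = Complex.I * Complex.exp (-(Complex.I * Real.pi * ((v : ℂ) - u + 1 / 2) / N)) /
      (N * Real.sin (Real.pi * ((v : ℝ) - u + 1 / 2) / N)) := by
  have hN : (N : ℂ) ≠ 0 := Nat.cast_ne_zero.mpr (NeZero.ne N)
  have h1 : Umat N (u : ZMod N) (v : ZMod N) = (1 / (N : ℂ)) * ((-1 - 1) / (F1.q N u v - 1)) := by
    unfold Umat
    congr 1
    rw [Fin.sum_univ_eq_sum_range (fun a : ℕ => zeta N ^ a *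
      (ZMod.stdAddChar ((a : ZMod N) * ((v : ZMod N) - (u : ZMod N))) : ℂ)) N]
    rw [Finset.sum_congr rfl (fun a _ => F1.term_eq N u v a),
      geom_sum_eq (F1.q_ne_one N u v), F1.q_pow]
  have hs := F1.sin_ne N u v
  have hcast : ((Real.sin (Real.pi * ((v : ℝ) - u + 1 / 2) / N) : ℝ) : ℂ) =
      Complex.sin (Real.pi * ((v : ℂ) - u + 1 / 2) / N) := by
    push_cast
    rfl
  rw [h1, hcast, F1.q_sub_one, Complex.exp_neg]
  have hE := Complex.exp_ne_zero (Complex.I * Real.pi * ((v : ℂ) - u + 1 / 2) / N)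
  have hI := Complex.I_ne_zero
  generalize Complex.exp (Complex.I * Real.pi * ((v : ℂ) - u + 1 / 2) / N) = E at *
  generalize Complex.sin (Real.pi * ((v : ℂ) - u + 1 / 2) / N) = s at *
  have hI2 : (1 : ℂ) / Complex.I = -Complex.I := by
    rw [one_div, Complex.inv_I]
  have e1 : (1 / (N : ℂ)) * ((-1 - 1) / (E * (2 * Complex.I * s))) =
      -(1 / Complex.I) * (E⁻¹ / (N * s)) := by
    field_simp
    ring
  rw [e1, hI2]
  ring

namespace F1

theorem norm_Umat (N : ℕ) [NeZero N] (u v : ℤ) :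
    ‖Umat N (u : ZMod N) (v : ZMod N)‖ =
      1 / (N * |Real.sin (Real.pi * ((v : ℝ) - u + 1 / 2) / N)|) := by
  rw [F1_closed, norm_div, norm_mul, Complex.norm_I, one_mul, norm_mul, Complex.norm_natCast,
    Complex.norm_real, Real.norm_eq_abs]
  congr 1
  have : -(Complex.I * Real.pi * ((v : ℂ) - u + 1 / 2) / N) =
      ((-(Real.pi * ((v : ℝ) - u + 1 / 2) / N) : ℝ) : ℂ) * Complex.I := by
    push_cast
    ring
  rw [this, Complex.norm_exp_ofReal_mul_I]

theorem sin_lower (N w : ℝ) (hN : 0 < N) (hw : |w| ≤ N) :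
    2 * min |w| (N - |w|) ≤ N * |Real.sin (Real.pi * w / N)| := by
  have hpi := Real.pi_pos
  rcases le_total |w| (N / 2) with h | h
  · have h1 : |Real.pi * w / N| ≤ Real.pi / 2 := by
      rw [abs_div, abs_mul, abs_of_pos hpi, abs_of_pos hN, div_le_div_iff₀ hN (by norm_num)]
      nlinarith
    have h2 := Real.mul_abs_le_abs_sin h1
    rw [abs_div, abs_mul, abs_of_pos hpi, abs_of_pos hN] at h2
    have h3 : N * (2 / Real.pi * (Real.pi * |w| / N)) = 2 * |w| := by
      field_simp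
    have h4 := mul_le_mul_of_nonneg_left h2 hN.le
    rw [h3] at h4
    exact (mul_le_mul_of_nonneg_left (min_le_left _ _) (by norm_num)).trans h4
  · have h1 : |Real.pi - Real.pi * |w| / N| ≤ Real.pi / 2 := by
      have : Real.pi - Real.pi * |w| / N = Real.pi * ((N - |w|) / N) := by
        field_simp
      rw [this, abs_of_nonneg (by
        apply mul_nonneg hpi.le
        exact div_nonneg (by linarith) hN.le)]
      have h2 : (N - |w|) / N ≤ 1 / 2 := by
        rw [div_le_div_iff₀ hN (by norm_num)]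
        linarith
      nlinarith
    have h2 := Real.mul_abs_le_abs_sin h1
    have h5 : |Real.sin (Real.pi - Real.pi * |w| / N)| = |Real.sin (Real.pi * w / N)| := by
      rw [Real.sin_pi_sub]
      rcases abs_choice w with h6 | h6
      · rw [h6]
      · rw [h6]
        have : Real.pi * -w / N = -(Real.pi * w / N) := by ring
        rw [this, Real.sin_neg, abs_neg]
    rw [h5] at h2
    have h6 : |Real.pi - Real.pi * |w| / N| = Real.pi * ((N - |w|) / N) := by
      have : Real.pi - Real.pi * |w| / N = Real.pi * ((N - |w|) / N) := by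
        field_simp
      rw [this, abs_of_nonneg]
      apply mul_nonneg hpi.le
      exact div_nonneg (by linarith) hN.le
    rw [h6] at h2
    have h3 : N * (2 / Real.pi * (Real.pi * ((N - |w|) / N))) = 2 * (N - |w|) := by
      field_simp
    have h4 := mul_le_mul_of_nonneg_left h2 hN.le
    rw [h3] at h4
    exact (mul_le_mul_of_nonneg_left (min_le_right _ _) (by norm_num)).trans h4

theorem half_le (y : ℤ) (j : ℕ) : (1 : ℝ) / 2 ≤ |((j : ℕ) : ℝ) - (y : ℝ) + 1 / 2| := by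
  rcases le_or_gt ((j : ℤ) - y) (-1) with h | h
  · have h' : ((j : ℝ)) - (y : ℝ) ≤ -1 := by exact_mod_cast h
    rw [abs_of_nonpos (by linarith)]
    linarith
  · have h'' : (0 : ℤ) ≤ (j : ℤ) - y := by omega
    have h' : (0 : ℝ) ≤ ((j : ℝ)) - (y : ℝ) := by exact_mod_cast h''
    rw [abs_of_nonneg (by linarith)]
    linarith

end F1

theorem F1_bound : ∃ C : ℝ, 0 < C ∧ ∀ (N : ℕ) [NeZero N], 12 ≤ N → ∀ (y : ℤ) (j : ℕ), j ≤ 2 → 2 * |y| ≤ N →
    ‖Umat N (y : ZMod N) ((j : ℕ) : ZMod N)‖ ≤ C / (1 + |(y : ℝ)|) := by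
  refine ⟨10, by norm_num, ?_⟩
  intro N _ hN y j hj hy
  have e : ((j : ℕ) : ZMod N) = (((j : ℕ) : ℤ) : ZMod N) := by push_cast; rfl
  rw [e, F1.norm_Umat]
  set w : ℝ := (((j : ℕ) : ℤ) : ℝ) - (y : ℝ) + 1 / 2 with hw
  have hwj : w = ((j : ℕ) : ℝ) - (y : ℝ) + 1 / 2 := by rw [hw]; push_cast; ring
  have h12 : (12 : ℝ) ≤ N := by exact_mod_cast hN
  have hj' : ((j : ℕ) : ℝ) ≤ 2 := by exact_mod_cast hj
  have hj0 : (0 : ℝ) ≤ ((j : ℕ) : ℝ) := Nat.cast_nonneg j
  have hy' : 2 * |(y : ℝ)| ≤ N := by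
    have : ((2 * |y| : ℤ) : ℝ) ≤ ((N : ℤ) : ℝ) := by exact_mod_cast hy
    push_cast at this
    exact this
  have hw1 : (1 : ℝ) / 2 ≤ |w| := by
    rw [hwj]
    exact F1.half_le y j
  have hw2 : |w| ≤ |(y : ℝ)| + 5 / 2 := by
    rw [hwj, abs_le]
    have := neg_abs_le (y : ℝ)
    have := le_abs_self (y : ℝ)
    constructor <;> linarith
  have hw3 : |(y : ℝ)| - 5 / 2 ≤ |w| := by
    have h1 : |(y : ℝ)| ≤ |w| + |((j : ℕ) : ℝ) + 1 / 2| := by
      have : (y : ℝ) = -w + (((j : ℕ) : ℝ) + 1 / 2) := by rw [hwj]; ring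
      calc |(y : ℝ)| = |-w + (((j : ℕ) : ℝ) + 1 / 2)| := by rw [← this]
        _ ≤ |-w| + |((j : ℕ) : ℝ) + 1 / 2| := abs_add_le _ _
        _ = _ := by rw [abs_neg]
    have h2 : |((j : ℕ) : ℝ) + 1 / 2| ≤ 5 / 2 := by
      rw [abs_of_nonneg (by linarith)]
      linarith
    linarith
  have hNpos : (0 : ℝ) < N := by linarith
  have h1 := F1.sin_lower N w hNpos (by linarith)
  have h2 : (1 + |(y : ℝ)|) / 10 ≤ N * |Real.sin (Real.pi * w / N)| := by
    refine le_trans ?_ h1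
    rw [mul_min_of_nonneg _ _ (by norm_num : (0 : ℝ) ≤ 2)]
    apply le_min
    · rcases le_total |(y : ℝ)| 4 with h | h
      · linarith
      · linarith
    · linarith
  have hy0 : 0 ≤ |(y : ℝ)| := abs_nonneg _
  rw [div_le_div_iff₀ (by linarith) (by linarith)]
  linarith

namespace F1

theorem entry_limit (y : ℤ) (j : ℕ) :
    Tendsto (fun N : ℕ => Umat (N + 1) ((y : ℤ) : ZMod (N + 1)) (((j : ℕ) : ZMod (N + 1)))) atTop
      (𝓝 (Complex.I / (Real.pi * (((j : ℕ) : ℂ) - (y : ℂ) + 1 / 2)))) := by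
  set w : ℝ := ((j : ℕ) : ℝ) - (y : ℝ) + 1 / 2 with hw
  have hw0 : w ≠ 0 := by
    have := F1.half_le y j
    intro h
    rw [← hw, h, abs_zero] at this
    norm_num at this
  have hform : ∀ N : ℕ, Umat (N + 1) ((y : ℤ) : ZMod (N + 1)) (((j : ℕ) : ZMod (N + 1))) =
      Complex.I * Complex.exp (-(Complex.I * ((Real.pi * w / ((N : ℝ) + 1) : ℝ) : ℂ))) /
        ((Real.pi * w * Real.sinc (Real.pi * w / ((N : ℝ) + 1)) : ℝ) : ℂ) := by
    intro N
    have e : ((j : ℕ) : ZMod (N + 1)) = (((j : ℕ) : ℤ) : ZMod (N + 1)) := by push_cast; rfl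
    have hN : ((N : ℝ) + 1) ≠ 0 := by positivity
    have hx : Real.pi * w / ((N : ℝ) + 1) ≠ 0 :=
      div_ne_zero (mul_ne_zero Real.pi_ne_zero hw0) hN
    rw [e, F1_closed, Real.sinc_of_ne_zero hx]
    have e2 : Real.pi * w * (Real.sin (Real.pi * w / ((N : ℝ) + 1)) / (Real.pi * w / ((N : ℝ) + 1))) =
        ((N : ℝ) + 1) * Real.sin (Real.pi * w / ((N : ℝ) + 1)) := by
      have := mul_ne_zero Real.pi_ne_zero hw0
      field_simp
    rw [e2, hw]
    push_cast
    congr 2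
    · congr 1
      ring
  simp_rw [hform]
  have hlim0 : Tendsto (fun N : ℕ => Real.pi * w / ((N : ℝ) + 1)) atTop (𝓝 0) := by
    have := (tendsto_one_div_add_atTop_nhds_zero_nat (𝕜 := ℝ)).const_mul (Real.pi * w)
    simpa [div_eq_mul_inv] using this
  have h1 : Tendsto (fun N : ℕ => Complex.exp (-(Complex.I * ((Real.pi * w / ((N : ℝ) + 1) : ℝ) : ℂ))))
      atTop (𝓝 1) := by
    have hc : Continuous (fun x : ℝ => Complex.exp (-(Complex.I * ((x : ℝ) : ℂ)))) := by fun_prop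
    have := (hc.tendsto 0).comp hlim0
    simpa [Function.comp_def] using this
  have h2 : Tendsto (fun N : ℕ => ((Real.pi * w * Real.sinc (Real.pi * w / ((N : ℝ) + 1)) : ℝ) : ℂ))
      atTop (𝓝 ((Real.pi * w : ℝ) : ℂ)) := by
    have hc : Continuous (fun x : ℝ => ((Real.pi * w * Real.sinc x : ℝ) : ℂ)) := by
      have := Real.continuous_sinc
      fun_prop
    have := (hc.tendsto 0).comp hlim0
    simpa [Function.comp_def] using this
  have h3 : ((Real.pi * w : ℝ) : ℂ) ≠ 0 := by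
    have := mul_ne_zero Real.pi_ne_zero hw0
    exact_mod_cast this
  have h4 := (h1.const_mul Complex.I).div h2 h3
  have e5 : Complex.I * 1 / ((Real.pi * w : ℝ) : ℂ) =
      Complex.I / (Real.pi * (((j : ℕ) : ℂ) - (y : ℂ) + 1 / 2)) := by
    rw [hw]
    push_cast
    ring
  rw [e5] at h4
  exact h4

end F1

theorem F1_det (y : Fin 3 → ℤ) :
    Tendsto (fun N : ℕ => ‖(Matrix.of fun i j : Fin 3 =>
      Umat (N + 1) ((y i : ℤ) : ZMod (N + 1)) (((j : ℕ) : ZMod (N + 1)))).det‖ ^ 2) atTop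
      (𝓝 ((Matrix.of fun i j : Fin 3 => (1 : ℝ) / (((j : ℕ) : ℝ) - (y i : ℝ) + 1 / 2)).det ^ 2 / Real.pi ^ 6)) := by
  have h1 : Tendsto (fun N : ℕ => (Matrix.of fun i j : Fin 3 =>
      Umat (N + 1) ((y i : ℤ) : ZMod (N + 1)) (((j : ℕ) : ZMod (N + 1))))) atTop
      (𝓝 (Matrix.of fun i j : Fin 3 =>
        Complex.I / (Real.pi * (((j : ℕ) : ℂ) - (y i : ℂ) + 1 / 2)))) := by
    apply tendsto_pi_nhds.mpr
    intro i
    apply tendsto_pi_nhds.mpr
    intro j
    exact F1.entry_limit (y i) j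
  have hc : Continuous (fun M : Matrix (Fin 3) (Fin 3) ℂ => ‖M.det‖ ^ 2) := by
    have := Continuous.matrix_det (continuous_id (X := Matrix (Fin 3) (Fin 3) ℂ))
    exact (this.norm).pow 2
  have h2 := (hc.tendsto _).comp h1
  have e : ‖(Matrix.of fun i j : Fin 3 =>
        Complex.I / (Real.pi * (((j : ℕ) : ℂ) - (y i : ℂ) + 1 / 2))).det‖ ^ 2 =
      (Matrix.of fun i j : Fin 3 => (1 : ℝ) / (((j : ℕ) : ℝ) - (y i : ℝ) + 1 / 2)).det ^ 2 /
        Real.pi ^ 6 := by
    have e1 : (Matrix.of fun i j : Fin 3 =>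
        Complex.I / (Real.pi * (((j : ℕ) : ℂ) - (y i : ℂ) + 1 / 2))) =
        (Complex.I / (Real.pi : ℂ)) • ((Matrix.of fun i j : Fin 3 =>
          (1 : ℝ) / (((j : ℕ) : ℝ) - (y i : ℝ) + 1 / 2)).map (algebraMap ℝ ℂ)) := by
      ext i j
      simp only [Matrix.of_apply, Matrix.smul_apply, Matrix.map_apply, smul_eq_mul]
      rw [Complex.coe_algebraMap]
      push_cast
      rw [div_mul_div_comm, mul_one]
    rw [e1, Matrix.det_smul, Fintype.card_fin]
    have e2 : ((Matrix.of fun i j : Fin 3 =>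
          (1 : ℝ) / (((j : ℕ) : ℝ) - (y i : ℝ) + 1 / 2)).map (algebraMap ℝ ℂ)).det =
        (((Matrix.of fun i j : Fin 3 =>
          (1 : ℝ) / (((j : ℕ) : ℝ) - (y i : ℝ) + 1 / 2)).det : ℝ) : ℂ) := by
      rw [← RingHom.mapMatrix_apply, ← RingHom.map_det]
      rfl
    rw [e2, norm_mul, norm_pow, norm_div, Complex.norm_I, Complex.norm_real, Complex.norm_real,
      Real.norm_eq_abs, Real.norm_eq_abs, mul_pow, sq_abs, abs_of_pos Real.pi_pos]
    ring
  rw [← e]
  exact h2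

end Pool.Agent.H808R2.AH
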