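import Mathlib
import Pool.Agent.H808R2.AH.Defs

/-!
Task F3: the constant `ZZ 0`.
-/

namespace Pool.Agent.H808R2.AH
open Finset Filter Topology MeasureTheory

/-! ### Sums over `Fin 3 → ℤ` of products -/

theorem f3_prod (f g h : ℤ → ℝ) (hf : Summable fun x => ‖f x‖) (hg : Summable fun x => ‖g x‖)
    (hh : Summable fun x => ‖h x‖) :
    HasSum (fun y : Fin 3 → ℤ => f (y 0) * g (y 1) * h (y 2))
      ((∑' x, f x) * (∑' x, g x) * (∑' x, h x)) := by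
  have hfg : Summable (fun x : ℤ × ℤ => f x.1 * g x.2) := summable_mul_of_summable_norm hf hg
  have hfg' : Summable (fun x : ℤ × ℤ => ‖f x.1 * g x.2‖) := hf.mul_norm hg
  have h1 : HasSum (fun x : ℤ × ℤ => f x.1 * g x.2) ((∑' x, f x) * (∑' x, g x)) :=
    hf.of_norm.hasSum.mul hg.of_norm.hasSum hfg
  have h2 : HasSum (fun x : (ℤ × ℤ) × ℤ => (f x.1.1 * g x.1.2) * h x.2)
      ((∑' x, f x) * (∑' x, g x) * (∑' x, h x)) :=
    h1.mul hh.of_norm.hasSum (summable_mul_of_summable_norm hfg' hh)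
  let e : ((ℤ × ℤ) × ℤ) ≃ (Fin 3 → ℤ) :=
    { toFun := fun x => ![x.1.1, x.1.2, x.2]
      invFun := fun y => ((y 0, y 1), y 2)
      left_inv := fun _ => rfl
      right_inv := by intro y; ext i; fin_cases i <;> rfl }
  exact (e.hasSum_iff (f := fun y : Fin 3 → ℤ => f (y 0) * g (y 1) * h (y 2))).1 h2

theorem f3_det_sq (u : ℤ → ℝ) (r : ℤ → Fin 3 → ℝ) (y : Fin 3 → ℤ) :
    (∏ i, u (y i)) * (Matrix.of fun i j : Fin 3 => r (y i) j).det ^ 2 =
      ∑ σ : Equiv.Perm (Fin 3), ∑ τ : Equiv.Perm (Fin 3),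
        (((Equiv.Perm.sign σ : ℤ) : ℝ) * ((Equiv.Perm.sign τ : ℤ) : ℝ)) *
          ∏ i, (u (y i) * r (y i) (σ i) * r (y i) (τ i)) := by
  have hdet : (Matrix.of fun i j : Fin 3 => r (y i) j).det =
      ∑ σ : Equiv.Perm (Fin 3), ((Equiv.Perm.sign σ : ℤ) : ℝ) * ∏ i, r (y i) (σ i) := by
    rw [← Matrix.det_transpose, Matrix.det_apply']
    rfl
  rw [hdet, sq, Finset.sum_mul_sum, Finset.mul_sum]
  refine Finset.sum_congr rfl fun σ _ => ?_
  rw [Finset.mul_sum]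
  refine Finset.sum_congr rfl fun τ _ => ?_
  rw [Finset.prod_mul_distrib, Finset.prod_mul_distrib]
  ring

theorem f3_perm (T : Fin 3 → Fin 3 → ℝ) :
    ∑ σ : Equiv.Perm (Fin 3), ∑ τ : Equiv.Perm (Fin 3),
        (((Equiv.Perm.sign σ : ℤ) : ℝ) * ((Equiv.Perm.sign τ : ℤ) : ℝ)) *
          ∏ i, T (σ i) (τ i) = 6 * (Matrix.of T).det := by
  have hdet : (Matrix.of T).det =
      ∑ ρ : Equiv.Perm (Fin 3), ((Equiv.Perm.sign ρ : ℤ) : ℝ) * ∏ j, T j (ρ j) := by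
    rw [← Matrix.det_transpose, Matrix.det_apply']
    rfl
  have hin : ∀ σ : Equiv.Perm (Fin 3), ∑ τ : Equiv.Perm (Fin 3),
        (((Equiv.Perm.sign σ : ℤ) : ℝ) * ((Equiv.Perm.sign τ : ℤ) : ℝ)) *
          ∏ i, T (σ i) (τ i) = (Matrix.of T).det := by
    intro σ
    rw [hdet, ← Equiv.sum_comp (Equiv.mulRight σ)]
    refine Finset.sum_congr rfl fun ρ _ => ?_
    have h1 : ∏ i, T (σ i) ((Equiv.mulRight σ ρ) i) = ∏ j, T j (ρ j) := by
      rw [← Equiv.prod_comp σ (fun j => T j (ρ j))]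
      rfl
    rw [h1]
    have h2 : ((Equiv.Perm.sign σ : ℤ) : ℝ) *
        ((Equiv.Perm.sign ((Equiv.mulRight σ) ρ) : ℤ) : ℝ) = ((Equiv.Perm.sign ρ : ℤ) : ℝ) := by
      rw [Equiv.coe_mulRight, Equiv.Perm.sign_mul]
      rcases Int.units_eq_one_or (Equiv.Perm.sign σ) with h | h <;> rw [h] <;> simp
    rw [h2]
  rw [Finset.sum_congr rfl fun σ _ => hin σ, Finset.sum_const, Finset.card_univ,
    Fintype.card_perm, Fintype.card_fin]
  norm_num [Nat.factorial]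

/-! ### The one-variable sums -/

/-- weight -/
noncomputable def f3_u (a y : ℤ) : ℝ := if y ≠ a ∧ y ≠ a + 1 ∧ y ≠ a + 2 then (-1 : ℝ) ^ y else 0

/-- entries -/
noncomputable def f3_r (y : ℤ) (j : Fin 3) : ℝ := (1 : ℝ) / (((j : ℕ) : ℝ) - (y : ℝ) + 1 / 2)

/-- the matrix `T` -/
noncomputable def f3_T (a : ℤ) (j k : Fin 3) : ℝ := ∑' y : ℤ, f3_u a y * f3_r y j * f3_r y k

theorem f3_sq_summable (j : Fin 3) : Summable fun y : ℤ => (f3_r y j) ^ 2 := by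
  have h := (Real.summable_one_div_int_add_rpow (-(((j : ℕ) : ℝ) + 1 / 2)) 2).2 (by norm_num)
  refine h.congr fun y => ?_
  unfold f3_r
  rw [Real.rpow_two, sq_abs, div_pow, one_pow]
  congr 1
  ring

theorem f3_u_abs (a y : ℤ) : |f3_u a y| ≤ 1 := by
  unfold f3_u
  split_ifs
  · rw [abs_zpow, abs_neg, abs_one, one_zpow]
  · simp

theorem f3_summable (w : ℤ → ℝ) (hw : ∀ y, |w y| ≤ 1) (j k : Fin 3) :
    Summable fun y : ℤ => ‖w y * f3_r y j * f3_r y k‖ := by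
  refine Summable.of_nonneg_of_le (fun y => norm_nonneg _) (fun y => ?_)
    ((f3_sq_summable j).add (f3_sq_summable k))
  rw [Real.norm_eq_abs, abs_mul, abs_mul]
  have h1 : |w y| * |f3_r y j| ≤ 1 * |f3_r y j| :=
    mul_le_mul_of_nonneg_right (hw y) (abs_nonneg _)
  have h2 : |w y| * |f3_r y j| * |f3_r y k| ≤ 1 * |f3_r y j| * |f3_r y k| :=
    mul_le_mul_of_nonneg_right h1 (abs_nonneg _)
  have h3 := sq_nonneg (|f3_r y j| - |f3_r y k|)
  have h4 := sq_abs (f3_r y j)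
  have h5 := sq_abs (f3_r y k)
  have h6 := sq_nonneg (f3_r y j)
  have h7 := sq_nonneg (f3_r y k)
  nlinarith

theorem f3_ZZ_det (a : ℤ) : ZZ a = 6 * (Matrix.of (f3_T a)).det := by
  rw [← f3_perm]
  unfold ZZ
  have hterm : ∀ y : Fin 3 → ℤ, (if ∀ i, y i ≠ a ∧ y i ≠ a + 1 ∧ y i ≠ a + 2 then
      (∏ i, (-1 : ℝ) ^ (y i)) *
        (Matrix.of fun i j : Fin 3 => (1 : ℝ) / (((j : ℕ) : ℝ) - (y i : ℝ) + 1 / 2)).det ^ 2
      else 0) = ∑ σ : Equiv.Perm (Fin 3), ∑ τ : Equiv.Perm (Fin 3),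
        (((Equiv.Perm.sign σ : ℤ) : ℝ) * ((Equiv.Perm.sign τ : ℤ) : ℝ)) *
          ∏ i, (f3_u a (y i) * f3_r (y i) (σ i) * f3_r (y i) (τ i)) := by
    intro y
    rw [← f3_det_sq]
    split_ifs with h
    · congr 1
      refine Finset.prod_congr rfl fun i _ => ?_
      unfold f3_u
      rw [if_pos (h i)]
    · push Not at h
      obtain ⟨i, hi⟩ := h
      have : f3_u a (y i) = 0 := by
        unfold f3_u
        rw [if_neg]
        tauto
      rw [Finset.prod_eq_zero (Finset.mem_univ i) this, zero_mul]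
  rw [tsum_congr hterm]
  refine HasSum.tsum_eq ?_
  refine hasSum_sum fun σ _ => hasSum_sum fun τ _ => HasSum.mul_left _ ?_
  have hp := f3_prod (fun x => f3_u a x * f3_r x (σ 0) * f3_r x (τ 0))
    (fun x => f3_u a x * f3_r x (σ 1) * f3_r x (τ 1))
    (fun x => f3_u a x * f3_r x (σ 2) * f3_r x (τ 2))
    (f3_summable _ (f3_u_abs a) _ _) (f3_summable _ (f3_u_abs a) _ _)
    (f3_summable _ (f3_u_abs a) _ _)
  simp only [Fin.prod_univ_three]
  exact hp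

/-! ### Values -/

theorem f3_pow_abs (y : ℤ) : |(-1 : ℝ) ^ y| ≤ 1 := by
  rw [abs_zpow, abs_neg, abs_one, one_zpow]

theorem f3_diag (j : Fin 3) : HasSum (fun y : ℤ => (-1 : ℝ) ^ y * f3_r y j * f3_r y j) 0 := by
  have hs : Summable (fun y : ℤ => (-1 : ℝ) ^ y * f3_r y j * f3_r y j) :=
    (f3_summable (fun y => (-1 : ℝ) ^ y) f3_pow_abs j j).of_norm
  have h1 : ∑' y : ℤ, (-1 : ℝ) ^ y * f3_r y j * f3_r y j =
      - ∑' y : ℤ, (-1 : ℝ) ^ y * f3_r y j * f3_r y j := by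
    rw [← tsum_neg]
    rw [← (Equiv.subLeft (2 * ((j : ℕ) : ℤ) + 1)).tsum_eq]
    refine tsum_congr fun y => ?_
    have h2 : f3_r ((Equiv.subLeft (2 * ((j : ℕ) : ℤ) + 1)) y) j = - f3_r y j := by
      unfold f3_r
      rw [Equiv.subLeft_apply, ← one_div_neg_eq_neg_one_div]
      congr 1
      push_cast
      ring
    have h3 : (-1 : ℝ) ^ ((Equiv.subLeft (2 * ((j : ℕ) : ℤ) + 1)) y) = - (-1 : ℝ) ^ y := by
      rw [Equiv.subLeft_apply, zpow_sub₀ (by norm_num), zpow_add₀ (by norm_num), zpow_mul,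
        zpow_one]
      have h4 : ((-1 : ℝ) ^ (2 : ℤ)) = 1 := by norm_num
      rw [h4, one_zpow]
      rcases Int.even_or_odd y with h | h
      · rw [h.neg_one_zpow]; norm_num
      · rw [h.neg_one_zpow]; norm_num
    rw [h2, h3]
    ring
  have h5 : ∑' y : ℤ, (-1 : ℝ) ^ y * f3_r y j * f3_r y j = 0 := by linarith
  rw [← h5]
  exact hs.hasSum

/-- partial sums of the Leibniz series -/
noncomputable def f3_L (n : ℕ) : ℝ := ∑ i ∈ range n, (-1 : ℝ) ^ i / (2 * i + 1)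

theorem f3_L_succ (n : ℕ) : f3_L (n + 1) = f3_L n + (-1 : ℝ) ^ n / (2 * n + 1) := by
  unfold f3_L
  rw [Finset.sum_range_succ]

theorem f3_pos (n : ℕ) : ∑ i ∈ range (n + 2), ((-1 : ℝ) ^ (i : ℤ) * f3_r i 0 * f3_r i 1) =
    10 / 3 + 2 * f3_L (n + 1) + 2 * f3_L n := by
  induction n with
  | zero =>
    rw [Finset.sum_range_succ, Finset.sum_range_one]
    simp [f3_L, f3_r]
    norm_num
  | succ n ih =>
    rw [Finset.sum_range_succ, ih, f3_L_succ (n + 1)]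
    have hn : (0 : ℝ) ≤ (n : ℝ) := Nat.cast_nonneg n
    have h2 : (2 * (n : ℝ) + 3) ≠ 0 := by positivity
    have h3 : (2 * (n : ℝ) + 1) ≠ 0 := by positivity
    have e1 : f3_r (((n + 2 : ℕ)) : ℤ) 0 = -2 / (2 * (n : ℝ) + 3) := by
      unfold f3_r
      have h4 : (((0 : Fin 3) : ℕ) : ℝ) - ((((n + 2 : ℕ)) : ℤ) : ℝ) + 1 / 2 =
          -(2 * (n : ℝ) + 3) / 2 := by
        push_cast
        simp
        ring
      rw [h4]
      field_simp
    have e2 : f3_r (((n + 2 : ℕ)) : ℤ) 1 = -2 / (2 * (n : ℝ) + 1) := by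
      unfold f3_r
      have h4 : (((1 : Fin 3) : ℕ) : ℝ) - ((((n + 2 : ℕ)) : ℤ) : ℝ) + 1 / 2 =
          -(2 * (n : ℝ) + 1) / 2 := by
        push_cast
        simp
        ring
      rw [h4]
      field_simp
    have e3 : (-1 : ℝ) ^ (((n + 2 : ℕ)) : ℤ) = (-1 : ℝ) ^ n := by
      rw [zpow_natCast, pow_add]
      norm_num
    have h1 : f3_L n = f3_L (n + 1) - (-1 : ℝ) ^ n / (2 * n + 1) := by rw [f3_L_succ]; ring
    rw [show n + 1 + 1 = n + 2 from rfl, e1, e2, e3, h1, pow_succ]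
    have e4 : (2 * ((n + 1 : ℕ) : ℝ) + 1) = 2 * (n : ℝ) + 3 := by push_cast; ring
    rw [e4]
    field_simp
    ring

theorem f3_neg (n : ℕ) :
    ∑ i ∈ range n, ((-1 : ℝ) ^ (-((i : ℤ) + 1)) * f3_r (-((i : ℤ) + 1)) 0 *
      f3_r (-((i : ℤ) + 1)) 1) = -(10 / 3) + 2 * f3_L (n + 1) + 2 * f3_L (n + 2) := by
  induction n with
  | zero =>
    simp [f3_L, Finset.sum_range_succ]
    norm_num
  | succ n ih =>
    rw [Finset.sum_range_succ, ih, f3_L_succ (n + 2)]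
    have hn : (0 : ℝ) ≤ (n : ℝ) := Nat.cast_nonneg n
    have h2 : (2 * (n : ℝ) + 3) ≠ 0 := by positivity
    have h3 : (2 * (n : ℝ) + 5) ≠ 0 := by positivity
    have e1 : f3_r (-((n : ℤ) + 1)) 0 = 2 / (2 * (n : ℝ) + 3) := by
      unfold f3_r
      have h4 : (((0 : Fin 3) : ℕ) : ℝ) - ((-((n : ℤ) + 1) : ℤ) : ℝ) + 1 / 2 =
          (2 * (n : ℝ) + 3) / 2 := by
        push_cast
        simp
        ring
      rw [h4]
      field_simp
    have e2 : f3_r (-((n : ℤ) + 1)) 1 = 2 / (2 * (n : ℝ) + 5) := by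
      unfold f3_r
      have h4 : (((1 : Fin 3) : ℕ) : ℝ) - ((-((n : ℤ) + 1) : ℤ) : ℝ) + 1 / 2 =
          (2 * (n : ℝ) + 5) / 2 := by
        push_cast
        simp
        ring
      rw [h4]
      field_simp
    have e3 : (-1 : ℝ) ^ (-((n : ℤ) + 1)) = -(-1 : ℝ) ^ n := by
      rw [zpow_neg, ← inv_zpow, show ((-1 : ℝ))⁻¹ = -1 by norm_num,
        show ((n : ℤ) + 1) = ((n + 1 : ℕ) : ℤ) by push_cast; ring, zpow_natCast, pow_succ]
      ring
    have h1 : f3_L (n + 1) = f3_L (n + 2) - (-1 : ℝ) ^ (n + 1) / (2 * ((n + 1 : ℕ) : ℝ) + 1) := by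
      rw [f3_L_succ (n + 1)]; ring
    rw [show n + 1 + 1 = n + 2 from rfl, e1, e2, e3, h1, pow_succ, pow_add]
    have e4 : (2 * ((n + 1 : ℕ) : ℝ) + 1) = 2 * (n : ℝ) + 3 := by push_cast; ring
    have e5 : (2 * ((n + 2 : ℕ) : ℝ) + 1) = 2 * (n : ℝ) + 5 := by push_cast; ring
    rw [e4, e5]
    field_simp
    ring

theorem f3_L_tendsto : Tendsto f3_L atTop (𝓝 (Real.pi / 4)) := Real.tendsto_sum_pi_div_four

theorem f3_basic : HasSum (fun y : ℤ => (-1 : ℝ) ^ y * f3_r y 0 * f3_r y 1)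
    (2 * Real.pi) := by
  have hs : Summable (fun y : ℤ => (-1 : ℝ) ^ y * f3_r y 0 * f3_r y 1) :=
    (f3_summable (fun y => (-1 : ℝ) ^ y) f3_pow_abs 0 1).of_norm
  have hL := f3_L_tendsto
  have h1 : HasSum (fun n : ℕ => (-1 : ℝ) ^ (n : ℤ) * f3_r (n : ℤ) 0 * f3_r (n : ℤ) 1)
      (10 / 3 + 2 * (Real.pi / 4) + 2 * (Real.pi / 4)) := by
    have hs1 : Summable (fun n : ℕ => (-1 : ℝ) ^ (n : ℤ) * f3_r (n : ℤ) 0 * f3_r (n : ℤ) 1) :=
      hs.comp_injective Nat.cast_injective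
    rw [hs1.hasSum_iff_tendsto_nat, ← tendsto_add_atTop_iff_nat 2]
    have h2 : Tendsto (fun n : ℕ => 10 / 3 + 2 * f3_L (n + 1) + 2 * f3_L n) atTop
        (𝓝 (10 / 3 + 2 * (Real.pi / 4) + 2 * (Real.pi / 4))) :=
      (tendsto_const_nhds.add (((tendsto_add_atTop_iff_nat 1).2 hL).const_mul 2)).add
        (hL.const_mul 2)
    exact h2.congr fun n => (f3_pos n).symm
  have h2 : HasSum (fun n : ℕ => (-1 : ℝ) ^ (-((n : ℤ) + 1)) * f3_r (-((n : ℤ) + 1)) 0 *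
      f3_r (-((n : ℤ) + 1)) 1) (-(10 / 3) + 2 * (Real.pi / 4) + 2 * (Real.pi / 4)) := by
    have hinj : Function.Injective (fun n : ℕ => -((n : ℤ) + 1)) := by
      intro a b hab
      have : (a : ℤ) = b := by simpa using hab
      exact_mod_cast this
    have hs1 : Summable (fun n : ℕ => (-1 : ℝ) ^ (-((n : ℤ) + 1)) * f3_r (-((n : ℤ) + 1)) 0 *
      f3_r (-((n : ℤ) + 1)) 1) := hs.comp_injective hinj
    rw [hs1.hasSum_iff_tendsto_nat]
    have h2 : Tendsto (fun n : ℕ => -(10 / 3) + 2 * f3_L (n + 1) + 2 * f3_L (n + 2)) atTop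
        (𝓝 (-(10 / 3) + 2 * (Real.pi / 4) + 2 * (Real.pi / 4))) :=
      (tendsto_const_nhds.add (((tendsto_add_atTop_iff_nat 1).2 hL).const_mul 2)).add
        (((tendsto_add_atTop_iff_nat 2).2 hL).const_mul 2)
    exact h2.congr fun n => (f3_neg n).symm
  have h3 := HasSum.of_nat_of_neg_add_one
    (f := fun y : ℤ => (-1 : ℝ) ^ y * f3_r y 0 * f3_r y 1) h1 h2
  have h4 : 10 / 3 + 2 * (Real.pi / 4) + 2 * (Real.pi / 4) +
      (-(10 / 3) + 2 * (Real.pi / 4) + 2 * (Real.pi / 4)) = 2 * Real.pi := by ring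
  rwa [h4] at h3

theorem f3_ne (y : ℤ) (m : ℤ) : (m : ℝ) - (y : ℝ) + 1 / 2 ≠ 0 := by
  intro h
  have h1 : (2 * (m - y) + 1 : ℝ) = 0 := by linarith
  have h2 : (2 * (m - y) + 1 : ℤ) = 0 := by exact_mod_cast h1
  omega

theorem f3_congr {f g : ℤ → ℝ} {a : ℝ} (h : ∀ y, f y = g y) (hg : HasSum g a) :
    HasSum f a := by
  rwa [funext h]

theorem f3_shift (y : ℤ) : f3_r (y - 1) 0 = f3_r y 1 ∧ f3_r (y - 1) 1 = f3_r y 2 := by
  constructor
  · unfold f3_r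
    congr 1
    push_cast
    simp
  · unfold f3_r
    congr 1
    push_cast
    simp
    ring

theorem f3_basic12 : HasSum (fun y : ℤ => (-1 : ℝ) ^ y * f3_r y 1 * f3_r y 2)
    (-(2 * Real.pi)) := by
  have h := (Equiv.subRight (1 : ℤ)).hasSum_iff.2 f3_basic
  refine f3_congr (fun y => ?_) h.neg
  simp only [Function.comp, Equiv.subRight_apply]
  rw [(f3_shift y).1, (f3_shift y).2, zpow_sub_one₀ (by norm_num)]
  norm_num

theorem f3_basic02 : HasSum (fun y : ℤ => (-1 : ℝ) ^ y * f3_r y 0 * f3_r y 2) 0 := by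
  have h := ((f3_basic.add f3_basic12).mul_left (1 / 2))
  have h0 : (1 / 2) * (2 * Real.pi + -(2 * Real.pi)) = 0 := by ring
  rw [h0] at h
  refine f3_congr (fun y => ?_) h
  have e0 := f3_ne y 0
  have e1 := f3_ne y 1
  have e2 := f3_ne y 2
  push_cast at e0 e1 e2
  obtain ⟨A, hA⟩ : ∃ A : ℝ, A = 0 - (y : ℝ) + 1 / 2 := ⟨_, rfl⟩
  have a0 : A ≠ 0 := by rw [hA]; exact e0
  have a1 : A + 1 ≠ 0 := by
    have : A + 1 = 1 - (y : ℝ) + 1 / 2 := by rw [hA]; ring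
    rw [this]; exact e1
  have a2 : A + 2 ≠ 0 := by
    have : A + 2 = 2 - (y : ℝ) + 1 / 2 := by rw [hA]; ring
    rw [this]; exact e2
  have r0 : f3_r y 0 = 1 / A := by rw [hA]; simp [f3_r]
  have r1 : f3_r y 1 = 1 / (A + 1) := by
    rw [hA]
    unfold f3_r
    congr 1
    simp
    ring
  have r2 : f3_r y 2 = 1 / (A + 2) := by
    rw [hA]
    unfold f3_r
    congr 1
    simp
    ring
  have key : f3_r y 0 * f3_r y 2 = 1 / 2 * (f3_r y 0 * f3_r y 1 + f3_r y 1 * f3_r y 2) := by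
    rw [r0, r1, r2]
    field_simp
    ring
  rw [mul_assoc, key]
  ring

theorem f3_T_eq (j k : Fin 3) (S : ℝ)
    (h : HasSum (fun y : ℤ => (-1 : ℝ) ^ y * f3_r y j * f3_r y k) S) :
    f3_T 0 j k = S - ∑ y ∈ ({0, 1, 2} : Finset ℤ), (-1 : ℝ) ^ y * f3_r y j * f3_r y k := by
  have h1 : HasSum (fun y : ℤ => if y ∈ ({0, 1, 2} : Finset ℤ) then
      (-1 : ℝ) ^ y * f3_r y j * f3_r y k else 0)
      (∑ y ∈ ({0, 1, 2} : Finset ℤ), (-1 : ℝ) ^ y * f3_r y j * f3_r y k) := by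
    have h2 := hasSum_sum_of_ne_finset_zero (L := SummationFilter.unconditional ℤ)
      (f := fun y : ℤ => if y ∈ ({0, 1, 2} : Finset ℤ) then
      (-1 : ℝ) ^ y * f3_r y j * f3_r y k else 0) (s := ({0, 1, 2} : Finset ℤ))
      (fun b hb => if_neg hb)
    rwa [Finset.sum_congr rfl (fun y hy => if_pos hy)] at h2
  unfold f3_T
  refine HasSum.tsum_eq ?_
  refine f3_congr (fun y => ?_) (h.sub h1)
  unfold f3_u
  by_cases hy : y ∈ ({0, 1, 2} : Finset ℤ)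
  · rw [if_pos hy]
    simp only [Finset.mem_insert, Finset.mem_singleton] at hy
    rw [if_neg (by omega)]
    ring
  · rw [if_neg hy]
    simp only [Finset.mem_insert, Finset.mem_singleton] at hy
    rw [if_pos (by omega)]
    ring

theorem f3_sum3 (f : ℤ → ℝ) : ∑ y ∈ ({0, 1, 2} : Finset ℤ), f y = f 0 + f 1 + f 2 := by
  rw [Finset.sum_insert (by decide), Finset.sum_insert (by decide), Finset.sum_singleton]
  ring

theorem f3_T_val : f3_T 0 0 0 = -4 / 9 ∧ f3_T 0 1 1 = -4 / 9 ∧ f3_T 0 2 2 = -836 / 225 ∧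
    f3_T 0 0 1 = 2 * Real.pi - 20 / 3 ∧ f3_T 0 0 2 = -4 / 5 ∧
    f3_T 0 1 2 = -(2 * Real.pi) + 76 / 15 := by
  refine ⟨?_, ?_, ?_, ?_, ?_, ?_⟩
  · rw [f3_T_eq 0 0 0 (f3_diag 0), f3_sum3]
    simp [f3_r]
    norm_num
  · rw [f3_T_eq 1 1 0 (f3_diag 1), f3_sum3]
    simp [f3_r]
    norm_num
  · rw [f3_T_eq 2 2 0 (f3_diag 2), f3_sum3]
    simp [f3_r]
    norm_num
  · rw [f3_T_eq 0 1 _ f3_basic, f3_sum3]
    simp [f3_r]
    norm_num
  · rw [f3_T_eq 0 2 _ f3_basic02, f3_sum3]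
    simp [f3_r]
    norm_num
  · rw [f3_T_eq 1 2 _ f3_basic12, f3_sum3]
    simp [f3_r]
    norm_num

theorem f3_T_symm (a : ℤ) (j k : Fin 3) : f3_T a j k = f3_T a k j := by
  unfold f3_T
  refine tsum_congr fun y => ?_
  ring

theorem f3_lower : 1 / 25 ≤ ZZ 0 := by
  rw [f3_ZZ_det, Matrix.det_fin_three]
  obtain ⟨h00, h11, h22, h01, h02, h12⟩ := f3_T_val
  have h10 := (f3_T_symm 0 1 0).trans h01
  have h20 := (f3_T_symm 0 2 0).trans h02
  have h21 := (f3_T_symm 0 2 1).trans h12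
  simp only [Matrix.of_apply]
  rw [h00, h11, h22, h01, h02, h12, h10, h20, h21]
  have p1 := Real.pi_gt_d6
  have p2 := Real.pi_lt_d6
  nlinarith [mul_pos (sub_pos.2 p1) (sub_pos.2 p2)]

theorem f3_reflect : ZZ 1 = -ZZ 0 := by
  unfold ZZ
  rw [← tsum_neg]
  let e : (Fin 3 → ℤ) ≃ (Fin 3 → ℤ) := Equiv.subLeft (fun _ => (3 : ℤ))
  rw [← e.tsum_eq]
  refine tsum_congr fun y => ?_
  have he : ∀ i, e y i = 3 - y i := fun i => rfl
  have hcond : (∀ i, e y i ≠ 1 ∧ e y i ≠ 1 + 1 ∧ e y i ≠ 1 + 2) ↔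
      (∀ i, y i ≠ 0 ∧ y i ≠ 0 + 1 ∧ y i ≠ 0 + 2) := by
    refine forall_congr' fun i => ?_
    rw [he i]
    constructor
    · rintro ⟨h1, h2, h3⟩
      refine ⟨?_, ?_, ?_⟩ <;> omega
    · rintro ⟨h1, h2, h3⟩
      refine ⟨?_, ?_, ?_⟩ <;> omega
  by_cases hc : ∀ i, y i ≠ 0 ∧ y i ≠ 0 + 1 ∧ y i ≠ 0 + 2
  · rw [if_pos (hcond.2 hc), if_pos hc]
    have hpow : ∀ i, (-1 : ℝ) ^ (e y i) = -(-1 : ℝ) ^ (y i) := by
      intro i
      rw [he i, zpow_sub₀ (by norm_num)]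
      rcases Int.even_or_odd (y i) with h | h
      · rw [h.neg_one_zpow]; norm_num
      · rw [h.neg_one_zpow]; norm_num
    have hent : ∀ i, ∀ m m' : ℝ, m + m' = 2 → (1 : ℝ) / (m - ((e y i : ℤ) : ℝ) + 1 / 2) =
        -(1 / (m' - ((y i : ℤ) : ℝ) + 1 / 2)) := by
      intro i m m' hm
      rw [he i, ← one_div_neg_eq_neg_one_div]
      congr 1
      push_cast
      linarith
    rw [Matrix.det_fin_three, Matrix.det_fin_three]
    simp only [Fin.prod_univ_three, Matrix.of_apply, hpow]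
    simp only [Fin.val_zero, Fin.val_one, Fin.val_two, Nat.cast_zero, Nat.cast_one,
      Nat.cast_ofNat]
    rw [hent 0 0 2 (by norm_num), hent 0 1 1 (by norm_num), hent 0 2 0 (by norm_num),
      hent 1 0 2 (by norm_num), hent 1 1 1 (by norm_num), hent 1 2 0 (by norm_num),
      hent 2 0 2 (by norm_num), hent 2 1 1 (by norm_num), hent 2 2 0 (by norm_num)]
    ring
  · rw [if_neg (fun h => hc (hcond.1 h)), if_neg hc, neg_zero]

theorem F3_ZZ : 1 / 25 ≤ ZZ 0 ∧ ZZ 1 = -ZZ 0 := ⟨f3_lower, f3_reflect⟩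

end Pool.Agent.H808R2.AH
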