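import Pool.Agent.H808R2.AH.Defs

/-!
# H0: Fourier inversion in `ℝ^m` for continuous functions with compact support
-/

namespace Pool.Agent.H808R2.AH
open Finset Filter Topology MeasureTheory
open scoped FourierTransform

namespace H0

theorem inner_toLp {m : ℕ} (v w : EuclideanSpace ℝ (Fin m)) :
    inner ℝ v w = ∑ i, v i * w i := by
  rw [PiLp.inner_apply]
  refine Finset.sum_congr rfl fun i _ => ?_
  simp [mul_comm]

theorem integrable_F {m : ℕ} (F : (Fin m → ℝ) → ℂ) (hF : Continuous F) (R : ℝ)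
    (hR : ∀ ξ, F ξ ≠ 0 → ∀ i, |ξ i| ≤ R) : Integrable F := by
  apply hF.integrable_of_hasCompactSupport
  refine HasCompactSupport.intro (K := Set.Icc (fun _ => -R) (fun _ => R)) isCompact_Icc ?_
  intro x hx
  by_contra h
  apply hx
  have := hR x h
  exact ⟨fun i => (abs_le.1 (this i)).1, fun i => (abs_le.1 (this i)).2⟩

theorem integral_toLp {m : ℕ} (g : EuclideanSpace ℝ (Fin m) → ℂ) :
    ∫ y : Fin m → ℝ, g (WithLp.toLp 2 y) = ∫ x, g x :=
  (PiLp.volume_preserving_toLp (Fin m)).integral_comp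
    (MeasurableEquiv.toLp 2 _).measurableEmbedding g

end H0

open H0 in
/-- H0: Fourier inversion -/
theorem H0_inv {m : ℕ} (φ : (Fin m → ℝ) → ℂ) (F : (Fin m → ℝ) → ℂ) (hF : Continuous F) (R : ℝ)
    (hR : ∀ ξ, F ξ ≠ 0 → ∀ i, |ξ i| ≤ R)
    (rep : ∀ y, φ y = ∫ ξ : Fin m → ℝ, F ξ * Complex.exp (2 * Real.pi * Complex.I * ∑ i, ξ i * y i))
    (C : ℝ) (decay : ∀ y, ‖φ y‖ ≤ C * ∏ i, (1 + (y i) ^ 2)⁻¹) (ω : Fin m → ℝ) :
    Integrable φ ∧
      ∫ y : Fin m → ℝ, φ y * Complex.exp (-(2 * Real.pi * Complex.I * ∑ i, ω i * y i)) = F ω := by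
  have hFi := integrable_F F hF R hR
  have hnorm : ∀ ξ y : Fin m → ℝ,
      ‖Complex.exp (2 * Real.pi * Complex.I * ((∑ i, ξ i * y i : ℝ) : ℂ))‖ = 1 := by
    intro ξ y
    have h1 : (2 * Real.pi * Complex.I * ((∑ i, ξ i * y i : ℝ) : ℂ)) =
        ((2 * Real.pi * ∑ i, ξ i * y i : ℝ) : ℂ) * Complex.I := by
      push_cast
      ring
    rw [h1, Complex.norm_exp_ofReal_mul_I]
  have hcont : Continuous φ := by
    have h1 : φ = fun y => ∫ ξ : Fin m → ℝ,
        F ξ * Complex.exp (2 * Real.pi * Complex.I * ∑ i, ξ i * y i) := funext rep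
    rw [h1]
    apply MeasureTheory.continuous_of_dominated (bound := fun ξ => ‖F ξ‖)
    · intro y
      exact (by fun_prop : Continuous fun ξ : Fin m → ℝ =>
        F ξ * Complex.exp (2 * Real.pi * Complex.I * ((∑ i, ξ i * y i : ℝ) : ℂ))).aestronglyMeasurable
    · intro y
      filter_upwards with ξ
      rw [norm_mul, hnorm, mul_one]
    · exact hFi.norm
    · filter_upwards with ξ
      fun_prop
  have hφi : Integrable φ := by
    have h1 : Integrable fun y : Fin m → ℝ => C * ∏ i, (1 + (y i) ^ 2)⁻¹ := by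
      apply Integrable.const_mul
      exact Integrable.fintype_prod (f := fun _ : Fin m => fun t : ℝ => (1 + t ^ 2)⁻¹)
        (fun _ => integrable_inv_one_add_sq)
    exact h1.mono' hcont.aestronglyMeasurable (Filter.Eventually.of_forall decay)
  refine ⟨hφi, ?_⟩
  -- the Euclidean side
  set G : EuclideanSpace ℝ (Fin m) → ℂ := fun x => F x.ofLp with hG
  have hGc : Continuous G := hF.comp (PiLp.continuous_ofLp 2 _)
  have hGi : Integrable G :=
    ((PiLp.volume_preserving_ofLp (Fin m)).integrable_comp_emb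
      (MeasurableEquiv.toLp 2 (Fin m → ℝ)).symm.measurableEmbedding).2 hFi
  have hinv : ∀ w : EuclideanSpace ℝ (Fin m), 𝓕⁻ G w = φ w.ofLp := by
    intro w
    rw [Real.fourierInv_eq', rep, ← integral_toLp]
    refine integral_congr_ae (Filter.Eventually.of_forall fun ξ => ?_)
    simp only [smul_eq_mul, hG]
    rw [mul_comm]
    congr 2
    rw [inner_toLp]
    push_cast
    ring
  have hinvi : Integrable (𝓕⁻ G) := by
    have h1 : 𝓕⁻ G = fun w => φ w.ofLp := funext hinv
    rw [h1]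
    exact ((PiLp.volume_preserving_ofLp (Fin m)).integrable_comp_emb
      (MeasurableEquiv.toLp 2 (Fin m → ℝ)).symm.measurableEmbedding).2 hφi
  have hfi : Integrable (𝓕 G) := by
    have h1 : 𝓕 G = (𝓕⁻ G) ∘ (fun x => -x) := by
      funext x
      rw [Function.comp_apply, Real.fourierInv_eq_fourier_neg, neg_neg]
    rw [h1]
    exact hinvi.comp_neg
  have h2 := hGi.fourier_fourierInv_eq hfi (v := WithLp.toLp 2 ω) hGc.continuousAt
  have h3 : G (WithLp.toLp 2 ω) = F ω := rfl
  rw [h3, Real.fourier_eq', ← integral_toLp] at h2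
  rw [← h2]
  refine integral_congr_ae (Filter.Eventually.of_forall fun y => ?_)
  simp only [smul_eq_mul]
  rw [hinv, mul_comm]
  congr 2
  rw [inner_toLp]
  push_cast
  rw [show (∑ i, (ω i : ℂ) * (y i : ℂ)) = ∑ i, (y i : ℂ) * (ω i : ℂ) from
    Finset.sum_congr rfl fun i _ => mul_comm _ _]
  ring

end Pool.Agent.H808R2.AH
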