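import Pool.Agent.H808R2.AH.Defs

/-! Module H: Poisson summation in `ℝ^m` -/

namespace Pool.Agent.H808R2.AH
open Finset Filter Topology MeasureTheory
open scoped FourierTransform

/-- a product of summable nonnegative functions of one integer variable -/
theorem Hprod_summable {m : ℕ} (g : Fin m → ℤ → ℝ) (h0 : ∀ i v, 0 ≤ g i v)
    (hs : ∀ i, Summable (g i)) :
    (Summable fun v : Fin m → ℤ => ∏ i, g i (v i)) ∧
      ∑' v : Fin m → ℤ, ∏ i, g i (v i) = ∏ i, ∑' v, g i v := by
  induction m with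
  | zero =>
    constructor
    · exact (hasSum_unique _).summable
    · simp
  | succ m ih =>
    obtain ⟨h1, h2⟩ := ih (fun i => g i.succ) (fun i v => h0 _ v) (fun i => hs _)
    obtain ⟨G, hG⟩ : ∃ G : (Fin m → ℤ) → ℝ, ∀ v, G v = ∏ i, g i.succ (v i) := ⟨_, fun _ => rfl⟩
    have hG' : Summable G := by
      rw [funext hG]
      exact h1
    have h3' : Summable (fun p : ℤ × (Fin m → ℤ) => g 0 p.1 * G p.2) :=
      (hs 0).mul_of_nonneg hG' (fun v => h0 0 v)
        (fun v => by rw [hG]; exact Finset.prod_nonneg fun i _ => h0 _ _)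
    have h3 : Summable (fun p : ℤ × (Fin m → ℤ) => g 0 p.1 * ∏ i, g i.succ (p.2 i)) := by
      simp_rw [hG] at h3'
      exact h3'
    have h4 : (fun p : ℤ × (Fin m → ℤ) => g 0 p.1 * ∏ i, g i.succ (p.2 i)) =
        (fun v : Fin (m + 1) → ℤ => ∏ i, g i (v i)) ∘ (Fin.consEquiv (fun _ => ℤ)) := by
      funext p
      simp [Fin.prod_univ_succ]
    constructor
    · rw [h4] at h3
      exact (Equiv.summable_iff _).1 h3
    · rw [← (Fin.consEquiv (fun _ => ℤ)).tsum_eq, Fin.prod_univ_succ, ← h2,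
        (hs 0).tsum_mul_tsum h1 h3]
      apply tsum_congr
      intro p
      exact (congrFun h4 p).symm

theorem Hsummable_sq : Summable fun v : ℤ => (1 + (v : ℝ) ^ 2)⁻¹ := by
  have h1 : Summable fun v : ℤ => 1 / (v : ℝ) ^ 2 := Real.summable_one_div_int_pow.2 (by norm_num)
  have h2 : Summable fun v : ℤ => if v = 0 then (1 : ℝ) else 0 := by
    apply summable_of_ne_finset_zero (s := {0})
    intro b hb
    rw [if_neg (by simpa using hb)]
  refine Summable.of_nonneg_of_le (fun v => by positivity) (fun v => ?_) (h1.add h2)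
  by_cases hv : v = 0
  · simp [hv]
  · rw [if_neg hv, add_zero, one_div]
    apply inv_anti₀
    · have : (v : ℝ) ≠ 0 := by exact_mod_cast hv
      positivity
    · linarith

theorem Hsummable_shift (y a : ℝ) (ha : 0 < a) : Summable fun v : ℤ => (1 + (y + a * v) ^ 2)⁻¹ := by
  refine Summable.of_nonneg_of_le (fun v => by positivity) (fun v => ?_)
    (Hsummable_sq.mul_left (1 + 2 / a ^ 2 + 2 * y ^ 2 / a ^ 2))
  rw [← div_eq_mul_inv, le_div_iff₀ (by positivity), ← div_eq_inv_mul, div_le_iff₀ (by positivity)]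
  have h1 : (v : ℝ) ^ 2 ≤ 2 * (y + a * v) ^ 2 / a ^ 2 + 2 * y ^ 2 / a ^ 2 := by
    rw [← add_div, le_div_iff₀ (by positivity)]
    nlinarith [sq_nonneg ((y + a * v) + y)]
  have h2 : 2 * (y + a * v) ^ 2 / a ^ 2 = 2 / a ^ 2 * (y + a * v) ^ 2 := by ring
  have h3 : 0 ≤ 2 * y ^ 2 / a ^ 2 * (y + a * v) ^ 2 := by positivity
  have h4 : 0 ≤ 2 / a ^ 2 := by positivity
  nlinarith [sq_nonneg (y + a * v)]

/-- summability on the lattice from the decay -/
theorem Hdecay_summable {m : ℕ} {φ : (Fin m → ℝ) → ℂ} {C : ℝ}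
    (decay : ∀ y, ‖φ y‖ ≤ C * ∏ i, (1 + (y i) ^ 2)⁻¹) {a : ℝ} (ha : 0 < a) (y : Fin m → ℝ) :
    Summable fun v : Fin m → ℤ => φ (fun i => y i + a * v i) := by
  have h := (Hprod_summable (fun i v => (1 + (y i + a * v) ^ 2)⁻¹) (fun i v => by positivity)
    (fun i => Hsummable_shift (y i) a ha)).1
  exact Summable.of_norm_bounded (h.mul_left C) (fun v => decay _)

/-- one-dimensional Poisson summation -/
theorem Hpoisson_one (f ψ : ℝ → ℂ) (hf : Continuous f) (R : ℝ) (hR : ∀ ξ, f ξ ≠ 0 → |ξ| ≤ R)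
    (rep : ∀ y : ℝ, ψ y = ∫ ξ : ℝ, f ξ * Complex.exp (2 * Real.pi * Complex.I * (ξ * y)))
    (C : ℝ) (decay : ∀ y, ‖ψ y‖ ≤ C * (1 + y ^ 2)⁻¹) (a : ℝ) (ha : 0 < a) (y : ℝ) :
    ∑' v : ℤ, ψ (y + a * v) =
      (1 / (a : ℂ)) * ∑' k : ℤ, f (k / a) *
        Complex.exp (2 * Real.pi * Complex.I * (k / a * y)) := by
  obtain ⟨g, hg⟩ : ∃ g : ℝ → ℂ, ∀ x, g x = f (x / a) *
      Complex.exp (2 * Real.pi * Complex.I * ((x / a : ℝ) * y)) := ⟨_, fun _ => rfl⟩
  have ha' : (a : ℂ) ≠ 0 := by exact_mod_cast ha.ne'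
  have hgc : Continuous g := by
    rw [funext hg]
    fun_prop
  have hF : ∀ w : ℝ, 𝓕 g w = a * ψ (y - a * w) := by
    intro w
    rw [Real.fourier_real_eq_integral_exp_smul, rep]
    have h1 : ∀ x : ℝ, Complex.exp (((-2 * Real.pi * x * w : ℝ) : ℂ) * Complex.I) • g x =
        (fun t : ℝ => f t * Complex.exp (2 * Real.pi * Complex.I * (t * ((y - a * w : ℝ) : ℂ))))
          (x / a) := by
      intro x
      rw [hg, smul_eq_mul]
      beta_reduce
      rw [mul_left_comm, ← Complex.exp_add]
      congr 2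
      push_cast
      field_simp
      ring
    rw [integral_congr_ae (Filter.Eventually.of_forall h1),
      MeasureTheory.Measure.integral_comp_div (fun t : ℝ => f t *
        Complex.exp (2 * Real.pi * Complex.I * (t * ((y - a * w : ℝ) : ℂ)))) a, abs_of_pos ha]
    rw [Complex.real_smul]
  have hsum : Summable fun v : ℤ => ψ (y - a * v) := by
    have h1 := (Hsummable_shift (-y) a ha)
    refine Summable.of_norm_bounded (h1.mul_left C) (fun v => ?_)
    refine (decay _).trans (le_of_eq ?_)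
    congr 3
    ring
  have hO : g =O[cocompact ℝ] fun x : ℝ => |x| ^ (-2 : ℝ) := by
    have h1 : ∀ᶠ x : ℝ in cocompact ℝ, g x = 0 := by
      have h2 : ∀ᶠ x : ℝ in cocompact ℝ, R < ‖x / a‖ := by
        have h3 : Tendsto (fun x : ℝ => ‖x / a‖) (cocompact ℝ) atTop := by
          have h4 := (tendsto_norm_cocompact_atTop (E := ℝ)).atTop_div_const ha
          refine h4.congr fun x => ?_
          rw [norm_div, Real.norm_eq_abs a, abs_of_pos ha]
        exact h3.eventually_gt_atTop R
      filter_upwards [h2] with x hx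
      rw [hg]
      by_cases h3 : f (x / a) = 0
      · rw [h3, zero_mul]
      · exact absurd (hR _ h3) (not_le.2 hx)
    exact (Asymptotics.isBigO_zero _ _).congr' (h1.mono fun x hx => hx.symm) EventuallyEq.rfl
  have hS : Summable fun n : ℤ => 𝓕 g n := by
    simp_rw [hF]
    exact hsum.mul_left _
  have hP := Real.tsum_eq_tsum_fourier_of_rpow_decay_of_summable hgc (b := 2) (by norm_num) hO hS 0
  have e1 : ∑' v : ℤ, ψ (y + a * v) = ∑' v : ℤ, ψ (y - a * v) := by
    rw [← (Equiv.neg ℤ).tsum_eq]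
    apply tsum_congr
    intro v
    congr 1
    simp
    ring
  have e2 : ∑' n : ℤ, 𝓕 g n * fourier n ((0 : ℝ) : UnitAddCircle) =
      a * ∑' v : ℤ, ψ (y - a * v) := by
    rw [← tsum_mul_left]
    apply tsum_congr
    intro n
    rw [hF]
    simp
  rw [e2] at hP
  have e3 : ∑' k : ℤ, f (k / a) * Complex.exp (2 * Real.pi * Complex.I * (k / a * y)) =
      ∑' n : ℤ, g (0 + n) := by
    apply tsum_congr
    intro n
    rw [zero_add, hg]
    push_cast
    rfl
  rw [e1, e3, hP]
  field_simp

/-- Fubini for the first coordinate -/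
theorem Hfubini {m : ℕ} (g : (Fin (m + 1) → ℝ) → ℂ) (hg : Integrable g) :
    ∫ ξ, g ξ = ∫ t : ℝ, ∫ ξ' : Fin m → ℝ, g (Fin.cons t ξ') := by
  have h := (MeasureTheory.volume_preserving_piFinSuccAbove (fun _ : Fin (m + 1) => ℝ) 0).symm
  have hint : Integrable (fun p : ℝ × (Fin m → ℝ) =>
      g ((MeasurableEquiv.piFinSuccAbove (fun _ : Fin (m + 1) => ℝ) 0).symm p)) :=
    (h.integrable_comp_emb (MeasurableEquiv.measurableEmbedding _)).2 hg
  rw [← h.integral_comp']
  rw [Measure.volume_eq_prod] at hint ⊢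
  rw [integral_prod _ hint]
  apply integral_congr_ae
  apply Filter.Eventually.of_forall
  intro t
  apply integral_congr_ae
  apply Filter.Eventually.of_forall
  intro ξ'
  beta_reduce
  congr 1
  exact Fin.insertNth_zero' t ξ'

theorem Hcompact_integrable {m : ℕ} (g : (Fin m → ℝ) → ℂ) (hg : Continuous g) (R : ℝ)
    (hR : ∀ ξ, g ξ ≠ 0 → ∀ i, |ξ i| ≤ R) : Integrable g := by
  apply hg.integrable_of_hasCompactSupport
  apply HasCompactSupport.intro
    (isCompact_univ_pi (s := fun _ : Fin m => Set.Icc (-R) R) fun _ => isCompact_Icc)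
  intro x hx
  by_contra h
  exact hx fun i _ => abs_le.1 (hR x h i)

theorem Hparam_continuous {m : ℕ} (F : (Fin (m + 1) → ℝ) → ℂ) (hF : Continuous F) (R : ℝ)
    (hR : ∀ ξ, F ξ ≠ 0 → ∀ i, |ξ i| ≤ R) (e : (Fin m → ℝ) → ℂ) (he : Continuous e) :
    Continuous fun t : ℝ => ∫ ξ' : Fin m → ℝ, F (Fin.cons t ξ') * e ξ' := by
  have h1 : ∀ t : ℝ, ∫ ξ' : Fin m → ℝ, F (Fin.cons t ξ') * e ξ' =
      ∫ ξ' in Set.univ.pi (fun _ : Fin m => Set.Icc (-R) R), F (Fin.cons t ξ') * e ξ' := by
    intro t
    rw [setIntegral_eq_integral_of_forall_compl_eq_zero]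
    intro x hx
    have h2 : F (Fin.cons t x) = 0 := by
      by_contra h
      exact hx fun i _ => abs_le.1 (by simpa using hR _ h i.succ)
    rw [h2, zero_mul]
  rw [funext h1]
  apply continuous_parametric_integral_of_continuous (f := fun (t : ℝ) (ξ' : Fin m → ℝ) =>
    F (Fin.cons t ξ') * e ξ')
  · apply Continuous.mul
    · apply hF.comp
      apply continuous_pi
      intro i
      refine Fin.cases ?_ (fun i => ?_) i
      · simp only [Fin.cons_zero]
        exact continuous_fst
      · simp only [Fin.cons_succ]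
        exact (continuous_apply i).comp continuous_snd
    · exact he.comp continuous_snd
  · exact isCompact_univ_pi fun _ => isCompact_Icc

theorem Hgen_aux (m : ℕ) : ∀ (φ : (Fin m → ℝ) → ℂ) (F : (Fin m → ℝ) → ℂ), Continuous F →
    ∀ R : ℝ, (∀ ξ, F ξ ≠ 0 → ∀ i, |ξ i| ≤ R) →
    (∀ y, φ y = ∫ ξ : Fin m → ℝ, F ξ *
      Complex.exp (2 * Real.pi * Complex.I * ∑ i, ξ i * y i)) →
    ∀ C : ℝ, (∀ y, ‖φ y‖ ≤ C * ∏ i, (1 + (y i) ^ 2)⁻¹) → ∀ a : ℝ, 0 < a → ∀ y : Fin m → ℝ,
    ∑' v : Fin m → ℤ, φ (fun i => y i + a * v i) =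
      (1 / (a : ℂ) ^ m) * ∑' k : Fin m → ℤ, F (fun i => k i / a) *
        Complex.exp (2 * Real.pi * Complex.I * ∑ i, k i / a * y i) := by
  induction m with
  | zero =>
    intro φ F hF R hR rep C decay a ha y
    rw [tsum_fintype, tsum_fintype, Fintype.sum_unique, Fintype.sum_unique, rep, MeasureTheory.Measure.volume_pi_eq_dirac 0, integral_dirac]
    simp
    congr 1
    exact Subsingleton.elim _ _
  | succ m ih =>
    intro φ F hF R hR rep C decay a ha y
    obtain ⟨S, hS⟩ : ∃ S : Finset ℤ, ∀ k : ℤ, |(k : ℝ) / a| ≤ R → k ∈ S := by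
      refine ⟨Finset.Icc (-⌈a * R⌉) ⌈a * R⌉, fun k hk => ?_⟩
      rw [abs_div, abs_of_pos ha, div_le_iff₀ ha] at hk
      have h1 := Int.le_ceil (a * R)
      rw [Finset.mem_Icc]
      constructor
      · have : (-⌈a * R⌉ : ℝ) ≤ k := by
          have := (abs_le.1 hk).1
          linarith
        exact_mod_cast this
      · have : (k : ℝ) ≤ ⌈a * R⌉ := by
          have := (abs_le.1 hk).2
          linarith
        exact_mod_cast this
    have hFS : ∀ (k : ℤ) (ξ' : Fin m → ℝ), k ∉ S →
        F (Fin.cons ((k : ℝ) / a) ξ' : Fin (m + 1) → ℝ) = 0 := by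
      intro k ξ' hk
      by_contra h
      exact hk (hS k (by simpa using hR _ h 0))
    have ha' : (a : ℂ) ≠ 0 := by exact_mod_cast ha.ne'
    obtain ⟨F1, hF1⟩ : ∃ F1 : (Fin m → ℝ) → ℂ, ∀ ξ', F1 ξ' = (1 / (a : ℂ)) * ∑ k ∈ S,
        F (Fin.cons ((k : ℝ) / a) ξ' : Fin (m + 1) → ℝ) *
          Complex.exp (2 * Real.pi * Complex.I * (k / a * y 0)) := ⟨_, fun _ => rfl⟩
    obtain ⟨P, hP⟩ : ∃ P : (Fin m → ℝ) → ℂ, ∀ y', P y' = ∑' v : ℤ,
        φ (Fin.cons (y 0 + a * v) y' : Fin (m + 1) → ℝ) := ⟨_, fun _ => rfl⟩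
    have hcc : ∀ t : ℝ, Continuous fun ξ' : Fin m → ℝ =>
        F (Fin.cons t ξ' : Fin (m + 1) → ℝ) := by
      intro t
      apply hF.comp
      apply continuous_pi
      intro i
      refine Fin.cases ?_ (fun i => ?_) i
      · simp only [Fin.cons_zero]
        exact continuous_const
      · simp only [Fin.cons_succ]
        exact continuous_apply i
    have hF1c : Continuous F1 := by
      rw [funext hF1]
      apply continuous_const.mul
      apply continuous_finsetSum
      intro k _
      exact (hcc _).mul continuous_const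
    have hF1R : ∀ ξ, F1 ξ ≠ 0 → ∀ i, |ξ i| ≤ R := by
      intro ξ hξ i
      rw [hF1] at hξ
      by_contra h
      apply hξ
      rw [Finset.sum_eq_zero, mul_zero]
      intro k _
      have h2 : F (Fin.cons ((k : ℝ) / a) ξ : Fin (m + 1) → ℝ) = 0 := by
        by_contra h3
        exact h (by simpa using hR _ h3 i.succ)
      rw [h2, zero_mul]
    have hec : ∀ y' : Fin m → ℝ, Continuous fun ξ' : Fin m → ℝ =>
        Complex.exp (2 * Real.pi * Complex.I * ((∑ i, ξ' i * y' i : ℝ) : ℂ)) := by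
      intro y'
      fun_prop
    have hrep1 : ∀ y', P y' = ∫ ξ : Fin m → ℝ, F1 ξ *
        Complex.exp (2 * Real.pi * Complex.I * ∑ i, ξ i * y' i) := by
      intro y'
      have h1 := Hpoisson_one (fun t : ℝ => ∫ ξ' : Fin m → ℝ, F (Fin.cons t ξ') *
          Complex.exp (2 * Real.pi * Complex.I * ((∑ i, ξ' i * y' i : ℝ) : ℂ)))
        (fun t : ℝ => φ (Fin.cons t y'))
        (Hparam_continuous F hF R hR _ (hec y')) R ?_ ?_ (C * ∏ i, (1 + (y' i) ^ 2)⁻¹) ?_ a ha (y 0)
      · rw [hP]
        beta_reduce at h1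
        rw [h1, tsum_eq_sum (s := S)]
        · simp_rw [hF1]
          have h3 : ∀ k : ℤ, (∫ ξ' : Fin m → ℝ, F (Fin.cons ((k : ℝ) / a) ξ') *
              Complex.exp (2 * Real.pi * Complex.I * ((∑ i, ξ' i * y' i : ℝ) : ℂ))) *
              Complex.exp (2 * Real.pi * Complex.I * (k / a * y 0)) =
              ∫ ξ' : Fin m → ℝ, (F (Fin.cons ((k : ℝ) / a) ξ') *
              Complex.exp (2 * Real.pi * Complex.I * ((∑ i, ξ' i * y' i : ℝ) : ℂ))) *
              Complex.exp (2 * Real.pi * Complex.I * (k / a * y 0)) := by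
            intro k
            rw [integral_mul_const]
          rw [Finset.sum_congr rfl fun k _ => h3 k, ← integral_finsetSum, ← integral_const_mul]
          · apply integral_congr_ae
            apply Filter.Eventually.of_forall
            intro ξ'
            beta_reduce
            rw [mul_assoc (1 / (a : ℂ)), Finset.sum_mul]
            congr 1
            apply Finset.sum_congr rfl
            intro k _
            ring
          · intro k _
            apply Hcompact_integrable _ (((hcc _).mul (hec y')).mul continuous_const) R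
            intro ξ hξ i
            by_contra h
            apply hξ
            have h2 : F (Fin.cons ((k : ℝ) / a) ξ : Fin (m + 1) → ℝ) = 0 := by
              by_contra h3
              exact h (by simpa using hR _ h3 i.succ)
            simp only [Pi.mul_apply]
            rw [h2, zero_mul, zero_mul]
        · intro k hk
          rw [integral_congr_ae (g := fun _ => (0 : ℂ)), integral_zero, zero_mul]
          apply Filter.Eventually.of_forall
          intro ξ'
          beta_reduce
          rw [hFS k ξ' hk, zero_mul]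
      · intro t ht
        by_contra h
        apply ht
        beta_reduce
        rw [integral_congr_ae (g := fun _ => (0 : ℂ)), integral_zero]
        apply Filter.Eventually.of_forall
        intro ξ'
        beta_reduce
        have h2 : F (Fin.cons t ξ' : Fin (m + 1) → ℝ) = 0 := by
          by_contra h3
          exact h (by simpa using hR _ h3 0)
        rw [h2, zero_mul]
      · intro t
        beta_reduce
        rw [rep, Hfubini]
        · apply integral_congr_ae
          apply Filter.Eventually.of_forall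
          intro s
          beta_reduce
          rw [← integral_mul_const]
          apply integral_congr_ae
          apply Filter.Eventually.of_forall
          intro ξ'
          beta_reduce
          rw [mul_assoc (F _), ← Complex.exp_add, Fin.sum_univ_succ]
          simp only [Fin.cons_zero, Fin.cons_succ]
          congr 2
          push_cast
          ring
        · apply Hcompact_integrable _ _ R
          · intro ξ hξ i
            exact hR ξ (left_ne_zero_of_mul hξ) i
          · apply hF.mul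
            fun_prop
      · intro t
        beta_reduce
        refine (decay _).trans (le_of_eq ?_)
        rw [Fin.prod_univ_succ]
        simp only [Fin.cons_zero, Fin.cons_succ]
        ring
    have hdecay1 : ∀ y', ‖P y'‖ ≤ (C * ∑' v : ℤ, (1 + (y 0 + a * v) ^ 2)⁻¹) *
        ∏ i, (1 + (y' i) ^ 2)⁻¹ := by
      intro y'
      rw [hP]
      have h1 := (Hsummable_shift (y 0) a ha).mul_left (C * ∏ i, (1 + (y' i) ^ 2)⁻¹)
      have h2 := tsum_of_norm_bounded h1.hasSum
        (f := fun v : ℤ => φ (Fin.cons (y 0 + a * v) y' : Fin (m + 1) → ℝ)) (fun v => by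
          refine (decay _).trans (le_of_eq ?_)
          rw [Fin.prod_univ_succ]
          simp only [Fin.cons_zero, Fin.cons_succ]
          ring)
      refine h2.trans (le_of_eq ?_)
      rw [tsum_mul_left]
      ring
    have hih := ih P F1 hF1c R hF1R hrep1 _ hdecay1 a ha (fun i => y i.succ)
    obtain ⟨e, he⟩ : ∃ e : (Fin m → ℤ) × ℤ ≃ (Fin (m + 1) → ℤ), ∀ p, e p = Fin.cons p.2 p.1 :=
      ⟨(Equiv.prodComm _ _).trans (Fin.consEquiv fun _ => ℤ), fun p => rfl⟩
    -- left side
    have hL : ∑' v : Fin (m + 1) → ℤ, φ (fun i => y i + a * v i) =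
        ∑' v' : Fin m → ℤ, P (fun i => y i.succ + a * v' i) := by
      have h1 : Summable fun p : (Fin m → ℤ) × ℤ => φ (fun i => y i + a * (e p) i) :=
        (Equiv.summable_iff e).2 (Hdecay_summable decay ha y)
      rw [← e.tsum_eq, h1.tsum_prod]
      apply tsum_congr
      intro v'
      rw [hP]
      apply tsum_congr
      intro v
      congr 1
      funext i
      rw [he]
      refine Fin.cases ?_ (fun i => ?_) i
      · simp
      · simp
    -- right side
    have hRt : ∑' k : Fin (m + 1) → ℤ, F (fun i => k i / a) *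
        Complex.exp (2 * Real.pi * Complex.I * ∑ i, k i / a * y i) =
        ∑' k' : Fin m → ℤ, a * (F1 (fun i => k' i / a) *
          Complex.exp (2 * Real.pi * Complex.I * ∑ i, k' i / a * y i.succ)) := by
      have h0 : Summable fun k : Fin (m + 1) → ℤ => F (fun i => k i / a) *
          Complex.exp (2 * Real.pi * Complex.I * ∑ i, k i / a * y i) := by
        apply summable_of_ne_finset_zero (s := Fintype.piFinset fun _ => S)
        intro k hk
        have h2 : F (fun i => k i / a) = 0 := by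
          by_contra h3
          exact hk (Fintype.mem_piFinset.2 fun i => hS _ (hR _ h3 i))
        rw [h2, zero_mul]
      have h1 : Summable fun p : (Fin m → ℤ) × ℤ => F (fun i => (e p) i / a) *
          Complex.exp (2 * Real.pi * Complex.I * ∑ i, (e p) i / a * y i) :=
        (Equiv.summable_iff e).2 h0
      rw [← e.tsum_eq, h1.tsum_prod]
      apply tsum_congr
      intro k'
      have h2 : ∀ k : ℤ, (fun i => ((e (k', k)) i : ℝ) / a) =
          (Fin.cons ((k : ℝ) / a) (fun i => (k' i : ℝ) / a) : Fin (m + 1) → ℝ) := by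
        intro k
        funext i
        rw [he]
        refine Fin.cases ?_ (fun i => ?_) i
        · simp
        · simp
      have h3 : ∀ k : ℤ, ((∑ i, (((e (k', k)) i : ℤ) : ℝ) / a * y i : ℝ) : ℂ) =
          k / a * y 0 + ((∑ i, k' i / a * y i.succ : ℝ) : ℂ) := by
        intro k
        rw [Fin.sum_univ_succ, he]
        simp
      rw [tsum_eq_sum (s := S)]
      · rw [hF1, Finset.mul_sum, Finset.sum_mul, Finset.mul_sum]
        apply Finset.sum_congr rfl
        intro k _
        rw [h2, h3, mul_add, Complex.exp_add]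
        field_simp
      · intro k hk
        rw [h2, hFS k _ hk, zero_mul]
    rw [hL, hih, hRt, tsum_mul_left, pow_succ]
    field_simp

/-- H: Poisson summation -/
theorem H_gen {m : ℕ} (φ : (Fin m → ℝ) → ℂ) (F : (Fin m → ℝ) → ℂ) (hF : Continuous F) (R : ℝ)
    (hR : ∀ ξ, F ξ ≠ 0 → ∀ i, |ξ i| ≤ R)
    (rep : ∀ y, φ y = ∫ ξ : Fin m → ℝ, F ξ * Complex.exp (2 * Real.pi * Complex.I * ∑ i, ξ i * y i))
    (C : ℝ) (decay : ∀ y, ‖φ y‖ ≤ C * ∏ i, (1 + (y i) ^ 2)⁻¹) (a : ℝ) (ha : 0 < a) (y : Fin m → ℝ) :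
    (Summable fun v : Fin m → ℤ => φ (fun i => y i + a * v i)) ∧
    ∑' v : Fin m → ℤ, φ (fun i => y i + a * v i) =
      (1 / (a : ℂ) ^ m) * ∑' k : Fin m → ℤ, F (fun i => k i / a) *
        Complex.exp (2 * Real.pi * Complex.I * ∑ i, k i / a * y i) :=
  ⟨Hdecay_summable decay ha y, Hgen_aux m φ F hF R hR rep C decay a ha y⟩

theorem H_summable {m : ℕ} {f : (Fin (m + 1) → ℝ) → ℝ} {F : (Fin m → ℝ) → ℂ} (h : TestPair f F) (a : ℝ) (ha : 0 < a)
    (y : Fin m → ℝ) : Summable fun v : Fin m → ℤ => f (Fin.cons 0 fun i => y i + a * v i) := by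
  obtain ⟨C, _, hC⟩ := h.decay
  have h1 := (Hprod_summable (fun i v => (1 + (y i + a * v) ^ 2)⁻¹) (fun i v => by positivity)
    (fun i => Hsummable_shift (y i) a ha)).1
  exact Summable.of_norm_bounded (h1.mul_left C) (fun v => hC _)

theorem H_poisson {m : ℕ} {f : (Fin (m + 1) → ℝ) → ℝ} {F : (Fin m → ℝ) → ℂ} (h : TestPair f F) (a : ℝ) (ha : 0 < a)
    (y : Fin m → ℝ) : ∑' v : Fin m → ℤ, (f (Fin.cons 0 fun i => y i + a * v i) : ℂ) =
      (1 / (a : ℂ) ^ m) * ∑' k : Fin m → ℤ, F (fun i => k i / a) *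
        Complex.exp (2 * Real.pi * Complex.I * ∑ i, k i / a * y i) := by
  obtain ⟨C, _, hC⟩ := h.decay
  refine (H_gen (fun y => (f (Fin.cons 0 y) : ℂ)) F h.smooth.continuous 2 ?_ ?_ C ?_ a ha y).2
  · intro ξ hξ i
    have h1 := h.supp ξ hξ
    have h2 : |ξ i| ≤ ∑ i, |ξ i| :=
      Finset.single_le_sum (f := fun i => |ξ i|) (fun i _ => abs_nonneg _) (Finset.mem_univ i)
    have h3 := abs_nonneg (∑ i, ξ i)
    linarith
  · intro y
    rw [h.rep]
    simp
  · intro y
    rw [Complex.norm_real]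
    exact hC y

end Pool.Agent.H808R2.AH
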