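import Pool.Agent.H808R2.AH.Defs

/-! Task I: test functions give test pairs. -/

namespace Pool.Agent.H808R2.AH
open Finset Filter Topology MeasureTheory
open scoped FourierTransform RealInnerProductSpace SchwartzMap

/-- Fourier inversion in linear coordinates -/
lemma I_inversion {V : Type*} [NormedAddCommGroup V] [InnerProductSpace ℝ V] [FiniteDimensional ℝ V]
    [MeasurableSpace V] [BorelSpace V] {m : ℕ} (L : (Fin m → ℝ) ≃L[ℝ] V) (g : 𝓢(V, ℂ)) :
    ∃ c : ℝ, ∀ v : V, g v = ∫ ξ : Fin m → ℝ, ((c : ℂ) * (𝓕 g) (L ξ)) *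
      Complex.exp ((2 * Real.pi * ⟪L ξ, v⟫ : ℝ) * Complex.I) := by
  have hh : (Measure.map L (volume : Measure (Fin m → ℝ))).IsAddHaarMeasure :=
    L.isAddHaarMeasure_map volume
  set c := Measure.addHaarScalarFactor (volume : Measure V) (Measure.map L (volume : Measure (Fin m → ℝ))) with hc
  have hvol : (volume : Measure V) = c • Measure.map L (volume : Measure (Fin m → ℝ)) :=
    Measure.isAddLeftInvariant_eq_smul _ _
  have hem : MeasurableEmbedding L := L.toHomeomorph.measurableEmbedding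
  refine ⟨(c : ℝ), fun v => ?_⟩
  have h1 : g v = (𝓕⁻ (𝓕 g)) v := by rw [FourierTransform.fourierInv_fourier_eq]
  rw [h1, SchwartzMap.fourierInv_coe, Real.fourierInv_eq', hvol,
    integral_smul_nnreal_measure, hem.integral_map]
  rw [NNReal.smul_def, ← integral_smul]
  refine integral_congr_ae (Eventually.of_forall fun ξ => ?_)
  show ((c : ℝ) • (Complex.exp ((2 * Real.pi * ⟪L ξ, v⟫ : ℝ) * Complex.I) • (𝓕 g) (L ξ)) : ℂ) =
    ((c : ℝ) : ℂ) * (𝓕 g) (L ξ) * Complex.exp ((2 * Real.pi * ⟪L ξ, v⟫ : ℝ) * Complex.I)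
  rw [Complex.real_smul, smul_eq_mul]
  ring

lemma mem_Hyp {n : ℕ} (x : EuclideanSpace ℝ (Fin n)) : x ∈ Hyp n ↔ ∑ i, x i = 0 := by
  unfold Hyp coordSum
  rw [LinearMap.mem_ker, LinearMap.sum_apply]
  rfl

theorem schwartz_old {n : ℕ} {f : (Fin n → ℝ) → ℝ} (hf : IsTest f) :
    ∃ g : SchwartzMap (Hyp n) ℂ, (∀ h : Hyp n, g h = f (fun i => (h : EuclideanSpace ℝ (Fin n)) i)) ∧
    ∀ ξ : Hyp n, 2 ≤ ∑ i, |(ξ : EuclideanSpace ℝ (Fin n)) i| → 𝓕 (g : Hyp n → ℂ) ξ = 0 := hf.schwartz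

/-- the coordinates `ξ ↦ (-∑ ξ, ξ)` on the hyperplane -/
noncomputable def I_lin (m : ℕ) : (Fin m → ℝ) ≃ₗ[ℝ] Hyp (m + 1) where
  toFun ξ := ⟨WithLp.toLp 2 (Fin.cons (-∑ i, ξ i) ξ), by
    rw [mem_Hyp]
    simp [Fin.sum_univ_succ]⟩
  invFun h := fun i => (h : EuclideanSpace ℝ (Fin (m + 1))) i.succ
  map_add' a b := by
    apply Subtype.ext
    ext i
    refine Fin.cases ?_ (fun i => ?_) i
    · simp [Finset.sum_add_distrib]; ring
    · simp
  map_smul' c a := by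
    apply Subtype.ext
    ext i
    refine Fin.cases ?_ (fun i => ?_) i
    · simp [Finset.mul_sum]
    · simp
  left_inv ξ := by
    funext i
    simp
  right_inv h := by
    apply Subtype.ext
    ext i
    have hh : ∑ i, (h : EuclideanSpace ℝ (Fin (m + 1))) i = 0 := (mem_Hyp _).1 h.2
    rw [Fin.sum_univ_succ] at hh
    refine Fin.cases ?_ (fun i => ?_) i
    · simp; linarith
    · simp

noncomputable def I_cle (m : ℕ) : (Fin m → ℝ) ≃L[ℝ] Hyp (m + 1) := (I_lin m).toContinuousLinearEquiv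

lemma I_cle_zero (m : ℕ) (ξ : Fin m → ℝ) :
    ((I_cle m ξ : Hyp (m + 1)) : EuclideanSpace ℝ (Fin (m + 1))) 0 = -∑ i, ξ i := by
  show (WithLp.toLp 2 (Fin.cons (-∑ i, ξ i) ξ : Fin (m + 1) → ℝ) : EuclideanSpace ℝ (Fin (m + 1))) 0 = _
  simp

lemma I_cle_succ (m : ℕ) (ξ : Fin m → ℝ) (i : Fin m) :
    ((I_cle m ξ : Hyp (m + 1)) : EuclideanSpace ℝ (Fin (m + 1))) i.succ = ξ i := by
  show (WithLp.toLp 2 (Fin.cons (-∑ i, ξ i) ξ : Fin (m + 1) → ℝ) : EuclideanSpace ℝ (Fin (m + 1))) i.succ = _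
  simp

/-- mean of the coordinates -/
noncomputable def I_mean {m : ℕ} (x : Fin (m + 1) → ℝ) : ℝ := (∑ i, x i) / (m + 1)

/-- projection to the hyperplane -/
noncomputable def I_proj {m : ℕ} (x : Fin (m + 1) → ℝ) : Hyp (m + 1) :=
  ⟨WithLp.toLp 2 (fun i => x i - I_mean x), by
    rw [mem_Hyp]
    have : (m : ℝ) + 1 ≠ 0 := by positivity
    simp [Finset.sum_sub_distrib, I_mean]
    field_simp
    ring⟩

lemma I_proj_apply {m : ℕ} (x : Fin (m + 1) → ℝ) (i : Fin (m + 1)) :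
    ((I_proj x : Hyp (m + 1)) : EuclideanSpace ℝ (Fin (m + 1))) i = x i - I_mean x := rfl

lemma I_inner {m : ℕ} (ξ : Fin m → ℝ) (x : Fin (m + 1) → ℝ) :
    ⟪I_cle m ξ, I_proj x⟫ = ∑ i, ξ i * (x i.succ - x 0) := by
  rw [Submodule.coe_inner, PiLp.inner_apply, Fin.sum_univ_succ]
  simp only [I_cle_zero, I_cle_succ, I_proj_apply]
  simp only [RCLike.inner_apply, conj_trivial]
  simp only [mul_sub, Finset.sum_sub_distrib, Finset.sum_mul, neg_mul, mul_comm]
  ring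

lemma I_pow_bound (m : ℕ) {t : ℝ} (ht : 0 ≤ t) : (1 + t) ^ m ≤ 2 ^ m * (1 + t ^ m) := by
  rcases le_total t 1 with h | h
  · calc (1 + t) ^ m ≤ 2 ^ m := pow_le_pow_left₀ (by linarith) (by linarith) m
      _ = 2 ^ m * 1 := by ring
      _ ≤ 2 ^ m * (1 + t ^ m) := by
        apply mul_le_mul_of_nonneg_left _ (by positivity)
        have := pow_nonneg ht m
        linarith
  · calc (1 + t) ^ m ≤ (2 * t) ^ m := pow_le_pow_left₀ (by linarith) (by linarith) m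
      _ = 2 ^ m * t ^ m := by rw [mul_pow]
      _ ≤ 2 ^ m * (1 + t ^ m) := by
        apply mul_le_mul_of_nonneg_left _ (by positivity)
        linarith

/-- I -/
theorem I_test {m : ℕ} (hm : 1 ≤ m) {f : (Fin (m + 1) → ℝ) → ℝ} (hf : IsTest f) :
    ∃ F : (Fin m → ℝ) → ℂ, TestPair f F := by
  obtain ⟨g, hg, hs⟩ := schwartz_old hf
  obtain ⟨c, hc⟩ := I_inversion (I_cle m) g
  have hfg : ∀ x : Fin (m + 1) → ℝ, (f x : ℂ) = g (I_proj x) := by
    intro x
    rw [hg]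
    congr 1
    have := hf.inv x (-I_mean x)
    rw [← this]
    rfl
  refine ⟨fun ξ => (c : ℂ) * (𝓕 g) (I_cle m ξ), ?_⟩
  constructor
  · have h1 : ContDiff ℝ ((⊤ : ℕ∞) : WithTop ℕ∞) (𝓕 g : 𝓢(Hyp (m + 1), ℂ)) := (𝓕 g).smooth'
    exact contDiff_const.mul (h1.comp (I_cle m).contDiff)
  · intro ξ hξ
    by_contra hcon
    apply hξ
    have h2 : 2 ≤ ∑ i, |((I_cle m ξ : Hyp (m + 1)) : EuclideanSpace ℝ (Fin (m + 1))) i| := by
      rw [Fin.sum_univ_succ]
      simp only [I_cle_zero, I_cle_succ, abs_neg]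
      exact not_lt.1 hcon
    have h3 := hs _ h2
    rw [SchwartzMap.fourier_coe, h3, mul_zero]
  · intro x
    rw [hfg, hc]
    refine integral_congr_ae (Eventually.of_forall fun ξ => ?_)
    simp only
    rw [I_inner]
    congr 2
    push_cast
    ring
  · obtain ⟨C₀, hC₀⟩ := g.decay 0 0
    obtain ⟨C₁, hC₁⟩ := g.decay (2 * m) 0
    simp only [pow_zero, one_mul, norm_iteratedFDeriv_zero] at hC₀ hC₁
    have hb0 : 0 ≤ C₀ := hC₀.1.le
    have hb1 : 0 ≤ C₁ := hC₁.1.le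
    refine ⟨4 ^ m * 2 ^ m * (C₀ + C₁), by positivity, fun y => ?_⟩
    set x : Fin (m + 1) → ℝ := Fin.cons 0 y with hx
    set h := I_proj x with hh
    have hfx : |f x| = ‖g h‖ := by
      rw [hh, ← hfg]
      simp
    have hcoord : ∀ i, |((h : EuclideanSpace ℝ (Fin (m + 1))) i)| ≤ ‖h‖ := by
      intro i
      have := PiLp.norm_apply_le (h : EuclideanSpace ℝ (Fin (m + 1))) i
      simpa using this
    have hy : ∀ i, y i ^ 2 ≤ 4 * ‖h‖ ^ 2 := by
      intro i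
      have e : y i = (h : EuclideanSpace ℝ (Fin (m + 1))) i.succ -
          (h : EuclideanSpace ℝ (Fin (m + 1))) 0 := by
        rw [hh, I_proj_apply, I_proj_apply]
        simp [hx]
      have h1 := hcoord i.succ
      have h2 := hcoord 0
      have h3 : |y i| ≤ 2 * ‖h‖ := by
        rw [e]
        exact (abs_sub _ _).trans (by linarith)
      calc y i ^ 2 = |y i| ^ 2 := (sq_abs _).symm
        _ ≤ (2 * ‖h‖) ^ 2 := pow_le_pow_left₀ (abs_nonneg _) h3 2
        _ = 4 * ‖h‖ ^ 2 := by ring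
    have hprod : ∏ i, (1 + y i ^ 2) ≤ 4 ^ m * (2 ^ m * (1 + ‖h‖ ^ (2 * m))) := by
      calc ∏ i, (1 + y i ^ 2) ≤ ∏ _i : Fin m, (4 * (1 + ‖h‖ ^ 2)) := by
            refine Finset.prod_le_prod (fun i _ => by positivity) (fun i _ => ?_)
            have := hy i
            have h0 : 0 ≤ ‖h‖ ^ 2 := by positivity
            linarith
        _ = 4 ^ m * (1 + ‖h‖ ^ 2) ^ m := by
            rw [Finset.prod_const, Finset.card_univ, Fintype.card_fin, mul_pow]
        _ ≤ 4 ^ m * (2 ^ m * (1 + (‖h‖ ^ 2) ^ m)) :=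
            mul_le_mul_of_nonneg_left (I_pow_bound m (by positivity)) (by positivity)
        _ = _ := by rw [pow_mul]
    have hpos : 0 < ∏ i, (1 + y i ^ 2) := Finset.prod_pos fun i _ => by positivity
    have hkey : |f x| * ∏ i, (1 + y i ^ 2) ≤ 4 ^ m * 2 ^ m * (C₀ + C₁) := by
      rw [hfx]
      calc ‖g h‖ * ∏ i, (1 + y i ^ 2) ≤ ‖g h‖ * (4 ^ m * (2 ^ m * (1 + ‖h‖ ^ (2 * m)))) :=
            mul_le_mul_of_nonneg_left hprod (norm_nonneg _)
        _ = 4 ^ m * 2 ^ m * (‖g h‖ + ‖h‖ ^ (2 * m) * ‖g h‖) := by ring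
        _ ≤ 4 ^ m * 2 ^ m * (C₀ + C₁) := by
            apply mul_le_mul_of_nonneg_left _ (by positivity)
            exact add_le_add (hC₀.2 h) (hC₁.2 h)
    rw [Finset.prod_inv_distrib, ← div_eq_mul_inv, le_div_iff₀ hpos]
    exact hkey

end Pool.Agent.H808R2.AH
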