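import Pool.Agent.H808R2.AH.Defs

/-!
J1 (sampling): lattice sum = integral.  The statements `H0_inv` and `H_gen` are hypotheses
(`J1H0`, `J1HG`).
-/

namespace Pool.Agent.H808R2.AH
open Finset Filter Topology MeasureTheory
open scoped FourierTransform

/-- the statement of `H0_inv` -/
def J1H0 : Prop := ∀ (m : ℕ) (φ : (Fin m → ℝ) → ℂ) (F : (Fin m → ℝ) → ℂ) (_ : Continuous F) (R : ℝ)
    (_ : ∀ ξ, F ξ ≠ 0 → ∀ i, |ξ i| ≤ R)
    (_ : ∀ y, φ y = ∫ ξ : Fin m → ℝ, F ξ * Complex.exp (2 * Real.pi * Complex.I * ∑ i, ξ i * y i))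
    (C : ℝ) (_ : ∀ y, ‖φ y‖ ≤ C * ∏ i, (1 + (y i) ^ 2)⁻¹) (ω : Fin m → ℝ),
    Integrable φ ∧ ∫ y : Fin m → ℝ, φ y * Complex.exp (-(2 * Real.pi * Complex.I * ∑ i, ω i * y i)) = F ω

/-- the statement of `H_gen` -/
def J1HG : Prop := ∀ (m : ℕ) (φ : (Fin m → ℝ) → ℂ) (F : (Fin m → ℝ) → ℂ) (_ : Continuous F) (R : ℝ)
    (_ : ∀ ξ, F ξ ≠ 0 → ∀ i, |ξ i| ≤ R)
    (_ : ∀ y, φ y = ∫ ξ : Fin m → ℝ, F ξ * Complex.exp (2 * Real.pi * Complex.I * ∑ i, ξ i * y i))
    (C : ℝ) (_ : ∀ y, ‖φ y‖ ≤ C * ∏ i, (1 + (y i) ^ 2)⁻¹) (a : ℝ) (_ : 0 < a) (y : Fin m → ℝ),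
    (Summable fun v : Fin m → ℤ => φ (fun i => y i + a * v i)) ∧
    ∑' v : Fin m → ℤ, φ (fun i => y i + a * v i) =
      (1 / (a : ℂ) ^ m) * ∑' k : Fin m → ℤ, F (fun i => k i / a) *
        Complex.exp (2 * Real.pi * Complex.I * ∑ i, k i / a * y i)

/-- `e(t)` -/
noncomputable def J1e (t : ℝ) : ℂ := Complex.exp (2 * Real.pi * Complex.I * t)

theorem J1e_norm (t : ℝ) : ‖J1e t‖ = 1 := by
  unfold J1e
  have : (2 * Real.pi * Complex.I * t : ℂ) = ((2 * Real.pi * t : ℝ) : ℂ) * Complex.I := by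
    push_cast; ring
  rw [this]
  exact Complex.norm_exp_ofReal_mul_I _

theorem J1e_add (s t : ℝ) : J1e (s + t) = J1e s * J1e t := by
  unfold J1e
  rw [← Complex.exp_add]
  congr 1
  push_cast; ring

theorem J1e_zero : J1e 0 = 1 := by simp [J1e]

theorem J1e_sum {ι : Type*} (s : Finset ι) (f : ι → ℝ) : J1e (∑ i ∈ s, f i) = ∏ i ∈ s, J1e (f i) := by
  classical
  induction s using Finset.induction_on with
  | empty => simp [J1e_zero]
  | insert a s ha ih => rw [Finset.sum_insert ha, Finset.prod_insert ha, J1e_add, ih]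

theorem J1e_cont : Continuous J1e := by
  unfold J1e
  fun_prop

theorem J1e_dot {m : ℕ} (ξ y : Fin m → ℝ) :
    Complex.exp (2 * Real.pi * Complex.I * ∑ i, ξ i * y i) = J1e (∑ i, ξ i * y i) := by
  unfold J1e
  push_cast
  rfl

theorem J1e_neg {m : ℕ} (ω y : Fin m → ℝ) :
    Complex.exp (-(2 * Real.pi * Complex.I * ∑ i, ((-ω) i : ℝ) * y i)) = J1e (∑ i, ω i * y i) := by
  unfold J1e
  congr 1
  push_cast
  simp

/-- the cube -/
def J1cube (n : ℕ) : Set (Fin n → ℝ) := Set.pi Set.univ fun _ => Set.Icc (-1/2 : ℝ) (1/2)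

theorem J1cube_meas (n : ℕ) : MeasurableSet (J1cube n) :=
  MeasurableSet.univ_pi fun _ => measurableSet_Icc

/-- Lebesgue measure on the cube -/
noncomputable def J1mu (n : ℕ) : Measure (Fin n → ℝ) := volume.restrict (J1cube n)

theorem J1mu_eq (n : ℕ) : J1mu n =
    Measure.pi (fun _ : Fin n => (volume : Measure ℝ).restrict (Set.Icc (-1/2 : ℝ) (1/2))) := by
  unfold J1mu J1cube
  rw [volume_pi, Measure.restrict_pi_pi]

instance J1mu_fin (n : ℕ) : IsFiniteMeasure (J1mu n) := by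
  rw [J1mu_eq]
  infer_instance

theorem J1_S (x : ℝ) : ((S x : ℝ) : ℂ) = ∫ θ in Set.Icc (-1/2 : ℝ) (1/2), J1e (θ * x) := by
  rw [integral_Icc_eq_integral_Ioc, ← intervalIntegral.integral_of_le (by norm_num)]
  unfold S
  by_cases hx : x = 0
  · subst hx
    simp [J1e_zero]
    norm_num
  · have hpx : Real.pi * x ≠ 0 := mul_ne_zero Real.pi_ne_zero hx
    rw [Real.sinc_of_ne_zero hpx]
    have hc : (2 * Real.pi * Complex.I * x : ℂ) ≠ 0 := by
      simp [Real.pi_ne_zero, hx]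
    have h1 : (fun θ : ℝ => J1e (θ * x)) = fun θ : ℝ => Complex.exp ((2 * Real.pi * Complex.I * x) * θ) := by
      funext θ
      unfold J1e
      congr 1
      push_cast; ring
    rw [h1, integral_exp_mul_complex hc]
    push_cast
    rw [Complex.sin]
    have e1 : (2 * Real.pi * Complex.I * x * (1 / 2) : ℂ) = (Real.pi * x) * Complex.I := by ring
    have e2 : (2 * Real.pi * Complex.I * x * (-1 / 2) : ℂ) = -(Real.pi * x) * Complex.I := by ring
    rw [e1, e2]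
    have hx' : (x : ℂ) ≠ 0 := by exact_mod_cast hx
    have hpi : (Real.pi : ℂ) ≠ 0 := by exact_mod_cast Real.pi_ne_zero
    field_simp
    rw [Complex.I_sq]
    ring

theorem J1_W {n : ℕ} (x : Fin n → ℝ) :
    ((W x : ℝ) : ℂ) = ∑ σ : Equiv.Perm (Fin n), ((Equiv.Perm.sign σ : ℤ) : ℂ) *
      ∫ θ, J1e (∑ i, (θ (σ⁻¹ i) - θ i) * x i) ∂(J1mu n) := by
  unfold W
  rw [Matrix.det_apply']
  push_cast
  refine Finset.sum_congr rfl fun σ _ => ?_
  congr 1
  have h1 : ∀ i, ((Matrix.of (fun i k : Fin n => S (x i - x k)) (σ i) i : ℝ) : ℂ) =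
      ∫ θ in Set.Icc (-1/2 : ℝ) (1/2), J1e (θ * (x (σ i) - x i)) := fun i => J1_S _
  rw [Finset.prod_congr rfl fun i _ => h1 i, J1mu_eq,
    ← integral_fintype_prod_eq_prod (fun i (θ : ℝ) => J1e (θ * (x (σ i) - x i)))]
  refine integral_congr_ae (Eventually.of_forall fun θ => ?_)
  simp only
  rw [← J1e_sum]
  congr 1
  have h2 : ∑ i, θ i * (x (σ i) - x i) = ∑ i, θ i * x (σ i) - ∑ i, θ i * x i := by
    rw [← Finset.sum_sub_distrib]
    exact Finset.sum_congr rfl fun i _ => by ring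
  have h3 : ∑ i, θ i * x (σ i) = ∑ i, θ (σ⁻¹ i) * x i := by
    rw [← Equiv.sum_comp σ fun i => θ (σ⁻¹ i) * x i]
    simp
  rw [h2, h3, ← Finset.sum_sub_distrib]
  exact Finset.sum_congr rfl fun i _ => by ring

/-- the frequency vector -/
def J1om {m : ℕ} (σ : Equiv.Perm (Fin (m + 1))) (θ : Fin (m + 1) → ℝ) (i : Fin m) : ℝ :=
  θ (σ⁻¹ i.succ) - θ i.succ

theorem J1_Wc {m : ℕ} (y : Fin m → ℝ) :
    ((W (Fin.cons 0 y : Fin (m + 1) → ℝ) : ℝ) : ℂ) =
    ∑ σ : Equiv.Perm (Fin (m + 1)), ((Equiv.Perm.sign σ : ℤ) : ℂ) *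
      ∫ θ, J1e (∑ i, J1om σ θ i * y i) ∂(J1mu (m + 1)) := by
  rw [J1_W]
  refine Finset.sum_congr rfl fun σ _ => ?_
  congr 1
  refine integral_congr_ae (Eventually.of_forall fun θ => ?_)
  simp only
  congr 1
  rw [Fin.sum_univ_succ]
  simp [J1om]

theorem J1om_le {m : ℕ} (σ : Equiv.Perm (Fin (m + 1))) {θ : Fin (m + 1) → ℝ}
    (hθ : θ ∈ J1cube (m + 1)) (i : Fin m) : |J1om σ θ i| ≤ 1 := by
  unfold J1om
  have h1 := hθ (σ⁻¹ i.succ) (Set.mem_univ _)
  have h2 := hθ i.succ (Set.mem_univ _)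
  rw [Set.mem_Icc] at h1 h2
  rw [abs_le]
  constructor <;> linarith [h1.1, h1.2, h2.1, h2.2]

theorem J1om_cont {m : ℕ} (σ : Equiv.Perm (Fin (m + 1))) (i : Fin m) :
    Continuous fun θ => J1om σ θ i := by
  unfold J1om
  fun_prop

theorem J1_supp {m : ℕ} {ξ : Fin m → ℝ} (h : |∑ i, ξ i| + ∑ i, |ξ i| < 2) (i : Fin m) :
    |ξ i| < 1 := by
  have h1 : ∑ j, |ξ j| = |ξ i| + ∑ j ∈ univ.erase i, |ξ j| := by
    rw [Finset.add_sum_erase univ (fun j => |ξ j|) (mem_univ i)]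
  have h2 : ξ i = ∑ j, ξ j - ∑ j ∈ univ.erase i, ξ j := by
    rw [← Finset.add_sum_erase univ (fun j => ξ j) (mem_univ i)]
    ring
  have h3 : |ξ i| ≤ |∑ j, ξ j| + ∑ j ∈ univ.erase i, |ξ j| := by
    calc |ξ i| = |∑ j, ξ j - ∑ j ∈ univ.erase i, ξ j| := by rw [← h2]
      _ ≤ |∑ j, ξ j| + |∑ j ∈ univ.erase i, ξ j| := abs_sub _ _
      _ ≤ _ := by
        gcongr
        exact Finset.abs_sum_le_sum_abs _ _
  linarith

section main
variable {m : ℕ} {f : (Fin (m + 1) → ℝ) → ℝ} {F : (Fin m → ℝ) → ℂ}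

theorem J1_rep (h : TestPair f F) (y : Fin m → ℝ) :
    ((f (Fin.cons 0 y) : ℝ) : ℂ) = ∫ ξ : Fin m → ℝ, F ξ * J1e (∑ i, ξ i * y i) := by
  rw [h.rep]
  refine integral_congr_ae (Eventually.of_forall fun ξ => ?_)
  simp only
  rw [← J1e_dot]
  simp

theorem J1_bd (h : TestPair f F) {ξ : Fin m → ℝ} (hξ : F ξ ≠ 0) (i : Fin m) : |ξ i| < 1 :=
  J1_supp (h.supp ξ hξ) i

/-- inversion -/
theorem J1_C2 (H0 : J1H0) (h : TestPair f F) (ω : Fin m → ℝ) :
    Integrable (fun y : Fin m → ℝ => ((f (Fin.cons 0 y) : ℝ) : ℂ)) ∧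
    ∫ y : Fin m → ℝ, ((f (Fin.cons 0 y) : ℝ) : ℂ) * J1e (∑ i, ω i * y i) = F (-ω) := by
  obtain ⟨C, _, hC⟩ := h.decay
  obtain ⟨h1, h2⟩ := H0 m (fun y => ((f (Fin.cons 0 y) : ℝ) : ℂ)) F h.smooth.continuous 1
    (fun ξ hξ i => (J1_bd h hξ i).le) (fun y => by
      rw [J1_rep h y]
      refine integral_congr_ae (Eventually.of_forall fun ξ => ?_)
      simp only
      rw [J1e_dot]) C (fun y => by
      rw [Complex.norm_real]
      exact hC y) (-ω)
  refine ⟨h1, ?_⟩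
  rw [← h2]
  refine integral_congr_ae (Eventually.of_forall fun y => ?_)
  simp only
  rw [← J1e_neg]

/-- Poisson summation -/
theorem J1_C1 (HG : J1HG) (h : TestPair f F) (ω : Fin m → ℝ) (hω : ∀ i, |ω i| ≤ 1) :
    ∑' v : Fin m → ℤ, ((fval f v : ℝ) : ℂ) * J1e (∑ i, ω i * ((v i : ℝ) / 2)) =
      (2 : ℂ) ^ m * F (-ω) := by
  obtain ⟨C, _, hC⟩ := h.decay
  obtain ⟨_, h2⟩ := HG m (fun y => ((f (Fin.cons 0 y) : ℝ) : ℂ) * J1e (∑ i, ω i * y i))
    (fun ξ => F (ξ - ω)) (h.smooth.continuous.comp (continuous_id.sub continuous_const)) 2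
    (fun ξ hξ i => by
      have h3 := (J1_bd h hξ i).le
      have h4 := hω i
      rw [Pi.sub_apply] at h3
      have : |ξ i| ≤ |ξ i - ω i| + |ω i| := by
        calc |ξ i| = |(ξ i - ω i) + ω i| := by ring_nf
          _ ≤ _ := abs_add_le _ _
      linarith) (fun y => by
      rw [J1_rep h y, ← integral_mul_const]
      rw [← integral_sub_right_eq_self (fun ξ : Fin m → ℝ =>
        F ξ * J1e (∑ i, ξ i * y i) * J1e (∑ i, ω i * y i)) ω]
      refine integral_congr_ae (Eventually.of_forall fun ξ => ?_)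
      simp only
      rw [J1e_dot, mul_assoc, ← J1e_add, ← Finset.sum_add_distrib]
      congr 2
      refine Finset.sum_congr rfl fun i _ => ?_
      rw [Pi.sub_apply]
      ring) C (fun y => by
      rw [norm_mul, J1e_norm, mul_one, Complex.norm_real]
      exact hC y) (1 / 2) (by norm_num) 0
  have h5 : ∀ v : Fin m → ℤ, ((fval f v : ℝ) : ℂ) * J1e (∑ i, ω i * ((v i : ℝ) / 2)) =
      ((f (Fin.cons 0 fun i => (0 : Fin m → ℝ) i + 1 / 2 * (v i : ℝ)) : ℝ) : ℂ) *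
        J1e (∑ i, ω i * ((0 : Fin m → ℝ) i + 1 / 2 * (v i : ℝ))) := by
    intro v
    have : (fun i => (0 : Fin m → ℝ) i + 1 / 2 * (v i : ℝ)) = fun i => (v i : ℝ) / 2 := by
      funext i
      simp
      ring
    have h' : ∀ i, (0 : Fin m → ℝ) i + 1 / 2 * (v i : ℝ) = (v i : ℝ) / 2 := fun i => congrFun this i
    unfold fval
    rw [this]
    simp only [h']
  rw [tsum_congr h5, h2, tsum_eq_single (0 : Fin m → ℤ)]
  · have h6 : ((fun i => (((0 : Fin m → ℤ) i : ℤ) : ℝ) / (1 / 2)) - ω) = -ω := by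
      funext i
      simp
    rw [h6]
    have h7 : Complex.exp (2 * Real.pi * Complex.I *
        ((∑ i : Fin m, (((0 : Fin m → ℤ) i : ℤ) : ℝ) / (1 / 2) * (0 : Fin m → ℝ) i : ℝ) : ℂ)) = 1 := by
      simp
    rw [h7, mul_one]
    congr 1
    push_cast
    simp
  · intro k hk
    have : F ((fun i => ((k i : ℤ) : ℝ) / (1 / 2)) - ω) = 0 := by
      by_contra hne
      apply hk
      funext i
      have h3 := J1_bd h hne i
      have h4 := hω i
      rw [Pi.sub_apply] at h3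
      have h8 : |((k i : ℤ) : ℝ) / (1 / 2)| < 2 := by
        have : |((k i : ℤ) : ℝ) / (1 / 2)| ≤ |((k i : ℤ) : ℝ) / (1 / 2) - ω i| + |ω i| := by
          calc |((k i : ℤ) : ℝ) / (1 / 2)| = |(((k i : ℤ) : ℝ) / (1 / 2) - ω i) + ω i| := by ring_nf
            _ ≤ _ := abs_add_le _ _
        linarith
      rw [abs_lt] at h8
      have h9 : ((k i : ℤ) : ℝ) < 1 := by linarith [h8.2]
      have h10 : -1 < ((k i : ℤ) : ℝ) := by linarith [h8.1]
      have h11 : k i < 1 := by exact_mod_cast h9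
      have h12 : -1 < k i := by exact_mod_cast h10
      show k i = 0
      omega
    rw [this, zero_mul]

theorem J1_sum (HG : J1HG) (h : TestPair f F) :
    Summable fun z : Fin m → ℤ => |fval f z| := by
  obtain ⟨C, _, hC⟩ := h.decay
  obtain ⟨h1, _⟩ := HG m (fun y => ((f (Fin.cons 0 y) : ℝ) : ℂ))
    F h.smooth.continuous 1
    (fun ξ hξ i => (J1_bd h hξ i).le) (fun y => by
      rw [J1_rep h y]
      refine integral_congr_ae (Eventually.of_forall fun ξ => ?_)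
      simp only
      rw [J1e_dot]) C (fun y => by
      rw [Complex.norm_real]
      exact hC y) (1 / 2) (by norm_num) 0
  refine h1.norm.congr fun v => ?_
  rw [Complex.norm_real, Real.norm_eq_abs]
  unfold fval
  congr 3
  funext i
  simp
  ring

theorem J1_sampling_of (H0 : J1H0) (HG : J1HG) (h : TestPair f F) :
    (1 / 2 : ℝ) ^ m * ∑' z : Fin m → ℤ, fval f z * W (Fin.cons 0 fun i => (z i : ℝ) / 2) =
      ∫ y : Fin m → ℝ, f (Fin.cons 0 y) * W (Fin.cons 0 y) := by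
  have hs := J1_sum HG h
  have hint := (J1_C2 H0 h 0).1
  -- the lattice side
  have hL : ∀ σ : Equiv.Perm (Fin (m + 1)),
      HasSum (fun z : Fin m → ℤ => ((fval f z : ℝ) : ℂ) *
        ∫ θ, J1e (∑ i, J1om σ θ i * ((z i : ℝ) / 2)) ∂(J1mu (m + 1)))
        (∫ θ, (2 : ℂ) ^ m * F (-(J1om σ θ)) ∂(J1mu (m + 1))) := by
    intro σ
    have hi : ∀ z : Fin m → ℤ, Integrable (fun θ => ((fval f z : ℝ) : ℂ) *
        J1e (∑ i, J1om σ θ i * ((z i : ℝ) / 2))) (J1mu (m + 1)) := by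
      intro z
      refine Integrable.of_bound ?_ |fval f z| (Eventually.of_forall fun θ => ?_)
      · apply Continuous.aestronglyMeasurable
        refine continuous_const.mul (J1e_cont.comp (continuous_finsetSum _ fun i _ => ?_))
        exact (J1om_cont σ i).mul continuous_const
      · rw [norm_mul, J1e_norm, mul_one, Complex.norm_real, Real.norm_eq_abs]
    have hsm : Summable fun z : Fin m → ℤ => ∫ θ, ‖((fval f z : ℝ) : ℂ) *
        J1e (∑ i, J1om σ θ i * ((z i : ℝ) / 2))‖ ∂(J1mu (m + 1)) := by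
      have : ∀ z : Fin m → ℤ, (∫ θ, ‖((fval f z : ℝ) : ℂ) *
        J1e (∑ i, J1om σ θ i * ((z i : ℝ) / 2))‖ ∂(J1mu (m + 1))) =
          (J1mu (m + 1)).real Set.univ * |fval f z| := by
        intro z
        simp only [norm_mul, J1e_norm, mul_one, Complex.norm_real, Real.norm_eq_abs]
        rw [integral_const, smul_eq_mul]
      rw [funext this]
      exact hs.mul_left _
    have := hasSum_integral_of_summable_integral_norm hi hsm
    have e1 : (fun z : Fin m → ℤ => ∫ θ, ((fval f z : ℝ) : ℂ) *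
        J1e (∑ i, J1om σ θ i * ((z i : ℝ) / 2)) ∂(J1mu (m + 1))) =
        fun z => ((fval f z : ℝ) : ℂ) *
        ∫ θ, J1e (∑ i, J1om σ θ i * ((z i : ℝ) / 2)) ∂(J1mu (m + 1)) := by
      funext z
      rw [integral_const_mul]
    have e2 : (∫ θ, (2 : ℂ) ^ m * F (-(J1om σ θ)) ∂(J1mu (m + 1))) =
        ∫ θ, (∑' z : Fin m → ℤ, ((fval f z : ℝ) : ℂ) *
          J1e (∑ i, J1om σ θ i * ((z i : ℝ) / 2))) ∂(J1mu (m + 1)) := by
      unfold J1mu
      refine setIntegral_congr_fun (J1cube_meas _) fun θ hθ => ?_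
      exact (J1_C1 HG h (J1om σ θ) (J1om_le σ hθ)).symm
    rw [e1] at this
    rw [e2]
    exact this
  have hL2 : HasSum (fun z : Fin m → ℤ => ((fval f z * W (Fin.cons 0 fun i => (z i : ℝ) / 2) : ℝ) : ℂ))
      (∑ σ : Equiv.Perm (Fin (m + 1)), ((Equiv.Perm.sign σ : ℤ) : ℂ) *
        ∫ θ, (2 : ℂ) ^ m * F (-(J1om σ θ)) ∂(J1mu (m + 1))) := by
    have h1 := hasSum_sum (s := (univ : Finset (Equiv.Perm (Fin (m + 1)))))
      fun σ _ => (hL σ).mul_left ((Equiv.Perm.sign σ : ℤ) : ℂ)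
    have e1 : (fun z : Fin m → ℤ => ((fval f z * W (Fin.cons 0 fun i => (z i : ℝ) / 2) : ℝ) : ℂ)) =
        fun z => ∑ σ : Equiv.Perm (Fin (m + 1)), ((Equiv.Perm.sign σ : ℤ) : ℂ) *
          (((fval f z : ℝ) : ℂ) * ∫ θ, J1e (∑ i, J1om σ θ i * ((z i : ℝ) / 2)) ∂(J1mu (m + 1))) := by
      funext z
      push_cast
      rw [J1_Wc, Finset.mul_sum]
      refine Finset.sum_congr rfl fun σ _ => ?_
      ring
    rw [e1]
    exact h1
  -- the integral side
  have hR : ∀ σ : Equiv.Perm (Fin (m + 1)),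
      Integrable (fun y : Fin m → ℝ => ((f (Fin.cons 0 y) : ℝ) : ℂ) *
        ∫ θ, J1e (∑ i, J1om σ θ i * y i) ∂(J1mu (m + 1))) ∧
      ∫ y : Fin m → ℝ, ((f (Fin.cons 0 y) : ℝ) : ℂ) *
        ∫ θ, J1e (∑ i, J1om σ θ i * y i) ∂(J1mu (m + 1)) =
        ∫ θ, F (-(J1om σ θ)) ∂(J1mu (m + 1)) := by
    intro σ
    have hI : Integrable (Function.uncurry fun (y : Fin m → ℝ) (θ : Fin (m + 1) → ℝ) =>
        ((f (Fin.cons 0 y) : ℝ) : ℂ) * J1e (∑ i, J1om σ θ i * y i))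
        ((volume : Measure (Fin m → ℝ)).prod (J1mu (m + 1))) := by
      have h1 : Integrable (fun p : (Fin m → ℝ) × (Fin (m + 1) → ℝ) =>
          ((f (Fin.cons 0 p.1) : ℝ) : ℂ)) ((volume : Measure (Fin m → ℝ)).prod (J1mu (m + 1))) :=
        hint.comp_fst _
      have h2 : Continuous (fun p : (Fin m → ℝ) × (Fin (m + 1) → ℝ) =>
          J1e (∑ i, J1om σ p.2 i * p.1 i)) := by
        refine J1e_cont.comp (continuous_finsetSum _ fun i _ => ?_)
        exact ((J1om_cont σ i).comp continuous_snd).mul ((continuous_apply i).comp continuous_fst)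
      exact h1.mul_bdd (c := 1) h2.aestronglyMeasurable
        (Eventually.of_forall fun p => (J1e_norm _).le)
    refine ⟨?_, ?_⟩
    · have := hI.integral_prod_left
      refine this.congr (Eventually.of_forall fun y => ?_)
      simp only [Function.uncurry_apply_pair]
      rw [integral_const_mul]
    · have e1 : ∀ y : Fin m → ℝ, ((f (Fin.cons 0 y) : ℝ) : ℂ) *
          ∫ θ, J1e (∑ i, J1om σ θ i * y i) ∂(J1mu (m + 1)) =
          ∫ θ, ((f (Fin.cons 0 y) : ℝ) : ℂ) * J1e (∑ i, J1om σ θ i * y i) ∂(J1mu (m + 1)) := by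
        intro y
        rw [integral_const_mul]
      rw [integral_congr_ae (Eventually.of_forall e1), integral_integral_swap hI]
      refine integral_congr_ae (Eventually.of_forall fun θ => ?_)
      simp only
      exact (J1_C2 H0 h (J1om σ θ)).2
  have hR2 : ((∫ y : Fin m → ℝ, f (Fin.cons 0 y) * W (Fin.cons 0 y) : ℝ) : ℂ) =
      ∑ σ : Equiv.Perm (Fin (m + 1)), ((Equiv.Perm.sign σ : ℤ) : ℂ) *
        ∫ θ, F (-(J1om σ θ)) ∂(J1mu (m + 1)) := by
    rw [← integral_complex_ofReal]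
    have e1 : ∀ y : Fin m → ℝ, ((f (Fin.cons 0 y) * W (Fin.cons 0 y : Fin (m + 1) → ℝ) : ℝ) : ℂ) =
        ∑ σ : Equiv.Perm (Fin (m + 1)), ((Equiv.Perm.sign σ : ℤ) : ℂ) *
          (((f (Fin.cons 0 y) : ℝ) : ℂ) * ∫ θ, J1e (∑ i, J1om σ θ i * y i) ∂(J1mu (m + 1))) := by
      intro y
      push_cast
      rw [J1_Wc, Finset.mul_sum]
      refine Finset.sum_congr rfl fun σ _ => ?_
      ring
    rw [integral_congr_ae (Eventually.of_forall e1), integral_finsetSum]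
    · refine Finset.sum_congr rfl fun σ _ => ?_
      rw [integral_const_mul, (hR σ).2]
    · intro σ _
      exact (hR σ).1.const_mul _
  -- conclusion
  apply Complex.ofReal_injective
  rw [hR2]
  push_cast
  have h3 := hL2.tsum_eq
  push_cast at h3
  rw [h3, Finset.mul_sum]
  refine Finset.sum_congr rfl fun σ _ => ?_
  rw [integral_const_mul]
  have h4 : ((1 / 2 : ℂ)) ^ m * (2 : ℂ) ^ m = 1 := by
    rw [← mul_pow]
    norm_num
  calc (1 / 2 : ℂ) ^ m * (((Equiv.Perm.sign σ : ℤ) : ℂ) * ((2 : ℂ) ^ m *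
        ∫ θ, F (-(J1om σ θ)) ∂(J1mu (m + 1)))) =
        ((1 / 2 : ℂ) ^ m * (2 : ℂ) ^ m) * (((Equiv.Perm.sign σ : ℤ) : ℂ) *
        ∫ θ, F (-(J1om σ θ)) ∂(J1mu (m + 1))) := by ring
    _ = _ := by rw [h4, one_mul]

end main

end Pool.Agent.H808R2.AH
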