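import Mathlib
import Pool.Agent.H808R2.AH.Defs

/-!
J0: limits and bounds of the ring kernel.
-/

namespace Pool.Agent.H808R2.AH
open Finset Filter Topology MeasureTheory
open scoped FourierTransform

/-- the character on the site at position `t` -/
theorem ch_site (N : ℕ) [NeZero N] (k t : ℤ) :
    ch N k (site N t) = Complex.exp (Real.pi * Complex.I * (k * t) / N) := by
  have hN : (N : ℂ) ≠ 0 := by exact_mod_cast NeZero.ne N
  unfold ch site zeta
  simp only
  rw [← Int.cast_mul, ZMod.stdAddChar_coe]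
  rcases Int.emod_two_eq_zero_or_one t with h | h
  · have ht : (t : ℂ) = 2 * ((t / 2 : ℤ) : ℂ) := by
      have : t = 2 * (t / 2) := by omega
      exact_mod_cast this
    rw [h]
    simp only [zero_ne_one, decide_false, cond_false, one_mul]
    congr 1
    conv_rhs => rw [ht]
    push_cast
    field_simp
  · have ht : (t : ℂ) = 2 * ((t / 2 : ℤ) : ℂ) + 1 := by
      have : t = 2 * (t / 2) + 1 := by omega
      exact_mod_cast this
    rw [h]
    simp only [decide_true, cond_true]
    rw [← Complex.exp_int_mul, ← Complex.exp_add]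
    congr 1
    conv_rhs => rw [ht]
    push_cast
    field_simp
    ring

theorem norm_ch (N : ℕ) [NeZero N] (k : ℤ) (s : Site N) : ‖ch N k s‖ = 1 := by
  unfold ch
  have h2 : ‖(ZMod.stdAddChar ((k : ZMod N) * s.2) : ℂ)‖ = 1 := by
    rw [ZMod.stdAddChar_apply]
    exact Circle.norm_coe _
  have h1 : ‖(bif s.1 then zeta N ^ k else 1 : ℂ)‖ = 1 := by
    cases s.1
    · simp
    · simp only [cond_true]
      rw [norm_zpow]
      unfold zeta
      have : (Real.pi * Complex.I / N : ℂ) = ((Real.pi / N : ℝ) : ℂ) * Complex.I := by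
        push_cast; ring
      rw [this, Complex.norm_exp_ofReal_mul_I, one_zpow]
  rw [norm_mul, h1, h2, one_mul]

theorem norm_ker_le (N : ℕ) [NeZero N] (p q : Site N) : ‖ker N p q‖ ≤ 1 / 2 := by
  have hN : (N : ℝ) ≠ 0 := by exact_mod_cast NeZero.ne N
  have hN' : (0 : ℝ) < N := by positivity
  unfold ker
  rw [norm_mul]
  have h1 : ‖∑ a : Fin N, ch N ((a : ℕ) : ℤ) p * (starRingEnd ℂ) (ch N ((a : ℕ) : ℤ) q)‖ ≤ N := by
    refine (norm_sum_le _ _).trans ?_
    have : ∀ a ∈ (univ : Finset (Fin N)),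
        ‖ch N ((a : ℕ) : ℤ) p * (starRingEnd ℂ) (ch N ((a : ℕ) : ℤ) q)‖ = 1 := by
      intro a _
      rw [norm_mul, RCLike.norm_conj, norm_ch, norm_ch, one_mul]
    rw [sum_congr rfl this]
    simp
  have h2 : ‖(1 / (2 * N : ℂ))‖ = 1 / (2 * N) := by
    rw [norm_div, norm_mul]
    simp
  rw [h2]
  calc 1 / (2 * (N : ℝ)) * _ ≤ 1 / (2 * (N : ℝ)) * N := by gcongr
    _ = 1 / 2 := by field_simp

/-- J0 -/
theorem J0_bound (N : ℕ) [NeZero N] {n : ℕ} (p : Fin n → Site N) :
    ‖(Matrix.of fun i k : Fin n => ker N (p i) (p k)).det‖ ≤ n.factorial := by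
  rw [Matrix.det_apply]
  refine (norm_sum_le _ _).trans ?_
  have : ∀ σ ∈ (univ : Finset (Equiv.Perm (Fin n))),
      ‖Equiv.Perm.sign σ • ∏ i, (Matrix.of fun i k : Fin n => ker N (p i) (p k)) (σ i) i‖ ≤ 1 := by
    intro σ _
    have h1 : ‖Equiv.Perm.sign σ • ∏ i, (Matrix.of fun i k : Fin n => ker N (p i) (p k)) (σ i) i‖ =
        ‖∏ i, (Matrix.of fun i k : Fin n => ker N (p i) (p k)) (σ i) i‖ := by
      rcases Int.units_eq_one_or (Equiv.Perm.sign σ) with h | h <;> rw [h] <;> simp
    rw [h1, norm_prod]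
    refine prod_le_one (fun i _ => norm_nonneg _) (fun i _ => ?_)
    refine (norm_ker_le N _ _).trans (by norm_num)
  refine (sum_le_sum this).trans ?_
  simp [Fintype.card_perm]

/-- the kernel in closed form -/
theorem ker_site (N : ℕ) [NeZero N] (u v : ℤ) :
    ker N (site N u) (site N v) = (1 / (2 * N : ℂ)) *
      ∑ a ∈ range N, Complex.exp (Real.pi * Complex.I * ((u - v : ℤ) : ℂ) / N) ^ a := by
  unfold ker
  congr 1
  rw [Finset.sum_range]
  refine sum_congr rfl fun a _ => ?_
  rw [ch_site, ch_site, ← Complex.exp_conj, ← Complex.exp_add, ← Complex.exp_nat_mul]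
  congr 1
  simp only [map_div₀, map_mul, Complex.conj_ofReal, Complex.conj_I, map_intCast, map_natCast]
  push_cast
  ring

theorem J0_shift (N : ℕ) [NeZero N] {n : ℕ} (u : Fin n → ℤ) (t : ℤ) :
    (Matrix.of fun i k : Fin n => ker N (site N (u i + t)) (site N (u k + t))).det =
      (Matrix.of fun i k : Fin n => ker N (site N (u i)) (site N (u k))).det := by
  congr 2
  funext i k
  rw [ker_site, ker_site]
  congr 4
  simp

/-- limit of one entry -/
theorem ker_limit (u v : ℤ) :
    Tendsto (fun N : ℕ => ker (N + 1) (site (N + 1) u) (site (N + 1) v)) atTop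
      (𝓝 ((1 / 2 : ℂ) * (Complex.exp (Real.pi * Complex.I * ((u - v : ℤ) : ℂ) / 2) *
        ((S (((u - v : ℤ) : ℝ) / 2) : ℝ) : ℂ)))) := by
  set w : ℤ := u - v with hw
  have hfun : (fun N : ℕ => ker (N + 1) (site (N + 1) u) (site (N + 1) v)) =
      fun N : ℕ => (1 / (2 * ((N + 1 : ℕ) : ℂ))) *
        ∑ a ∈ range (N + 1), Complex.exp (Real.pi * Complex.I * (w : ℂ) / ((N + 1 : ℕ) : ℂ)) ^ a := by
    funext N
    rw [ker_site]
  rw [hfun]
  by_cases h0 : w = 0
  · rw [h0]
    have hc : ((1 / 2 : ℂ) * (Complex.exp (Real.pi * Complex.I * ((0 : ℤ) : ℂ) / 2) *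
        ((S (((0 : ℤ) : ℝ) / 2) : ℝ) : ℂ))) = 1 / 2 := by
      simp [S]
    rw [hc]
    refine (tendsto_congr ?_).mpr tendsto_const_nhds
    intro N
    have hN : ((N + 1 : ℕ) : ℂ) ≠ 0 := by exact_mod_cast Nat.succ_ne_zero N
    have : Complex.exp (Real.pi * Complex.I * ((0 : ℤ) : ℂ) / ((N + 1 : ℕ) : ℂ)) = 1 := by simp
    rw [this]
    simp only [one_pow, sum_const, card_range, nsmul_eq_mul, mul_one]
    field_simp
  · set c : ℂ := Real.pi * Complex.I * (w : ℂ) with hcdef
    have hc0 : c ≠ 0 := by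
      rw [hcdef]
      have h1 : (Real.pi : ℂ) ≠ 0 := by exact_mod_cast Real.pi_ne_zero
      have h2 : (w : ℂ) ≠ 0 := by exact_mod_cast h0
      exact mul_ne_zero (mul_ne_zero h1 Complex.I_ne_zero) h2
    have hD : Tendsto (fun N : ℕ => ((N + 1 : ℕ) : ℂ) * (Complex.exp (c / ((N + 1 : ℕ) : ℂ)) - 1)) atTop (𝓝 c) := by
      have hder : HasDerivAt (fun x : ℂ => Complex.exp (c * x)) c 0 := by
        have := ((hasDerivAt_id (0 : ℂ)).const_mul c).cexp
        simpa using this
      have ht := hder.tendsto_slope_zero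
      have hseq : Tendsto (fun N : ℕ => (((N + 1 : ℕ) : ℂ))⁻¹) atTop (𝓝[≠] 0) := by
        rw [tendsto_nhdsWithin_iff]
        refine ⟨?_, Eventually.of_forall fun N => ?_⟩
        · have := tendsto_inv_atTop_nhds_zero_nat (𝕜 := ℂ)
          exact this.comp (tendsto_add_atTop_nat 1)
        · have hN : ((N + 1 : ℕ) : ℂ) ≠ 0 := by exact_mod_cast Nat.succ_ne_zero N
          exact inv_ne_zero hN
      have h2 := ht.comp hseq
      refine h2.congr fun N => ?_
      simp only [Function.comp, zero_add, mul_zero, Complex.exp_zero, inv_inv, smul_eq_mul]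
      rw [div_eq_mul_inv]
    have hlim : Tendsto (fun N : ℕ => (1 / 2 : ℂ) * ((Complex.exp c - 1) /
        (((N + 1 : ℕ) : ℂ) * (Complex.exp (c / ((N + 1 : ℕ) : ℂ)) - 1)))) atTop
        (𝓝 ((1 / 2 : ℂ) * ((Complex.exp c - 1) / c))) :=
      (tendsto_const_nhds.div hD hc0).const_mul _
    have htarget : ((1 / 2 : ℂ) * ((Complex.exp c - 1) / c)) =
        (1 / 2 : ℂ) * (Complex.exp (c / 2) * ((S ((w : ℝ) / 2) : ℝ) : ℂ)) := by
      congr 1
      have hS : ((S ((w : ℝ) / 2) : ℝ) : ℂ) = (Complex.exp (c / 2) - Complex.exp (-(c / 2))) / c := by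
        have hx : Real.pi * ((w : ℝ) / 2) ≠ 0 := by
          have h2 : (w : ℝ) ≠ 0 := by exact_mod_cast h0
          exact mul_ne_zero Real.pi_ne_zero (div_ne_zero h2 two_ne_zero)
        unfold S
        rw [Real.sinc_of_ne_zero hx]
        push_cast
        have hsin : Complex.sin (Real.pi * ((w : ℂ) / 2)) =
            (Complex.exp (-(c / 2)) - Complex.exp (c / 2)) * Complex.I / 2 := by
          unfold Complex.sin
          rw [hcdef]
          congr 3
          · congr 1; ring
          · congr 1; ring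
        rw [hsin, hcdef]
        have h1 : (Real.pi : ℂ) ≠ 0 := by exact_mod_cast Real.pi_ne_zero
        have h2 : (w : ℂ) ≠ 0 := by exact_mod_cast h0
        field_simp
        linear_combination (Complex.exp (-(Real.pi * Complex.I * w / 2)) - Complex.exp (Real.pi * Complex.I * w / 2)) * Complex.I_sq
      rw [hS]
      have he : Complex.exp c = Complex.exp (c / 2) * Complex.exp (c / 2) := by
        rw [← Complex.exp_add]; congr 1; ring
      have he2 : Complex.exp (c / 2) * Complex.exp (-(c / 2)) = 1 := by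
        rw [← Complex.exp_add]; simp
      rw [he, mul_div_assoc', mul_sub, he2]
    rw [← htarget]
    refine hlim.congr' ?_
    filter_upwards [hD.eventually_ne hc0] with N hN
    have hN1 : ((N + 1 : ℕ) : ℂ) ≠ 0 := left_ne_zero_of_mul hN
    have hN2 : Complex.exp (c / ((N + 1 : ℕ) : ℂ)) - 1 ≠ 0 := right_ne_zero_of_mul hN
    rw [geom_sum_eq (sub_ne_zero.mp hN2)]
    have : Complex.exp (c / ((N + 1 : ℕ) : ℂ)) ^ (N + 1) = Complex.exp c := by
      rw [← Complex.exp_nat_mul]; congr 1; field_simp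
    rw [this]
    field_simp

theorem J0_limit {n : ℕ} (u : Fin n → ℤ) :
    Tendsto (fun N : ℕ => (Matrix.of fun i k : Fin n => ker (N + 1) (site (N + 1) (u i)) (site (N + 1) (u k))).det) atTop
      (𝓝 (((1 / 2 : ℝ) ^ n * W (fun i => (u i : ℝ) / 2) : ℝ) : ℂ)) := by
  set L : Matrix (Fin n) (Fin n) ℂ := Matrix.of fun i k : Fin n =>
    ((1 / 2 : ℂ) * (Complex.exp (Real.pi * Complex.I * ((u i - u k : ℤ) : ℂ) / 2) *
        ((S (((u i - u k : ℤ) : ℝ) / 2) : ℝ) : ℂ))) with hL
  have hT : Tendsto (fun N : ℕ => (Matrix.of fun i k : Fin n =>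
      ker (N + 1) (site (N + 1) (u i)) (site (N + 1) (u k)))) atTop (𝓝 L) := by
    refine tendsto_pi_nhds.mpr fun i => tendsto_pi_nhds.mpr fun k => ?_
    exact ker_limit (u i) (u k)
  have hdet : Tendsto (fun N : ℕ => (Matrix.of fun i k : Fin n =>
      ker (N + 1) (site (N + 1) (u i)) (site (N + 1) (u k))).det) atTop (𝓝 L.det) :=
    (Continuous.tendsto (Continuous.matrix_det continuous_id) L).comp hT
  have hval : L.det = (((1 / 2 : ℝ) ^ n * W (fun i => (u i : ℝ) / 2) : ℝ) : ℂ) := by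
    set A : Matrix (Fin n) (Fin n) ℂ := Matrix.of fun i k : Fin n => ((S ((u i : ℝ) / 2 - (u k : ℝ) / 2) : ℝ) : ℂ) with hA
    set d : Fin n → ℂ := fun i => Complex.exp (Real.pi * Complex.I * (u i : ℂ) / 2) with hd
    set d' : Fin n → ℂ := fun i => Complex.exp (-(Real.pi * Complex.I * (u i : ℂ) / 2)) with hd'
    have hLA : L = (1 / 2 : ℂ) • (Matrix.diagonal d * A * Matrix.diagonal d') := by
      ext i k
      rw [Matrix.smul_apply, Matrix.mul_diagonal, Matrix.diagonal_mul]
      simp only [hL, hA, hd, hd', Matrix.of_apply, smul_eq_mul]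
      have h1 : Complex.exp (Real.pi * Complex.I * ((u i - u k : ℤ) : ℂ) / 2) =
          Complex.exp (Real.pi * Complex.I * (u i : ℂ) / 2) *
            Complex.exp (-(Real.pi * Complex.I * (u k : ℂ) / 2)) := by
        rw [← Complex.exp_add]; congr 1; push_cast; ring
      have h2 : (((u i - u k : ℤ) : ℝ) / 2) = (u i : ℝ) / 2 - (u k : ℝ) / 2 := by
        push_cast; ring
      rw [h1, h2]
      ring
    rw [hLA, Matrix.det_smul, Matrix.det_mul, Matrix.det_mul, Matrix.det_diagonal, Matrix.det_diagonal]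
    have hdd : (∏ i, d i) * ∏ i, d' i = 1 := by
      rw [← prod_mul_distrib]
      refine prod_eq_one fun i _ => ?_
      simp only [hd, hd']
      rw [← Complex.exp_add]; simp
    have hAW : A.det = ((W (fun i => (u i : ℝ) / 2) : ℝ) : ℂ) := by
      unfold W
      rw [← Complex.ofRealHom_eq_coe, RingHom.map_det]
      rfl
    rw [hAW, Fintype.card_fin]
    push_cast
    linear_combination (1 / 2 : ℂ) ^ n * ((W (fun i => (u i : ℝ) / 2) : ℝ) : ℂ) * hdd
  rw [← hval]
  exact hdet

end Pool.Agent.H808R2.AH
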