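import Pool.Agent.H808R2.AH.A2
import Pool.Agent.H808R2.AH.Hpoi
import Pool.Agent.H808R2.AH.J0

/-!
# Task J2: limit of the ring averages of periodised test functions (by helper114)
-/

namespace Pool.Agent.H808R2.AH
open Finset Filter Topology MeasureTheory

/-! ### Differences -/

theorem j2_diff {m : ℕ} {f : (Fin (m + 1) → ℝ) → ℝ} {F : (Fin m → ℝ) → ℂ} (h : TestPair f F)
    (x : Fin (m + 1) → ℝ) : f x = f (Fin.cons 0 fun i => x i.succ - x 0) := by
  have h1 := h.rep x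
  have h2 := h.rep (Fin.cons 0 fun i => x i.succ - x 0)
  have h3 : (f x : ℂ) = (f (Fin.cons 0 fun i => x i.succ - x 0) : ℂ) := by
    rw [h1, h2]
    simp only [Fin.cons_succ, Fin.cons_zero]
    push_cast
    simp only [sub_zero]
  exact_mod_cast h3

/-! ### Sites and integers -/

theorem j2_site_pos {N : ℕ} [NeZero N] (s : Site N) : site N ((pos s : ℕ) : ℤ) = s := by
  obtain ⟨b, x⟩ := s
  have hx : ((x.val : ℕ) : ZMod N) = x := ZMod.natCast_zmod_val x
  cases b
  · have h1 : ((pos ((false, x) : Site N) : ℕ) : ℤ) % 2 = 0 := by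
      simp only [pos, cond_false]; push_cast; omega
    have h2 : ((pos ((false, x) : Site N) : ℕ) : ℤ) / 2 = (x.val : ℤ) := by
      simp only [pos, cond_false]; push_cast; omega
    unfold site
    rw [h1, h2]
    simp
  · have h1 : ((pos ((true, x) : Site N) : ℕ) : ℤ) % 2 = 1 := by
      simp only [pos, cond_true]; push_cast; omega
    have h2 : ((pos ((true, x) : Site N) : ℕ) : ℤ) / 2 = (x.val : ℤ) := by
      simp only [pos, cond_true]; push_cast; omega
    unfold site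
    rw [h1, h2]
    simp

theorem j2_site_period {N : ℕ} [NeZero N] (t v : ℤ) : site N (t + 2 * N * v) = site N t := by
  unfold site
  have h1 : (t + 2 * N * v) % 2 = t % 2 := by
    rw [mul_assoc]; omega
  have h2 : (t + 2 * N * v) / 2 = t / 2 + N * v := by
    rw [mul_assoc]; omega
  rw [h1, h2]
  push_cast
  simp

theorem j2_pos_lt {N : ℕ} [NeZero N] (s : Site N) : pos s < 2 * N := by
  have h := ZMod.val_lt s.2
  unfold pos
  cases s.1 <;> simp <;> omega

theorem j2_site_inj {N : ℕ} [NeZero N] {a b : ℕ} (ha : a < 2 * N) (hb : b < 2 * N)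
    (h : site N (a : ℤ) = site N (b : ℤ)) : a = b := by
  unfold site at h
  rw [Prod.mk.injEq] at h
  obtain ⟨h1, h2⟩ := h
  have e1 : ((a : ℤ) / 2) = ((a / 2 : ℕ) : ℤ) := by push_cast; rfl
  have e2 : ((b : ℤ) / 2) = ((b / 2 : ℕ) : ℤ) := by push_cast; rfl
  rw [e1, e2] at h2
  simp only [Int.cast_natCast] at h2
  have h3 : a / 2 = b / 2 := by
    have h4 := congrArg ZMod.val h2
    rwa [ZMod.val_natCast, ZMod.val_natCast, Nat.mod_eq_of_lt (by omega),
      Nat.mod_eq_of_lt (by omega)] at h4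
  have h5 : ((a : ℤ) % 2 = 1) ↔ ((b : ℤ) % 2 = 1) := by
    simpa using h1
  omega

theorem j2_pos_site {N : ℕ} [NeZero N] (u : ℤ) : ((pos (site N u) : ℕ) : ℤ) = u % (2 * N) := by
  have hN : (0 : ℤ) < 2 * N := by
    have := NeZero.pos N
    positivity
  have h0 : 0 ≤ u % (2 * N) := Int.emod_nonneg _ hN.ne'
  obtain ⟨a, ha⟩ := Int.eq_ofNat_of_zero_le h0
  have h1 : u % (2 * N) < 2 * N := Int.emod_lt_of_pos _ hN
  have h2 : site N u = site N (a : ℤ) := by
    have h3 : u = (a : ℤ) + 2 * N * (u / (2 * N)) := by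
      rw [← ha]; exact (Int.emod_add_mul_ediv u (2 * N)).symm
    conv_lhs => rw [h3]
    exact j2_site_period _ _
  rw [h2, ha]
  have h4 : a < 2 * N := by
    rw [ha] at h1; exact_mod_cast h1
  have h5 := j2_site_inj (j2_pos_lt (site N (a : ℤ))) h4 (j2_site_pos (site N (a : ℤ)))
  rw [h5]

/-- integers as pairs of a site and a winding number, with origin `-c` -/
def j2_e (N : ℕ) [NeZero N] (c : ℤ) : ℤ ≃ Site N × ℤ where
  toFun t := (site N (t + c), (t + c) / (2 * N))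
  invFun q := ((pos q.1 : ℕ) : ℤ) + 2 * N * q.2 - c
  left_inv t := by
    simp only
    rw [j2_pos_site, Int.emod_add_mul_ediv]
    ring
  right_inv q := by
    obtain ⟨s, v⟩ := q
    simp only [sub_add_cancel]
    have hN : (0 : ℤ) < 2 * N := by
      have := NeZero.pos N
      positivity
    have h1 : ((pos s : ℕ) : ℤ) < 2 * N := by exact_mod_cast j2_pos_lt s
    rw [j2_site_period, j2_site_pos, Int.add_mul_ediv_left _ _ hN.ne',
      Int.ediv_eq_zero_of_lt (by positivity) h1, zero_add]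

/-- the same for vectors -/
def j2_E (N : ℕ) [NeZero N] (c : ℤ) (m : ℕ) : (Fin m → ℤ) ≃ (Fin m → Site N) × (Fin m → ℤ) :=
  (Equiv.piCongrRight fun _ => j2_e N c).trans
    (Equiv.arrowProdEquivProdArrow (Fin m) (fun _ => Site N) (fun _ => ℤ))

theorem j2_E_symm (N : ℕ) [NeZero N] (c : ℤ) (m : ℕ) (q : Fin m → Site N) (v : Fin m → ℤ) :
    (j2_E N c m).symm (q, v) = fun i => ((pos (q i) : ℕ) : ℤ) + 2 * N * v i - c := rfl

/-! ### The sum over the ring as a lattice sum -/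

/-- the determinant of the ring kernel at lattice offsets -/
noncomputable def j2_D (N : ℕ) [NeZero N] {m : ℕ} (z : Fin m → ℤ) : ℂ :=
  (Matrix.of fun i k : Fin (m + 1) => ker N (site N ((Fin.cons 0 z : Fin (m + 1) → ℤ) i))
    (site N ((Fin.cons 0 z : Fin (m + 1) → ℤ) k))).det

theorem j2_det (N : ℕ) [NeZero N] {m : ℕ} (p0 : Site N) (q : Fin m → Site N) (v : Fin m → ℤ) :
    j2_D N ((j2_E N (pos p0) m).symm (q, v)) =
      (Matrix.of fun i k : Fin (m + 1) => ker N ((Fin.cons p0 q : Fin (m + 1) → Site N) i)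
        ((Fin.cons p0 q : Fin (m + 1) → Site N) k)).det := by
  unfold j2_D
  rw [← J0_shift N _ ((pos p0 : ℕ) : ℤ)]
  have key : ∀ i : Fin (m + 1), site N ((Fin.cons 0 ((j2_E N (pos p0) m).symm (q, v)) :
      Fin (m + 1) → ℤ) i + ((pos p0 : ℕ) : ℤ)) = (Fin.cons p0 q : Fin (m + 1) → Site N) i := by
    intro i
    refine Fin.cases ?_ (fun i => ?_) i
    · rw [Fin.cons_zero, Fin.cons_zero, zero_add, j2_site_pos]
    · rw [Fin.cons_succ, Fin.cons_succ, j2_E_symm]
      simp only [sub_add_cancel]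
      rw [j2_site_period, j2_site_pos]
  simp only [key]

theorem j2_perf {m : ℕ} {f : (Fin (m + 1) → ℝ) → ℝ} {F : (Fin m → ℝ) → ℂ} (h : TestPair f F)
    (N : ℕ) [NeZero N] (p0 : Site N) (q : Fin m → Site N) :
    perf f N (Fin.cons p0 q) = ∑' v : Fin m → ℤ, fval f ((j2_E N (pos p0) m).symm (q, v)) := by
  unfold perf
  refine tsum_congr fun v => ?_
  rw [j2_diff h]
  unfold fval
  congr 1
  funext i
  refine Fin.cases ?_ (fun i => ?_) i
  · rfl
  · rw [Fin.cons_succ, Fin.cons_succ, Fin.cons_succ, Fin.cons_zero, j2_E_symm]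
    push_cast
    simp only [Fin.cons_zero, Fin.cons_succ]
    ring

theorem j2_fval_summable {m : ℕ} {f : (Fin (m + 1) → ℝ) → ℝ} {F : (Fin m → ℝ) → ℂ}
    (h : TestPair f F) : Summable fun z : Fin m → ℤ => |fval f z| := by
  have h1 := H_summable h (1 / 2) (by norm_num) (fun _ => 0)
  have h2 : (fun v : Fin m → ℤ => f (Fin.cons 0 fun i => (0 : ℝ) + 1 / 2 * (v i : ℝ))) =
      fun z : Fin m → ℤ => fval f z := by
    funext v
    unfold fval
    congr 1
    congr 1
    funext i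
    ring
  rw [h2] at h1
  exact h1.abs

theorem j2_D_bound (N : ℕ) [NeZero N] {m : ℕ} (z : Fin m → ℤ) :
    ‖j2_D N z‖ ≤ (m + 1).factorial := J0_bound N _

theorem j2_G_summable {m : ℕ} {f : (Fin (m + 1) → ℝ) → ℝ} {F : (Fin m → ℝ) → ℂ}
    (h : TestPair f F) (N : ℕ) [NeZero N] :
    Summable fun z : Fin m → ℤ => (fval f z : ℂ) * j2_D N z := by
  refine Summable.of_norm_bounded ((j2_fval_summable h).mul_right ((m + 1).factorial : ℝ)) ?_
  intro z
  rw [norm_mul, Complex.norm_real, Real.norm_eq_abs]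
  exact mul_le_mul_of_nonneg_left (j2_D_bound N z) (abs_nonneg _)

theorem j2_fiber {α β γ : Type*} [Fintype β] (E : γ ≃ β × α) (G : γ → ℂ) (hG : Summable G) :
    ∑' z, G z = ∑ q : β, ∑' v : α, G (E.symm (q, v)) := by
  have hs' : Summable fun x : β × α => G (E.symm x) := E.symm.summable_iff.2 hG
  rw [← E.symm.tsum_eq, hs'.tsum_prod, tsum_fintype]

theorem j2_fixed {m : ℕ} {f : (Fin (m + 1) → ℝ) → ℝ} {F : (Fin m → ℝ) → ℂ}
    (h : TestPair f F) (N : ℕ) [NeZero N] (p0 : Site N) :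
    ∑ q : Fin m → Site N, (perf f N (Fin.cons p0 q) : ℂ) *
      (Matrix.of fun i k : Fin (m + 1) => ker N ((Fin.cons p0 q : Fin (m + 1) → Site N) i)
        ((Fin.cons p0 q : Fin (m + 1) → Site N) k)).det =
      ∑' z : Fin m → ℤ, (fval f z : ℂ) * j2_D N z := by
  rw [j2_fiber (j2_E N (pos p0) m) _ (j2_G_summable h N)]
  refine Finset.sum_congr rfl fun q _ => ?_
  rw [j2_perf h, Complex.ofReal_tsum, ← tsum_mul_right]
  refine tsum_congr fun v => ?_
  rw [j2_det]

theorem j2_main {m : ℕ} {f : (Fin (m + 1) → ℝ) → ℝ} {F : (Fin m → ℝ) → ℂ}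
    (h : TestPair f F) (N : ℕ) [NeZero N] :
    ((1 / (N : ℝ) * ∑ s : Fin N → Site N, wP N s *
      ∑ j : Fin (m + 1) ↪ Fin N, perf f N (fun i => s (j i)) : ℝ) : ℂ) =
      2 * ∑' z : Fin m → ℤ, (fval f z : ℂ) * j2_D N z := by
  have hN : (N : ℂ) ≠ 0 := by exact_mod_cast NeZero.ne N
  have h1 := A2_corr N (fun p : Fin (m + 1) → Site N => (perf f N p : ℂ))
  push_cast
  rw [h1, ← (Fin.consEquiv (fun _ : Fin (m + 1) => Site N)).sum_comp, Fintype.sum_prod_type]
  have h2 : ∀ p0 : Site N, ∑ q : Fin m → Site N,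
      (perf f N ((Fin.consEquiv (fun _ : Fin (m + 1) => Site N)) (p0, q)) : ℂ) *
      (Matrix.of fun i k : Fin (m + 1) =>
        ker N ((Fin.consEquiv (fun _ : Fin (m + 1) => Site N)) (p0, q) i)
        ((Fin.consEquiv (fun _ : Fin (m + 1) => Site N)) (p0, q) k)).det =
      ∑' z : Fin m → ℤ, (fval f z : ℂ) * j2_D N z := fun p0 => j2_fixed h N p0
  rw [Finset.sum_congr rfl fun p0 _ => h2 p0, Finset.sum_const, Finset.card_univ,
    Fintype.card_prod, Fintype.card_bool, ZMod.card, nsmul_eq_mul]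
  push_cast
  field_simp

/-- J2 -/
theorem J2_ringlimit {m : ℕ} {f : (Fin (m + 1) → ℝ) → ℝ} {F : (Fin m → ℝ) → ℂ} (h : TestPair f F) :
    Tendsto (fun N : ℕ => (1 / ((N + 1 : ℕ) : ℝ)) * ∑ s : Fin (N + 1) → Site (N + 1), wP (N + 1) s *
      ∑ j : Fin (m + 1) ↪ Fin (N + 1), perf f (N + 1) (fun i => s (j i))) atTop
      (𝓝 ((1 / 2 : ℝ) ^ m * ∑' z : Fin m → ℤ, fval f z * W (Fin.cons 0 fun i => (z i : ℝ) / 2))) := by
  have hlim : Tendsto (fun N : ℕ => ∑' z : Fin m → ℤ, (fval f z : ℂ) * j2_D (N + 1) z) atTop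
      (𝓝 (∑' z : Fin m → ℤ, (fval f z : ℂ) *
        (((1 / 2 : ℝ) ^ (m + 1) * W (Fin.cons 0 fun i => (z i : ℝ) / 2) : ℝ) : ℂ))) := by
    refine tendsto_tsum_of_dominated_convergence
      ((j2_fval_summable h).mul_right ((m + 1).factorial : ℝ)) ?_ ?_
    · intro z
      refine Tendsto.const_mul _ ?_
      have h1 := J0_limit (Fin.cons 0 z : Fin (m + 1) → ℤ)
      have h2 : (fun i => (((Fin.cons 0 z : Fin (m + 1) → ℤ) i : ℤ) : ℝ) / 2) =
          (Fin.cons 0 fun i => (z i : ℝ) / 2 : Fin (m + 1) → ℝ) := by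
        funext i
        refine Fin.cases ?_ (fun i => ?_) i
        · simp
        · simp
      rw [h2] at h1
      exact h1
    · refine Filter.Eventually.of_forall fun N z => ?_
      rw [norm_mul, Complex.norm_real, Real.norm_eq_abs]
      exact mul_le_mul_of_nonneg_left (j2_D_bound (N + 1) z) (abs_nonneg _)
  have h3 : ∀ N : ℕ, (1 / ((N + 1 : ℕ) : ℝ)) * ∑ s : Fin (N + 1) → Site (N + 1), wP (N + 1) s *
      ∑ j : Fin (m + 1) ↪ Fin (N + 1), perf f (N + 1) (fun i => s (j i)) =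
      (2 * ∑' z : Fin m → ℤ, (fval f z : ℂ) * j2_D (N + 1) z).re := by
    intro N
    rw [← j2_main h (N + 1), Complex.ofReal_re]
  have h4 : (1 / 2 : ℝ) ^ m * ∑' z : Fin m → ℤ, fval f z * W (Fin.cons 0 fun i => (z i : ℝ) / 2) =
      (2 * ∑' z : Fin m → ℤ, (fval f z : ℂ) *
        (((1 / 2 : ℝ) ^ (m + 1) * W (Fin.cons 0 fun i => (z i : ℝ) / 2) : ℝ) : ℂ)).re := by
    have h5 : (2 * ∑' z : Fin m → ℤ, (fval f z : ℂ) *
        (((1 / 2 : ℝ) ^ (m + 1) * W (Fin.cons 0 fun i => (z i : ℝ) / 2) : ℝ) : ℂ)) =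
        (((1 / 2 : ℝ) ^ m * ∑' z : Fin m → ℤ, fval f z *
          W (Fin.cons 0 fun i => (z i : ℝ) / 2) : ℝ) : ℂ) := by
      rw [Complex.ofReal_mul, Complex.ofReal_tsum, ← tsum_mul_left, ← tsum_mul_left]
      refine tsum_congr fun z => ?_
      push_cast
      ring
    rw [h5, Complex.ofReal_re]
  rw [h4]
  refine Tendsto.congr (fun N => (h3 N).symm) ?_
  exact (Complex.continuous_re.tendsto _).comp (hlim.const_mul 2)

end Pool.Agent.H808R2.AH
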