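import Mathlib
import Pool.Agent.H808R2.AH.Defs
import Pool.Agent.H808R2.AH.A2
import Pool.Agent.H808R2.AH.J0

namespace Pool.Agent.H808R2.AH
open Finset Filter Topology MeasureTheory

namespace J3aux

open Classical in
/-- probability (expectation) statement -/
theorem prob_eq (N : ℕ) [NeZero N] (hN : 3 ≤ N) (D : Finset ℤ) (hD : ∀ d ∈ D, 0 ≤ d ∧ d ≤ 5) (t : ℤ) :
    ∑ s : Fin N → Site N, (wP N s : ℂ) * (if ∀ d ∈ D, ∃ j, s j = site N (t + d) then 1 else 0) =
      (Matrix.of fun i k : Fin #D => ker N (site N (D.orderEmbOfFin rfl i)) (site N (D.orderEmbOfFin rfl k))).det := by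
  set u : Fin #D → ℤ := fun i => D.orderEmbOfFin rfl i with hu
  have hmem : ∀ i, u i ∈ D := fun i => Finset.orderEmbOfFin_mem D rfl i
  have hinj : Function.Injective (fun i => site N (u i + t)) := by
    intro i k hik
    have hi := hD _ (hmem i)
    have hk := hD _ (hmem k)
    simp only [site, Prod.mk.injEq] at hik
    obtain ⟨h1, h2⟩ := hik
    have h3 : (((u i + t) / 2 - (u k + t) / 2 : ℤ) : ZMod N) = 0 := by
      push_cast
      rw [sub_eq_zero]
      exact_mod_cast h2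
    rw [ZMod.intCast_zmod_eq_zero_iff_dvd] at h3
    have h4 : ((u i + t) % 2 = 1) ↔ ((u k + t) % 2 = 1) := by
      constructor
      · intro h
        have : decide ((u i + t) % 2 = 1) = true := by simpa using h
        rw [h1] at this
        simpa using this
      · intro h
        have : decide ((u k + t) % 2 = 1) = true := by simpa using h
        rw [← h1] at this
        simpa using this
    have h5 : (u i + t) / 2 - (u k + t) / 2 = 0 := by
      apply Int.eq_zero_of_abs_lt_dvd h3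
      rw [abs_lt]
      have : (3 : ℤ) ≤ N := by exact_mod_cast hN
      constructor <;> omega
    have h6 : u i = u k := by omega
    exact (D.orderEmbOfFin rfl).injective h6
  rw [← J0_shift N u t, ← A2_occ N (fun i => site N (u i + t)) hinj]
  apply Finset.sum_congr rfl
  intro s _
  congr 1
  apply if_congr _ rfl rfl
  constructor
  · intro h i
    have := h _ (hmem i)
    rwa [add_comm] at this
  · intro h d hd
    have hd' : d ∈ Set.range (D.orderEmbOfFin rfl) := by
      rw [Finset.range_orderEmbOfFin]; exact hd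
    obtain ⟨i, rfl⟩ := hd'
    have := h i
    rwa [add_comm] at this

/-- the offset set -/
def DQ (Q : Finset ℤ) : Finset ℤ := insert 0 (insert 5 Q)

open Classical in
/-- inclusion-exclusion -/
theorem incl_excl (a : ℤ → Prop) :
    (if a 0 ∧ a 5 ∧ ∀ i : ℕ, 1 ≤ i → i ≤ 4 → ¬ a i then (1 : ℝ) else 0) =
      ∑ Q ∈ ({1, 2, 3, 4} : Finset ℤ).powerset, (-1 : ℝ) ^ #Q * (if ∀ d ∈ DQ Q, a d then 1 else 0) := by
  have h1 : (if a 0 ∧ a 5 ∧ ∀ i : ℕ, 1 ≤ i → i ≤ 4 → ¬ a i then (1 : ℝ) else 0) =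
      (if a 0 then (1 : ℝ) else 0) * (if a 5 then (1 : ℝ) else 0) *
        ∏ q ∈ ({1, 2, 3, 4} : Finset ℤ), (-(if a q then (1 : ℝ) else 0) + 1) := by
    have h2 : (∀ i : ℕ, 1 ≤ i → i ≤ 4 → ¬ a i) ↔ (¬ a 1 ∧ ¬ a 2 ∧ ¬ a 3 ∧ ¬ a 4) := by
      constructor
      · intro h
        exact ⟨by simpa using h 1 (by norm_num) (by norm_num), by simpa using h 2 (by norm_num) (by norm_num),
          by simpa using h 3 (by norm_num) (by norm_num), by simpa using h 4 (by norm_num) (by norm_num)⟩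
      · rintro ⟨h1, h2, h3, h4⟩ i hi hi'
        interval_cases i <;> simpa
    rw [show (∏ q ∈ ({1, 2, 3, 4} : Finset ℤ), (-(if a q then (1 : ℝ) else 0) + 1)) =
      (-(if a 1 then (1 : ℝ) else 0) + 1) * ((-(if a 2 then (1 : ℝ) else 0) + 1) * ((-(if a 3 then (1 : ℝ) else 0) + 1) *
        (-(if a 4 then (1 : ℝ) else 0) + 1))) by
      rw [Finset.prod_insert (by decide), Finset.prod_insert (by decide), Finset.prod_insert (by decide),
        Finset.prod_singleton]]
    simp only [h2]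
    by_cases h0 : a 0 <;> by_cases h5 : a 5 <;> by_cases ha1 : a 1 <;> by_cases ha2 : a 2 <;> by_cases ha3 : a 3 <;>
      by_cases ha4 : a 4 <;> simp [h0, h5, ha1, ha2, ha3, ha4]
  rw [h1, Finset.prod_add, Finset.mul_sum]
  apply Finset.sum_congr rfl
  intro Q hQ
  rw [Finset.prod_const_one, mul_one]
  have h3 : ∏ q ∈ Q, -(if a q then (1 : ℝ) else 0) = (-1) ^ #Q * ∏ q ∈ Q, (if a q then (1 : ℝ) else 0) := by
    rw [← Finset.prod_const, ← Finset.prod_mul_distrib]
    apply Finset.prod_congr rfl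
    intro q _
    ring
  have h4 : (if ∀ d ∈ DQ Q, a d then (1 : ℝ) else 0) =
      (if a 0 then (1 : ℝ) else 0) * ((if a 5 then (1 : ℝ) else 0) * ∏ q ∈ Q, (if a q then (1 : ℝ) else 0)) := by
    have h5 : ∏ q ∈ Q, (if a q then (1 : ℝ) else 0) = if ∀ q ∈ Q, a q then 1 else 0 := by
      rw [Finset.prod_ite_zero]
      simp
    rw [h5]
    simp only [DQ, Finset.forall_mem_insert]
    by_cases h0 : a 0 <;> by_cases h5 : a 5 <;> simp [h0, h5]
  rw [h3, h4]
  ring

theorem DQ_range {Q : Finset ℤ} (hQ : Q ∈ ({1, 2, 3, 4} : Finset ℤ).powerset) : ∀ d ∈ DQ Q, 0 ≤ d ∧ d ≤ 5 := by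
  intro d hd
  rw [Finset.mem_powerset] at hQ
  simp only [DQ, Finset.mem_insert] at hd
  rcases hd with rfl | rfl | hd
  · norm_num
  · norm_num
  · have := hQ hd
    simp only [Finset.mem_insert, Finset.mem_singleton] at this
    omega

noncomputable def dN (N : ℕ) [NeZero N] (Q : Finset ℤ) : ℂ :=
  (Matrix.of fun i k : Fin #(DQ Q) => ker N (site N ((DQ Q).orderEmbOfFin rfl i))
    (site N ((DQ Q).orderEmbOfFin rfl k))).det

theorem pat_eq {N : ℕ} (s : Fin N → Site N) : open Classical in (pat s : ℝ) =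
    ∑ t ∈ range (2 * N), ∑ Q ∈ ({1, 2, 3, 4} : Finset ℤ).powerset,
      (-1 : ℝ) ^ #Q * (if ∀ d ∈ DQ Q, ∃ j, s j = site N (t + d) then 1 else 0) := by
  classical
  have hset : (do let a ← range (2 * N); pure (a : ℤ) : Finset ℤ) = (range (2 * N)).image (fun a : ℕ => (a : ℤ)) := by
    ext x
    simp [Finset.bind_def]
  unfold pat
  rw [Finset.card_filter]
  push_cast
  rw [hset, Finset.sum_image (fun a _ b _ h => by exact_mod_cast h)]
  apply Finset.sum_congr rfl
  intro t _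
  have h := incl_excl (fun d => ∃ j, s j = site N (t + d))
  calc _ = (if (∃ j, s j = site N (t + 0)) ∧ (∃ j, s j = site N (t + 5)) ∧
        ∀ i : ℕ, 1 ≤ i → i ≤ 4 → ¬ ∃ j, s j = site N (t + i) then (1 : ℝ) else 0) := by
          apply if_congr _ rfl rfl
          simp
    _ = _ := by
          convert h

theorem main_eq (N : ℕ) [NeZero N] (hN : 3 ≤ N) :
    (((1 / (N : ℝ)) * ∑ s : Fin N → Site N, wP N s * (pat s : ℝ) : ℝ) : ℂ) =
      2 * ∑ Q ∈ ({1, 2, 3, 4} : Finset ℤ).powerset, (-1 : ℂ) ^ #Q * dN N Q := by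
  classical
  have hN0 : (N : ℂ) ≠ 0 := by exact_mod_cast (NeZero.ne N)
  have h1 : ((∑ s : Fin N → Site N, wP N s * (pat s : ℝ) : ℝ) : ℂ) =
      ∑ t ∈ range (2 * N), ∑ Q ∈ ({1, 2, 3, 4} : Finset ℤ).powerset, (-1 : ℂ) ^ #Q * dN N Q := by
    have h2 : ((∑ s : Fin N → Site N, wP N s * (pat s : ℝ) : ℝ) : ℂ) =
      ∑ s : Fin N → Site N, ∑ t ∈ range (2 * N), ∑ Q ∈ ({1, 2, 3, 4} : Finset ℤ).powerset,
        (wP N s : ℂ) * ((-1 : ℂ) ^ #Q * (if ∀ d ∈ DQ Q, ∃ j, s j = site N (t + d) then 1 else 0)) := by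
      push_cast
      apply Finset.sum_congr rfl
      intro s _
      have h3 := congrArg (fun x : ℝ => (x : ℂ)) (pat_eq s)
      push_cast at h3
      rw [h3, Finset.mul_sum]
      apply Finset.sum_congr rfl
      intro t _
      rw [Finset.mul_sum]
      apply Finset.sum_congr rfl
      intro Q _
      congr 2
      split_ifs <;> simp
    rw [h2, Finset.sum_comm]
    apply Finset.sum_congr rfl
    intro t _
    rw [Finset.sum_comm]
    apply Finset.sum_congr rfl
    intro Q hQ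
    rw [dN, ← prob_eq N hN (DQ Q) (DQ_range hQ) t, Finset.mul_sum]
    apply Finset.sum_congr rfl
    intro s _
    ring
  rw [Complex.ofReal_mul, h1, Finset.sum_const, Finset.card_range]
  simp only [nsmul_eq_mul]
  push_cast
  field_simp

end J3aux

/-- J3 -/
theorem J3_pat : ∃ c : ℝ, Tendsto (fun N : ℕ => (1 / ((N + 1 : ℕ) : ℝ)) * ∑ s : Fin (N + 1) → Site (N + 1),
    wP (N + 1) s * (pat s : ℝ)) atTop (𝓝 c) := by
  classical
  set c0 : ℂ := 2 * ∑ Q ∈ ({1, 2, 3, 4} : Finset ℤ).powerset, (-1 : ℂ) ^ #Q *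
    (((1 / 2 : ℝ) ^ #(J3aux.DQ Q) * W (fun i => (((J3aux.DQ Q).orderEmbOfFin rfl i : ℤ) : ℝ) / 2) : ℝ) : ℂ) with hc0
  have h1 : Tendsto (fun N : ℕ => 2 * ∑ Q ∈ ({1, 2, 3, 4} : Finset ℤ).powerset, (-1 : ℂ) ^ #Q *
      J3aux.dN (N + 1) Q) atTop (𝓝 c0) := by
    apply Tendsto.const_mul
    apply tendsto_finsetSum
    intro Q _
    apply Tendsto.const_mul
    exact J0_limit (fun i => (J3aux.DQ Q).orderEmbOfFin rfl i)
  have h2 : Tendsto (fun N : ℕ => (((1 / ((N + 1 : ℕ) : ℝ)) * ∑ s : Fin (N + 1) → Site (N + 1),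
      wP (N + 1) s * (pat s : ℝ) : ℝ) : ℂ)) atTop (𝓝 c0) := by
    apply h1.congr'
    filter_upwards [eventually_ge_atTop 2] with N hN
    exact (J3aux.main_eq (N + 1) (by omega)).symm
  refine ⟨c0.re, ?_⟩
  have h3 := (Complex.continuous_re.tendsto c0).comp h2
  refine h3.congr ?_
  intro N
  simp only [Function.comp_apply, Complex.ofReal_re]

end Pool.Agent.H808R2.AH
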