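import Mathlib
import Pool.Agent.H808R2.AH.Defs

/-!
Task K1: greedy derandomisation.
-/

namespace Pool.Agent.H808R2.AH
open Finset Filter Topology MeasureTheory

/-- K1 -/
theorem K1_greedy {E : Type*} [NormedAddCommGroup E] [InnerProductSpace ℝ E] (Ω : ℕ → Type) [∀ j, Fintype (Ω j)]
    (p : ∀ j, Ω j → ℝ) (hp0 : ∀ j ω, 0 ≤ p j ω) (hp1 : ∀ j, ∑ ω, p j ω = 1) (v : ∀ j, Ω j → E)
    (hv : ∀ j, ∑ ω, p j ω • v j ω = 0) (c : ℕ → ℝ) (hc : ∀ j ω, ‖v j ω‖ ≤ c j) :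
    ∃ w : ∀ j, Ω j, (∀ j, p j (w j) ≠ 0) ∧ ∀ J, ‖∑ j ∈ range J, v j (w j)‖ ^ 2 ≤ ∑ j ∈ range J, c j ^ 2 := by
  have hch : ∀ (j : ℕ) (S : E), ∃ ω : Ω j, p j ω ≠ 0 ∧ inner ℝ S (v j ω) ≤ 0 := by
    intro j S
    by_contra hcon
    push Not at hcon
    have h1 : ∑ ω, p j ω * inner ℝ S (v j ω) = 0 := by
      have h2 : inner ℝ S (∑ ω, p j ω • v j ω) = ∑ ω, p j ω * inner ℝ S (v j ω) := by
        rw [inner_sum]
        exact Finset.sum_congr rfl fun ω _ => real_inner_smul_right _ _ _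
      rw [← h2, hv j, inner_zero_right]
    have hex : ∃ ω : Ω j, p j ω ≠ 0 := by
      by_contra hall
      push Not at hall
      have h3 := hp1 j
      rw [Finset.sum_eq_zero (fun ω _ => hall ω)] at h3
      exact zero_ne_one h3
    obtain ⟨ω0, hω0⟩ := hex
    have h4 : 0 < ∑ ω, p j ω * inner ℝ S (v j ω) := by
      refine Finset.sum_pos' (fun ω _ => ?_) ⟨ω0, Finset.mem_univ _, ?_⟩
      · by_cases h0 : p j ω = 0
        · rw [h0, zero_mul]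
        · exact mul_nonneg (hp0 j ω) (hcon ω h0).le
      · exact mul_pos (lt_of_le_of_ne (hp0 j ω0) (Ne.symm hω0)) (hcon ω0 hω0)
    exact absurd h1 h4.ne'
  choose om hom1 hom2 using hch
  let st : ℕ → E := fun J => Nat.rec (motive := fun _ => E) 0 (fun j S => S + v j (om j S)) J
  have hst0 : st 0 = 0 := rfl
  have hst1 : ∀ j, st (j + 1) = st j + v j (om j (st j)) := fun _ => rfl
  refine ⟨fun j => om j (st j), fun j => hom1 j _, ?_⟩
  have hsum : ∀ J, ∑ j ∈ range J, v j (om j (st j)) = st J := by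
    intro J
    induction J with
    | zero => rw [Finset.sum_range_zero, hst0]
    | succ J ih => rw [Finset.sum_range_succ, ih, hst1]
  intro J
  rw [hsum J]
  induction J with
  | zero => rw [hst0, norm_zero, Finset.sum_range_zero]; norm_num
  | succ J ih =>
    rw [hst1, norm_add_sq_real, Finset.sum_range_succ]
    have h5 := hom2 J (st J)
    have h6 : ‖v J (om J (st J))‖ ^ 2 ≤ c J ^ 2 := pow_le_pow_left₀ (norm_nonneg _) (hc J _) 2
    linarith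

private theorem k1_geom {ι : Type*} (e : ι → ℕ) (he : Function.Injective e) (s : Finset ι) :
    ∑ i ∈ s, ((1 : ℝ) / 4) ^ e i ≤ 4 := by
  classical
  have h1 : ∑ i ∈ s, ((1 : ℝ) / 4) ^ e i = ∑ n ∈ s.image e, ((1 : ℝ) / 4) ^ n :=
    (Finset.sum_image (fun a _ b _ h => he h)).symm
  rw [h1]
  have h2 : Summable fun n : ℕ => ((1 : ℝ) / 4) ^ n :=
    summable_geometric_of_lt_one (by norm_num) (by norm_num)
  refine (h2.sum_le_tsum _ (fun n _ => by positivity)).trans ?_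
  rw [tsum_geometric_of_lt_one (by norm_num) (by norm_num)]
  norm_num

/-- K1': countably many statistics at once -/
theorem K1_family {ι : Type*} [Countable ι] (Ω : ℕ → Type) [∀ j, Fintype (Ω j)]
    (p : ∀ j, Ω j → ℝ) (hp0 : ∀ j ω, 0 ≤ p j ω) (hp1 : ∀ j, ∑ ω, p j ω = 1) (G : ι → ∀ j, Ω j → ℝ) (b : ℕ → ℝ)
    (hG : ∀ i j ω, |G i j ω| ≤ b j) :
    ∃ w : ∀ j, Ω j, (∀ j, p j (w j) ≠ 0) ∧ ∀ i, ∃ C : ℝ, ∀ J,
      |∑ j ∈ range J, (G i j (w j) - ∑ ω, p j ω * G i j ω)| ≤ C * Real.sqrt (∑ j ∈ range J, b j ^ 2) := by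
  obtain ⟨e, he⟩ := exists_injective_nat ι
  set mean : ι → ℕ → ℝ := fun i j => ∑ ω, p j ω * G i j ω with hmean
  have hmb : ∀ i j, |mean i j| ≤ |b j| := by
    intro i j
    simp only [hmean]
    calc |∑ ω, p j ω * G i j ω| ≤ ∑ ω, |p j ω * G i j ω| := Finset.abs_sum_le_sum_abs _ _
      _ ≤ ∑ ω, p j ω * |b j| := by
          refine Finset.sum_le_sum fun ω _ => ?_
          rw [abs_mul, abs_of_nonneg (hp0 j ω)]
          exact mul_le_mul_of_nonneg_left ((hG i j ω).trans (le_abs_self _)) (hp0 j ω)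
      _ = |b j| := by rw [← Finset.sum_mul, hp1, one_mul]
  have hd : ∀ i j ω, |G i j ω - mean i j| ≤ 2 * |b j| := by
    intro i j ω
    have h1 := abs_sub (G i j ω) (mean i j)
    have h2 := (hG i j ω).trans (le_abs_self _)
    have h3 := hmb i j
    linarith
  have hsb : ∀ j (ω : Ω j) (s : Finset ι),
      ∑ i ∈ s, ‖((1 : ℝ) / 2) ^ e i * (G i j ω - mean i j)‖ ^ (2 : ENNReal).toReal ≤
        (4 * |b j|) ^ (2 : ENNReal).toReal := by
    intro j ω s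
    have h2 : (2 : ENNReal).toReal = ((2 : ℕ) : ℝ) := by norm_num
    rw [h2, Real.rpow_natCast]
    calc ∑ i ∈ s, ‖((1 : ℝ) / 2) ^ e i * (G i j ω - mean i j)‖ ^ ((2 : ℕ) : ℝ)
        ≤ ∑ i ∈ s, ((1 : ℝ) / 4) ^ e i * (2 * |b j|) ^ 2 := by
          refine Finset.sum_le_sum fun i _ => ?_
          rw [Real.rpow_natCast, norm_mul, mul_pow, norm_pow]
          have h3 : (‖(1 : ℝ) / 2‖ ^ e i) ^ 2 = ((1 : ℝ) / 4) ^ e i := by
            rw [← pow_mul, mul_comm (e i) 2, pow_mul]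
            norm_num
          rw [h3]
          refine mul_le_mul_of_nonneg_left ?_ (by positivity)
          rw [Real.norm_eq_abs]
          exact pow_le_pow_left₀ (abs_nonneg _) (hd i j ω) 2
      _ = (∑ i ∈ s, ((1 : ℝ) / 4) ^ e i) * (2 * |b j|) ^ 2 := by rw [Finset.sum_mul]
      _ ≤ 4 * (2 * |b j|) ^ 2 := mul_le_mul_of_nonneg_right (k1_geom e he s) (by positivity)
      _ = (4 * |b j|) ^ 2 := by ring
  let v : ∀ j, Ω j → lp (fun _ : ι => ℝ) 2 := fun j ω =>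
    ⟨fun i => ((1 : ℝ) / 2) ^ e i * (G i j ω - mean i j), memℓp_gen' (hsb j ω)⟩
  have hvi : ∀ j ω i, (v j ω : ι → ℝ) i = ((1 : ℝ) / 2) ^ e i * (G i j ω - mean i j) :=
    fun _ _ _ => rfl
  have hcoord : ∀ (s : Finset ℕ) (f : ℕ → lp (fun _ : ι => ℝ) 2) (i : ι),
      ((∑ j ∈ s, f j : lp (fun _ : ι => ℝ) 2) : ι → ℝ) i = ∑ j ∈ s, (f j : ι → ℝ) i := by
    intro s f i
    rw [lp.coeFn_sum, Finset.sum_apply]
  obtain ⟨w, hw1, hw2⟩ := K1_greedy Ω p hp0 hp1 v (fun j => by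
    ext i
    have h1 : ((∑ ω, p j ω • v j ω : lp (fun _ : ι => ℝ) 2) : ι → ℝ) i =
        ∑ ω, p j ω * (((1 : ℝ) / 2) ^ e i * (G i j ω - mean i j)) := by
      rw [lp.coeFn_sum, Finset.sum_apply]
      refine Finset.sum_congr rfl fun ω _ => ?_
      rw [lp.coeFn_smul, Pi.smul_apply, smul_eq_mul, hvi]
    rw [h1, lp.coeFn_zero, Pi.zero_apply]
    have h2 : ∑ ω, p j ω * (((1 : ℝ) / 2) ^ e i * (G i j ω - mean i j)) =
        ((1 : ℝ) / 2) ^ e i * (∑ ω, p j ω * G i j ω - mean i j * ∑ ω, p j ω) := by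
      rw [Finset.mul_sum Finset.univ _ (mean i j), ← Finset.sum_sub_distrib, Finset.mul_sum]
      exact Finset.sum_congr rfl fun ω _ => by ring
    rw [h2, hp1, mul_one]
    simp only [hmean, sub_self, mul_zero]) (fun j => 4 * |b j|)
    (fun j ω => lp.norm_le_of_forall_sum_le (by norm_num) (by positivity) (hsb j ω))
  refine ⟨w, hw1, fun i => ⟨4 * 2 ^ e i, fun J => ?_⟩⟩
  set SJ := ∑ j ∈ range J, v j (w j) with hSJ
  have h1 : ‖(SJ : ι → ℝ) i‖ ≤ ‖SJ‖ := lp.norm_apply_le_norm (by norm_num) SJ i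
  have h2 : ‖SJ‖ ≤ 4 * Real.sqrt (∑ j ∈ range J, b j ^ 2) := by
    have h3 := hw2 J
    have h4 : ∑ j ∈ range J, (4 * |b j|) ^ 2 = 4 ^ 2 * ∑ j ∈ range J, b j ^ 2 := by
      rw [Finset.mul_sum]
      exact Finset.sum_congr rfl fun j _ => by rw [mul_pow, sq_abs]
    rw [h4] at h3
    have h5 : 0 ≤ ∑ j ∈ range J, b j ^ 2 := Finset.sum_nonneg fun _ _ => sq_nonneg _
    rw [← Real.sqrt_sq (norm_nonneg SJ)]
    calc Real.sqrt (‖SJ‖ ^ 2) ≤ Real.sqrt (4 ^ 2 * ∑ j ∈ range J, b j ^ 2) := Real.sqrt_le_sqrt h3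
      _ = 4 * Real.sqrt (∑ j ∈ range J, b j ^ 2) := by
          rw [Real.sqrt_mul (by norm_num), Real.sqrt_sq (by norm_num)]
  have h3 : (SJ : ι → ℝ) i = ((1 : ℝ) / 2) ^ e i * ∑ j ∈ range J, (G i j (w j) - mean i j) := by
    rw [hSJ, hcoord, Finset.mul_sum]
  have h4 : ∑ j ∈ range J, (G i j (w j) - mean i j) = 2 ^ e i * (SJ : ι → ℝ) i := by
    rw [h3, ← mul_assoc, ← mul_pow]
    norm_num
  show |∑ j ∈ range J, (G i j (w j) - mean i j)| ≤ _
  rw [h4, abs_mul, abs_of_nonneg (by positivity : (0 : ℝ) ≤ 2 ^ e i)]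
  rw [Real.norm_eq_abs] at h1
  calc (2 : ℝ) ^ e i * |(SJ : ι → ℝ) i|
      ≤ 2 ^ e i * (4 * Real.sqrt (∑ j ∈ range J, b j ^ 2)) :=
        mul_le_mul_of_nonneg_left (h1.trans h2) (by positivity)
    _ = 4 * 2 ^ e i * Real.sqrt (∑ j ∈ range J, b j ^ 2) := by ring

end Pool.Agent.H808R2.AH
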