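import Mathlib
import Pool.Agent.H808R2.AH.Defs

/-!
Task K2 of the project MP_039ae7_nt: counting patterns in a concatenation of blocks.
-/

namespace Pool.Agent.H808R2.AH
open Finset

namespace K2aux

theorem Tlen_succ (B : ℕ → ℕ) (J : ℕ) : Tlen B (J + 1) = Tlen B J + 2 * B J := by
  simp [Tlen, sum_range_succ]

theorem Tlen_mono (B : ℕ → ℕ) : Monotone (Tlen B) :=
  monotone_nat_of_le_succ fun J => by rw [Tlen_succ]; omega

theorem block_unique (B : ℕ → ℕ) {i j t : ℕ} (h1 : Tlen B i ≤ t) (h2 : t < Tlen B (i + 1))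
    (h3 : Tlen B j ≤ t) (h4 : t < Tlen B (j + 1)) : i = j := by
  rcases lt_trichotomy i j with h | h | h
  · have := Tlen_mono B (Nat.succ_le_of_lt h)
    simp only [Nat.succ_eq_add_one] at this
    omega
  · exact h
  · have := Tlen_mono B (Nat.succ_le_of_lt h)
    simp only [Nat.succ_eq_add_one] at this
    omega

theorem glue_iff (B : ℕ → ℕ) (oc : ℕ → ℕ → Prop) {j τ : ℕ} (h : τ < 2 * B j) :
    glue B oc (Tlen B j + τ) ↔ oc j τ := by
  constructor
  · rintro ⟨i, h1, h2, h3⟩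
    have : i = j := block_unique B h1 h2 (Nat.le_add_right _ _) (by rw [Tlen_succ]; omega)
    subst this
    simpa using h3
  · intro h3
    exact ⟨j, Nat.le_add_right _ _, by rw [Tlen_succ]; omega, by simpa using h3⟩

theorem count_le (n r : ℕ) (P Q : ℕ → Prop) [DecidablePred P] [DecidablePred Q] (h : ∀ τ, r ≤ τ → τ + r < n → P τ → Q τ) :
    #{t ∈ range n | P t} ≤ #{t ∈ range n | Q t} + 2 * r := by
  have hsub : ({t ∈ range n | P t} : Finset ℕ) ⊆ {t ∈ range n | Q t} ∪ (range r ∪ Ico (n - r) n) := by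
    intro t ht
    simp only [mem_filter, mem_range, mem_union, mem_Ico] at ht ⊢
    by_cases h1 : t < r
    · exact Or.inr (Or.inl h1)
    · by_cases h2 : t + r < n
      · exact Or.inl ⟨ht.1, h t (by omega) h2 ht.2⟩
      · exact Or.inr (Or.inr ⟨by omega, ht.1⟩)
  calc #{t ∈ range n | P t} ≤ #({t ∈ range n | Q t} ∪ (range r ∪ Ico (n - r) n)) := card_le_card hsub
    _ ≤ #{t ∈ range n | Q t} + #(range r ∪ Ico (n - r) n) := card_union_le _ _
    _ ≤ #{t ∈ range n | Q t} + (#(range r) + #(Ico (n - r) n)) := by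
        gcongr; exact card_union_le _ _
    _ ≤ #{t ∈ range n | Q t} + 2 * r := by
        rw [card_range, Nat.card_Ico]; omega

theorem count_close (n r : ℕ) (P Q : ℕ → Prop) [DecidablePred P] [DecidablePred Q] (h : ∀ τ, r ≤ τ → τ + r < n → (P τ ↔ Q τ)) :
    |(#{t ∈ range n | P t} : ℝ) - #{t ∈ range n | Q t}| ≤ 2 * r := by
  have h1 := count_le n r P Q fun τ a b c => (h τ a b).1 c
  have h2 := count_le n r Q P fun τ a b c => (h τ a b).2 c
  have h1' : (#{t ∈ range n | P t} : ℝ) ≤ #{t ∈ range n | Q t} + 2 * r := by exact_mod_cast h1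
  have h2' : (#{t ∈ range n | Q t} : ℝ) ≤ #{t ∈ range n | P t} + 2 * r := by exact_mod_cast h2
  rw [abs_le]; constructor <;> linarith

theorem card_split (P : ℕ → Prop) [DecidablePred P] (a b : ℕ) :
    #{t ∈ range (a + b) | P t} = #{t ∈ range a | P t} + #{t ∈ range b | P (a + t)} := by
  rw [← Nat.count_eq_card_filter_range, ← Nat.count_eq_card_filter_range, ← Nat.count_eq_card_filter_range,
    Nat.count_add]

theorem card_image_filter (T : ℕ) (p : ℤ → Prop) [DecidablePred p] [DecidablePred fun a : ℕ => p (a : ℤ)] :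
    #{t ∈ (range T).image (fun a : ℕ => (a : ℤ)) | p t} = #{a ∈ range T | p ((a : ℕ) : ℤ)} := by
  have : ({t ∈ (range T).image (fun a : ℕ => (a : ℤ)) | p t} : Finset ℤ) =
      ({a ∈ range T | p ((a : ℕ) : ℤ)}).image (fun a : ℕ => (a : ℤ)) := by
    ext t
    simp only [mem_filter, mem_image]
    constructor
    · rintro ⟨⟨a, h1, rfl⟩, h2⟩
      exact ⟨a, ⟨h1, h2⟩, rfl⟩
    · rintro ⟨a, ⟨h1, h2⟩, rfl⟩
      exact ⟨⟨a, h1, rfl⟩, h2⟩
  rw [this, card_image_of_injective _ Nat.cast_injective]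

/-- the definition of `cnt`, unfolded -/
theorem cnt_eq (s : ℕ → Prop) (D : Finset ℤ) (T : ℕ)
    [DecidablePred fun a : ℕ => ∀ d ∈ D, 0 ≤ ((a : ℕ) : ℤ) + d ∧ s (((a : ℕ) : ℤ) + d).toNat] :
    cnt s D T = #{a ∈ range T | ∀ d ∈ D, 0 ≤ ((a : ℕ) : ℤ) + d ∧ s (((a : ℕ) : ℤ) + d).toNat} := by
  classical
  refine Eq.trans ?_ (card_image_filter T (fun t => ∀ d ∈ D, 0 ≤ t + d ∧ s (t + d).toNat))
  unfold cnt
  refine congrArg Finset.card ?_
  ext t
  simp only [mem_filter, Finset.bind_def, Finset.pure_def, Finset.mem_sup, mem_image, mem_singleton]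
  tauto

/-- the definition of `rcnt`, unfolded -/
theorem rcnt_eq (B : ℕ) (oc : ℕ → Prop) (D : Finset ℤ)
    [DecidablePred fun a : ℕ => ∀ d ∈ D, oc ((((a : ℕ) : ℤ) + d) % ((2 * B : ℕ) : ℤ)).toNat] :
    rcnt B oc D = #{a ∈ range (2 * B) | ∀ d ∈ D, oc ((((a : ℕ) : ℤ) + d) % ((2 * B : ℕ) : ℤ)).toNat} := by
  classical
  refine Eq.trans ?_ (card_image_filter (2 * B) (fun t => ∀ d ∈ D, oc ((t + d) % ((2 * B : ℕ) : ℤ)).toNat))
  unfold rcnt
  refine congrArg Finset.card ?_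
  ext t
  simp only [mem_filter, Finset.bind_def, Finset.pure_def, Finset.mem_sup, mem_image, mem_singleton]
  tauto

end K2aux

open K2aux in
/-- K2 -/
theorem K2_count (B : ℕ → ℕ) (hB : ∀ j, 1 ≤ B j) (oc : ℕ → ℕ → Prop) (D : Finset ℤ) :
    ∃ C : ℕ, ∀ J T : ℕ, Tlen B J ≤ T → T ≤ Tlen B (J + 1) →
      |(cnt (glue B oc) D T : ℝ) - ∑ j ∈ range J, (rcnt (B j) (oc j) D : ℝ)| ≤ C * (J + 1) + 2 * B J := by
  classical
  have _hB := hB
  obtain ⟨r, hr⟩ : ∃ r : ℕ, ∀ d ∈ D, d.natAbs ≤ r := ⟨D.sup Int.natAbs, fun d hd => le_sup (f := Int.natAbs) hd⟩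
  obtain ⟨P, hP⟩ : ∃ P : ℕ → Prop, P = fun t : ℕ => ∀ d ∈ D, 0 ≤ ((t : ℕ) : ℤ) + d ∧ glue B oc (((t : ℕ) : ℤ) + d).toNat :=
    ⟨_, rfl⟩
  have hcnt : ∀ T, cnt (glue B oc) D T = #{t ∈ range T | P t} := by
    intro T
    rw [cnt_eq]
    refine congrArg Finset.card ?_
    ext t
    simp only [mem_filter, hP]
  -- one block
  have hblock : ∀ j, |(#{t ∈ range (2 * B j) | P (Tlen B j + t)} : ℝ) - (rcnt (B j) (oc j) D : ℝ)| ≤ 2 * r := by
    intro j
    rw [rcnt_eq (B j) (oc j) D]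
    have key := count_close (2 * B j) r (fun t => P (Tlen B j + t))
      (fun t => ∀ d ∈ D, oc j ((((t : ℕ) : ℤ) + d) % ((2 * B j : ℕ) : ℤ)).toNat) ?_
    · exact key
    · intro τ h1 h2
      rw [hP]
      apply forall₂_congr
      intro d hd
      have hd' := hr d hd
      have e1 : (0 : ℤ) ≤ (τ : ℤ) + d := by omega
      have e2 : (τ : ℤ) + d < ((2 * B j : ℕ) : ℤ) := by omega
      have e3 : ((Tlen B j + τ : ℕ) : ℤ) + d = (Tlen B j : ℤ) + ((τ : ℤ) + d) := by push_cast; ring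
      have e4 : (((Tlen B j + τ : ℕ) : ℤ) + d).toNat = Tlen B j + ((τ : ℤ) + d).toNat := by
        rw [e3]; omega
      rw [e4, glue_iff B oc (by omega), Int.emod_eq_of_lt e1 e2]
      constructor
      · exact fun h => h.2
      · exact fun h => ⟨by rw [e3]; omega, h⟩
  -- all blocks
  have hall : ∀ J, |(#{t ∈ range (Tlen B J) | P t} : ℝ) - ∑ j ∈ range J, (rcnt (B j) (oc j) D : ℝ)| ≤ 2 * r * J := by
    intro J
    induction J with
    | zero => simp [Tlen]
    | succ J ih =>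
      rw [Tlen_succ, card_split, sum_range_succ]
      push_cast
      have h1 := hblock J
      have h2 : (#{t ∈ range (Tlen B J) | P t} : ℝ) + (#{t ∈ range (2 * B J) | P (Tlen B J + t)} : ℝ) -
          (∑ j ∈ range J, (rcnt (B j) (oc j) D : ℝ) + (rcnt (B J) (oc J) D : ℝ)) =
          ((#{t ∈ range (Tlen B J) | P t} : ℝ) - ∑ j ∈ range J, (rcnt (B j) (oc j) D : ℝ)) +
          ((#{t ∈ range (2 * B J) | P (Tlen B J + t)} : ℝ) - (rcnt (B J) (oc J) D : ℝ)) := by ring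
      rw [h2]
      refine (abs_add_le _ _).trans ((add_le_add ih h1).trans (le_of_eq ?_))
      ring
  refine ⟨2 * r, fun J T hT1 hT2 => ?_⟩
  obtain ⟨u, rfl⟩ := Nat.exists_eq_add_of_le hT1
  rw [Tlen_succ] at hT2
  have hu : u ≤ 2 * B J := by omega
  rw [hcnt, card_split]
  push_cast
  have h3 : (#{t ∈ range u | P (Tlen B J + t)} : ℝ) ≤ 2 * B J := by
    have : #{t ∈ range u | P (Tlen B J + t)} ≤ 2 * B J := by
      calc _ ≤ #(range u) := card_filter_le _ _
        _ = u := card_range u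
        _ ≤ _ := hu
    exact_mod_cast this
  have h4 := hall J
  have h2 : (#{t ∈ range (Tlen B J) | P t} : ℝ) + (#{t ∈ range u | P (Tlen B J + t)} : ℝ) -
      ∑ j ∈ range J, (rcnt (B j) (oc j) D : ℝ) =
      ((#{t ∈ range (Tlen B J) | P t} : ℝ) - ∑ j ∈ range J, (rcnt (B j) (oc j) D : ℝ)) +
      (#{t ∈ range u | P (Tlen B J + t)} : ℝ) := by ring
  rw [h2]
  have h5 : |(#{t ∈ range u | P (Tlen B J + t)} : ℝ)| ≤ 2 * B J := by
    rw [abs_of_nonneg (by positivity)]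
    exact h3
  refine (abs_add_le _ _).trans ((add_le_add h4 h5).trans ?_)
  have : (0 : ℝ) ≤ 2 * r := by positivity
  nlinarith

end Pool.Agent.H808R2.AH
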