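import Mathlib
import Pool.Agent.H808R2.AH.Defs

/-!
K3: the glued sequence: density, gaps.
-/

namespace Pool.Agent.H808R2.AH
open Finset Filter Topology MeasureTheory
open scoped FourierTransform

namespace K3Aux

variable {B : ℕ → ℕ} {oc : ℕ → ℕ → Prop}

theorem Tlen_succ (B : ℕ → ℕ) (J : ℕ) : Tlen B (J + 1) = Tlen B J + 2 * B J := sum_range_succ _ _

theorem Tlen_mono (B : ℕ → ℕ) : Monotone (Tlen B) :=
  monotone_nat_of_le_succ fun J => by rw [Tlen_succ]; omega

theorem le_Tlen (hB : ∀ j, 1 ≤ B j) (J : ℕ) : 2 * J ≤ Tlen B J := by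
  induction J with
  | zero => simp
  | succ J ih => rw [Tlen_succ]; have := hB J; omega

theorem glue_iff {J t : ℕ} (h1 : Tlen B J ≤ t) (h2 : t < Tlen B (J + 1)) :
    glue B oc t ↔ oc J (t - Tlen B J) := by
  constructor
  · rintro ⟨j, hj1, hj2, hj⟩
    have : j = J := by
      by_contra hne
      rcases lt_or_gt_of_ne hne with h | h
      · have := Tlen_mono B (show j + 1 ≤ J from h)
        omega
      · have := Tlen_mono B (show J + 1 ≤ j from h)
        omega
    rw [this] at hj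
    exact hj
  · intro h
    exact ⟨J, h1, h2, h⟩

open Classical in
theorem count_block (hoc : ∀ j, #{t ∈ range (2 * B j) | oc j t} = B j) (J : ℕ) :
    Nat.count (glue B oc) (Tlen B (J + 1)) = Nat.count (glue B oc) (Tlen B J) + B J := by
  rw [Tlen_succ, Nat.count_add]
  congr 1
  rw [Nat.count_eq_card_filter_range]
  conv_rhs => rw [← hoc J]
  congr 1
  ext k
  rw [mem_filter, mem_filter]
  refine and_congr_right fun hk => ?_
  rw [mem_range] at hk
  rw [glue_iff (J := J) (by omega) (by rw [Tlen_succ]; omega), Nat.add_sub_cancel_left]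

open Classical in
theorem count_Tlen (hoc : ∀ j, #{t ∈ range (2 * B j) | oc j t} = B j) (J : ℕ) :
    2 * Nat.count (glue B oc) (Tlen B J) = Tlen B J := by
  induction J with
  | zero => simp [Tlen]
  | succ J ih => rw [count_block hoc, Tlen_succ]; omega

open Classical in
theorem count_close (hoc : ∀ j, #{t ∈ range (2 * B j) | oc j t} = B j) {J T : ℕ}
    (h1 : Tlen B J ≤ T) (h2 : T ≤ Tlen B (J + 1)) :
    |2 * (Nat.count (glue B oc) T : ℝ) - T| ≤ 2 * B J := by
  have a1 := Nat.count_monotone (glue B oc) h1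
  have a2 := Nat.count_monotone (glue B oc) h2
  rw [count_block hoc] at a2
  rw [Tlen_succ] at h2
  have a3 := count_Tlen hoc J
  have b1 : 2 * Nat.count (glue B oc) T ≤ T + 2 * B J := by omega
  have b2 : T ≤ 2 * Nat.count (glue B oc) T + 2 * B J := by omega
  have c1 : 2 * (Nat.count (glue B oc) T : ℝ) ≤ T + 2 * B J := by exact_mod_cast b1
  have c2 : (T : ℝ) ≤ 2 * (Nat.count (glue B oc) T : ℝ) + 2 * B J := by exact_mod_cast b2
  rw [abs_le]
  constructor <;> linarith

theorem exists_block (hB : ∀ j, 1 ≤ B j) (T : ℕ) : ∃ J, Tlen B J ≤ T ∧ T < Tlen B (J + 1) := by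
  have hex : ∃ J, T < Tlen B J := ⟨T + 1, by have := le_Tlen hB (T + 1); omega⟩
  classical
  have hf := Nat.find_spec hex
  have h0 : Nat.find hex ≠ 0 := by
    intro h
    rw [h] at hf
    simp [Tlen] at hf
  obtain ⟨J, hJ⟩ := Nat.exists_eq_succ_of_ne_zero h0
  refine ⟨J, ?_, by rw [← Nat.succ_eq_add_one, ← hJ]; exact hf⟩
  by_contra hcon
  push Not at hcon
  have := Nat.find_min' hex hcon
  omega

open Classical in
theorem count_tendsto (hB : ∀ j, 1 ≤ B j) (hoc : ∀ j, #{t ∈ range (2 * B j) | oc j t} = B j)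
    (hlim : Tendsto (fun J => (B J : ℝ) / Tlen B J) atTop (𝓝 0)) :
    Tendsto (fun T : ℕ => (Nat.count (glue B oc) T : ℝ) / T) atTop (𝓝 (1 / 2)) := by
  rw [Metric.tendsto_atTop]
  intro ε hε
  obtain ⟨J0, hJ0⟩ := (Metric.tendsto_atTop.1 hlim) ε hε
  refine ⟨Tlen B (J0 + 1), fun T hT => ?_⟩
  obtain ⟨J, hJ1, hJ2⟩ := exists_block hB T
  have hJJ : J0 + 1 ≤ J := by
    by_contra hcon
    have := Tlen_mono B (show J + 1 ≤ J0 + 1 by omega)
    omega
  have h1 := hJ0 J (by omega)
  have hTl : 0 < Tlen B J := by have := le_Tlen hB J; omega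
  have hTl' : (0 : ℝ) < Tlen B J := by exact_mod_cast hTl
  have hT0 : (0 : ℝ) < T := by exact_mod_cast hTl.trans_le hJ1
  rw [Real.dist_eq, sub_zero, abs_of_nonneg (by positivity)] at h1
  have h2 := count_close hoc hJ1 hJ2.le
  rw [Real.dist_eq]
  have e : (Nat.count (glue B oc) T : ℝ) / T - 1 / 2 =
      (2 * (Nat.count (glue B oc) T : ℝ) - T) / (2 * T) := by
    field_simp
  rw [e, abs_div, abs_of_pos (show (0 : ℝ) < 2 * T by positivity)]
  calc |2 * (Nat.count (glue B oc) T : ℝ) - T| / (2 * T) ≤ 2 * B J / (2 * T) := by gcongr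
    _ = (B J : ℝ) / T := by field_simp
    _ ≤ (B J : ℝ) / Tlen B J := by
        gcongr
    _ < ε := h1

theorem infinite (hB : ∀ j, 1 ≤ B j)
    (hoc : open Classical in ∀ j, #{t ∈ range (2 * B j) | oc j t} = B j) :
    (Set.ofPred (glue B oc)).Infinite := by
  classical
  intro hfin
  have h1 := Nat.count_le_card (p := glue B oc) hfin (Tlen B ((Finset.card hfin.toFinset) + 1))
  have h2 := count_Tlen hoc ((Finset.card hfin.toFinset) + 1)
  have h3 := le_Tlen hB ((Finset.card hfin.toFinset) + 1)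
  have h4 : 2 * Nat.count (glue B oc) (Tlen B ((Finset.card hfin.toFinset) + 1)) ≤ 2 * (Finset.card hfin.toFinset) := by
    gcongr
  omega

end K3Aux

open K3Aux

/-- K3 -/
theorem K3_seq (B : ℕ → ℕ) (hB : ∀ j, 1 ≤ B j) (oc : ℕ → ℕ → Prop)
    (hoc : open Classical in ∀ j, #{t ∈ range (2 * B j) | oc j t} = B j)
    (hlim : Tendsto (fun J => (B J : ℝ) / Tlen B J) atTop (𝓝 0)) :
    (setOf (glue B oc)).Infinite ∧ Monotone (seqOf (glue B oc)) ∧
    Tendsto (fun X : ℝ => (Set.ncard {j : ℕ | seqOf (glue B oc) j ≤ X} : ℝ) / X) atTop (𝓝 1) ∧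
    Tendsto (fun j : ℕ => Metric.infDist (seqOf (glue B oc) (j + 1) - seqOf (glue B oc) j)
      {z : ℝ | ∃ k : ℤ, k ≠ 0 ∧ z = k / 2}) atTop (𝓝 0) ∧
    Tendsto (fun M : ℕ => (Nat.nth (glue B oc) M : ℝ) / M) atTop (𝓝 2) := by
  classical
  have hinf := infinite hB hoc
  have hmono := Nat.nth_strictMono hinf
  have hcount := count_tendsto hB hoc hlim
  refine ⟨hinf, ?_, ?_, ?_, ?_⟩
  · intro i j hij
    unfold seqOf
    have := hmono.monotone hij
    gcongr
  · have hset : ∀ X : ℝ, 0 ≤ X → {j : ℕ | seqOf (glue B oc) j ≤ X} =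
        ((range (Nat.count (glue B oc) (⌊2 * X⌋₊ + 1)) : Finset ℕ) : Set ℕ) := by
      intro X hX
      ext j
      rw [Set.mem_ofPred_eq, coe_range, Set.mem_Iio, Nat.lt_nth_iff_count_lt hinf, seqOf,
        div_le_iff₀ (by norm_num), mul_comm, Nat.lt_succ_iff, Nat.le_floor_iff (by positivity)]
    have hfl : Tendsto (fun X : ℝ => ((⌊2 * X⌋₊ + 1 : ℕ) : ℝ) / X) atTop (𝓝 2) := by
      have h1 := tendsto_nat_floor_mul_div_atTop (R := ℝ) (a := 2) (by norm_num)
      have h2 : Tendsto (fun X : ℝ => 1 / X) atTop (𝓝 0) := by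
        simpa using tendsto_inv_atTop_zero (𝕜 := ℝ)
      have h3 := h1.add h2
      rw [add_zero] at h3
      refine h3.congr fun X => ?_
      push_cast
      rw [add_div]
    have hT : Tendsto (fun X : ℝ => ⌊2 * X⌋₊ + 1) atTop atTop := by
      refine (tendsto_add_atTop_nat 1).comp ?_
      exact tendsto_nat_floor_atTop.comp (tendsto_id.const_mul_atTop (by norm_num))
    have h4 := (hcount.comp hT).mul hfl
    rw [show (1 / 2 : ℝ) * 2 = 1 by norm_num] at h4
    refine h4.congr' ?_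
    filter_upwards [eventually_ge_atTop (0 : ℝ)] with X hX
    rw [hset X hX, Set.ncard_coe_finset, card_range]
    simp only [Function.comp]
    have : ((⌊2 * X⌋₊ + 1 : ℕ) : ℝ) ≠ 0 := by positivity
    field_simp
  · refine tendsto_const_nhds.congr fun j => ?_
    symm
    refine Metric.infDist_zero_of_mem ?_
    refine ⟨(Nat.nth (glue B oc) (j + 1) : ℤ) - Nat.nth (glue B oc) j, ?_, ?_⟩
    · have := hmono (Nat.lt_add_one j)
      omega
    · unfold seqOf
      push_cast
      ring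
  · have h1 := hcount.comp hmono.tendsto_atTop
    have h2 := h1.inv₀ (by norm_num)
    rw [show ((1 / 2 : ℝ))⁻¹ = 2 by norm_num] at h2
    refine h2.congr fun M => ?_
    simp only [Function.comp]
    rw [Nat.count_nth_of_infinite hinf, inv_div]

end Pool.Agent.H808R2.AH
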