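import Mathlib
import Pool.Agent.H808R2.AH.Defs

/-!
K3': gaps `5/2` and the pattern `1 0 0 0 0 1`; inclusion-exclusion.
-/

namespace Pool.Agent.H808R2.AH
open Finset Filter Topology MeasureTheory
open scoped FourierTransform

namespace K3bAux

open Classical in
theorem ie (T : Finset ℕ) (P : ℕ → ℤ → Prop) (Q0 : Finset ℤ) :
    (#{t ∈ T | P t 0 ∧ P t 5 ∧ ∀ i ∈ Q0, ¬ P t i} : ℝ) =
      ∑ Q ∈ Q0.powerset, (-1 : ℝ) ^ #Q * #{t ∈ T | ∀ d ∈ insert 0 (insert 5 Q), P t d} := by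
  have h1 : ∀ t : ℕ, (if P t 0 ∧ P t 5 ∧ ∀ i ∈ Q0, ¬ P t i then (1 : ℝ) else 0) =
      ∑ Q ∈ Q0.powerset, (-1 : ℝ) ^ #Q * (if ∀ d ∈ insert 0 (insert 5 Q), P t d then 1 else 0) := by
    intro t
    have e1 : (if P t 0 ∧ P t 5 ∧ ∀ i ∈ Q0, ¬ P t i then (1 : ℝ) else 0) =
        (if P t 0 then 1 else 0) * (if P t 5 then 1 else 0) *
          ∏ i ∈ Q0, (-(if P t i then 1 else 0) + 1) := by
      have e2 : ∏ i ∈ Q0, (-(if P t i then (1 : ℝ) else 0) + 1) =
          if ∀ i ∈ Q0, ¬ P t i then 1 else 0 := by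
        rw [← prod_boole]
        refine prod_congr rfl fun i _ => ?_
        by_cases h : P t i <;> simp [h]
      rw [e2]
      by_cases h0 : P t 0 <;> by_cases h5 : P t 5 <;> by_cases h6 : ∀ i ∈ Q0, ¬ P t i <;>
        simp [h0, h5, h6]
    rw [e1, prod_add, mul_sum]
    refine sum_congr rfl fun Q _ => ?_
    rw [prod_const_one, mul_one]
    have e3 : ∏ i ∈ Q, (-(if P t i then (1 : ℝ) else 0)) =
        (-1) ^ #Q * (if ∀ i ∈ Q, P t i then 1 else 0) := by
      rw [← prod_boole, ← prod_const, ← prod_mul_distrib]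
      exact prod_congr rfl fun i _ => by ring
    rw [e3]
    have e4 : (if ∀ d ∈ insert 0 (insert 5 Q), P t d then (1 : ℝ) else 0) =
        (if P t 0 then 1 else 0) * (if P t 5 then 1 else 0) *
          (if ∀ i ∈ Q, P t i then 1 else 0) := by
      simp only [forall_mem_insert]
      by_cases h0 : P t 0 <;> by_cases h5 : P t 5 <;> by_cases h6 : ∀ i ∈ Q, P t i <;>
        simp [h0, h5, h6]
    rw [e4]
    ring
  rw [← sum_boole]
  simp only [h1]
  rw [sum_comm]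
  refine sum_congr rfl fun Q _ => ?_
  rw [← mul_sum]
  congr 1
  simp only [← sum_boole]

open Classical in
/-- the coercion of `range T` to a finset of integers in the definitions `cnt`, `rcnt`, `pat` -/
theorem do_eq (T : ℕ) : ((do let a ← range T; pure (a : ℤ) : Finset ℤ)) =
    (range T).image fun a : ℕ => (a : ℤ) := by
  have h := bind_pure_comp (m := Finset) (fun a : ℕ => (a : ℤ)) (range T)
  refine h.trans ?_
  rw [Finset.fmap_def]
  ext x
  simp only [mem_image]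

open Classical in
theorem card_do (T : ℕ) (p : ℤ → Prop) [i1 : DecidablePred p]
    [_i2 : DecidablePred fun t : ℕ => p t] :
    #{t ∈ (do let a ← range T; pure (a : ℤ) : Finset ℤ) | p t} =
      #(filter (fun t : ℕ => p (t : ℤ)) (range T)) := by
  rw [do_eq, filter_image, card_image_of_injective _ Nat.cast_injective]
  congr!

open Classical in
theorem cnt_eq (s : ℕ → Prop) (D : Finset ℤ) (T : ℕ) :
    cnt s D T = #(filter (fun t : ℕ => ∀ d ∈ D, 0 ≤ (t : ℤ) + d ∧ s ((t : ℤ) + d).toNat) (range T)) :=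
  card_do T (fun t : ℤ => ∀ d ∈ D, 0 ≤ t + d ∧ s (t + d).toNat)

open Classical in
theorem rcnt_eq (B : ℕ) (oc : ℕ → Prop) (D : Finset ℤ) :
    rcnt B oc D =
      #(filter (fun t : ℕ => ∀ d ∈ D, oc (((t : ℤ) + d) % ((2 * B : ℕ) : ℤ)).toNat)
        (range (2 * B))) :=
  card_do (2 * B) (fun t : ℤ => ∀ d ∈ D, oc ((t + d) % ((2 * B : ℕ) : ℤ)).toNat)

open Classical in
theorem pat_eq {N : ℕ} (s : Fin N → Site N) :
    pat s = #(filter (fun t : ℕ => (∃ j, s j = site N t) ∧ (∃ j, s j = site N (t + 5)) ∧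
      ∀ i : ℕ, 1 ≤ i → i ≤ 4 → ¬ ∃ j, s j = site N (t + i)) (range (2 * N))) :=
  card_do (2 * N) (fun t : ℤ => (∃ j, s j = site N t) ∧ (∃ j, s j = site N (t + 5)) ∧
    ∀ i : ℕ, 1 ≤ i → i ≤ 4 → ¬ ∃ j, s j = site N (t + i))

theorem gap_iff (s : ℕ → Prop) (hs : (Set.ofPred s).Infinite) (j : ℕ) :
    |seqOf s (j + 1) - seqOf s j - 5 / 2| < 1 / 4 ↔
      s (Nat.nth s j + 5) ∧ ∀ i : ℕ, 1 ≤ i → i ≤ 4 → ¬ s (Nat.nth s j + i) := by
  have hmono := Nat.nth_strictMono hs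
  have h1 : |seqOf s (j + 1) - seqOf s j - 5 / 2| < 1 / 4 ↔
      Nat.nth s (j + 1) = Nat.nth s j + 5 := by
    unfold seqOf
    constructor
    · intro h
      rw [abs_lt] at h
      have h2 : ((Nat.nth s j + 5 : ℕ) : ℝ) - 1 / 2 < (Nat.nth s (j + 1) : ℝ) := by
        push_cast
        linarith [h.1]
      have h3 : (Nat.nth s (j + 1) : ℝ) < ((Nat.nth s j + 5 : ℕ) : ℝ) + 1 / 2 := by
        push_cast
        linarith [h.2]
      have h4 : (Nat.nth s j + 5 : ℕ) < Nat.nth s (j + 1) + 1 := by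
        have : ((Nat.nth s j + 5 : ℕ) : ℝ) < ((Nat.nth s (j + 1) + 1 : ℕ) : ℝ) := by
          push_cast at h2 ⊢
          linarith
        exact_mod_cast this
      have h5 : Nat.nth s (j + 1) < (Nat.nth s j + 5 : ℕ) + 1 := by
        have : (Nat.nth s (j + 1) : ℝ) < ((Nat.nth s j + 5 + 1 : ℕ) : ℝ) := by
          push_cast at h3 ⊢
          linarith
        exact_mod_cast this
      omega
    · intro h
      rw [h]
      push_cast
      rw [show ((Nat.nth s j : ℝ) + 5) / 2 - (Nat.nth s j : ℝ) / 2 - 5 / 2 = 0 by ring]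
      norm_num
  rw [h1]
  have hmem : ∀ n, s (Nat.nth s n) := Nat.nth_mem_of_infinite hs
  have hsurj : ∀ x, s x → ∃ k, Nat.nth s k = x := fun x hx => by
    obtain ⟨k, -, hk⟩ := Nat.exists_lt_card_nth_eq hx
    exact ⟨k, hk⟩
  constructor
  · intro h
    refine ⟨h ▸ hmem (j + 1), fun i hi1 hi4 hi => ?_⟩
    obtain ⟨k, hk⟩ := hsurj _ hi
    have h2 : j < k := hmono.lt_iff_lt.1 (by rw [hk]; omega)
    have h3 : k < j + 1 := hmono.lt_iff_lt.1 (by rw [hk, h]; omega)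
    omega
  · rintro ⟨h5, h4⟩
    obtain ⟨k, hk⟩ := hsurj _ h5
    have h2 : j < k := hmono.lt_iff_lt.1 (by rw [hk]; omega)
    have h3 : Nat.nth s (j + 1) ≤ Nat.nth s k := hmono.monotone (by omega)
    have h6 : Nat.nth s j < Nat.nth s (j + 1) := hmono (Nat.lt_succ_self j)
    rw [hk] at h3
    by_contra hne
    refine h4 (Nat.nth s (j + 1) - Nat.nth s j) (by omega) (by omega) ?_
    rw [Nat.add_sub_cancel' h6.le]
    exact hmem (j + 1)

theorem four_iff {p : ℤ → Prop} : (∀ i ∈ ({1, 2, 3, 4} : Finset ℤ), ¬ p i) ↔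
    ∀ i : ℕ, 1 ≤ i → i ≤ 4 → ¬ p i := by
  simp only [forall_mem_insert, mem_singleton, forall_eq]
  constructor
  · rintro ⟨h1, h2, h3, h4⟩ i hi1 hi4
    interval_cases i
    · exact h1
    · exact h2
    · exact h3
    · exact h4
  · intro h
    exact ⟨h 1 le_rfl (by norm_num), h 2 (by norm_num) (by norm_num), h 3 (by norm_num) (by norm_num),
      h 4 (by norm_num) le_rfl⟩

theorem pos_site (N : ℕ) [NeZero N] (u : ℤ) :
    ((pos (site N u) : ℕ) : ℤ) = u % ((2 * N : ℕ) : ℤ) := by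
  have hN : (0 : ℤ) < N := by exact_mod_cast Nat.pos_of_ne_zero (NeZero.ne N)
  have h1 : ((((u / 2 : ℤ) : ZMod N).val : ℕ) : ℤ) = (u / 2) % N := ZMod.val_intCast _
  have h2 : u % ((2 * N : ℕ) : ℤ) = 2 * ((u / 2) % N) + u % 2 := by
    have e : u = 2 * ((u / 2) % N) + u % 2 + ((2 * N : ℕ) : ℤ) * ((u / 2) / N) := by
      have e1 := Int.emod_add_mul_ediv u 2
      have e2 := Int.emod_add_mul_ediv (u / 2) N
      push_cast
      linear_combination (-1 : ℤ) * e1 - 2 * e2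
    have hr0 := Int.emod_nonneg (u / 2) hN.ne'
    have hr1 := Int.emod_lt_of_pos (u / 2) hN
    have hb0 := Int.emod_nonneg u (by norm_num : (2 : ℤ) ≠ 0)
    have hb1 := Int.emod_lt_of_pos u (by norm_num : (0 : ℤ) < 2)
    conv_lhs => rw [e]
    rw [Int.add_mul_emod_self_left, Int.emod_eq_of_lt (by omega) (by push_cast; omega)]
  rw [h2, ← h1]
  unfold pos site
  simp only [Nat.cast_add, Nat.cast_mul, Nat.cast_ofNat]
  congr 1
  by_cases h : u % 2 = 1
  · simp [h]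
  · have : u % 2 = 0 := by omega
    simp [this]

theorem pos_inj {N : ℕ} [NeZero N] {p p' : Site N} (h : pos p = pos p') : p = p' := by
  obtain ⟨b, x⟩ := p
  obtain ⟨b', x'⟩ := p'
  unfold pos at h
  simp only at h
  have hx : x.val = x'.val := by
    cases b <;> cases b' <;> simp at h <;> omega
  have hb : b = b' := by
    cases b <;> cases b' <;> simp at h <;> first | rfl | omega
  rw [hb, ZMod.val_injective N hx]

theorem oc_iff {N : ℕ} [NeZero N] (s : Fin N → Site N) (u : ℤ) :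
    ocOf s (u % ((2 * N : ℕ) : ℤ)).toNat ↔ ∃ j, s j = site N u := by
  unfold ocOf
  refine exists_congr fun j => ?_
  rw [← pos_site N u, Int.toNat_natCast]
  exact ⟨fun h => pos_inj h, fun h => by rw [h]⟩

end K3bAux

open K3bAux

/-- K3': the frequency of gaps `5/2` in terms of pattern counts -/
theorem K3_freq (s : ℕ → Prop) (hs : (setOf s).Infinite) (M : ℕ) :
    freq (seqOf s) (5 / 2) M = (∑ Q ∈ ({1, 2, 3, 4} : Finset ℤ).powerset,
      (-1 : ℝ) ^ #Q * cnt s (insert 0 (insert 5 Q)) (Nat.nth s M)) / M := by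
  classical
  have hmono := Nat.nth_strictMono hs
  obtain ⟨P, hP⟩ : ∃ P : ℕ → ℤ → Prop, ∀ t d, P t d ↔ (0 ≤ (t : ℤ) + d ∧ s ((t : ℤ) + d).toNat) :=
    ⟨_, fun _ _ => Iff.rfl⟩
  have h := ie (range (Nat.nth s M)) P {1, 2, 3, 4}
  unfold freq
  refine congrArg (fun z : ℝ => z / (M : ℝ)) (Eq.trans ?_ (h.trans ?_))
  swap
  · refine sum_congr rfl fun Q _ => ?_
    rw [cnt_eq]
    refine congrArg (fun k : ℕ => (-1 : ℝ) ^ #Q * (k : ℝ)) ?_
    refine congrArg Finset.card (Finset.ext fun t => ?_)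
    simp only [mem_filter, hP]
  refine congrArg (fun k : ℕ => (k : ℝ)) ?_
  refine card_bij (fun j _ => Nat.nth s j) ?_ ?_ ?_
  · intro j hj
    rw [mem_filter, mem_range] at hj
    have hg := (gap_iff s hs j).1 hj.2
    rw [mem_filter, mem_range, hP, hP]
    refine ⟨hmono hj.1, ⟨by positivity, ?_⟩, ⟨by positivity, ?_⟩, ?_⟩
    · simpa using Nat.nth_mem_of_infinite hs j
    · exact hg.1
    · rw [four_iff (p := fun i : ℤ => P (Nat.nth s j) i)]
      intro i hi1 hi4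
      rw [hP]
      rintro ⟨-, hi⟩
      exact hg.2 i hi1 hi4 hi
  · intro j _ j' _ hjj
    exact hmono.injective hjj
  · intro t ht
    rw [mem_filter, mem_range, hP, hP, four_iff (p := fun i : ℤ => P t i)] at ht
    obtain ⟨ht1, ⟨-, ht2⟩, ⟨-, ht3⟩, ht4⟩ := ht
    simp only [add_zero, Int.toNat_natCast] at ht2
    obtain ⟨k, -, hk⟩ := Nat.exists_lt_card_nth_eq ht2
    refine ⟨k, ?_, hk⟩
    rw [mem_filter, mem_range]
    refine ⟨hmono.lt_iff_lt.1 (by rw [hk]; exact ht1), (gap_iff s hs k).2 ⟨?_, ?_⟩⟩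
    · rw [hk]
      exact ht3
    · intro i hi1 hi4 hi
      rw [hk] at hi
      exact ht4 i hi1 hi4 ((hP t i).2 ⟨by positivity, hi⟩)

theorem K3_pat {N : ℕ} [NeZero N] (s : Fin N → Site N) :
    (pat s : ℝ) = ∑ Q ∈ ({1, 2, 3, 4} : Finset ℤ).powerset,
      (-1 : ℝ) ^ #Q * rcnt N (ocOf s) (insert 0 (insert 5 Q)) := by
  classical
  obtain ⟨P, hP⟩ : ∃ P : ℕ → ℤ → Prop, ∀ t d, P t d ↔
      ocOf s (((t : ℤ) + d) % ((2 * N : ℕ) : ℤ)).toNat := ⟨_, fun _ _ => Iff.rfl⟩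
  have h := ie (range (2 * N)) P {1, 2, 3, 4}
  rw [pat_eq]
  refine Eq.trans ?_ (h.trans ?_)
  swap
  · refine sum_congr rfl fun Q _ => ?_
    rw [rcnt_eq]
    refine congrArg (fun k : ℕ => (-1 : ℝ) ^ #Q * (k : ℝ)) ?_
    refine congrArg Finset.card (Finset.ext fun t => ?_)
    simp only [mem_filter, hP]
  refine congrArg (fun k : ℕ => (k : ℝ)) ?_
  refine congrArg Finset.card ?_
  refine filter_congr fun t _ => ?_
  rw [four_iff (p := fun i : ℤ => P t i)]
  simp only [hP, oc_iff, add_zero]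

end Pool.Agent.H808R2.AH
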