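import Pool.Agent.H808R2.AH.Defs

/-! Module K4a: tails of test functions; correlation sum of a 0/1 sequence. -/

namespace Pool.Agent.H808R2.AH
open Finset Filter Topology

theorem K4a_summable_int : Summable fun z : ℤ => (1 + ((z : ℝ) / 2) ^ 2)⁻¹ := by
  have h1 : Summable fun z : ℤ => 4 * (1 / (z : ℝ) ^ 2) + (if z = 0 then (1 : ℝ) else 0) := by
    refine Summable.add ?_ ?_
    · exact (Real.summable_one_div_int_pow.mpr (by norm_num : 1 < 2)).mul_left 4
    · exact (hasSum_ite_eq (0 : ℤ) (1 : ℝ)).summable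
  refine Summable.of_nonneg_of_le (fun z => by positivity) (fun z => ?_) h1
  by_cases hz : z = 0
  · subst hz; norm_num
  · rw [if_neg hz, add_zero]
    have hz' : (z : ℝ) ≠ 0 := by exact_mod_cast hz
    have h2 : 0 < (z : ℝ) ^ 2 := by positivity
    rw [inv_eq_one_div, mul_one_div, div_le_div_iff₀ (by positivity) h2]
    nlinarith

theorem K4a_summable_prod (g : ℤ → ℝ) (hg : Summable g) (h0 : ∀ z, 0 ≤ g z) (m : ℕ) :
    Summable fun z : Fin m → ℤ => ∏ i, g (z i) := by
  induction m with
  | zero => exact Summable.of_finite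
  | succ m ih =>
    have h2 : ∀ z : Fin m → ℤ, 0 ≤ ∏ i, g (z i) := fun z => Finset.prod_nonneg fun i _ => h0 _
    have h1 : Summable fun p : ℤ × (Fin m → ℤ) => g p.1 * ∏ i, g (p.2 i) :=
      Summable.mul_of_nonneg (f := g) (g := fun z : Fin m → ℤ => ∏ i, g (z i)) hg ih h0 h2
    have h3 : (fun z : Fin (m + 1) → ℤ => ∏ i, g (z i)) =
        (fun p : ℤ × (Fin m → ℤ) => g p.1 * ∏ i, g (p.2 i)) ∘
          (Fin.consEquiv (fun _ : Fin (m + 1) => ℤ)).symm := by
      funext z
      rw [Fin.prod_univ_succ]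
      rfl
    rw [h3]
    exact (Fin.consEquiv (fun _ : Fin (m + 1) => ℤ)).symm.summable_iff.mpr h1

theorem K4a_bound {m : ℕ} {f : (Fin (m + 1) → ℝ) → ℝ} {F : (Fin m → ℝ) → ℂ}
    (h : TestPair f F) : Summable fun z : Fin m → ℤ => |fval f z| := by
  obtain ⟨C, hC, hb⟩ := h.decay
  have h1 := (K4a_summable_prod (fun z : ℤ => (1 + ((z : ℝ) / 2) ^ 2)⁻¹) K4a_summable_int
    (fun z => by positivity) m).mul_left C
  have h2 : ∀ z : Fin m → ℤ, |fval f z| ≤ C * ∏ i, (1 + ((z i : ℝ) / 2) ^ 2)⁻¹ :=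
    fun z => hb fun i => (z i : ℝ) / 2
  exact Summable.of_nonneg_of_le (fun z => abs_nonneg _) h2 h1

/-- K4 -/
theorem K4_tail {m : ℕ} {f : (Fin (m + 1) → ℝ) → ℝ} {F : (Fin m → ℝ) → ℂ} (h : TestPair f F) :
    (Summable fun z : Fin m → ℤ => |fval f z|) ∧ Tendsto (fun R : ℕ => tail f R) atTop (𝓝 0) := by
  have hs := K4a_bound h
  refine ⟨hs, ?_⟩
  have h0 : (0 : ℝ) = ∑' _ : Fin m → ℤ, (0 : ℝ) := by rw [tsum_zero]
  rw [h0]
  unfold tail
  refine tendsto_tsum_of_dominated_convergence hs (fun y => ?_) ?_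
  · refine tendsto_const_nhds.congr' ?_
    refine (eventually_ge_atTop (∑ i, (y i).natAbs)).mono fun R hR => ?_
    change (0 : ℝ) = if ∀ i, |y i| ≤ (R : ℤ) then 0 else |fval f y|
    rw [if_pos]
    intro i
    have h1 : (y i).natAbs ≤ ∑ i, (y i).natAbs :=
      Finset.single_le_sum (f := fun i => (y i).natAbs) (fun _ _ => Nat.zero_le _) (mem_univ i)
    rw [Int.abs_eq_natAbs]
    exact_mod_cast h1.trans hR
  · refine Eventually.of_forall fun R y => ?_
    split_ifs
    · rw [norm_zero]; exact abs_nonneg _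
    · rw [Real.norm_eq_abs, abs_abs]

theorem K4a_rep {m : ℕ} {f : (Fin (m + 1) → ℝ) → ℝ} {F : (Fin m → ℝ) → ℂ} (h : TestPair f F)
    (x : Fin (m + 1) → ℝ) : f x = f (Fin.cons 0 fun i => x i.succ - x 0) := by
  have h1 := h.rep x
  have h2 := h.rep (Fin.cons 0 fun i => x i.succ - x 0)
  simp only [Fin.cons_succ, Fin.cons_zero, sub_zero] at h2
  rw [← h1] at h2
  exact_mod_cast h2.symm

/-- the offsets `y` are distinct, nonzero and lead from the occupied site `t` to occupied sites -/
def K4a_good {m : ℕ} (s : ℕ → Prop) (t : ℕ) (y : Fin m → ℤ) : Prop :=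
  (Function.Injective y ∧ ∀ i, y i ≠ 0) ∧ ∀ i, 0 ≤ (t : ℤ) + y i ∧ s ((t : ℤ) + y i).toNat

open Classical in
theorem K4a_cnt {m : ℕ} (s : ℕ → Prop) (hs : (setOf s).Infinite) (M : ℕ) (y : Fin m → ℤ) :
    cnt s (offs y) (Nat.nth s M) =
      #{j ∈ range M | ∀ i, 0 ≤ (Nat.nth s j : ℤ) + y i ∧ s ((Nat.nth s j : ℤ) + y i).toNat} := by
  unfold cnt
  have hmono : StrictMono (Nat.nth s) := Nat.nth_strictMono hs
  have hinj : Function.Injective (fun j : ℕ => (Nat.nth s j : ℤ)) := by
    intro a b hab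
    have h : (Nat.nth s a : ℤ) = Nat.nth s b := hab
    exact hmono.injective (by exact_mod_cast h)
  rw [← Finset.card_image_of_injective
    {j ∈ range M | ∀ i, 0 ≤ (Nat.nth s j : ℤ) + y i ∧ s ((Nat.nth s j : ℤ) + y i).toNat} hinj]
  refine congrArg Finset.card ?_
  ext t
  have hmem : t ∈ (do let a ← range (Nat.nth s M); pure (a : ℤ) : Finset ℤ) ↔
      ∃ a, a < Nat.nth s M ∧ t = a := by
    simp only [Finset.bind_def, Finset.mem_sup, Finset.pure_def, Finset.mem_singleton,
      Finset.mem_range]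
  rw [Finset.mem_filter, hmem]
  simp only [Finset.mem_filter, Finset.mem_range, Finset.mem_image, offs, Finset.mem_insert,
    Finset.mem_univ, true_and, forall_eq_or_imp, forall_exists_index, forall_apply_eq_imp_iff]
  constructor
  · rintro ⟨⟨a, h1, rfl⟩, ⟨h2, h3⟩, h4⟩
    rw [add_zero, Int.toNat_natCast] at h3
    obtain ⟨j, hj⟩ : ∃ j, Nat.nth s j = a := by
      have := Nat.range_nth_of_infinite hs
      have h5 : a ∈ Set.ofPred s := h3
      rw [← this] at h5
      exact h5
    subst hj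
    exact ⟨j, ⟨hmono.lt_iff_lt.mp h1, h4⟩, rfl⟩
  · rintro ⟨j, ⟨h1, h2⟩, rfl⟩
    refine ⟨⟨_, hmono h1, rfl⟩, ⟨?_, ?_⟩, h2⟩
    · omega
    · rw [add_zero, Int.toNat_natCast]
      exact Nat.nth_mem_of_infinite hs j

theorem K4_seq {m : ℕ} {f : (Fin (m + 1) → ℝ) → ℝ} {F : (Fin m → ℝ) → ℂ} (h : TestPair f F) (s : ℕ → Prop)
    (hs : (setOf s).Infinite) (M R : ℕ) :
    (Summable fun j : CorrIdx m M => f (fun i => seqOf s (j.1 i))) ∧
    |∑' j : CorrIdx m M, f (fun i => seqOf s (j.1 i)) -
      ∑ y ∈ box m R, fval f y * (cnt s (offs y) (Nat.nth s M) : ℝ)| ≤ M * tail f R := by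
  classical
  have hsum := K4a_bound h
  have hmono : StrictMono (Nat.nth s) := Nat.nth_strictMono hs
  -- the map to offsets
  set Φ : CorrIdx m M → Fin M × (Fin m → ℤ) := fun j =>
    (⟨j.1 0, j.2.2⟩, fun i => (Nat.nth s (j.1 i.succ) : ℤ) - Nat.nth s (j.1 0)) with hΦ
  have hval : ∀ j : CorrIdx m M, f (fun i => seqOf s (j.1 i)) = fval f (Φ j).2 := by
    intro j
    rw [K4a_rep h]
    unfold fval
    congr 2
    funext i
    simp only [seqOf, hΦ]
    push_cast
    ring
  have hinj : Function.Injective Φ := by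
    intro j j' hjj
    simp only [hΦ, Prod.mk.injEq, Fin.mk.injEq] at hjj
    obtain ⟨h1, h2⟩ := hjj
    apply Subtype.ext
    funext i
    rcases Fin.eq_zero_or_eq_succ i with rfl | ⟨i, rfl⟩
    · exact h1
    have h3 := congrFun h2 i
    rw [h1] at h3
    have h4 : Nat.nth s (j.1 i.succ) = Nat.nth s (j'.1 i.succ) := by omega
    exact hmono.injective h4
  have hprod : Summable fun p : Fin M × (Fin m → ℤ) => fval f p.2 := by
    have h1 : Summable fun p : Fin M × (Fin m → ℤ) => (1 : ℝ) * |fval f p.2| :=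
      Summable.mul_of_nonneg (f := fun _ : Fin M => (1 : ℝ)) Summable.of_finite hsum
        (fun _ => zero_le_one) (fun _ => abs_nonneg _)
    exact (h1.congr fun p => one_mul _).of_abs
  have hfirst : Summable fun j : CorrIdx m M => f (fun i => seqOf s (j.1 i)) := by
    have := hprod.comp_injective hinj
    refine this.congr fun j => ?_
    rw [hval]; rfl
  refine ⟨hfirst, ?_⟩
  -- the indicator form
  set H : Fin M × (Fin m → ℤ) → ℝ := fun p =>
    if K4a_good s (Nat.nth s p.1) p.2 then fval f p.2 else 0 with hH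
  have hgood : ∀ j : CorrIdx m M, K4a_good s (Nat.nth s (Φ j).1) (Φ j).2 := by
    intro j
    refine ⟨⟨?_, ?_⟩, ?_⟩
    · intro i i' hii
      simp only [hΦ] at hii
      have h4 : Nat.nth s (j.1 i.succ) = Nat.nth s (j.1 i'.succ) := by omega
      exact Fin.succ_injective _ (j.2.1 (hmono.injective h4))
    · intro i h0
      simp only [hΦ] at h0
      have h4 : Nat.nth s (j.1 i.succ) = Nat.nth s (j.1 0) := by omega
      exact Fin.succ_ne_zero i (j.2.1 (hmono.injective h4))
    · intro i
      simp only [hΦ]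
      have h5 : (Nat.nth s (j.1 0) : ℤ) + ((Nat.nth s (j.1 i.succ) : ℤ) - Nat.nth s (j.1 0))
          = Nat.nth s (j.1 i.succ) := by ring
      rw [h5, Int.toNat_natCast]
      exact ⟨by omega, Nat.nth_mem_of_infinite hs _⟩
  have hsupp : Function.support H ⊆ Set.range Φ := by
    rintro ⟨t, y⟩ hp
    have hg : K4a_good s (Nat.nth s t) y := by
      by_contra hcon
      exact hp (if_neg hcon)
    obtain ⟨⟨g1, g2⟩, g3⟩ := hg
    have hex : ∀ i, ∃ l : ℕ, (Nat.nth s l : ℤ) = Nat.nth s t + y i := by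
      intro i
      obtain ⟨g4, g5⟩ := g3 i
      have := Nat.range_nth_of_infinite hs
      have h5 : ((Nat.nth s t : ℤ) + y i).toNat ∈ Set.ofPred s := g5
      rw [← this] at h5
      obtain ⟨l, hl⟩ := h5
      exact ⟨l, by rw [hl]; exact Int.toNat_of_nonneg g4⟩
    choose l hl using hex
    refine ⟨⟨Fin.cons (t : ℕ) l, ?_, ?_⟩, ?_⟩
    · rw [Fin.cons_injective_iff]
      refine ⟨?_, ?_⟩
      · rintro ⟨i, hi⟩
        have := hl i
        rw [hi] at this
        exact g2 i (by omega)
      · intro i i' hii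
        apply g1
        have h1 := hl i
        have h2 := hl i'
        rw [hii] at h1
        omega
    · simp
    · refine Prod.ext (Fin.ext rfl) ?_
      funext i
      have := hl i
      simp only [hΦ, Fin.cons_zero, Fin.cons_succ]
      omega
  have hHsum : Summable H := by
    refine Summable.of_norm_bounded (g := fun p => |fval f p.2|) ?_ (fun p => ?_)
    · exact hprod.abs
    · simp only [hH]
      split_ifs
      · rw [Real.norm_eq_abs]
      · rw [norm_zero]; exact abs_nonneg _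
  have e1 : ∑' j : CorrIdx m M, f (fun i => seqOf s (j.1 i)) = ∑ t : Fin M, ∑' y, H (t, y) := by
    have h1 : ∑' j : CorrIdx m M, f (fun i => seqOf s (j.1 i)) = ∑' j : CorrIdx m M, H (Φ j) := by
      refine tsum_congr fun j => ?_
      rw [hval]
      simp only [hH]
      rw [if_pos (hgood j)]
    rw [h1, hinj.tsum_eq hsupp, hHsum.tsum_prod, tsum_fintype]
  have e2 : ∑ y ∈ box m R, fval f y * (cnt s (offs y) (Nat.nth s M) : ℝ)
      = ∑ t : Fin M, ∑ y ∈ box m R, H (t, y) := by
    rw [Finset.sum_comm]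
    refine Finset.sum_congr rfl fun y hy => ?_
    have hy' : Function.Injective y ∧ ∀ i, y i ≠ 0 := by
      unfold box at hy
      rw [Finset.mem_filter] at hy
      exact hy.2
    rw [K4a_cnt s hs M y, Finset.card_filter, Nat.cast_sum, Finset.mul_sum,
      ← Fin.sum_univ_eq_sum_range (fun j => fval f y * ((if ∀ i, 0 ≤ (Nat.nth s j : ℤ) + y i ∧
        s ((Nat.nth s j : ℤ) + y i).toNat then 1 else 0 : ℕ) : ℝ))]
    refine Finset.sum_congr rfl fun t _ => ?_
    have hHt : H (t, y) = if K4a_good s (Nat.nth s t) y then fval f y else 0 := rfl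
    rw [hHt]
    by_cases hc : ∀ i, 0 ≤ (Nat.nth s t : ℤ) + y i ∧ s ((Nat.nth s t : ℤ) + y i).toNat
    · rw [if_pos hc, if_pos (show K4a_good s (Nat.nth s t) y from ⟨hy', hc⟩)]; simp
    · rw [if_neg hc, if_neg (fun hcon : K4a_good s (Nat.nth s t) y => hc hcon.2)]; simp
  rw [e1, e2, ← Finset.sum_sub_distrib]
  refine (Finset.abs_sum_le_sum_abs _ _).trans ?_
  have hterm : ∀ t : Fin M, |∑' y, H (t, y) - ∑ y ∈ box m R, H (t, y)| ≤ tail f R := by
    intro t
    have hHt : Summable fun y => H (t, y) := hHsum.comp_injective (Prod.mk_right_injective t)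
    have h1 : Summable fun y => if y ∈ box m R then (0 : ℝ) else H (t, y) := by
      refine Summable.of_norm_bounded (g := fun y => |H (t, y)|) hHt.abs (fun y => ?_)
      split_ifs
      · rw [norm_zero]; exact abs_nonneg _
      · rw [Real.norm_eq_abs]
    have h2 : Summable fun y => if y ∈ box m R then H (t, y) else 0 := by
      refine Summable.of_norm_bounded (g := fun y => |H (t, y)|) hHt.abs (fun y => ?_)
      split_ifs
      · rw [Real.norm_eq_abs]
      · rw [norm_zero]; exact abs_nonneg _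
    have h3 : ∑' y, H (t, y) = ∑ y ∈ box m R, H (t, y)
        + ∑' y, if y ∈ box m R then (0 : ℝ) else H (t, y) := by
      have h4 : ∑' y, (if y ∈ box m R then H (t, y) else 0) = ∑ y ∈ box m R, H (t, y) := by
        rw [tsum_eq_sum (s := box m R) (fun y hy => if_neg hy)]
        exact Finset.sum_congr rfl fun y hy => if_pos hy
      rw [← h4, ← h2.tsum_add h1]
      refine tsum_congr fun y => ?_
      split_ifs <;> simp
    rw [h3, add_sub_cancel_left]
    unfold tail
    have hT : Summable fun y : Fin m → ℤ => if ∀ i, |y i| ≤ R then (0 : ℝ) else |fval f y| := by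
      refine Summable.of_norm_bounded (g := fun y => |fval f y|) hsum (fun y => ?_)
      split_ifs
      · rw [norm_zero]; exact abs_nonneg _
      · rw [Real.norm_eq_abs, abs_abs]
    rw [← Real.norm_eq_abs]
    refine tsum_of_norm_bounded hT.hasSum fun y => ?_
    by_cases hy : y ∈ box m R
    · rw [if_pos hy, norm_zero]
      split_ifs
      · exact le_rfl
      · exact abs_nonneg _
    · rw [if_neg hy]
      simp only [hH]
      by_cases hg : K4a_good s (Nat.nth s t) y
      · rw [if_pos hg, Real.norm_eq_abs, if_neg]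
        intro hall
        apply hy
        unfold box
        rw [Finset.mem_filter, Fintype.mem_piFinset]
        refine ⟨fun i => ?_, hg.1⟩
        rw [Finset.mem_Icc, ← abs_le]
        exact hall i
      · rw [if_neg hg, norm_zero]
        split_ifs
        · exact le_rfl
        · exact abs_nonneg _
  calc ∑ t : Fin M, |∑' y, H (t, y) - ∑ y ∈ box m R, H (t, y)| ≤ ∑ _t : Fin M, tail f R :=
        Finset.sum_le_sum fun t _ => hterm t
    _ = M * tail f R := by rw [Finset.sum_const, Finset.card_univ, Fintype.card_fin, nsmul_eq_mul]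

end Pool.Agent.H808R2.AH
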