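import Mathlib
import Pool.Agent.H808R2.AH.Defs

/-!
Task K4b: the correlation sum on the ring.
-/

namespace Pool.Agent.H808R2.AH
open Finset Filter Topology MeasureTheory

namespace K4bAux

theorem pos_lt {N : ℕ} [NeZero N] (p : Site N) : pos p < 2 * N := by
  have h := ZMod.val_lt p.2
  unfold pos
  rcases p with ⟨b, x⟩
  cases b <;> simp at h ⊢ <;> omega

theorem pos_inj {N : ℕ} [NeZero N] {p q : Site N} (h : pos p = pos q) : p = q := by
  rcases p with ⟨b, x⟩
  rcases q with ⟨c, y⟩
  unfold pos at h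
  cases b <;> cases c <;> simp at h ⊢
  · exact ZMod.val_injective N h
  · omega
  · omega
  · exact ZMod.val_injective N h

theorem f_congr {m : ℕ} {f : (Fin (m + 1) → ℝ) → ℝ} {F : (Fin m → ℝ) → ℂ} (h : TestPair f F)
    {x x' : Fin (m + 1) → ℝ} (hx : ∀ i : Fin m, x i.succ - x 0 = x' i.succ - x' 0) : f x = f x' := by
  have h1 := h.rep x
  have h2 := h.rep x'
  have h3 : (f x : ℂ) = f x' := by
    rw [h1, h2]
    refine integral_congr_ae (Eventually.of_forall fun ξ => ?_)
    simp only [hx]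
  exact_mod_cast h3

/-- the lattice offsets of an embedding and a translation -/
def Yf {m N : ℕ} (s : Fin N → Site N) (j : Fin (m + 1) ↪ Fin N) (v : Fin m → ℤ) (i : Fin m) : ℤ :=
  (pos (s (j i.succ)) : ℤ) - pos (s (j 0)) + 2 * N * v i

theorem perf_eq {m : ℕ} {f : (Fin (m + 1) → ℝ) → ℝ} {F : (Fin m → ℝ) → ℂ} (h : TestPair f F) {N : ℕ}
    [NeZero N] (s : Fin N → Site N) (j : Fin (m + 1) ↪ Fin N) :
    perf f N (fun i => s (j i)) = ∑' v : Fin m → ℤ, fval f (Yf s j v) := by
  unfold perf fval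
  refine tsum_congr fun v => ?_
  refine f_congr h fun i => ?_
  simp only [Fin.cons_succ, Fin.cons_zero, Yf]
  push_cast
  ring

/-- `(j, v) ↦ (j 0, Y(j, v))` -/
def Phi {m N : ℕ} (s : Fin N → Site N) (q : (Fin (m + 1) ↪ Fin N) × (Fin m → ℤ)) :
    Fin N × (Fin m → ℤ) := (q.1 0, Yf s q.1 q.2)

theorem pos_eq_of_mod {N : ℕ} [NeZero N] {p q : Site N} {v w : ℤ}
    (h : (pos p : ℤ) + 2 * N * v = pos q + 2 * N * w) : p = q ∧ v = w := by
  have h1 := pos_lt p
  have h2 := pos_lt q
  have hN : (0 : ℤ) < 2 * N := by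
    have := NeZero.pos N
    omega
  have e1 : ((pos p : ℤ) + 2 * N * v) % (2 * N) = pos p := by
    rw [Int.add_mul_emod_self_left]
    exact Int.emod_eq_of_lt (by omega) (by exact_mod_cast h1)
  have e2 : ((pos q : ℤ) + 2 * N * w) % (2 * N) = pos q := by
    rw [Int.add_mul_emod_self_left]
    exact Int.emod_eq_of_lt (by omega) (by exact_mod_cast h2)
  have e3 : (pos p : ℤ) = pos q := by rw [← e1, h, e2]
  refine ⟨pos_inj (by exact_mod_cast e3), ?_⟩
  rw [e3] at h
  have h4 : 2 * (N : ℤ) * v = 2 * N * w := by linarith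
  exact mul_left_cancel₀ hN.ne' h4

theorem Phi_inj {m N : ℕ} [NeZero N] (s : Fin N → Site N) (hs : Function.Injective s) :
    Function.Injective (Phi (m := m) s) := by
  rintro ⟨j, v⟩ ⟨j', v'⟩ h
  simp only [Phi, Prod.mk.injEq] at h
  obtain ⟨h0, h1⟩ := h
  have h2 : ∀ i : Fin m, j i.succ = j' i.succ ∧ v i = v' i := by
    intro i
    have h3 := congrFun h1 i
    simp only [Yf, h0] at h3
    have h4 : (pos (s (j i.succ)) : ℤ) + 2 * N * v i = pos (s (j' i.succ)) + 2 * N * v' i := by
      linarith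
    obtain ⟨h5, h6⟩ := pos_eq_of_mod h4
    exact ⟨hs h5, h6⟩
  have h3 : j = j' := by
    ext i
    refine Fin.cases ?_ (fun i => ?_) i
    · rw [h0]
    · rw [(h2 i).1]
  have h4 : v = v' := funext fun i => (h2 i).2
  rw [h3, h4]

/-- all translates are occupied -/
def occ {m N : ℕ} (s : Fin N → Site N) (a : Fin N) (y : Fin m → ℤ) : Prop :=
  ∀ i, ocOf s (((pos (s a) : ℤ) + y i) % ((2 * N : ℕ) : ℤ)).toNat

theorem mem_range_Phi {m N R : ℕ} [NeZero N] (hR : R < N) (s : Fin N → Site N)
    (hs : Function.Injective s) (a : Fin N) (y : Fin m → ℤ) (hy : ∀ i, |y i| ≤ R) :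
    (a, y) ∈ Set.range (Phi (m := m) s) ↔ (Function.Injective y ∧ ∀ i, y i ≠ 0) ∧ occ s a y := by
  have hN0 : 0 < N := NeZero.pos N
  constructor
  · rintro ⟨⟨j, v⟩, hjv⟩
    simp only [Phi, Prod.mk.injEq] at hjv
    obtain ⟨h0, h1⟩ := hjv
    have h1' : ∀ i, (pos (s (j i.succ)) : ℤ) - pos (s (j 0)) + 2 * N * v i = y i := fun i => by
      rw [← h1]; rfl
    refine ⟨⟨?_, ?_⟩, ?_⟩
    · intro i k hik
      rw [← h1' i, ← h1' k] at hik
      have h4 : (pos (s (j i.succ)) : ℤ) + 2 * N * v i = pos (s (j k.succ)) + 2 * N * v k := by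
        linarith
      have h5 := j.injective (hs (pos_eq_of_mod h4).1)
      exact Fin.succ_injective _ h5
    · intro i hi
      rw [← h1' i] at hi
      have h4 : (pos (s (j i.succ)) : ℤ) + 2 * N * v i = pos (s (j 0)) + 2 * N * 0 := by
        linarith
      have h5 := j.injective (hs (pos_eq_of_mod h4).1)
      exact Fin.succ_ne_zero _ h5
    · intro i
      refine ⟨j i.succ, ?_⟩
      have h2 : (pos (s a) : ℤ) + y i = pos (s (j i.succ)) + ((2 * N : ℕ) : ℤ) * v i := by
        rw [← h1' i, h0]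
        push_cast
        ring
      rw [h2, Int.add_mul_emod_self_left, Int.emod_eq_of_lt (by omega)
        (by exact_mod_cast pos_lt (s (j i.succ)))]
      simp
  · rintro ⟨⟨hyi, hy0⟩, ho⟩
    choose b hb using ho
    have hM : (0 : ℤ) < ((2 * N : ℕ) : ℤ) := by
      exact_mod_cast (by omega : 0 < 2 * N)
    have hb' : ∀ i, (pos (s (b i)) : ℤ) = ((pos (s a) : ℤ) + y i) % ((2 * N : ℕ) : ℤ) := by
      intro i
      rw [hb i, Int.toNat_of_nonneg (Int.emod_nonneg _ hM.ne')]
    have hv : ∀ i, (pos (s a) : ℤ) + y i = pos (s (b i)) +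
        2 * N * (((pos (s a) : ℤ) + y i) / ((2 * N : ℕ) : ℤ)) := by
      intro i
      have h1 := Int.emod_add_mul_ediv ((pos (s a) : ℤ) + y i) ((2 * N : ℕ) : ℤ)
      rw [← hb' i] at h1
      push_cast at h1 ⊢
      linarith
    have hba : ∀ i, b i ≠ a := by
      intro i hi
      have h1 := hv i
      rw [hi] at h1
      have h2 : y i = 2 * N * (((pos (s a) : ℤ) + y i) / ((2 * N : ℕ) : ℤ)) := by linarith
      generalize ((pos (s a) : ℤ) + y i) / ((2 * N : ℕ) : ℤ) = w at h2
      have h3 := hy i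
      have h4 := hy0 i
      rcases lt_trichotomy w 0 with hw | hw | hw
      · have : y i ≤ -(2 * N) := by nlinarith
        have h5 := (abs_le.mp h3).1
        omega
      · rw [hw, mul_zero] at h2
        exact h4 h2
      · have : 2 * (N : ℤ) ≤ y i := by nlinarith
        have h5 := (abs_le.mp h3).2
        omega
    have hbi : Function.Injective b := by
      intro i k hik
      apply hyi
      have h1 := hv i
      have h2 := hv k
      rw [hik] at h1
      generalize ((pos (s a) : ℤ) + y i) / ((2 * N : ℕ) : ℤ) = w at h1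
      generalize ((pos (s a) : ℤ) + y k) / ((2 * N : ℕ) : ℤ) = w' at h2
      have h3 : y i - y k = 2 * N * (w - w') := by linarith
      have h4 := abs_le.mp (hy i)
      have h5 := abs_le.mp (hy k)
      rcases lt_trichotomy (w - w') 0 with hw | hw | hw
      · have : y i - y k ≤ -(2 * N) := by nlinarith
        omega
      · rw [hw, mul_zero] at h3
        linarith
      · have : 2 * (N : ℤ) ≤ y i - y k := by nlinarith
        omega
    let j : Fin (m + 1) ↪ Fin N := ⟨Fin.cons a b, by
      rw [Fin.cons_injective_iff]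
      refine ⟨?_, hbi⟩
      rintro ⟨i, hi⟩
      exact hba i hi⟩
    refine ⟨(j, fun i => ((pos (s a) : ℤ) + y i) / ((2 * N : ℕ) : ℤ)), ?_⟩
    have hj0 : j 0 = a := rfl
    have hjs : ∀ i : Fin m, j i.succ = b i := fun i => rfl
    simp only [Phi, Prod.mk.injEq]
    refine ⟨hj0, ?_⟩
    funext i
    simp only [Yf, hj0, hjs]
    have := hv i
    linarith

open Classical in
theorem rcnt_eq {m N : ℕ} [NeZero N] (s : Fin N → Site N) (hs : Function.Injective s) (y : Fin m → ℤ) :
    (rcnt N (ocOf s) (offs y) : ℝ) = ∑ a : Fin N, if occ s a y then (1 : ℝ) else 0 := by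
  rw [Finset.sum_boole]
  unfold rcnt
  refine congrArg (fun n : ℕ => (n : ℝ)) ?_
  have hinj : Function.Injective fun a : Fin N => (pos (s a) : ℤ) :=
    fun a b (hab : (pos (s a) : ℤ) = pos (s b)) => hs (pos_inj (by exact_mod_cast hab))
  rw [← Finset.card_image_of_injective _ hinj]
  refine congrArg Finset.card ?_
  ext t
  simp only [mem_filter, mem_image, mem_univ, true_and, Finset.bind_def, Finset.pure_def,
    Finset.mem_sup, mem_range, Finset.mem_singleton]
  constructor
  · rintro ⟨⟨t', ht, rfl⟩, h⟩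
    have h0 := h 0 (by simp [offs])
    rw [add_zero, Int.emod_eq_of_lt (by omega) (by exact_mod_cast ht), Int.toNat_natCast] at h0
    obtain ⟨a, ha⟩ := h0
    refine ⟨a, ?_, by rw [ha]⟩
    intro i
    have h1 := h (y i) (by simp [offs])
    rw [ha]
    exact h1
  · rintro ⟨a, ha, rfl⟩
    have ht := pos_lt (s a)
    refine ⟨⟨_, ht, rfl⟩, ?_⟩
    intro d hd
    simp only [offs, mem_insert, mem_image, mem_univ, true_and] at hd
    rcases hd with rfl | ⟨i, rfl⟩
    · rw [add_zero, Int.emod_eq_of_lt (by omega) (by exact_mod_cast ht), Int.toNat_natCast]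
      exact ⟨a, rfl⟩
    · exact ha i

open Classical in
theorem main {m : ℕ} {f : (Fin (m + 1) → ℝ) → ℝ} {F : (Fin m → ℝ) → ℂ} (h : TestPair f F)
    (hsum : Summable fun z : Fin m → ℤ => |fval f z|) {N : ℕ} [NeZero N]
    (s : Fin N → Site N) (hs : Function.Injective s) (R : ℕ) (hR : R < N) :
    |∑ j : Fin (m + 1) ↪ Fin N, perf f N (fun i => s (j i)) -
      ∑ y ∈ box m R, fval f y * (rcnt N (ocOf s) (offs y) : ℝ)| ≤ N * tail f R := by
  set g : (Fin m → ℤ) → ℝ := fval f with hg
  have hgs : Summable g := hsum.of_abs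
  set G : Fin N × (Fin m → ℤ) → ℝ := fun q => g q.2 with hG
  have hGs : Summable G := by
    have h1 : Summable fun q : Fin N × (Fin m → ℤ) => ‖G q‖ := by
      rw [summable_prod_of_nonneg (fun _ => norm_nonneg _)]
      refine ⟨fun a => ?_, ?_⟩
      · simpa [hG, Real.norm_eq_abs] using hsum
      · exact (hasSum_fintype _).summable
    exact h1.of_norm
  have hinj := Phi_inj (m := m) s hs
  -- the sum over embeddings
  have e1 : ∑ j : Fin (m + 1) ↪ Fin N, perf f N (fun i => s (j i)) =
      ∑' q, (Set.range (Phi (m := m) s)).indicator G q := by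
    have h1 : Summable (G ∘ Phi (m := m) s) := hGs.comp_injective hinj
    rw [← _root_.tsum_subtype, tsum_range (g := Phi (m := m) s) G hinj]
    have h2 := h1.tsum_prod
    simp only [Function.comp_def] at h2
    rw [h2, tsum_fintype]
    refine Finset.sum_congr rfl fun j _ => ?_
    rw [perf_eq h s j]
    rfl
  have hIs : Summable ((Set.range (Phi (m := m) s)).indicator G) := hGs.indicator _
  have e2 : ∑' q, (Set.range (Phi (m := m) s)).indicator G q =
      ∑ a : Fin N, ∑' y : Fin m → ℤ, (Set.range (Phi (m := m) s)).indicator G (a, y) := by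
    rw [hIs.tsum_prod, tsum_fintype]
  set Ia : Fin N → (Fin m → ℤ) → ℝ := fun a y => (Set.range (Phi (m := m) s)).indicator G (a, y)
    with hIa
  have hIas : ∀ a, Summable (Ia a) := fun a => hIs.prod_factor a
  have hIab : ∀ a y, |Ia a y| ≤ |g y| := by
    intro a y
    simp only [hIa, Set.indicator_apply, hG]
    split_ifs
    · exact le_rfl
    · simp
  set cube : Finset (Fin m → ℤ) := Fintype.piFinset fun _ : Fin m => Finset.Icc (-(R : ℤ)) R
    with hcube
  have hmc : ∀ y : Fin m → ℤ, y ∈ cube ↔ ∀ i, |y i| ≤ R := by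
    intro y
    simp only [hcube, Fintype.mem_piFinset, Finset.mem_Icc, abs_le]
  -- splitting
  have e3 : ∀ a, |∑' y, Ia a y - ∑ y ∈ cube, Ia a y| ≤ tail f R := by
    intro a
    have h1 : ∑ y ∈ cube, Ia a y = ∑' y, if y ∈ cube then Ia a y else 0 := by
      rw [tsum_eq_sum (s := cube) (fun y hy => by simp [hy])]
      exact Finset.sum_congr rfl fun y hy => by simp [hy]
    have hs1 : Summable fun y => if y ∈ cube then Ia a y else 0 :=
      summable_of_ne_finset_zero (s := cube) fun y hy => by simp [hy]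
    rw [h1, ← (hIas a).tsum_sub hs1]
    have hs2 : Summable fun y : Fin m → ℤ => if ∀ i, |y i| ≤ R then 0 else |g y| := by
      refine Summable.of_nonneg_of_le (fun y => ?_) (fun y => ?_) hsum
      · split_ifs <;> simp
      · split_ifs <;> simp [hg]
    unfold tail
    have h2 : ∀ y : Fin m → ℤ, |Ia a y - (if y ∈ cube then Ia a y else 0)| ≤
        if ∀ i, |y i| ≤ R then 0 else |g y| := by
      intro y
      by_cases hy : y ∈ cube
      · have hy' := (hmc y).mp hy
        rw [if_pos hy, if_pos hy']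
        simp
      · have hy' := fun hh => hy ((hmc y).mpr hh)
        rw [if_neg hy, if_neg hy', sub_zero]
        exact hIab a y
    have hs3 : Summable fun y : Fin m → ℤ => |Ia a y - (if y ∈ cube then Ia a y else 0)| :=
      Summable.of_nonneg_of_le (fun _ => abs_nonneg _) h2 hs2
    calc |∑' y, (Ia a y - (if y ∈ cube then Ia a y else 0))| ≤
        ∑' y, |Ia a y - (if y ∈ cube then Ia a y else 0)| := by
          simpa [Real.norm_eq_abs] using norm_tsum_le_tsum_norm (f := fun y => Ia a y -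
            (if y ∈ cube then Ia a y else 0)) (by simpa [Real.norm_eq_abs] using hs3)
      _ ≤ _ := hs3.tsum_le_tsum h2 hs2
  have e4 : ∑ y ∈ box m R, g y * (rcnt N (ocOf s) (offs y) : ℝ) = ∑ a : Fin N, ∑ y ∈ cube, Ia a y := by
    rw [Finset.sum_comm]
    have hb : box m R = cube.filter fun y => Function.Injective y ∧ ∀ i, y i ≠ 0 := by
      ext y
      simp [box, hcube]
    rw [hb, Finset.sum_filter]
    refine Finset.sum_congr rfl fun y hy => ?_
    have hy' := (hmc y).mp hy
    have h1 : ∀ a, Ia a y = if (Function.Injective y ∧ ∀ i, y i ≠ 0) ∧ occ s a y then g y else 0 := by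
      intro a
      simp only [hIa, Set.indicator_apply, mem_range_Phi hR s hs a y hy', hG]
    simp only [h1]
    by_cases hc : Function.Injective y ∧ ∀ i, y i ≠ 0
    · rw [if_pos hc, rcnt_eq s hs y, Finset.mul_sum]
      refine Finset.sum_congr rfl fun a _ => ?_
      simp [hc]
    · rw [if_neg hc]
      simp [hc]
  rw [e1, e2, e4, ← Finset.sum_sub_distrib]
  calc |∑ a : Fin N, (∑' y, Ia a y - ∑ y ∈ cube, Ia a y)| ≤
      ∑ a : Fin N, |∑' y, Ia a y - ∑ y ∈ cube, Ia a y| := Finset.abs_sum_le_sum_abs _ _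
    _ ≤ ∑ _a : Fin N, tail f R := Finset.sum_le_sum fun a _ => e3 a
    _ = N * tail f R := by simp

theorem summable_pi (a : ℤ → ℝ) (ha : Summable a) (h0 : ∀ x, 0 ≤ a x) (m : ℕ) :
    Summable fun y : Fin m → ℤ => ∏ i, a (y i) := by
  induction m with
  | zero => exact (hasSum_fintype _).summable
  | succ m ih =>
    rw [← (Fin.consEquiv (fun _ : Fin (m + 1) => ℤ)).summable_iff]
    have h1 := ha.mul_of_nonneg ih h0 (fun y => Finset.prod_nonneg fun i _ => h0 _)
    refine h1.congr fun p => ?_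
    simp [Fin.consEquiv, Fin.prod_univ_succ, Function.comp]

theorem summable_one : Summable fun z : ℤ => (1 + ((z : ℝ) / 2) ^ 2)⁻¹ := by
  have h1 : Summable fun z : ℤ => 4 * (1 / (z : ℝ) ^ 2) + if z = 0 then (1 : ℝ) else 0 := by
    refine Summable.add ?_ ?_
    · exact ((Real.summable_one_div_int_pow (p := 2)).mpr (by norm_num)).mul_left 4
    · exact summable_of_ne_finset_zero (s := {0}) fun z hz => by
        simp at hz
        simp [hz]
  refine Summable.of_nonneg_of_le (fun z => by positivity) (fun z => ?_) h1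
  by_cases hz : z = 0
  · simp [hz]
  · rw [if_neg hz, add_zero]
    have hz' : (z : ℝ) ≠ 0 := by exact_mod_cast hz
    have h2 : 0 < (z : ℝ) ^ 2 := by positivity
    rw [inv_eq_one_div, mul_one_div, div_le_div_iff₀ (by positivity) h2]
    nlinarith

theorem summable_fval {m : ℕ} {f : (Fin (m + 1) → ℝ) → ℝ} {F : (Fin m → ℝ) → ℂ} (h : TestPair f F) :
    Summable fun z : Fin m → ℤ => |fval f z| := by
  obtain ⟨C, hC, hf⟩ := h.decay
  refine Summable.of_nonneg_of_le (fun _ => abs_nonneg _) (fun z => ?_)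
    ((summable_pi _ summable_one (fun z => by positivity) m).mul_left C)
  exact hf _

end K4bAux

/-- K4, ring -/
theorem K4_ring {m : ℕ} {f : (Fin (m + 1) → ℝ) → ℝ} {F : (Fin m → ℝ) → ℂ} (h : TestPair f F) {N : ℕ} [NeZero N]
    (s : Fin N → Site N) (hs : Function.Injective s) (R : ℕ) (hR : R < N) :
    |∑ j : Fin (m + 1) ↪ Fin N, perf f N (fun i => s (j i)) -
      ∑ y ∈ box m R, fval f y * (rcnt N (ocOf s) (offs y) : ℝ)| ≤ N * tail f R :=
  K4bAux.main h (K4bAux.summable_fval h) s hs R hR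

end Pool.Agent.H808R2.AH
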