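import Mathlib
import Pool.Agent.H808R2.AH.I
import Pool.Agent.H808R2.AH.K1
import Pool.Agent.H808R2.AH.K2
import Pool.Agent.H808R2.AH.K3
import Pool.Agent.H808R2.AH.K3b
import Pool.Agent.H808R2.AH.K4a
import Pool.Agent.H808R2.AH.K4b

/-!
K5: the gluing theorem (assembly).
-/

namespace Pool.Agent.H808R2.AH
open Finset Filter Topology MeasureTheory

namespace K5aux

/-- weighted Cesàro upper bound -/
theorem wces (B : ℕ → ℝ) (hB : ∀ j, 0 ≤ B j) (q : ℕ → ℝ) (c : ℝ) (h : ∀ᶠ j in atTop, q j ≤ c) :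
    ∃ K : ℝ, ∀ J, ∑ j ∈ range J, B j * q j ≤ K + c * ∑ j ∈ range J, B j := by
  obtain ⟨j0, hj0⟩ := eventually_atTop.1 h
  refine ⟨∑ j ∈ range j0, B j * |q j - c|, fun J => ?_⟩
  have h1 : ∑ j ∈ range J, B j * q j - c * ∑ j ∈ range J, B j = ∑ j ∈ range J, B j * (q j - c) := by
    rw [mul_sum, ← sum_sub_distrib]; exact sum_congr rfl fun j _ => by ring
  have h2 : ∑ j ∈ range J, B j * (q j - c) ≤ ∑ j ∈ range j0, B j * |q j - c| := by
    calc ∑ j ∈ range J, B j * (q j - c) ≤ ∑ j ∈ range J, (if j < j0 then B j * |q j - c| else 0) := by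
          apply sum_le_sum
          intro j _
          split_ifs with hj
          · exact mul_le_mul_of_nonneg_left (le_abs_self _) (hB j)
          · have := hj0 j (not_lt.1 hj)
            nlinarith [hB j]
      _ ≤ ∑ j ∈ range (max J j0), (if j < j0 then B j * |q j - c| else 0) := by
          apply sum_le_sum_of_subset_of_nonneg
          · exact range_mono (le_max_left _ _)
          · intro j _ _
            split_ifs
            · exact mul_nonneg (hB j) (abs_nonneg _)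
            · exact le_rfl
      _ = ∑ j ∈ range j0, B j * |q j - c| := by
          rw [← sum_filter]
          apply sum_congr _ fun _ _ => rfl
          ext j
          simp only [mem_filter, mem_range]
          omega
  linarith

noncomputable def V (B : ℕ → ℕ) (J : ℕ) : ℝ := ∑ j ∈ range J, (B j : ℝ)

theorem V_ge (B : ℕ → ℕ) (hB : ∀ j, 1 ≤ B j) (J : ℕ) : (J : ℝ) ≤ V B J := by
  unfold V
  calc (J : ℝ) = ∑ _j ∈ range J, (1 : ℝ) := by simp
    _ ≤ _ := sum_le_sum fun j _ => by exact_mod_cast hB j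

theorem V_tendsto (B : ℕ → ℕ) (hB : ∀ j, 1 ≤ B j) : Tendsto (V B) atTop atTop :=
  tendsto_atTop_mono (V_ge B hB) tendsto_natCast_atTop_atTop

theorem Tlen_eq (B : ℕ → ℕ) (J : ℕ) : (Tlen B J : ℝ) = 2 * V B J := by
  unfold Tlen V
  push_cast
  rw [mul_sum]

theorem lem1 (B : ℕ → ℕ) (hB : ∀ j, 1 ≤ B j) (hBt : Tendsto B atTop atTop) :
    Tendsto (fun J : ℕ => ((J : ℝ) + 1) / V B J) atTop (𝓝 0) := by
  rw [Metric.tendsto_atTop]
  intro ε hε
  have h1 : ∀ᶠ j in atTop, (1 : ℝ) / B j ≤ ε / 2 := by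
    have h := (tendsto_natCast_atTop_atTop (R := ℝ)).comp hBt
    have h2 := h.eventually_ge_atTop (2 / ε)
    filter_upwards [h2] with j hj
    have hj' : 2 / ε ≤ (B j : ℝ) := hj
    have hb : (0 : ℝ) < B j := by have := hB j; positivity
    rw [div_le_div_iff₀ hb (by norm_num)]
    rw [div_le_iff₀ hε] at hj'
    linarith
  obtain ⟨K, hK⟩ := wces (fun j => (B j : ℝ)) (fun j => Nat.cast_nonneg _) (fun j => (1 : ℝ) / B j) (ε / 2) h1
  have h2 : ∀ J : ℕ, (J : ℝ) ≤ K + ε / 2 * V B J := by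
    intro J
    have := hK J
    have h3 : ∑ j ∈ range J, (B j : ℝ) * (1 / B j) = J := by
      rw [show (J : ℝ) = ∑ _j ∈ range J, (1 : ℝ) by simp]
      apply sum_congr rfl
      intro j _
      have hb : (0 : ℝ) < B j := by have := hB j; positivity
      field_simp
    rw [h3] at this
    exact this
  obtain ⟨N, hN⟩ := eventually_atTop.1 ((V_tendsto B hB).eventually_gt_atTop (max 1 (2 * (K + 1) / ε)))
  refine ⟨N, fun J hJ => ?_⟩
  have h3 := hN J hJ
  have h4 : 1 < V B J := lt_of_le_of_lt (le_max_left _ _) h3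
  have h5 : 2 * (K + 1) / ε < V B J := lt_of_le_of_lt (le_max_right _ _) h3
  rw [div_lt_iff₀ hε] at h5
  rw [Real.dist_eq, sub_zero, abs_of_nonneg (by positivity), div_lt_iff₀ (by linarith)]
  have := h2 J
  nlinarith

theorem lem_log : Tendsto (fun J : ℕ => ((Nat.log 2 (J + 1) : ℝ) + 1) / Real.sqrt ((J : ℝ) + 1)) atTop (𝓝 0) := by
  have hx : Tendsto (fun J : ℕ => (J : ℝ) + 1) atTop atTop :=
    tendsto_atTop_add_const_right _ _ tendsto_natCast_atTop_atTop
  have h1 : Tendsto (fun x : ℝ => Real.log x / Real.sqrt x) atTop (𝓝 0) := by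
    have h := (isLittleO_log_rpow_atTop (r := 1 / 2) (by norm_num)).tendsto_div_nhds_zero
    refine h.congr fun x => ?_
    rw [Real.sqrt_eq_rpow]
  have h2 : Tendsto (fun x : ℝ => 1 / Real.sqrt x) atTop (𝓝 0) := by
    have h := (Real.tendsto_sqrt_atTop).inv_tendsto_atTop
    refine h.congr fun x => ?_
    simp
  have h3 : Tendsto (fun x : ℝ => (Real.log x / Real.sqrt x) / Real.log 2 + 1 / Real.sqrt x) atTop (𝓝 0) := by
    have := (h1.div_const (Real.log 2)).add h2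
    simpa using this
  have h4 := h3.comp hx
  refine squeeze_zero (fun J => by positivity) (fun J => ?_) h4
  simp only [Function.comp]
  have hl2 : 0 < Real.log 2 := Real.log_pos (by norm_num)
  have h5 : (Nat.log 2 (J + 1) : ℝ) ≤ Real.log ((J : ℝ) + 1) / Real.log 2 := by
    have h6 : 2 ^ Nat.log 2 (J + 1) ≤ J + 1 := Nat.pow_log_le_self 2 (by omega)
    rw [le_div_iff₀ hl2, ← Real.log_pow]
    apply Real.log_le_log (by positivity)
    exact_mod_cast h6
  have hs : 0 < Real.sqrt ((J : ℝ) + 1) := Real.sqrt_pos.2 (by positivity)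
  have h6 : Real.log ((J : ℝ) + 1) / Real.sqrt ((J : ℝ) + 1) / Real.log 2 + 1 / Real.sqrt ((J : ℝ) + 1) =
      (Real.log ((J : ℝ) + 1) / Real.log 2 + 1) / Real.sqrt ((J : ℝ) + 1) := by
    field_simp
  rw [h6]
  gcongr

/-- the total error -/
noncomputable def err (B : ℕ → ℕ) (J : ℕ) : ℝ :=
  ((J : ℝ) + 1) + B J + Real.sqrt (∑ j ∈ range J, ((2 * B j : ℕ) : ℝ) ^ 2)

theorem lem2 (B : ℕ → ℕ) (hB : ∀ j, 1 ≤ B j) (L : ℕ) (hL : ∀ j, B j ≤ L * (Nat.log 2 (j + 1) + 1)) :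
    Tendsto (fun J : ℕ => (B J : ℝ) / V B J) atTop (𝓝 0) := by
  have h1 := lem_log.const_mul (2 * (L : ℝ))
  rw [mul_zero] at h1
  refine tendsto_of_tendsto_of_tendsto_of_le_of_le' tendsto_const_nhds h1
    (Eventually.of_forall fun J => ?_) ?_
  · have : 0 ≤ V B J := le_trans (Nat.cast_nonneg _) (V_ge B hB J)
    positivity
  · filter_upwards [eventually_ge_atTop 1] with J hJ
    have hV := V_ge B hB J
    have hJ' : (1 : ℝ) ≤ J := by exact_mod_cast hJ
    have hV' : ((J : ℝ) + 1) / 2 ≤ V B J := by linarith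
    have hBJ : (B J : ℝ) ≤ L * ((Nat.log 2 (J + 1) : ℝ) + 1) := by exact_mod_cast hL J
    have hs : 0 < Real.sqrt ((J : ℝ) + 1) := Real.sqrt_pos.2 (by positivity)
    have hs1 : Real.sqrt ((J : ℝ) + 1) ≤ (J : ℝ) + 1 := by
      have h2 := Real.sq_sqrt (show 0 ≤ (J : ℝ) + 1 by positivity)
      have h3 : 1 ≤ Real.sqrt ((J : ℝ) + 1) := by
        apply Real.le_sqrt_of_sq_le
        linarith
      nlinarith
    calc (B J : ℝ) / V B J ≤ (L * ((Nat.log 2 (J + 1) : ℝ) + 1)) / (((J : ℝ) + 1) / 2) := by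
          gcongr
      _ = 2 * L * (((Nat.log 2 (J + 1) : ℝ) + 1) / ((J : ℝ) + 1)) := by
          field_simp
      _ ≤ 2 * L * (((Nat.log 2 (J + 1) : ℝ) + 1) / Real.sqrt ((J : ℝ) + 1)) := by
          apply mul_le_mul_of_nonneg_left _ (by positivity)
          exact div_le_div_of_nonneg_left (by positivity) hs hs1

theorem lem3 (B : ℕ → ℕ) (hB : ∀ j, 1 ≤ B j) (L : ℕ) (hL : ∀ j, B j ≤ L * (Nat.log 2 (j + 1) + 1)) :
    Tendsto (fun J : ℕ => Real.sqrt (∑ j ∈ range J, ((2 * B j : ℕ) : ℝ) ^ 2) / V B J) atTop (𝓝 0) := by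
  have h1 := lem_log.const_mul (4 * (L : ℝ))
  rw [mul_zero] at h1
  refine tendsto_of_tendsto_of_tendsto_of_le_of_le' tendsto_const_nhds h1
    (Eventually.of_forall fun J => ?_) ?_
  · have : 0 ≤ V B J := le_trans (Nat.cast_nonneg _) (V_ge B hB J)
    positivity
  · filter_upwards [eventually_ge_atTop 1] with J hJ
    have hV := V_ge B hB J
    have hJ' : (1 : ℝ) ≤ J := by exact_mod_cast hJ
    have hV' : ((J : ℝ) + 1) / 2 ≤ V B J := by linarith
    have hs : 0 < Real.sqrt ((J : ℝ) + 1) := Real.sqrt_pos.2 (by positivity)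
    set ℓ : ℝ := (Nat.log 2 (J + 1) : ℝ) + 1 with hℓ
    have hℓ0 : 0 ≤ ℓ := by positivity
    have h2 : ∑ j ∈ range J, ((2 * B j : ℕ) : ℝ) ^ 2 ≤ ((J : ℝ) + 1) * (2 * L * ℓ) ^ 2 := by
      calc ∑ j ∈ range J, ((2 * B j : ℕ) : ℝ) ^ 2 ≤ ∑ _j ∈ range J, (2 * L * ℓ) ^ 2 := by
            apply sum_le_sum
            intro j hj
            have hj' := mem_range.1 hj
            have h3 : (B j : ℝ) ≤ L * ((Nat.log 2 (j + 1) : ℝ) + 1) := by exact_mod_cast hL j
            have h4 : (Nat.log 2 (j + 1) : ℝ) ≤ (Nat.log 2 (J + 1) : ℝ) := by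
              exact_mod_cast Nat.log_mono_right (by omega)
            have h5 : ((2 * B j : ℕ) : ℝ) ≤ 2 * L * ℓ := by
              push_cast
              have : (L : ℝ) * ((Nat.log 2 (j + 1) : ℝ) + 1) ≤ L * ℓ := by
                apply mul_le_mul_of_nonneg_left _ (Nat.cast_nonneg _)
                rw [hℓ]; linarith
              linarith
            exact pow_le_pow_left₀ (Nat.cast_nonneg _) h5 2
        _ = J * (2 * L * ℓ) ^ 2 := by simp
        _ ≤ ((J : ℝ) + 1) * (2 * L * ℓ) ^ 2 := by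
            apply mul_le_mul_of_nonneg_right _ (by positivity)
            linarith
    have h3 : Real.sqrt (∑ j ∈ range J, ((2 * B j : ℕ) : ℝ) ^ 2) ≤ Real.sqrt ((J : ℝ) + 1) * (2 * L * ℓ) := by
      refine le_trans (Real.sqrt_le_sqrt h2) ?_
      rw [Real.sqrt_mul (by positivity), Real.sqrt_sq (by positivity)]
    calc Real.sqrt (∑ j ∈ range J, ((2 * B j : ℕ) : ℝ) ^ 2) / V B J
        ≤ (Real.sqrt ((J : ℝ) + 1) * (2 * L * ℓ)) / (((J : ℝ) + 1) / 2) := by
          gcongr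
      _ = 4 * L * (ℓ / Real.sqrt ((J : ℝ) + 1)) := by
          have h4 := Real.sq_sqrt (show 0 ≤ (J : ℝ) + 1 by positivity)
          set r := Real.sqrt ((J : ℝ) + 1) with hr
          rw [← h4]
          field_simp
          ring

theorem lem_err (B : ℕ → ℕ) (hB : ∀ j, 1 ≤ B j) (hBt : Tendsto B atTop atTop) (L : ℕ)
    (hL : ∀ j, B j ≤ L * (Nat.log 2 (j + 1) + 1)) :
    Tendsto (fun J : ℕ => err B J / V B J) atTop (𝓝 0) := by
  have h := ((lem1 B hB hBt).add (lem2 B hB L hL)).add (lem3 B hB L hL)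
  simp only [add_zero] at h
  refine h.congr fun J => ?_
  unfold err
  ring

theorem exists_block (B : ℕ → ℕ) (hB : ∀ j, 1 ≤ B j) (T : ℕ) : ∃ J, Tlen B J ≤ T ∧ T < Tlen B (J + 1) := by
  have hmono : ∀ J, Tlen B J + 2 ≤ Tlen B (J + 1) := by
    intro J
    unfold Tlen
    rw [sum_range_succ]
    have := hB J
    omega
  have hge : ∀ J, 2 * J ≤ Tlen B J := by
    intro J
    induction J with
    | zero => simp
    | succ J ih => have := hmono J; omega
  have hex : ∃ n, T < Tlen B n := ⟨T + 1, by have := hge (T + 1); omega⟩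
  classical
  have hspec := Nat.find_spec hex
  have hpos : Nat.find hex ≠ 0 := by
    intro h0
    rw [h0] at hspec
    simp [Tlen] at hspec
  obtain ⟨J, hJ⟩ := Nat.exists_eq_succ_of_ne_zero hpos
  refine ⟨J, ?_, ?_⟩
  · have := Nat.find_min hex (m := J) (by omega)
    omega
  · rw [hJ] at hspec
    exact hspec

/-- weighted Cesàro, upper bound along block indices -/
theorem ces_le (B : ℕ → ℕ) (J : ℕ → ℕ) (hV : Tendsto (fun M : ℕ => V B (J M) / M) atTop (𝓝 1))
    (q : ℕ → ℝ) (c c' : ℝ) (hc : c < c') (h : ∀ᶠ j in atTop, q j ≤ c) :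
    ∀ᶠ M : ℕ in atTop, (∑ j ∈ range (J M), (B j : ℝ) * q j) / M ≤ c' := by
  obtain ⟨K, hK⟩ := wces (fun j => (B j : ℝ)) (fun j => Nat.cast_nonneg _) q c h
  have h1 : Tendsto (fun M : ℕ => K / (M : ℝ) + c * (V B (J M) / M)) atTop (𝓝 (0 + c * 1)) :=
    (tendsto_const_div_atTop_nhds_zero_nat K).add (hV.const_mul c)
  rw [zero_add, mul_one] at h1
  filter_upwards [h1.eventually_lt_const hc] with M hM
  refine le_trans ?_ hM.le
  have h2 := hK (J M)
  calc (∑ j ∈ range (J M), (B j : ℝ) * q j) / M ≤ (K + c * V B (J M)) / M := by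
        apply div_le_div_of_nonneg_right _ (Nat.cast_nonneg _)
        exact h2
    _ = _ := by ring

theorem ces_ge (B : ℕ → ℕ) (J : ℕ → ℕ) (hV : Tendsto (fun M : ℕ => V B (J M) / M) atTop (𝓝 1))
    (q : ℕ → ℝ) (c c' : ℝ) (hc : c' < c) (h : ∀ᶠ j in atTop, c ≤ q j) :
    ∀ᶠ M : ℕ in atTop, c' ≤ (∑ j ∈ range (J M), (B j : ℝ) * q j) / M := by
  have h1 := ces_le B J hV (fun j => - q j) (-c) (-c') (by linarith) (h.mono fun j hj => by
    show - q j ≤ -c
    linarith)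
  filter_upwards [h1] with M hM
  have : (∑ j ∈ range (J M), (B j : ℝ) * (- q j)) / M = - ((∑ j ∈ range (J M), (B j : ℝ) * q j) / M) := by
    rw [← neg_div, ← sum_neg_distrib]
    simp only [mul_neg]
  rw [this] at hM
  linarith

theorem ces_lim (B : ℕ → ℕ) (J : ℕ → ℕ) (hV : Tendsto (fun M : ℕ => V B (J M) / M) atTop (𝓝 1))
    (q : ℕ → ℝ) (a : ℝ) (h : Tendsto q atTop (𝓝 a)) :
    Tendsto (fun M : ℕ => (∑ j ∈ range (J M), (B j : ℝ) * q j) / M) atTop (𝓝 a) := by
  rw [Metric.tendsto_nhds]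
  intro ε hε
  have h1 := ces_le B J hV q (a + ε / 4) (a + ε / 2) (by linarith)
    ((h.eventually_lt_const (show a < a + ε / 4 by linarith)).mono fun j hj => hj.le)
  have h2 := ces_ge B J hV q (a - ε / 4) (a - ε / 2) (by linarith)
    ((h.eventually_const_lt (show a - ε / 4 < a by linarith)).mono fun j hj => hj.le)
  filter_upwards [h1, h2] with M hM1 hM2
  rw [Real.dist_eq, abs_lt]
  constructor <;> linarith

theorem pos_lt {N : ℕ} [NeZero N] (s : Site N) : pos s < 2 * N := by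
  rcases s with ⟨b, x⟩
  have := ZMod.val_lt x
  unfold pos
  cases b <;> simp <;> omega

theorem pos_inj {N : ℕ} [NeZero N] : Function.Injective (pos : Site N → ℕ) := by
  rintro ⟨b, x⟩ ⟨c, y⟩ h
  unfold pos at h
  have key : b = c ∧ x.val = y.val := by
    cases b <;> cases c <;> simp at h ⊢ <;> omega
  rw [key.1, ZMod.val_injective N key.2]

theorem card_oc {N : ℕ} [NeZero N] (s : Fin N → Site N) (hs : Function.Injective s) :
    open Classical in #{t ∈ range (2 * N) | ocOf s t} = N := by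
  classical
  have h : (range (2 * N)).filter (fun t => ocOf s t) = univ.image (fun j => pos (s j)) := by
    ext t
    rw [mem_filter, mem_range, mem_image]
    constructor
    · rintro ⟨_, j, hj⟩
      exact ⟨j, mem_univ _, hj⟩
    · rintro ⟨j, _, hj⟩
      exact ⟨hj ▸ pos_lt _, j, hj⟩
  have h2 : #((range (2 * N)).filter (fun t => ocOf s t)) = N := by
    rw [h, card_image_of_injective _ (fun a b hab => hs (pos_inj hab))]
    simp
  convert h2

theorem rcnt_le (B : ℕ) (oc : ℕ → Prop) (D : Finset ℤ) : rcnt B oc D ≤ 2 * B := by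
  classical
  unfold rcnt
  refine (card_filter_le _ _).trans ?_
  simp only [bind_pure_comp, fmap_def]
  exact (@Finset.card_image_le _ _ _ _ (fun a b => Classical.propDecidable (a = b))).trans (by simp)

theorem V_lim (B : ℕ → ℕ) (hB : ∀ j, 1 ≤ B j) (h2 : Tendsto (fun J : ℕ => (B J : ℝ) / V B J) atTop (𝓝 0))
    (T J : ℕ → ℕ) (hT : Tendsto (fun M : ℕ => (T M : ℝ) / M) atTop (𝓝 2))
    (hJ1 : ∀ M, Tlen B (J M) ≤ T M) (hJ2 : ∀ M, T M < Tlen B (J M + 1)) (hJ : Tendsto J atTop atTop) :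
    Tendsto (fun M : ℕ => V B (J M) / M) atTop (𝓝 1) := by
  have h3 : Tendsto (fun M : ℕ => (T M : ℝ) / M / (2 * (1 + (B (J M) : ℝ) / V B (J M)))) atTop (𝓝 (2 / (2 * (1 + 0)))) :=
    hT.div (((h2.comp hJ).const_add 1).const_mul 2) (by norm_num)
  have h4 : Tendsto (fun M : ℕ => (T M : ℝ) / M / 2) atTop (𝓝 (2 / 2)) := hT.div_const 2
  rw [show (2 : ℝ) / (2 * (1 + 0)) = 1 by norm_num] at h3
  rw [show (2 : ℝ) / 2 = 1 by norm_num] at h4
  refine tendsto_of_tendsto_of_tendsto_of_le_of_le' h3 h4 ?_ (Eventually.of_forall fun M => ?_)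
  · filter_upwards [hJ.eventually_ge_atTop 1] with M hM
    have hV := V_ge B hB (J M)
    have hJM : (1 : ℝ) ≤ J M := by exact_mod_cast hM
    have hVp : 0 < V B (J M) := by linarith
    have h5 : (T M : ℝ) ≤ 2 * V B (J M) + 2 * B (J M) := by
      have h6 : (T M : ℝ) ≤ (Tlen B (J M + 1) : ℝ) := by exact_mod_cast (hJ2 M).le
      rw [Tlen_eq] at h6
      unfold V at h6 ⊢
      rw [sum_range_succ] at h6
      linarith
    rw [div_le_iff₀ (by positivity)]
    have h7 : V B (J M) / M * (2 * (1 + (B (J M) : ℝ) / V B (J M))) = (2 * V B (J M) + 2 * B (J M)) / M := by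
      field_simp
    rw [h7]
    exact div_le_div_of_nonneg_right h5 (Nat.cast_nonneg _)
  · have h6 : (Tlen B (J M) : ℝ) ≤ T M := by exact_mod_cast hJ1 M
    rw [Tlen_eq] at h6
    have h7 : (T M : ℝ) / M / 2 = (T M : ℝ) / 2 / M := by ring
    rw [h7]
    apply div_le_div_of_nonneg_right _ (Nat.cast_nonneg _)
    linarith

theorem err_lim (B : ℕ → ℕ) (hB : ∀ j, 1 ≤ B j) (he : Tendsto (fun J : ℕ => err B J / V B J) atTop (𝓝 0))
    (J : ℕ → ℕ) (hJ : Tendsto J atTop atTop) (hV : Tendsto (fun M : ℕ => V B (J M) / M) atTop (𝓝 1)) :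
    Tendsto (fun M : ℕ => err B (J M) / M) atTop (𝓝 0) := by
  have h := (he.comp hJ).mul hV
  rw [zero_mul] at h
  refine h.congr' ?_
  filter_upwards [hJ.eventually_ge_atTop 1] with M hM
  have hV := V_ge B hB (J M)
  have hJM : (1 : ℝ) ≤ J M := by exact_mod_cast hM
  have hVp : 0 < V B (J M) := by linarith
  simp only [Function.comp]
  field_simp

theorem J_tendsto (B : ℕ → ℕ) (T J : ℕ → ℕ) (hT : ∀ M, M ≤ T M)
    (hJ2 : ∀ M, T M < Tlen B (J M + 1)) : Tendsto J atTop atTop := by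
  rw [tendsto_atTop]
  intro K
  filter_upwards [eventually_ge_atTop (Tlen B K)] with M hM
  by_contra hlt
  push Not at hlt
  have h1 : Tlen B (J M + 1) ≤ Tlen B K := by
    unfold Tlen
    exact sum_le_sum_of_subset (range_mono (by omega))
  have h2 := hT M
  have h3 := hJ2 M
  omega

end K5aux

open K5aux

/-- K5: gluing -/
theorem K5_glue (Nf : ℕ → ℕ) [∀ ν, NeZero (Nf ν)] (L : ℕ) (hlow : ∀ ν, ν + 1 ≤ Nf ν) (hup : ∀ ν, Nf ν ≤ L * (ν + 1))
    (μ : ∀ ν, (Fin (Nf ν) → Site (Nf ν)) → ℝ) (h0 : ∀ ν s, 0 ≤ μ ν s) (h1 : ∀ ν, ∑ s, μ ν s = 1)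
    (hinj : ∀ ν s, μ ν s ≠ 0 → Function.Injective s)
    (hc : ∀ (m : ℕ), 1 ≤ m → ∀ (f : (Fin (m + 1) → ℝ) → ℝ) (F : (Fin m → ℝ) → ℂ), TestPair f F →
      Tendsto (fun ν => (1 / (Nf ν : ℝ)) * ∑ s, μ ν s * ∑ j : Fin (m + 1) ↪ Fin (Nf ν),
        perf f (Nf ν) (fun i => s (j i))) atTop (𝓝 (∫ y : Fin m → ℝ, f (Fin.cons 0 y) * W (Fin.cons 0 y)))) :
    ∃ x : ℕ → ℝ, InS x ∧
      (∀ c c' : ℝ, c' < c → (∀ᶠ ν in atTop, c ≤ (1 / (Nf ν : ℝ)) * ∑ s, μ ν s * (pat s : ℝ)) →
        ∀ᶠ M in atTop, c' ≤ freq x (5 / 2) M) ∧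
      (∀ c c' : ℝ, c < c' → (∀ᶠ ν in atTop, (1 / (Nf ν : ℝ)) * ∑ s, μ ν s * (pat s : ℝ) ≤ c) →
        ∀ᶠ M in atTop, freq x (5 / 2) M ≤ c') := by
  classical
  have hNpos : ∀ ν, (0 : ℝ) < Nf ν := fun ν => by
    have := Nat.pos_of_ne_zero (NeZero.ne (Nf ν))
    exact_mod_cast this
  let ν : ℕ → ℕ := fun j => Nat.log 2 (j + 1)
  let B : ℕ → ℕ := fun j => Nf (ν j)
  have hB : ∀ j, 1 ≤ B j := fun j => by
    have := hlow (ν j)
    show 1 ≤ Nf (ν j)
    omega
  have hνt : Tendsto ν atTop atTop := by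
    rw [tendsto_atTop]
    intro K
    filter_upwards [eventually_ge_atTop (2 ^ K)] with j hj
    exact Nat.le_log_of_pow_le (by norm_num) (by omega)
  have hBt : Tendsto B atTop atTop := tendsto_atTop_mono (fun j => by
    have := hlow (ν j)
    show ν j ≤ Nf (ν j)
    omega) hνt
  have hL : ∀ j, B j ≤ L * (Nat.log 2 (j + 1) + 1) := fun j => hup _
  obtain ⟨w, hw0, hw⟩ := K1_family (ι := Finset ℤ) (fun j => Fin (Nf (ν j)) → Site (Nf (ν j)))
    (fun j => μ (ν j)) (fun j => h0 _) (fun j => h1 _)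
    (fun D j ω => (rcnt (Nf (ν j)) (ocOf ω) D : ℝ)) (fun j => ((2 * Nf (ν j) : ℕ) : ℝ)) (by
      intro D j ω
      rw [abs_of_nonneg (Nat.cast_nonneg _)]
      exact_mod_cast rcnt_le _ _ _)
  have hinjw : ∀ j, Function.Injective (w j) := fun j => hinj _ _ (hw0 j)
  let oc : ℕ → ℕ → Prop := fun j => ocOf (w j)
  have hoc : open Classical in ∀ j, #{t ∈ range (2 * B j) | oc j t} = B j := fun j => card_oc (w j) (hinjw j)
  have hBV := lem2 B hB L hL
  have hlim : Tendsto (fun J => (B J : ℝ) / Tlen B J) atTop (𝓝 0) := by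
    have h := hBV.div_const 2
    rw [zero_div] at h
    refine h.congr fun J => ?_
    rw [Tlen_eq, div_div, mul_comm]
  obtain ⟨hinf, hmono, hdens, hah, hnth⟩ := K3_seq B hB oc hoc hlim
  set s : ℕ → Prop := glue B oc with hs
  choose Jb hJb1 hJb2 using exists_block B hB
  let T : ℕ → ℕ := fun M => Nat.nth s M
  let J : ℕ → ℕ := fun M => Jb (T M)
  have hJ1 : ∀ M, Tlen B (J M) ≤ T M := fun M => hJb1 _
  have hJ2 : ∀ M, T M < Tlen B (J M + 1) := fun M => hJb2 _
  have hTM : ∀ M, M ≤ T M := fun M => (Nat.nth_strictMono hinf).le_apply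
  have hJt : Tendsto J atTop atTop := J_tendsto B T J hTM hJ2
  have hV : Tendsto (fun M : ℕ => V B (J M) / M) atTop (𝓝 1) := V_lim B hB hBV T J hnth hJ1 hJ2 hJt
  have herr : Tendsto (fun M : ℕ => err B (J M) / M) atTop (𝓝 0) :=
    err_lim B hB (lem_err B hB hBt L hL) J hJt hV
  let E : ℕ → Finset ℤ → ℝ := fun j D => ∑ ω, μ (ν j) ω * (rcnt (Nf (ν j)) (ocOf ω) D : ℝ)
  have hcnt : ∀ D : Finset ℤ, Tendsto (fun M : ℕ => ((cnt s D (T M) : ℝ) - ∑ j ∈ range (J M), E j D) / M)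
      atTop (𝓝 0) := by
    intro D
    obtain ⟨C1, hC1⟩ := K2_count B hB oc D
    obtain ⟨C2, hC2⟩ := hw D
    have h := herr.const_mul ((C1 : ℝ) + 2 + |C2|)
    rw [mul_zero] at h
    refine squeeze_zero_norm (fun M => ?_) h
    rw [Real.norm_eq_abs, abs_div, Nat.abs_cast, ← mul_div_assoc]
    apply div_le_div_of_nonneg_right _ (Nat.cast_nonneg _)
    have h2 := hC1 (J M) (T M) (hJ1 M) (hJ2 M).le
    have h3 := hC2 (J M)
    have h4 : (cnt s D (T M) : ℝ) - ∑ j ∈ range (J M), E j D =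
        ((cnt s D (T M) : ℝ) - ∑ j ∈ range (J M), (rcnt (B j) (oc j) D : ℝ)) +
        ∑ j ∈ range (J M), ((rcnt (Nf (ν j)) (ocOf (w j)) D : ℝ) - ∑ ω, μ (ν j) ω * (rcnt (Nf (ν j)) (ocOf ω) D : ℝ)) := by
      rw [sum_sub_distrib]
      show _ = (_ - _) + (_ - ∑ j ∈ range (J M), E j D)
      simp only [B, oc]
      ring
    rw [h4]
    have hS : 0 ≤ Real.sqrt (∑ j ∈ range (J M), ((2 * B j : ℕ) : ℝ) ^ 2) := Real.sqrt_nonneg _
    have h5 : C2 * Real.sqrt (∑ j ∈ range (J M), ((2 * B j : ℕ) : ℝ) ^ 2) ≤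
        |C2| * Real.sqrt (∑ j ∈ range (J M), ((2 * B j : ℕ) : ℝ) ^ 2) :=
      mul_le_mul_of_nonneg_right (le_abs_self _) hS
    have h6 : (0 : ℝ) ≤ B (J M) := Nat.cast_nonneg _
    have h7 : (0 : ℝ) ≤ J M := Nat.cast_nonneg _
    have h8 : (0 : ℝ) ≤ C1 := Nat.cast_nonneg _
    have h9 : (0 : ℝ) ≤ |C2| := abs_nonneg _
    refine (abs_add_le _ _).trans ((add_le_add h2 h3).trans ?_)
    unfold err
    set S := Real.sqrt (∑ j ∈ range (J M), ((2 * B j : ℕ) : ℝ) ^ 2) with hSd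
    have h10 : C2 * Real.sqrt (∑ j ∈ range (J M), ((2 * Nf (ν j) : ℕ) : ℝ) ^ 2) = C2 * S := rfl
    rw [h10]
    nlinarith [mul_nonneg h8 h6, mul_nonneg h8 hS, mul_nonneg h9 h6, mul_nonneg h9 h7, hS, h6, h7]
  let q : ℕ → ℝ := fun ν => (1 / (Nf ν : ℝ)) * ∑ s, μ ν s * (pat s : ℝ)
  have hfreq : Tendsto (fun M : ℕ => freq (seqOf s) (5 / 2) M - (∑ j ∈ range (J M), (B j : ℝ) * q (ν j)) / M)
      atTop (𝓝 0) := by
    have h : Tendsto (fun M : ℕ => ∑ Q ∈ ({1, 2, 3, 4} : Finset ℤ).powerset, (-1 : ℝ) ^ #Q *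
        (((cnt s (insert 0 (insert 5 Q)) (T M) : ℝ) -
        ∑ j ∈ range (J M), E j (insert 0 (insert 5 Q))) / M)) atTop
        (𝓝 (∑ Q ∈ ({1, 2, 3, 4} : Finset ℤ).powerset, (-1 : ℝ) ^ #Q * 0)) :=
      tendsto_finsetSum _ fun Q _ => (hcnt (insert 0 (insert 5 Q))).const_mul _
    simp only [mul_zero, sum_const_zero] at h
    refine h.congr fun M => ?_
    rw [K3_freq s hinf M]
    have e1 : ∀ j, (B j : ℝ) * q (ν j) = ∑ Q ∈ ({1, 2, 3, 4} : Finset ℤ).powerset,
        (-1 : ℝ) ^ #Q * E j (insert 0 (insert 5 Q)) := by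
      intro j
      have e2 : (B j : ℝ) * q (ν j) = ∑ s, μ (ν j) s * (pat s : ℝ) := by
        show (Nf (ν j) : ℝ) * ((1 / (Nf (ν j) : ℝ)) * _) = _
        rw [← mul_assoc, mul_one_div_cancel (hNpos _).ne', one_mul]
      rw [e2]
      simp only [E, mul_sum]
      rw [sum_comm]
      apply sum_congr rfl
      intro s _
      rw [K3_pat s, mul_sum]
      exact sum_congr rfl fun _ _ => by ring
    have e3 : ∑ j ∈ range (J M), (B j : ℝ) * q (ν j) = ∑ Q ∈ ({1, 2, 3, 4} : Finset ℤ).powerset,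
        (-1 : ℝ) ^ #Q * ∑ j ∈ range (J M), E j (insert 0 (insert 5 Q)) := by
      simp only [e1, mul_sum]
      rw [sum_comm]
    rw [e3, ← sub_div, ← sum_sub_distrib, sum_div]
    apply sum_congr rfl
    intro Q _
    show _ = ((-1 : ℝ) ^ #Q * (cnt s (insert 0 (insert 5 Q)) (T M) : ℝ) - _) / _
    ring
  refine ⟨seqOf s, ⟨hmono, hdens, hah, ?_⟩, ?_, ?_⟩
  · intro m hm f hf
    obtain ⟨F, hF⟩ := I_test hm hf
    refine ⟨fun N => (K4_seq hF s hinf N 0).1, ?_⟩
    set I : ℝ := ∫ y : Fin m → ℝ, f (Fin.cons 0 y) * W (Fin.cons 0 y) with hI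
    let a : ℕ → ℝ := fun ν => (1 / (Nf ν : ℝ)) * ∑ s, μ ν s * ∑ j : Fin (m + 1) ↪ Fin (Nf ν),
        perf f (Nf ν) (fun i => s (j i))
    have ha : Tendsto (fun j => a (ν j)) atTop (𝓝 I) := (hc m hm f F hF).comp hνt
    have hA := ces_lim B J hV (fun j => a (ν j)) I ha
    obtain ⟨-, htail⟩ := K4_tail hF
    rw [Metric.tendsto_nhds]
    intro ε hε
    obtain ⟨R, hR⟩ := (htail.eventually_lt_const (show (0 : ℝ) < ε / 8 by positivity)).exists
    have hY : Tendsto (fun M : ℕ => ∑ y ∈ box m R, fval f y * (((cnt s (offs y) (T M) : ℝ) -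
        ∑ j ∈ range (J M), E j (offs y)) / M)) atTop (𝓝 0) := by
      have h : Tendsto (fun M : ℕ => ∑ y ∈ box m R, fval f y * (((cnt s (offs y) (T M) : ℝ) -
        ∑ j ∈ range (J M), E j (offs y)) / M)) atTop (𝓝 (∑ y ∈ box m R, fval f y * 0)) :=
        tendsto_finsetSum _ fun y _ => (hcnt (offs y)).const_mul _
      simpa using h
    let q : ℕ → ℝ := fun j => |(∑ y ∈ box m R, fval f y * E j (offs y)) - (B j : ℝ) * a (ν j)| / B j
    have hq : ∀ᶠ j in atTop, q j ≤ tail f R := by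
      filter_upwards [hBt.eventually_gt_atTop R] with j hj
      have hbp : (0 : ℝ) < B j := hNpos _
      show |_| / (B j : ℝ) ≤ _
      rw [div_le_iff₀ hbp]
      have e1 : (B j : ℝ) * a (ν j) = ∑ s, μ (ν j) s * ∑ i : Fin (m + 1) ↪ Fin (Nf (ν j)),
          perf f (Nf (ν j)) (fun k => s (i k)) := by
        show (Nf (ν j) : ℝ) * ((1 / (Nf (ν j) : ℝ)) * _) = _
        rw [← mul_assoc, mul_one_div_cancel (hNpos _).ne', one_mul]
      have e2 : ∑ y ∈ box m R, fval f y * E j (offs y) =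
          ∑ s, μ (ν j) s * ∑ y ∈ box m R, fval f y * (rcnt (Nf (ν j)) (ocOf s) (offs y) : ℝ) := by
        simp only [E, mul_sum]
        rw [sum_comm]
        exact sum_congr rfl fun _ _ => sum_congr rfl fun _ _ => by ring
      rw [e1, e2, ← sum_sub_distrib]
      refine (abs_sum_le_sum_abs _ _).trans ?_
      calc ∑ s, |μ (ν j) s * ∑ y ∈ box m R, fval f y * (rcnt (Nf (ν j)) (ocOf s) (offs y) : ℝ) -
            μ (ν j) s * ∑ i : Fin (m + 1) ↪ Fin (Nf (ν j)), perf f (Nf (ν j)) (fun k => s (i k))|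
          ≤ ∑ s, μ (ν j) s * ((Nf (ν j) : ℝ) * tail f R) := by
            apply sum_le_sum
            intro s _
            rw [← mul_sub, abs_mul, abs_of_nonneg (h0 _ _)]
            by_cases hz : μ (ν j) s = 0
            · rw [hz]; simp
            · apply mul_le_mul_of_nonneg_left _ (h0 _ _)
              rw [abs_sub_comm]
              exact K4_ring hF s (hinj _ _ hz) R hj
        _ = tail f R * (B j : ℝ) := by
            rw [← sum_mul, h1, one_mul, mul_comm]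
    have hq2 := ces_le B J hV q (tail f R) (ε / 4) (by linarith) hq
    have hA' := hA.eventually (Metric.ball_mem_nhds I (show (0 : ℝ) < ε / 8 by positivity))
    have hY' := hY.eventually (Metric.ball_mem_nhds 0 (show (0 : ℝ) < ε / 8 by positivity))
    filter_upwards [hq2, hA', hY', eventually_gt_atTop 0] with M hqM hAM hYM hM
    have hMp : (0 : ℝ) < M := by exact_mod_cast hM
    have hS := (K4_seq hF s hinf M R).2
    rw [Real.dist_eq] at hAM hYM
    rw [sub_zero] at hYM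
    rw [Real.dist_eq]
    set Sf : ℝ := ∑' j : CorrIdx m M, f (fun i => seqOf s (j.1 i)) with hSf
    set YR : ℝ := ∑ y ∈ box m R, fval f y * (cnt s (offs y) (Nat.nth s M) : ℝ) with hYR
    set ZR : ℝ := ∑ y ∈ box m R, fval f y * ∑ j ∈ range (J M), E j (offs y) with hZR
    set AR : ℝ := ∑ j ∈ range (J M), (B j : ℝ) * a (ν j) with hAR
    have e3 : ∑ y ∈ box m R, fval f y * (((cnt s (offs y) (T M) : ℝ) -
        ∑ j ∈ range (J M), E j (offs y)) / M) = (YR - ZR) / M := by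
      rw [hYR, hZR, ← sum_sub_distrib, sum_div]
      apply sum_congr rfl
      intro y _
      show _ = (fval f y * (cnt s (offs y) (T M) : ℝ) - _) / _
      ring
    rw [e3] at hYM
    have e4 : |ZR - AR| ≤ ∑ j ∈ range (J M), (B j : ℝ) * q j := by
      have e5 : ZR - AR = ∑ j ∈ range (J M), ((∑ y ∈ box m R, fval f y * E j (offs y)) - (B j : ℝ) * a (ν j)) := by
        rw [sum_sub_distrib, hZR, hAR]
        congr 1
        rw [sum_comm]
        apply sum_congr rfl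
        intro y _
        rw [mul_sum]
      rw [e5]
      refine (abs_sum_le_sum_abs _ _).trans (sum_le_sum fun j _ => ?_)
      show _ ≤ (B j : ℝ) * (|_| / (B j : ℝ))
      have hbp : (0 : ℝ) < B j := hNpos _
      rw [mul_div_cancel₀ _ hbp.ne']
    have e6 : |ZR - AR| / M ≤ ε / 4 :=
      (div_le_div_of_nonneg_right e4 hMp.le).trans hqM
    have e7 : |Sf - YR| / M ≤ tail f R := by
      rw [div_le_iff₀ hMp]
      linarith
    have e8 : 1 / (M : ℝ) * Sf - I = (Sf - YR) / M + (YR - ZR) / M + (ZR - AR) / M + (AR / M - I) := by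
      field_simp
      ring
    rw [e8]
    have e9 : |(Sf - YR) / M| = |Sf - YR| / M := by rw [abs_div, Nat.abs_cast]
    have e10 : |(ZR - AR) / M| = |ZR - AR| / M := by rw [abs_div, Nat.abs_cast]
    have t1 := abs_add_le ((Sf - YR) / M + (YR - ZR) / M + (ZR - AR) / M) (AR / M - I)
    have t2 := abs_add_le ((Sf - YR) / M + (YR - ZR) / M) ((ZR - AR) / M)
    have t3 := abs_add_le ((Sf - YR) / (M : ℝ)) ((YR - ZR) / M)
    rw [e9] at t3
    rw [e10] at t2
    linarith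
  · intro c c' hcc hev
    have h2 := ces_ge B J hV (fun j => q (ν j)) c ((c + c') / 2) (by linarith) (hνt.eventually hev)
    have h3 := hfreq.eventually_const_lt (show (c' - c) / 2 < 0 by linarith)
    filter_upwards [h2, h3] with M hM1 hM2
    linarith
  · intro c c' hcc hev
    have h2 := ces_le B J hV (fun j => q (ν j)) c ((c + c') / 2) (by linarith) (hνt.eventually hev)
    have h3 := hfreq.eventually_lt_const (show (0 : ℝ) < (c' - c) / 2 by linarith)
    filter_upwards [h2, h3] with M hM1 hM2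
    linarith

end Pool.Agent.H808R2.AH
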