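import Mathlib
import Pool.Agent.H808R2.AH.Defs
import Pool.Agent.H808R2.AH.C
import Pool.Agent.H808R2.AH.D2
import Pool.Agent.H808R2.AH.D3
import Pool.Agent.H808R2.AH.E
import Pool.Agent.H808R2.AH.F
import Pool.Agent.H808R2.AH.F3
import Pool.Agent.H808R2.AH.H0
import Pool.Agent.H808R2.AH.Hpoi
import Pool.Agent.H808R2.AH.I
import Pool.Agent.H808R2.AH.J1
import Pool.Agent.H808R2.AH.J2
import Pool.Agent.H808R2.AH.J3
import Pool.Agent.H808R2.AH.J4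
import Pool.Agent.H808R2.AH.K5

/-! Final assembly for MP_039ae7_nt. -/

namespace Pool.Agent.H808R2.AH
open Finset Filter Topology MeasureTheory
open scoped FourierTransform

theorem J1_sampling {m : ℕ} {f : (Fin (m + 1) → ℝ) → ℝ} {F : (Fin m → ℝ) → ℂ} (h : TestPair f F) :
    (1 / 2 : ℝ) ^ m * ∑' z : Fin m → ℤ, fval f z * W (Fin.cons 0 fun i => (z i : ℝ) / 2) =
      ∫ y : Fin m → ℝ, f (Fin.cons 0 y) * W (Fin.cons 0 y) :=
  J1_sampling_of (fun _ φ F hF R hR rep C decay ω => H0_inv φ F hF R hR rep C decay ω)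
    (fun _ φ F hF R hR rep C decay a ha y => H_gen φ F hF R hR rep C decay a ha y) h

theorem J4_tilt (N : ℕ) [NeZero N] (ε : ℝ) (g : ZMod N → ℝ) (hg : FarSupp N g) {m : ℕ}
    {f : (Fin (m + 1) → ℝ) → ℝ} {F : (Fin m → ℝ) → ℂ} (h : TestPair f F) :
    ∑ s : Fin N → Site N, mu N ε g s * ∑ j : Fin (m + 1) ↪ Fin N, perf f N (fun i => s (j i)) =
      ∑ s : Fin N → Site N, wP N s * ∑ j : Fin (m + 1) ↪ Fin N, perf f N (fun i => s (j i)) :=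
  J4_tilt_of N ε g (fun k h0 h1 => C_orth N ε g hg k h0 h1) h
    (fun y => H_poisson h (N : ℝ) (by exact_mod_cast Nat.pos_of_ne_zero (NeZero.ne N)) y)

theorem F_limit : ∃ L : ℕ, 0 < L ∧ ∃ C δ : ℝ, 0 < C ∧ 0 < δ ∧ ∀ᶠ ν : ℕ in atTop, ∀ (N : ℕ) [NeZero N],
    N = L * (ν + 1) → ∃ g : ZMod N → ℝ, FarSupp N g ∧ ∑ x, |g x| ≤ C ∧ TT N g 0 0 + TT N g 1 0 ≤ -δ :=
  TF.F_limit_of F3_ZZ

/-- averages of periodised test functions under the base measure -/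
theorem base_avg {m : ℕ} {f : (Fin (m + 1) → ℝ) → ℝ} {F : (Fin m → ℝ) → ℂ} (h : TestPair f F) :
    Tendsto (fun N : ℕ => (1 / ((N + 1 : ℕ) : ℝ)) * ∑ s : Fin (N + 1) → Site (N + 1), wP (N + 1) s *
      ∑ j : Fin (m + 1) ↪ Fin (N + 1), perf f (N + 1) (fun i => s (j i))) atTop
      (𝓝 (∫ y : Fin m → ℝ, f (Fin.cons 0 y) * W (Fin.cons 0 y))) := by
  rw [← J1_sampling h]
  exact J2_ringlimit h

theorem mu_nonneg (N : ℕ) [NeZero N] (ε : ℝ) (g : ZMod N → ℝ) (h : |ε| * (∑ x, |g x|) ^ 6 ≤ 1)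
    (s : Fin N → Site N) : 0 ≤ mu N ε g s := by
  refine mul_nonneg (A1_nonneg N s) ?_
  unfold Gt
  refine D2_nonneg N ε g h (sg s) fun x => ?_
  unfold sg
  split_ifs
  · exact Or.inl rfl
  · exact Or.inr rfl

/-- the statement of K5 -/
def K5Prop : Prop := ∀ (Nf : ℕ → ℕ) [∀ ν, NeZero (Nf ν)] (L : ℕ) (_ : ∀ ν, ν + 1 ≤ Nf ν) (_ : ∀ ν, Nf ν ≤ L * (ν + 1))
    (μ : ∀ ν, (Fin (Nf ν) → Site (Nf ν)) → ℝ) (_ : ∀ ν s, 0 ≤ μ ν s) (_ : ∀ ν, ∑ s, μ ν s = 1)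
    (_ : ∀ ν s, μ ν s ≠ 0 → Function.Injective s)
    (_ : ∀ (m : ℕ), 1 ≤ m → ∀ (f : (Fin (m + 1) → ℝ) → ℝ) (F : (Fin m → ℝ) → ℂ), TestPair f F →
      Tendsto (fun ν => (1 / (Nf ν : ℝ)) * ∑ s, μ ν s * ∑ j : Fin (m + 1) ↪ Fin (Nf ν),
        perf f (Nf ν) (fun i => s (j i))) atTop (𝓝 (∫ y : Fin m → ℝ, f (Fin.cons 0 y) * W (Fin.cons 0 y)))),
    ∃ x : ℕ → ℝ, InS x ∧
      (∀ c c' : ℝ, c' < c → (∀ᶠ ν in atTop, c ≤ (1 / (Nf ν : ℝ)) * ∑ s, μ ν s * (pat s : ℝ)) →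
        ∀ᶠ M in atTop, c' ≤ freq x (5 / 2) M) ∧
      (∀ c c' : ℝ, c < c' → (∀ᶠ ν in atTop, (1 / (Nf ν : ℝ)) * ∑ s, μ ν s * (pat s : ℝ) ≤ c) →
        ∀ᶠ M in atTop, freq x (5 / 2) M ≤ c')

theorem freq_nonneg (x : ℕ → ℝ) (d : ℝ) (N : ℕ) : 0 ≤ freq x d N := by
  unfold freq
  positivity

theorem freq_le_one (x : ℕ → ℝ) (d : ℝ) (N : ℕ) : freq x d N ≤ 1 := by
  unfold freq
  rcases Nat.eq_zero_or_pos N with h | h
  · subst h; simp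
  · rw [div_le_one (by exact_mod_cast h)]
    exact_mod_cast (Finset.card_filter_le _ _).trans (by simp)

theorem exists_one (K5 : K5Prop) {c : ℝ} (hc : Tendsto (fun N : ℕ => (1 / ((N + 1 : ℕ) : ℝ)) *
    ∑ s : Fin (N + 1) → Site (N + 1), wP (N + 1) s * (pat s : ℝ)) atTop (𝓝 c)) :
    ∃ x : ℕ → ℝ, InS x ∧ Tendsto (freq x (5 / 2)) atTop (𝓝 c) := by
  obtain ⟨x, hx, h1, h2⟩ := K5 (fun ν => ν + 1) 1 (fun ν => le_rfl) (fun ν => by simp) (fun ν => wP (ν + 1))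
    (fun ν s => A1_nonneg _ s) (fun ν => A1_sum _) (fun ν s => A1_inj _ s)
    (fun m _ f F h => base_avg h)
  refine ⟨x, hx, ?_⟩
  rw [tendsto_order]
  constructor
  · intro a ha
    have h3 := h1 ((a + c) / 2 + (c - a) / 4) ((a + c) / 2) (by linarith)
      ((tendsto_order.mp hc).1 _ (by linarith) |>.mono fun ν hν => le_of_lt hν)
    exact h3.mono fun M hM => lt_of_lt_of_le (by linarith) hM
  · intro a ha
    have h3 := h2 ((a + c) / 2 - (a - c) / 4) ((a + c) / 2) (by linarith)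
      ((tendsto_order.mp hc).2 _ (by linarith) |>.mono fun ν hν => le_of_lt hν)
    exact h3.mono fun M hM => lt_of_le_of_lt hM (by linarith)

theorem pat_step (N : ℕ) [NeZero N] (hN : 3 ≤ N) (ε δ : ℝ) (hε : 0 < ε) (g : ZMod N → ℝ)
    (hg : TT N g 0 0 + TT N g 1 0 ≤ -δ) :
    (1 / (N : ℝ)) * ∑ s : Fin N → Site N, wP N s * (pat s : ℝ) + ε / 384 * δ ≤
      (1 / (N : ℝ)) * ∑ s : Fin N → Site N, mu N ε g s * (pat s : ℝ) := by
  have h6 := E_pat N hN ε g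
  have h7 : ∑ s : Fin N → Site N, mu N ε g s * (pat s : ℝ) = ∑ s : Fin N → Site N, wP N s * (pat s : ℝ) +
      -(ε / 384) * (N : ℝ) * (TT N g 0 0 + TT N g 1 0) := by
    rw [← h6, ← Finset.sum_add_distrib]
    refine Finset.sum_congr rfl fun s _ => ?_
    ring
  rw [h7]
  have hNpos : (0 : ℝ) < (N : ℝ) := by exact_mod_cast (show 0 < N by omega)
  have h8 : (1 / (N : ℝ)) * (∑ s : Fin N → Site N, wP N s * (pat s : ℝ) +
      -(ε / 384) * (N : ℝ) * (TT N g 0 0 + TT N g 1 0)) =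
      (1 / (N : ℝ)) * ∑ s : Fin N → Site N, wP N s * (pat s : ℝ) +
        ε / 384 * -(TT N g 0 0 + TT N g 1 0) := by
    field_simp
  rw [h8]
  have h10 : ε / 384 * δ ≤ ε / 384 * -(TT N g 0 0 + TT N g 1 0) :=
    mul_le_mul_of_nonneg_left (by linarith) (by positivity)
  linarith

theorem exists_two (K5 : K5Prop) {c : ℝ} (hc : Tendsto (fun N : ℕ => (1 / ((N + 1 : ℕ) : ℝ)) *
    ∑ s : Fin (N + 1) → Site (N + 1), wP (N + 1) s * (pat s : ℝ)) atTop (𝓝 c)) :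
    ∃ (x : ℕ → ℝ) (c' : ℝ), InS x ∧ c < c' ∧ ∀ᶠ M in atTop, c' ≤ freq x (5 / 2) M := by
  obtain ⟨L, hL, C, δ, hC, hδ, hF⟩ := F_limit
  obtain ⟨ν₀, hν₀⟩ := eventually_atTop.mp hF
  have hne : ∀ ν : ℕ, NeZero (L * ((ν + (ν₀ + 3)) + 1)) := fun ν => ⟨by positivity⟩
  have hex : ∀ ν : ℕ, ∃ g : ZMod (L * ((ν + (ν₀ + 3)) + 1)) → ℝ, FarSupp (L * ((ν + (ν₀ + 3)) + 1)) g ∧
      ∑ x, |g x| ≤ C ∧ TT (L * ((ν + (ν₀ + 3)) + 1)) g 0 0 + TT (L * ((ν + (ν₀ + 3)) + 1)) g 1 0 ≤ -δ := by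
    intro ν
    exact hν₀ (ν + (ν₀ + 3)) (by omega) _ rfl
  choose g hg1 hg2 hg3 using hex
  set ε : ℝ := 1 / C ^ 6 with hε
  have hε0 : 0 < ε := by positivity
  have hcond : ∀ ν, |ε| * (∑ x, |g ν x|) ^ 6 ≤ 1 := by
    intro ν
    rw [abs_of_pos hε0, hε]
    have h1 : (∑ x, |g ν x|) ^ 6 ≤ C ^ 6 := by
      apply pow_le_pow_left₀ _ (hg2 ν)
      exact Finset.sum_nonneg fun _ _ => abs_nonneg _
    rw [one_div, inv_mul_le_iff₀ (by positivity), mul_one]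
    exact h1
  have hsub : Tendsto (fun ν : ℕ => L * ((ν + (ν₀ + 3)) + 1) - 1) atTop atTop := by
    refine tendsto_atTop_mono (fun ν => ?_) tendsto_id
    have : 1 * ((ν + (ν₀ + 3)) + 1) ≤ L * ((ν + (ν₀ + 3)) + 1) := Nat.mul_le_mul_right _ hL
    simp only [id]
    omega
  have hNe : ∀ ν : ℕ, L * ((ν + (ν₀ + 3)) + 1) - 1 + 1 = L * ((ν + (ν₀ + 3)) + 1) := fun ν =>
    Nat.succ_pred_eq_of_pos (Nat.pos_of_ne_zero (hne ν).1)
  -- transfer of limits along the subsequence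
  have htr : ∀ (Φ : ∀ (N : ℕ) [NeZero N], ℝ) (l : ℝ), Tendsto (fun N : ℕ => Φ (N + 1)) atTop (𝓝 l) →
      Tendsto (fun ν : ℕ => Φ (L * ((ν + (ν₀ + 3)) + 1))) atTop (𝓝 l) := by
    intro Φ l h
    have h1 := h.comp hsub
    refine h1.congr fun ν => ?_
    simp only [Function.comp]
    have key : ∀ (a b : ℕ) (_ : NeZero a) (_ : NeZero b), a = b → Φ a = Φ b := by
      intro a b ia ib hab
      subst hab
      rfl
    exact key _ _ _ _ (hNe ν)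
  obtain ⟨x, hx, h1, h2⟩ := K5 (fun ν => L * ((ν + (ν₀ + 3)) + 1)) (L * (ν₀ + 4))
    (fun ν => by
      have : 1 * ((ν + (ν₀ + 3)) + 1) ≤ L * ((ν + (ν₀ + 3)) + 1) := Nat.mul_le_mul_right _ hL
      show ν + 1 ≤ L * ((ν + (ν₀ + 3)) + 1)
      omega)
    (fun ν => by
      show L * ((ν + (ν₀ + 3)) + 1) ≤ L * (ν₀ + 4) * (ν + 1)
      rw [mul_assoc]
      apply Nat.mul_le_mul_left
      nlinarith)
    (fun ν => mu _ ε (g ν))
    (fun ν s => mu_nonneg _ ε (g ν) (hcond ν) s)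
    (fun ν => D3_sum _ ε (g ν))
    (fun ν s hs => A1_inj _ s fun h0 => hs (by simp [mu, h0]))
    (fun m _ f F h => by
      have h3 := htr (fun N _ => (1 / (N : ℝ)) * ∑ s : Fin N → Site N, wP N s *
        ∑ j : Fin (m + 1) ↪ Fin N, perf f N (fun i => s (j i))) _ (base_avg h)
      refine h3.congr fun ν => ?_
      rw [J4_tilt _ ε (g ν) (hg1 ν) h])
  have h4 := htr (fun N _ => (1 / (N : ℝ)) * ∑ s : Fin N → Site N, wP N s * (pat s : ℝ)) c hc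
  have h5 : ∀ ν : ℕ, (1 / ((L * ((ν + (ν₀ + 3)) + 1) : ℕ) : ℝ)) * ∑ s : Fin (L * ((ν + (ν₀ + 3)) + 1)) →
      Site (L * ((ν + (ν₀ + 3)) + 1)), wP (L * ((ν + (ν₀ + 3)) + 1)) s * (pat s : ℝ) + ε / 384 * δ ≤
      (1 / ((L * ((ν + (ν₀ + 3)) + 1) : ℕ) : ℝ)) * ∑ s : Fin (L * ((ν + (ν₀ + 3)) + 1)) →
      Site (L * ((ν + (ν₀ + 3)) + 1)), mu (L * ((ν + (ν₀ + 3)) + 1)) ε (g ν) s * (pat s : ℝ) := by
    intro ν
    have hN3 : 3 ≤ L * ((ν + (ν₀ + 3)) + 1) := by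
      have : 1 * ((ν + (ν₀ + 3)) + 1) ≤ L * ((ν + (ν₀ + 3)) + 1) := Nat.mul_le_mul_right _ hL
      omega
    exact pat_step _ hN3 ε δ hε0 (g ν) (hg3 ν)
  have hεδ : 0 < ε / 384 * δ := by positivity
  refine ⟨x, c + ε / 384 * δ / 4, hx, by linarith, ?_⟩
  refine h1 (c + ε / 384 * δ / 2) (c + ε / 384 * δ / 4) (by linarith) ?_
  have h11 := (tendsto_order.mp h4).1 (c - ε / 384 * δ / 2) (by linarith)
  refine h11.mono fun ν hν => ?_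
  have := h5 ν
  linarith

/-- the main theorem, from K5 -/
theorem main_of (K5 : K5Prop) : ∃ x y : ℕ → ℝ, InS x ∧ InS y ∧ pMinus x (5 / 2) = pPlus x (5 / 2) ∧
    pPlus x (5 / 2) < pMinus y (5 / 2) := by
  obtain ⟨c, hc⟩ := J3_pat
  obtain ⟨x, hx, hxc⟩ := exists_one K5 hc
  obtain ⟨y, c', hy, hcc, hyc⟩ := exists_two K5 hc
  refine ⟨x, y, hx, hy, ?_, ?_⟩
  · unfold pMinus pPlus
    rw [hxc.liminf_eq, hxc.limsup_eq]
  · unfold pMinus pPlus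
    rw [hxc.limsup_eq]
    refine lt_of_lt_of_le hcc ?_
    refine Filter.le_liminf_of_le ?_ hyc
    exact ⟨1, by
      intro a ha
      obtain ⟨M, hM⟩ := (Filter.eventually_map.mp ha).exists
      exact hM.trans (freq_le_one y _ M)⟩

theorem not_determined_of (h : ∃ x y : ℕ → ℝ, InS x ∧ InS y ∧ pMinus x (5 / 2) = pPlus x (5 / 2) ∧
    pPlus x (5 / 2) < pMinus y (5 / 2)) : ¬ Determined (5 / 2) := by
  rintro ⟨c, hc⟩
  obtain ⟨x, y, hx, hy, _, h2⟩ := h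
  have h3 := (hc x hx).2
  have h4 := (hc y hy).1
  rw [h3, h4] at h2
  exact lt_irrefl _ h2

/-- main theorem -/
theorem main_thm : ∃ x y : ℕ → ℝ, InS x ∧ InS y ∧ pMinus x (5 / 2) = pPlus x (5 / 2) ∧
    pPlus x (5 / 2) < pMinus y (5 / 2) :=
  main_of fun Nf _ L hlow hup μ h0 h1 hinj hc => K5_glue Nf L hlow hup μ h0 h1 hinj hc

end Pool.Agent.H808R2.AH
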