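import Mathlib
import Pool.Agent.H808R2.AH.Defs

/-!
J4: the tilted measure has the same averages of periodised test functions.
-/

namespace Pool.Agent.H808R2.AH
open Finset Filter Topology MeasureTheory

theorem ch_eq_exp (N : ℕ) [NeZero N] (k : ℤ) (s : Site N) :
    ch N k s = Complex.exp (Real.pi * Complex.I * (k * (pos s : ℝ)) / N) := by
  obtain ⟨b, x⟩ := s
  have hN : (N : ℂ) ≠ 0 := by exact_mod_cast NeZero.ne N
  have h1 : ZMod.stdAddChar ((k : ZMod N) * x) = Complex.exp (2 * Real.pi * Complex.I * (k * (x.val : ℝ)) / N) := by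
    have h2 : ((k : ZMod N) * x) = ((k * (x.val : ℤ) : ℤ) : ZMod N) := by
      push_cast
      rw [ZMod.natCast_zmod_val]
    rw [h2, ZMod.stdAddChar_coe]
    congr 1
    push_cast
    ring
  unfold ch
  simp only
  rw [h1]
  cases b
  · simp only [cond_false, pos, one_mul]
    congr 1
    push_cast
    ring
  · simp only [cond_true, pos, zeta]
    rw [← Complex.exp_int_mul, ← Complex.exp_add]
    congr 1
    push_cast
    field_simp
    ring

theorem f_inv {m : ℕ} {f : (Fin (m + 1) → ℝ) → ℝ} {F : (Fin m → ℝ) → ℂ} (h : TestPair f F)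
    (a : ℝ) (b : Fin m → ℝ) : f (Fin.cons a b) = f (Fin.cons 0 fun i => b i - a) := by
  have h1 := h.rep (Fin.cons a b)
  have h2 := h.rep (Fin.cons 0 fun i => b i - a)
  simp only [Fin.cons_succ, Fin.cons_zero, sub_zero] at h1 h2
  have h3 : (f (Fin.cons a b) : ℂ) = (f (Fin.cons 0 fun i => b i - a) : ℂ) := by
    rw [h1, h2]
  exact_mod_cast h3

/-- the exponents with the zeroth one added -/
def addK {m : ℕ} (k : Fin m → ℤ) : Fin (m + 1) → ℤ := Fin.cons (-∑ i, k i) k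

theorem perf_eq {m : ℕ} {f : (Fin (m + 1) → ℝ) → ℝ} {F : (Fin m → ℝ) → ℂ} (h : TestPair f F)
    (N : ℕ) [NeZero N]
    (hP : ∀ y : Fin m → ℝ, ∑' v : Fin m → ℤ, (f (Fin.cons 0 fun i => y i + (N : ℝ) * v i) : ℂ) =
      (1 / ((N : ℝ) : ℂ) ^ m) * ∑' k : Fin m → ℤ, F (fun i => k i / (N : ℝ)) *
        Complex.exp (2 * Real.pi * Complex.I * ∑ i, k i / (N : ℝ) * y i))
    (p : Fin (m + 1) → Site N) :
    (perf f N p : ℂ) = (1 / ((N : ℝ) : ℂ) ^ m) *
      ∑ k ∈ Fintype.piFinset (fun _ : Fin m => Finset.Icc (-(2 * N : ℤ)) (2 * N)),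
        F (fun i => k i / (N : ℝ)) * ∏ i, ch N (addK k i) (p i) := by
  have hN0 : (0 : ℝ) < N := by exact_mod_cast Nat.pos_of_ne_zero (NeZero.ne N)
  have hN : (N : ℂ) ≠ 0 := by exact_mod_cast NeZero.ne N
  have h1 : (perf f N p : ℂ) = ∑' v : Fin m → ℤ,
      (f (Fin.cons 0 fun i => ((pos (p i.succ) : ℝ) / 2 - (pos (p 0) : ℝ) / 2) + (N : ℝ) * v i) : ℂ) := by
    unfold perf
    rw [Complex.ofReal_tsum]
    refine tsum_congr fun v => ?_
    rw [f_inv h]
    congr 3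
    funext i
    ring
  rw [h1, hP (fun i => (pos (p i.succ) : ℝ) / 2 - (pos (p 0) : ℝ) / 2)]
  congr 1
  rw [tsum_eq_sum (s := Fintype.piFinset (fun _ : Fin m => Finset.Icc (-(2 * N : ℤ)) (2 * N)))]
  · refine Finset.sum_congr rfl fun k _ => ?_
    congr 1
    have h2 : ∏ i, ch N (addK k i) (p i) =
        ∏ i, Complex.exp (Real.pi * Complex.I * (addK k i * (pos (p i) : ℝ)) / N) :=
      Finset.prod_congr rfl fun i _ => ch_eq_exp N _ _
    rw [h2, ← Complex.exp_sum]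
    congr 1
    rw [Fin.sum_univ_succ]
    simp only [addK, Fin.cons_zero, Fin.cons_succ]
    rw [Complex.ofReal_sum, Finset.mul_sum]
    have h3 : ∀ i : Fin m, 2 * (Real.pi : ℂ) * Complex.I *
        (((k i : ℝ) / (N : ℝ) * ((pos (p i.succ) : ℝ) / 2 - (pos (p 0) : ℝ) / 2) : ℝ) : ℂ) =
        (Real.pi : ℂ) * Complex.I * ((k i : ℂ) * ((pos (p i.succ) : ℝ) : ℂ)) / N -
        (Real.pi : ℂ) * Complex.I * ((k i : ℂ) * ((pos (p 0) : ℝ) : ℂ)) / N := by
      intro i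
      push_cast
      field_simp
    rw [Finset.sum_congr rfl fun i _ => h3 i, Finset.sum_sub_distrib]
    have h4 : ∑ i, (Real.pi : ℂ) * Complex.I * ((k i : ℂ) * ((pos (p 0) : ℝ) : ℂ)) / N =
        (Real.pi : ℂ) * Complex.I * ((∑ i, (k i : ℂ)) * ((pos (p 0) : ℝ) : ℂ)) / N := by
      rw [Finset.sum_mul, Finset.mul_sum, Finset.sum_div]
    rw [h4]
    push_cast
    ring
  · intro k hk
    have : F (fun i => k i / (N : ℝ)) = 0 := by
      by_contra hne
      have h2 := h.supp _ hne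
      apply hk
      rw [Fintype.mem_piFinset]
      intro i
      have h3 : |(k i : ℝ) / N| ≤ ∑ i, |(k i : ℝ) / N| :=
        Finset.single_le_sum (f := fun i => |(k i : ℝ) / N|) (fun i _ => abs_nonneg _) (Finset.mem_univ i)
      have h4 : |(k i : ℝ) / N| < 2 := by
        have := abs_nonneg (∑ i, (k i : ℝ) / N)
        linarith
      rw [abs_div, abs_of_pos hN0, div_lt_iff₀ hN0] at h4
      have h5 : |k i| < 2 * (N : ℤ) := by exact_mod_cast h4
      rw [abs_lt] at h5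
      rw [Finset.mem_Icc]
      constructor <;> omega
    rw [this, zero_mul]

/-- J4 -/
theorem J4_tilt_of (N : ℕ) [NeZero N] (ε : ℝ) (g : ZMod N → ℝ)
    (hC : ∀ {n : ℕ} (k : Fin n → ℤ), ∑ i, k i = 0 → ∑ i, |k i| < 2 * N →
      ∑ s : Fin N → Site N, (mu N ε g s : ℂ) * ∑ j : Fin n ↪ Fin N, ∏ i, ch N (k i) (s (j i)) =
        ∑ s : Fin N → Site N, (wP N s : ℂ) * ∑ j : Fin n ↪ Fin N, ∏ i, ch N (k i) (s (j i)))
    {m : ℕ} {f : (Fin (m + 1) → ℝ) → ℝ} {F : (Fin m → ℝ) → ℂ} (h : TestPair f F)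
    (hP : ∀ y : Fin m → ℝ, ∑' v : Fin m → ℤ, (f (Fin.cons 0 fun i => y i + (N : ℝ) * v i) : ℂ) =
      (1 / ((N : ℝ) : ℂ) ^ m) * ∑' k : Fin m → ℤ, F (fun i => k i / (N : ℝ)) *
        Complex.exp (2 * Real.pi * Complex.I * ∑ i, k i / (N : ℝ) * y i)) :
    ∑ s : Fin N → Site N, mu N ε g s * ∑ j : Fin (m + 1) ↪ Fin N, perf f N (fun i => s (j i)) =
      ∑ s : Fin N → Site N, wP N s * ∑ j : Fin (m + 1) ↪ Fin N, perf f N (fun i => s (j i)) := by
  have hN0 : (0 : ℝ) < N := by exact_mod_cast Nat.pos_of_ne_zero (NeZero.ne N)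
  set K := Fintype.piFinset (fun _ : Fin m => Finset.Icc (-(2 * N : ℤ)) (2 * N)) with hK
  have key : ∀ w : (Fin N → Site N) → ℝ,
      ((∑ s : Fin N → Site N, w s * ∑ j : Fin (m + 1) ↪ Fin N, perf f N (fun i => s (j i)) : ℝ) : ℂ) =
      (1 / ((N : ℝ) : ℂ) ^ m) * ∑ k ∈ K, F (fun i => k i / (N : ℝ)) *
        ∑ s : Fin N → Site N, (w s : ℂ) * ∑ j : Fin (m + 1) ↪ Fin N, ∏ i, ch N (addK k i) (s (j i)) := by
    intro w
    rw [Complex.ofReal_sum]
    simp only [Complex.ofReal_mul, Complex.ofReal_sum]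
    rw [Finset.mul_sum]
    have h1 : ∀ s : Fin N → Site N, (w s : ℂ) * ∑ j : Fin (m + 1) ↪ Fin N, (perf f N (fun i => s (j i)) : ℂ) =
        ∑ k ∈ K, (1 / ((N : ℝ) : ℂ) ^ m) * (F (fun i => k i / (N : ℝ)) *
          ((w s : ℂ) * ∑ j : Fin (m + 1) ↪ Fin N, ∏ i, ch N (addK k i) (s (j i)))) := by
      intro s
      have h2 : ∀ j : Fin (m + 1) ↪ Fin N, (perf f N (fun i => s (j i)) : ℂ) =
          ∑ k ∈ K, (1 / ((N : ℝ) : ℂ) ^ m) * (F (fun i => k i / (N : ℝ)) *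
            ∏ i, ch N (addK k i) (s (j i))) := by
        intro j
        rw [perf_eq h N hP, ← hK, Finset.mul_sum]
      rw [Finset.sum_congr rfl fun j _ => h2 j, Finset.sum_comm, Finset.mul_sum]
      refine Finset.sum_congr rfl fun k _ => ?_
      rw [← Finset.mul_sum, ← Finset.mul_sum]
      ring
    rw [Finset.sum_congr rfl fun s _ => h1 s, Finset.sum_comm]
    refine Finset.sum_congr rfl fun k _ => ?_
    rw [← Finset.mul_sum, ← Finset.mul_sum]
  apply Complex.ofReal_injective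
  rw [key, key]
  congr 1
  refine Finset.sum_congr rfl fun k _ => ?_
  by_cases hF : F (fun i => k i / (N : ℝ)) = 0
  · rw [hF, zero_mul, zero_mul]
  · congr 1
    refine hC (addK k) ?_ ?_
    · rw [Fin.sum_univ_succ]
      simp [addK]
    · have h2 := h.supp _ hF
      have h3 : (((∑ i, |addK k i| : ℤ)) : ℝ) < 2 * N := by
        rw [Fin.sum_univ_succ]
        simp only [addK, Fin.cons_zero, Fin.cons_succ]
        push_cast
        have h4 : |∑ i, (k i : ℝ) / N| = |∑ i, (k i : ℝ)| / N := by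
          rw [← Finset.sum_div, abs_div, abs_of_pos hN0]
        have h5 : ∑ i, |(k i : ℝ) / N| = (∑ i, |(k i : ℝ)|) / N := by
          rw [Finset.sum_div]
          refine Finset.sum_congr rfl fun i _ => ?_
          rw [abs_div, abs_of_pos hN0]
        rw [h4, h5, ← add_div, div_lt_iff₀ hN0] at h2
        rw [abs_neg]
        exact h2
      exact_mod_cast h3

/-- J4 with the two inputs in the form of the stubs -/
example (C_orth : ∀ (N : ℕ) [NeZero N] (ε : ℝ) (g : ZMod N → ℝ) (hg : FarSupp N g) {n : ℕ} (k : Fin n → ℤ)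
    (hk0 : ∑ i, k i = 0) (hk : ∑ i, |k i| < 2 * N),
    ∑ s : Fin N → Site N, (mu N ε g s : ℂ) * ∑ j : Fin n ↪ Fin N, ∏ i, ch N (k i) (s (j i)) =
      ∑ s : Fin N → Site N, (wP N s : ℂ) * ∑ j : Fin n ↪ Fin N, ∏ i, ch N (k i) (s (j i)))
    (H_poisson : ∀ {m : ℕ} {f : (Fin (m + 1) → ℝ) → ℝ} {F : (Fin m → ℝ) → ℂ} (h : TestPair f F) (a : ℝ) (ha : 0 < a)
    (y : Fin m → ℝ), ∑' v : Fin m → ℤ, (f (Fin.cons 0 fun i => y i + a * v i) : ℂ) =
      (1 / (a : ℂ) ^ m) * ∑' k : Fin m → ℤ, F (fun i => k i / a) *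
        Complex.exp (2 * Real.pi * Complex.I * ∑ i, k i / a * y i))
    (N : ℕ) [NeZero N] (ε : ℝ) (g : ZMod N → ℝ) (hg : FarSupp N g) {m : ℕ}
    {f : (Fin (m + 1) → ℝ) → ℝ} {F : (Fin m → ℝ) → ℂ} (h : TestPair f F) :
    ∑ s : Fin N → Site N, mu N ε g s * ∑ j : Fin (m + 1) ↪ Fin N, perf f N (fun i => s (j i)) =
      ∑ s : Fin N → Site N, wP N s * ∑ j : Fin (m + 1) ↪ Fin N, perf f N (fun i => s (j i)) :=
  J4_tilt_of N ε g (fun k h0 h1 => C_orth N ε g hg k h0 h1) h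
    (fun y => H_poisson h N (by exact_mod_cast Nat.pos_of_ne_zero (NeZero.ne N)) y)

end Pool.Agent.H808R2.AH
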