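import Mathlib
import Pool.Agent.H808R2.AH.Defs

/-!
Stubs: the tasks of the project MP_039ae7_nt (see table h808_tasks for the written proofs).
-/

namespace Pool.Agent.H808R2.AH
open Finset Filter Topology MeasureTheory
open scoped FourierTransform

/-! ### Group A: the discrete circular ensemble -/

/-- A1 -/
theorem A1_andreief (N : ℕ) [NeZero N] {R : Type*} [CommRing R] [Algebra ℂ R] (h : Site N → R) :
    ∑ s : Fin N → Site N, algebraMap ℂ R (wP N s : ℂ) * ∏ j, h (s j) =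
      (Matrix.of fun a b : Fin N => algebraMap ℂ R (1 / (2 * (N : ℂ))) *
        ∑ p : Site N, h p * algebraMap ℂ R
          (ch N ((a : ℕ) : ℤ) p * (starRingEnd ℂ) (ch N ((b : ℕ) : ℤ) p))).det := sorry

theorem A1_nonneg (N : ℕ) [NeZero N] (s : Fin N → Site N) : 0 ≤ wP N s := sorry

theorem A1_inj (N : ℕ) [NeZero N] (s : Fin N → Site N) (h : wP N s ≠ 0) : Function.Injective s := sorry

theorem A1_sum (N : ℕ) [NeZero N] : ∑ s : Fin N → Site N, wP N s = 1 := sorry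

/-- A2 -/
theorem A2_occ (N : ℕ) [NeZero N] {n : ℕ} (p : Fin n → Site N) (hp : Function.Injective p) :
    open Classical in ∑ s : Fin N → Site N, (wP N s : ℂ) * (if ∀ i, ∃ j, s j = p i then 1 else 0) =
      (Matrix.of fun i k : Fin n => ker N (p i) (p k)).det := sorry

theorem A2_corr (N : ℕ) [NeZero N] {n : ℕ} (F : (Fin n → Site N) → ℂ) :
    ∑ s : Fin N → Site N, (wP N s : ℂ) * ∑ j : Fin n ↪ Fin N, F (fun i => s (j i)) =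
      ∑ p : Fin n → Site N, F p * (Matrix.of fun i k : Fin n => ker N (p i) (p k)).det := sorry

/-! ### Group B: determinant formula on the even sublattice -/

/-- B -/
theorem B_det (N : ℕ) [NeZero N] {R : Type*} [CommRing R] [Algebra ℂ R] (h : Site N → R)
    (D : Finset (ZMod N)) :
    open Classical in
    ∑ s : Fin N → Site N, algebraMap ℂ R ((wP N s * ∏ x ∈ D, sg s x : ℝ) : ℂ) * ∏ j, h (s j) =
      algebraMap ℂ R (1 / 2 ^ N) * (Matrix.of fun x y : ZMod N =>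
        (if x = y then h (false, x) else 0) + (if x ∈ D then -1 else 1) *
          ∑ z : ZMod N, h (true, z) * algebraMap ℂ R (Umat N x z * (starRingEnd ℂ) (Umat N y z))).det := sorry

/-- rows of `U` are orthonormal -/
theorem B_unitary (N : ℕ) [NeZero N] (x y : ZMod N) :
    ∑ z : ZMod N, Umat N x z * (starRingEnd ℂ) (Umat N y z) = if x = y then 1 else 0 := sorry

/-! ### Group C: orthogonality (the main point) -/

/-- C5: the functional `X^D ↦ det Q[D,D]` applied to `exp Ψ` -/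
theorem C5_lin (N : ℕ) [NeZero N] (ε : ℝ) (g : ZMod N → ℝ) {R : Type*} [CommRing R] [Algebra ℝ R]
    (Q : Matrix (ZMod N) (ZMod N) R) :
    ∑ D : Finset (ZMod N), algebraMap ℝ R (cD N ε g D) *
        (Q.submatrix (fun x : {x // x ∈ D} => x.1) (fun x : {x // x ∈ D} => x.1)).det =
      ∑ m ∈ range (N + 1), algebraMap ℝ R (1 / (m.factorial : ℝ) * (ε / 720) ^ m) *
        ∑ t : Fin m → ZMod N, ∑ x : Fin m × Fin 6 → ZMod N,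
          algebraMap ℝ R (∏ a, g (x a - t a.1)) * (Matrix.of fun a b => Q (x a) (x b)).det := sorry

/-- C6: smeared principal minors have large order -/
theorem C6_far (N : ℕ) [NeZero N] {n : ℕ} (k : Fin n → ℤ)
    (Qm : Matrix (Fin N) (Fin N) (MvPowerSeries (Fin n) ℂ)) (hQm : ∀ a b, Ordk k (dm N a + dm N b) (Qm a b))
    (Q : Matrix (ZMod N) (ZMod N) (MvPowerSeries (Fin n) ℂ))
    (hQ : ∀ x y, Q x y = ∑ a : Fin N, ∑ b : Fin N, MvPowerSeries.C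
      ((1 / (N : ℂ)) * ZMod.stdAddChar (-(((a : ℕ) : ZMod N) * x)) * ZMod.stdAddChar (((b : ℕ) : ZMod N) * y)) * Qm a b)
    {ι : Type*} [Fintype ι] [DecidableEq ι] (G : ι → ZMod N → ℝ) (hG : ∀ i, FarSupp N (G i)) :
    Ordk k (Fintype.card ι * (N : ℝ) / 3) (∑ x : ι → ZMod N, MvPowerSeries.C (∏ i, (G i (x i) : ℂ)) *
      (Matrix.of fun i j => Q (x i) (x j)).det) := sorry

/-- C7: coefficient extraction -/
theorem C7_coeff {n N : ℕ} (c : Fin n → Fin N → ℂ) :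
    MvPowerSeries.coeff (∑ i : Fin n, Finsupp.single i 1)
      (∏ j : Fin N, (1 + ∑ i : Fin n, MvPowerSeries.X i * MvPowerSeries.C (c i j))) =
      ∑ e : Fin n ↪ Fin N, ∏ i, c i (e i) := sorry

/-- C -/
theorem C_orth (N : ℕ) [NeZero N] (ε : ℝ) (g : ZMod N → ℝ) (hg : FarSupp N g) {n : ℕ} (k : Fin n → ℤ)
    (hk0 : ∑ i, k i = 0) (hk : ∑ i, |k i| < 2 * N) :
    ∑ s : Fin N → Site N, (mu N ε g s : ℂ) * ∑ j : Fin n ↪ Fin N, ∏ i, ch N (k i) (s (j i)) =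
      ∑ s : Fin N → Site N, (wP N s : ℂ) * ∑ j : Fin n ↪ Fin N, ∏ i, ch N (k i) (s (j i)) := sorry

/-! ### Group D: the tilt -/

/-- D1 -/
theorem D1_empty (N : ℕ) [NeZero N] (ε : ℝ) (g : ZMod N → ℝ) : cD N ε g ∅ = 1 := sorry

theorem D1_small (N : ℕ) [NeZero N] (ε : ℝ) (g : ZMod N → ℝ) (D : Finset (ZMod N)) (h1 : 1 ≤ #D) (h5 : #D ≤ 5) :
    cD N ε g D = 0 := sorry

theorem D1_six (N : ℕ) [NeZero N] (ε : ℝ) (g : ZMod N → ℝ) (D : Finset (ZMod N)) (h6 : #D = 6) :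
    cD N ε g D = ε * ∑ t : ZMod N, ∏ x ∈ D, g (x - t) := sorry

theorem D1_rec (N : ℕ) [NeZero N] (ε : ℝ) (g : ZMod N → ℝ) (D : Finset (ZMod N)) (x : ZMod N) (hx : x ∈ D) :
    cD N ε g D = ∑ B ∈ (D.powersetCard 6).filter (fun B => x ∈ B),
      (ε * ∑ t : ZMod N, ∏ y ∈ B, g (y - t)) * cD N ε g (D \ B) := sorry

/-- D2 -/
theorem D2_nonneg (N : ℕ) [NeZero N] (ε : ℝ) (g : ZMod N → ℝ) (h : |ε| * (∑ x, |g x|) ^ 6 ≤ 1)
    (σ : ZMod N → ℝ) (hσ : ∀ x, σ x = 1 ∨ σ x = -1) :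
    0 ≤ ∑ D : Finset (ZMod N), cD N ε g D * ∏ x ∈ D, σ x := sorry

/-- D3 -/
theorem D3_sum (N : ℕ) [NeZero N] (ε : ℝ) (g : ZMod N → ℝ) : ∑ s : Fin N → Site N, mu N ε g s = 1 := sorry

/-! ### Group E: change of the pattern frequency -/

/-- E1 -/
theorem E1_zero (N : ℕ) [NeZero N] {n m : ℕ} (hmn : m < n) (y : Fin n → ZMod N) (hy : Function.Injective y)
    (z : Fin m → ZMod N) (hz : Function.Injective z) :
    open Classical in ∑ s : Fin N → Site N, wP N s * (∏ i, sg s (y i)) *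
      (∏ j, if ∃ l, s l = (true, z j) then (1 : ℝ) else 0) = 0 := sorry

theorem E1_eq (N : ℕ) [NeZero N] {n : ℕ} (y : Fin n → ZMod N) (hy : Function.Injective y)
    (z : Fin n → ZMod N) (hz : Function.Injective z) :
    open Classical in ∑ s : Fin N → Site N, wP N s * (∏ i, sg s (y i)) *
      (∏ j, if ∃ l, s l = (true, z j) then (1 : ℝ) else 0) =
      (-1 / 2) ^ n * ‖(Matrix.of fun i j : Fin n => Umat N (y i) (z j)).det‖ ^ 2 := sorry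

/-- E -/
theorem E_pat (N : ℕ) [NeZero N] (hN : 3 ≤ N) (ε : ℝ) (g : ZMod N → ℝ) :
    ∑ s : Fin N → Site N, (mu N ε g s - wP N s) * (pat s : ℝ) = -(ε / 384) * N * (TT N g 0 0 + TT N g 1 0) := sorry

/-! ### Group F: the limit of `TT` -/

/-- F1 -/
theorem F1_closed (N : ℕ) [NeZero N] (u v : ℤ) :
    Umat N (u : ZMod N) (v : ZMod N) = Complex.I * Complex.exp (-(Complex.I * Real.pi * ((v : ℂ) - u + 1 / 2) / N)) /
      (N * Real.sin (Real.pi * ((v : ℝ) - u + 1 / 2) / N)) := sorry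

theorem F1_bound : ∃ C : ℝ, 0 < C ∧ ∀ (N : ℕ) [NeZero N], 12 ≤ N → ∀ (y : ℤ) (j : ℕ), j ≤ 2 → 2 * |y| ≤ N →
    ‖Umat N (y : ZMod N) ((j : ℕ) : ZMod N)‖ ≤ C / (1 + |(y : ℝ)|) := sorry

theorem F1_det (y : Fin 3 → ℤ) :
    Tendsto (fun N : ℕ => ‖(Matrix.of fun i j : Fin 3 =>
      Umat (N + 1) ((y i : ℤ) : ZMod (N + 1)) (((j : ℕ) : ZMod (N + 1)))).det‖ ^ 2) atTop
      (𝓝 ((Matrix.of fun i j : Fin 3 => (1 : ℝ) / (((j : ℕ) : ℝ) - (y i : ℝ) + 1 / 2)).det ^ 2 / Real.pi ^ 6)) := sorry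

/-- F2 -/
theorem F2_far (L K : ℕ) (hK : 1 ≤ K) (hL : 6 ≤ L) (hL2 : Even L) [NeZero (L * K)] : FarSupp (L * K) (gF (L * K) K) := sorry

theorem F2_range (N K : ℕ) [NeZero N] (hK : 1 ≤ K) (x : ZMod N) : 0 ≤ fejer N K x ∧ fejer N K x ≤ 1 := sorry

theorem F2_sum (L K : ℕ) (hK : 1 ≤ K) (hL : 1 ≤ L) [NeZero (L * K)] :
    ∑ x : ZMod (L * K), fejer (L * K) K x = L := sorry

theorem F2_six (L K : ℕ) (hK : 1 ≤ K) (hL : 2 ≤ L) [NeZero (L * K)] :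
    (L : ℝ) / 1000 ≤ ∑ x : ZMod (L * K), fejer (L * K) K x ^ 6 := sorry

theorem F2_shift (L K : ℕ) (hK : 1 ≤ K) (hL : 1 ≤ L) [NeZero (L * K)] (c : Fin 6 → ℤ) :
    |∑ t : ZMod (L * K), ∏ i, fejer (L * K) K ((c i : ZMod (L * K)) - t) -
      ∑ t : ZMod (L * K), fejer (L * K) K t ^ 6| ≤ 4 * Real.pi * ∑ i, |(c i : ℝ)| := sorry

/-- F3 -/
theorem F3_ZZ : 1 / 25 ≤ ZZ 0 ∧ ZZ 1 = -ZZ 0 := sorry

/-- F -/
theorem F_limit : ∃ L : ℕ, 0 < L ∧ ∃ C δ : ℝ, 0 < C ∧ 0 < δ ∧ ∀ᶠ ν : ℕ in atTop, ∀ (N : ℕ) [NeZero N],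
    N = L * (ν + 1) → ∃ g : ZMod N → ℝ, FarSupp N g ∧ ∑ x, |g x| ≤ C ∧ TT N g 0 0 + TT N g 1 0 ≤ -δ := sorry

/-! ### Group H: Poisson summation, reduction of the class of test functions, sampling -/

/-- H0: Fourier inversion -/
theorem H0_inv {m : ℕ} (φ : (Fin m → ℝ) → ℂ) (F : (Fin m → ℝ) → ℂ) (hF : Continuous F) (R : ℝ)
    (hR : ∀ ξ, F ξ ≠ 0 → ∀ i, |ξ i| ≤ R)
    (rep : ∀ y, φ y = ∫ ξ : Fin m → ℝ, F ξ * Complex.exp (2 * Real.pi * Complex.I * ∑ i, ξ i * y i))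
    (C : ℝ) (decay : ∀ y, ‖φ y‖ ≤ C * ∏ i, (1 + (y i) ^ 2)⁻¹) (ω : Fin m → ℝ) :
    Integrable φ ∧ ∫ y : Fin m → ℝ, φ y * Complex.exp (-(2 * Real.pi * Complex.I * ∑ i, ω i * y i)) = F ω := sorry

/-- H: Poisson summation -/
theorem H_gen {m : ℕ} (φ : (Fin m → ℝ) → ℂ) (F : (Fin m → ℝ) → ℂ) (hF : Continuous F) (R : ℝ)
    (hR : ∀ ξ, F ξ ≠ 0 → ∀ i, |ξ i| ≤ R)
    (rep : ∀ y, φ y = ∫ ξ : Fin m → ℝ, F ξ * Complex.exp (2 * Real.pi * Complex.I * ∑ i, ξ i * y i))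
    (C : ℝ) (decay : ∀ y, ‖φ y‖ ≤ C * ∏ i, (1 + (y i) ^ 2)⁻¹) (a : ℝ) (ha : 0 < a) (y : Fin m → ℝ) :
    (Summable fun v : Fin m → ℤ => φ (fun i => y i + a * v i)) ∧
    ∑' v : Fin m → ℤ, φ (fun i => y i + a * v i) =
      (1 / (a : ℂ) ^ m) * ∑' k : Fin m → ℤ, F (fun i => k i / a) *
        Complex.exp (2 * Real.pi * Complex.I * ∑ i, k i / a * y i) := sorry

theorem H_summable {m : ℕ} {f : (Fin (m + 1) → ℝ) → ℝ} {F : (Fin m → ℝ) → ℂ} (h : TestPair f F) (a : ℝ) (ha : 0 < a)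
    (y : Fin m → ℝ) : Summable fun v : Fin m → ℤ => f (Fin.cons 0 fun i => y i + a * v i) := sorry

theorem H_poisson {m : ℕ} {f : (Fin (m + 1) → ℝ) → ℝ} {F : (Fin m → ℝ) → ℂ} (h : TestPair f F) (a : ℝ) (ha : 0 < a)
    (y : Fin m → ℝ) : ∑' v : Fin m → ℤ, (f (Fin.cons 0 fun i => y i + a * v i) : ℂ) =
      (1 / (a : ℂ) ^ m) * ∑' k : Fin m → ℤ, F (fun i => k i / a) *
        Complex.exp (2 * Real.pi * Complex.I * ∑ i, k i / a * y i) := sorry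

/-- I -/
theorem I_test {m : ℕ} (hm : 1 ≤ m) {f : (Fin (m + 1) → ℝ) → ℝ} (hf : IsTest f) :
    ∃ F : (Fin m → ℝ) → ℂ, TestPair f F := sorry

/-- J1 (sampling) -/
theorem J1_sampling {m : ℕ} {f : (Fin (m + 1) → ℝ) → ℝ} {F : (Fin m → ℝ) → ℂ} (h : TestPair f F) :
    (1 / 2 : ℝ) ^ m * ∑' z : Fin m → ℤ, fval f z * W (Fin.cons 0 fun i => (z i : ℝ) / 2) =
      ∫ y : Fin m → ℝ, f (Fin.cons 0 y) * W (Fin.cons 0 y) := sorry

/-- J0 -/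
theorem J0_bound (N : ℕ) [NeZero N] {n : ℕ} (p : Fin n → Site N) :
    ‖(Matrix.of fun i k : Fin n => ker N (p i) (p k)).det‖ ≤ n.factorial := sorry

theorem J0_limit {n : ℕ} (u : Fin n → ℤ) :
    Tendsto (fun N : ℕ => (Matrix.of fun i k : Fin n => ker (N + 1) (site (N + 1) (u i)) (site (N + 1) (u k))).det) atTop
      (𝓝 (((1 / 2 : ℝ) ^ n * W (fun i => (u i : ℝ) / 2) : ℝ) : ℂ)) := sorry

theorem J0_shift (N : ℕ) [NeZero N] {n : ℕ} (u : Fin n → ℤ) (t : ℤ) :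
    (Matrix.of fun i k : Fin n => ker N (site N (u i + t)) (site N (u k + t))).det =
      (Matrix.of fun i k : Fin n => ker N (site N (u i)) (site N (u k))).det := sorry

/-- J2 -/
theorem J2_ringlimit {m : ℕ} {f : (Fin (m + 1) → ℝ) → ℝ} {F : (Fin m → ℝ) → ℂ} (h : TestPair f F) :
    Tendsto (fun N : ℕ => (1 / ((N + 1 : ℕ) : ℝ)) * ∑ s : Fin (N + 1) → Site (N + 1), wP (N + 1) s *
      ∑ j : Fin (m + 1) ↪ Fin (N + 1), perf f (N + 1) (fun i => s (j i))) atTop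
      (𝓝 ((1 / 2 : ℝ) ^ m * ∑' z : Fin m → ℤ, fval f z * W (Fin.cons 0 fun i => (z i : ℝ) / 2))) := sorry

/-- J3 -/
theorem J3_pat : ∃ c : ℝ, Tendsto (fun N : ℕ => (1 / ((N + 1 : ℕ) : ℝ)) * ∑ s : Fin (N + 1) → Site (N + 1),
    wP (N + 1) s * (pat s : ℝ)) atTop (𝓝 c) := sorry

/-- J4: the tilted measure has the same averages of periodised test functions -/
theorem J4_tilt (N : ℕ) [NeZero N] (ε : ℝ) (g : ZMod N → ℝ) (hg : FarSupp N g) {m : ℕ}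
    {f : (Fin (m + 1) → ℝ) → ℝ} {F : (Fin m → ℝ) → ℂ} (h : TestPair f F) :
    ∑ s : Fin N → Site N, mu N ε g s * ∑ j : Fin (m + 1) ↪ Fin N, perf f N (fun i => s (j i)) =
      ∑ s : Fin N → Site N, wP N s * ∑ j : Fin (m + 1) ↪ Fin N, perf f N (fun i => s (j i)) := sorry

/-! ### Group K: from rings to a sequence -/

/-- K1 -/
theorem K1_greedy {E : Type*} [NormedAddCommGroup E] [InnerProductSpace ℝ E] (Ω : ℕ → Type) [∀ j, Fintype (Ω j)]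
    (p : ∀ j, Ω j → ℝ) (hp0 : ∀ j ω, 0 ≤ p j ω) (hp1 : ∀ j, ∑ ω, p j ω = 1) (v : ∀ j, Ω j → E)
    (hv : ∀ j, ∑ ω, p j ω • v j ω = 0) (c : ℕ → ℝ) (hc : ∀ j ω, ‖v j ω‖ ≤ c j) :
    ∃ w : ∀ j, Ω j, (∀ j, p j (w j) ≠ 0) ∧ ∀ J, ‖∑ j ∈ range J, v j (w j)‖ ^ 2 ≤ ∑ j ∈ range J, c j ^ 2 := sorry

/-- K1': countably many statistics at once -/
theorem K1_family {ι : Type*} [Countable ι] (Ω : ℕ → Type) [∀ j, Fintype (Ω j)]
    (p : ∀ j, Ω j → ℝ) (hp0 : ∀ j ω, 0 ≤ p j ω) (hp1 : ∀ j, ∑ ω, p j ω = 1) (G : ι → ∀ j, Ω j → ℝ) (b : ℕ → ℝ)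
    (hG : ∀ i j ω, |G i j ω| ≤ b j) :
    ∃ w : ∀ j, Ω j, (∀ j, p j (w j) ≠ 0) ∧ ∀ i, ∃ C : ℝ, ∀ J,
      |∑ j ∈ range J, (G i j (w j) - ∑ ω, p j ω * G i j ω)| ≤ C * Real.sqrt (∑ j ∈ range J, b j ^ 2) := sorry

/-- K2 -/
theorem K2_count (B : ℕ → ℕ) (hB : ∀ j, 1 ≤ B j) (oc : ℕ → ℕ → Prop) (D : Finset ℤ) :
    ∃ C : ℕ, ∀ J T : ℕ, Tlen B J ≤ T → T ≤ Tlen B (J + 1) →
      |(cnt (glue B oc) D T : ℝ) - ∑ j ∈ range J, (rcnt (B j) (oc j) D : ℝ)| ≤ C * (J + 1) + 2 * B J := sorry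

/-- K3 -/
theorem K3_seq (B : ℕ → ℕ) (hB : ∀ j, 1 ≤ B j) (oc : ℕ → ℕ → Prop)
    (hoc : open Classical in ∀ j, #{t ∈ range (2 * B j) | oc j t} = B j)
    (hlim : Tendsto (fun J => (B J : ℝ) / Tlen B J) atTop (𝓝 0)) :
    (setOf (glue B oc)).Infinite ∧ Monotone (seqOf (glue B oc)) ∧
    Tendsto (fun X : ℝ => (Set.ncard {j : ℕ | seqOf (glue B oc) j ≤ X} : ℝ) / X) atTop (𝓝 1) ∧
    Tendsto (fun j : ℕ => Metric.infDist (seqOf (glue B oc) (j + 1) - seqOf (glue B oc) j)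
      {z : ℝ | ∃ k : ℤ, k ≠ 0 ∧ z = k / 2}) atTop (𝓝 0) ∧
    Tendsto (fun M : ℕ => (Nat.nth (glue B oc) M : ℝ) / M) atTop (𝓝 2) := sorry

/-- K3': the frequency of gaps `5/2` in terms of pattern counts -/
theorem K3_freq (s : ℕ → Prop) (hs : (setOf s).Infinite) (M : ℕ) :
    freq (seqOf s) (5 / 2) M = (∑ Q ∈ ({1, 2, 3, 4} : Finset ℤ).powerset,
      (-1 : ℝ) ^ #Q * cnt s (insert 0 (insert 5 Q)) (Nat.nth s M)) / M := sorry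

theorem K3_pat {N : ℕ} [NeZero N] (s : Fin N → Site N) :
    (pat s : ℝ) = ∑ Q ∈ ({1, 2, 3, 4} : Finset ℤ).powerset,
      (-1 : ℝ) ^ #Q * rcnt N (ocOf s) (insert 0 (insert 5 Q)) := sorry

/-- K4 -/
theorem K4_tail {m : ℕ} {f : (Fin (m + 1) → ℝ) → ℝ} {F : (Fin m → ℝ) → ℂ} (h : TestPair f F) :
    (Summable fun z : Fin m → ℤ => |fval f z|) ∧ Tendsto (fun R : ℕ => tail f R) atTop (𝓝 0) := sorry

theorem K4_seq {m : ℕ} {f : (Fin (m + 1) → ℝ) → ℝ} {F : (Fin m → ℝ) → ℂ} (h : TestPair f F) (s : ℕ → Prop)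
    (hs : (setOf s).Infinite) (M R : ℕ) :
    (Summable fun j : CorrIdx m M => f (fun i => seqOf s (j.1 i))) ∧
    |∑' j : CorrIdx m M, f (fun i => seqOf s (j.1 i)) -
      ∑ y ∈ box m R, fval f y * (cnt s (offs y) (Nat.nth s M) : ℝ)| ≤ M * tail f R := sorry

theorem K4_ring {m : ℕ} {f : (Fin (m + 1) → ℝ) → ℝ} {F : (Fin m → ℝ) → ℂ} (h : TestPair f F) {N : ℕ} [NeZero N]
    (s : Fin N → Site N) (hs : Function.Injective s) (R : ℕ) (hR : R < N) :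
    |∑ j : Fin (m + 1) ↪ Fin N, perf f N (fun i => s (j i)) -
      ∑ y ∈ box m R, fval f y * (rcnt N (ocOf s) (offs y) : ℝ)| ≤ N * tail f R := sorry

/-- K5: gluing -/
theorem K5_glue (Nf : ℕ → ℕ) [∀ ν, NeZero (Nf ν)] (L : ℕ) (hlow : ∀ ν, ν + 1 ≤ Nf ν) (hup : ∀ ν, Nf ν ≤ L * (ν + 1))
    (μ : ∀ ν, (Fin (Nf ν) → Site (Nf ν)) → ℝ) (h0 : ∀ ν s, 0 ≤ μ ν s) (h1 : ∀ ν, ∑ s, μ ν s = 1)
    (hinj : ∀ ν s, μ ν s ≠ 0 → Function.Injective s)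
    (hc : ∀ (m : ℕ), 1 ≤ m → ∀ (f : (Fin (m + 1) → ℝ) → ℝ) (F : (Fin m → ℝ) → ℂ), TestPair f F →
      Tendsto (fun ν => (1 / (Nf ν : ℝ)) * ∑ s, μ ν s * ∑ j : Fin (m + 1) ↪ Fin (Nf ν),
        perf f (Nf ν) (fun i => s (j i))) atTop (𝓝 (∫ y : Fin m → ℝ, f (Fin.cons 0 y) * W (Fin.cons 0 y)))) :
    ∃ x : ℕ → ℝ, InS x ∧
      (∀ c c' : ℝ, c' < c → (∀ᶠ ν in atTop, c ≤ (1 / (Nf ν : ℝ)) * ∑ s, μ ν s * (pat s : ℝ)) →
        ∀ᶠ M in atTop, c' ≤ freq x (5 / 2) M) ∧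
      (∀ c c' : ℝ, c < c' → (∀ᶠ ν in atTop, (1 / (Nf ν : ℝ)) * ∑ s, μ ν s * (pat s : ℝ) ≤ c) →
        ∀ᶠ M in atTop, freq x (5 / 2) M ≤ c') := sorry

end Pool.Agent.H808R2.AH
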